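import Mathlib

/-!
# Combinatorial topology: definitions

Geometric realisations of (families of) finite sets, order complexes, attaching cones,
one-point unions of unit spheres.
-/

namespace CT

open scoped unitInterval ContinuousMap

/-! ## Realisations -/

section real

variable {V : Type}

/-- `x` is a system of barycentric coordinates with support exactly `s` -/
def IsBary (s : Finset V) (x : V → ℝ) : Prop :=
  (∀ v ∈ s, 0 < x v) ∧ (∀ v, v ∉ s → x v = 0) ∧ ∑ v ∈ s, x v = 1

/-- the geometric realisation of a family of finite sets: all barycentric coordinate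
functions whose support belongs to the family (topology: subspace of `V → ℝ`) -/
def Rz (F : Set (Finset V)) : Set (V → ℝ) := {x | ∃ s ∈ F, IsBary s x}

/-- the closed simplex on a finite set -/
def cl (s : Finset V) : Set (V → ℝ) :=
  {x | (∀ v, 0 ≤ x v) ∧ (∀ v, v ∉ s → x v = 0) ∧ ∑ v ∈ s, x v = 1}

/-- simplicial complexes, as families of finite sets -/
structure IsCx (F : Set (Finset V)) : Prop where
  ne : ∀ s ∈ F, s.Nonempty
  down : ∀ s ∈ F, ∀ t, t ⊆ s → t.Nonempty → t ∈ F

/-- the order complex of a subset of a poset: all nonempty finite chains -/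
def OC {P : Type} [PartialOrder P] (Q : Set P) : Set (Finset P) :=
  {s | s.Nonempty ∧ (s : Set P) ⊆ Q ∧ IsChain (· ≤ ·) (s : Set P)}

theorem OC_isCx {P : Type} [PartialOrder P] (Q : Set P) : IsCx (OC Q) where
  ne := fun _ hs => hs.1
  down := fun _ hs _ hts ht =>
    ⟨ht, (Finset.coe_subset.2 hts).trans hs.2.1, hs.2.2.mono (Finset.coe_subset.2 hts)⟩

end real

/-! ## Attaching cones -/

section att

variable {X : Type} [TopologicalSpace X] {J : Type} (S : J → Type)
  [∀ j, TopologicalSpace (S j)] (f : ∀ j, C(S j, X))

/-- the identifications: the end `t = 1` of the `j`-th cylinder is glued by `f j`, the end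
`t = 0` is collapsed to one point -/
inductive AttRel : X ⊕ (Σ j, I × S j) → X ⊕ (Σ j, I × S j) → Prop
  | top (j : J) (s : S j) : AttRel (Sum.inr ⟨j, (1, s)⟩) (Sum.inl (f j s))
  | bot (j : J) (s s' : S j) : AttRel (Sum.inr ⟨j, (0, s)⟩) (Sum.inr ⟨j, (0, s')⟩)

/-- the space obtained from `X` by attaching for each `j` a cone over `S j` along `f j` -/
def Att : Type := Quot (AttRel S f)

instance : TopologicalSpace (Att S f) := inferInstanceAs (TopologicalSpace (Quot _))

/-- the inclusion of the base -/
def attIn : C(X, Att S f) where
  toFun x := Quot.mk _ (Sum.inl x)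
  continuous_toFun := continuous_quot_mk.comp continuous_inl

/-- the characteristic map of the `j`-th cone -/
def attCell (j : J) : C(I × S j, Att S f) where
  toFun p := Quot.mk _ (Sum.inr ⟨j, p⟩)
  continuous_toFun := continuous_quot_mk.comp (continuous_inr.comp continuous_sigmaMk)

variable {S f}

theorem attCell_one (j : J) (s : S j) : attCell S f j (1, s) = attIn S f (f j s) :=
  Quot.sound (AttRel.top j s)

theorem attCell_zero (j : J) (s s' : S j) : attCell S f j (0, s) = attCell S f j (0, s') :=
  Quot.sound (AttRel.bot j s s')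

/-- the universal property -/
def attDesc {Y : Type} [TopologicalSpace Y] (g : C(X, Y)) (h : ∀ j, C(I × S j, Y))
    (h1 : ∀ j s, h j (1, s) = g (f j s)) (h0 : ∀ j s s', h j (0, s) = h j (0, s')) :
    C(Att S f, Y) where
  toFun := Quot.lift (Sum.elim g (fun p => h p.1 p.2)) (by
    rintro _ _ (⟨j, s⟩ | ⟨j, s, s'⟩)
    · exact h1 j s
    · exact h0 j s s')
  continuous_toFun := by
    refine continuous_quot_lift _ ?_
    refine continuous_sum_dom.2 ⟨g.continuous, ?_⟩
    exact continuous_sigma fun j => (h j).continuous

@[simp] theorem attDesc_in {Y : Type} [TopologicalSpace Y] (g : C(X, Y))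
    (h : ∀ j, C(I × S j, Y)) (h1 : ∀ j s, h j (1, s) = g (f j s))
    (h0 : ∀ j s s', h j (0, s) = h j (0, s')) (x : X) :
    attDesc g h h1 h0 (attIn S f x) = g x := rfl

@[simp] theorem attDesc_cell {Y : Type} [TopologicalSpace Y] (g : C(X, Y))
    (h : ∀ j, C(I × S j, Y)) (h1 : ∀ j s, h j (1, s) = g (f j s))
    (h0 : ∀ j s s', h j (0, s) = h j (0, s')) (j : J) (p : I × S j) :
    attDesc g h h1 h0 (attCell S f j p) = h j p := rfl

theorem att_cases {motive : Att S f → Prop} (z : Att S f) (h1 : ∀ x, motive (attIn S f x))
    (h2 : ∀ j p, motive (attCell S f j p)) : motive z := by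
  induction z using Quot.ind with
  | mk a =>
    rcases a with x | ⟨j, p⟩
    · exact h1 x
    · exact h2 j p

theorem att_hom_ext {Y : Type} [TopologicalSpace Y] {g g' : C(Att S f, Y)}
    (h1 : ∀ x, g (attIn S f x) = g' (attIn S f x))
    (h2 : ∀ j p, g (attCell S f j p) = g' (attCell S f j p)) : g = g' := by
  ext z
  exact att_cases (motive := fun z => g z = g' z) z h1 h2

end att

/-! ## Loops -/

section loops

/-- the circle -/
abbrev S1 : Type := AddCircle (1 : ℝ)

variable {X : Type} [TopologicalSpace X] {x₀ : X}

/-- a based loop as a map of the circle -/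
noncomputable def toLoop (γ : Path x₀ x₀) : C(S1, X) where
  toFun := AddCircle.liftIco 1 0 γ.extend
  continuous_toFun := by
    refine AddCircle.liftIco_continuous ?_ ?_
    · rw [zero_add, Path.extend_zero, Path.extend_one]
    · exact γ.continuous_extend.continuousOn

variable {Γ : Type} (ℓ : Γ → Path x₀ x₀)

/-- the path of one letter -/
noncomputable def lpath (p : Γ × Bool) : Path x₀ x₀ := cond p.2 (ℓ p.1) (ℓ p.1).symm

/-- the path of a word in given loops -/
noncomputable def wpath : List (Γ × Bool) → Path x₀ x₀
  | [] => Path.refl x₀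
  | p :: w => (lpath ℓ p).trans (wpath w)

/-- attach a disc for each word of the list -/
abbrev PC (R : List (List (Γ × Bool))) : Type :=
  Att (X := X) (J := Fin R.length) (fun _ => S1) (fun i => toLoop (wpath ℓ (R.get i)))

end loops

/-! ## One-point unions of spheres -/

section wedge

/-- the unit sphere of dimension `d` -/
abbrev Sph (d : ℕ) : Type := Metric.sphere (0 : EuclideanSpace ℝ (Fin (d + 1))) 1

variable {n : ℕ} (d : Fin n → ℕ) (p : ∀ i, Sph (d i))

/-- the identifications in the one-point union: all base points become one point -/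
inductive WedgeRel : Unit ⊕ (Σ i, Sph (d i)) → Unit ⊕ (Σ i, Sph (d i)) → Prop
  | base (i : Fin n) : WedgeRel (Sum.inr ⟨i, p i⟩) (Sum.inl ())

/-- the one-point union of the spheres of dimensions `d i` with base points `p i` -/
def Wedge : Type := Quot (WedgeRel d p)

instance : TopologicalSpace (Wedge d p) := inferInstanceAs (TopologicalSpace (Quot _))

/-- `X` has the homotopy type of a wedge of finitely many spheres (possibly of different
dimensions): it is homotopy equivalent to a one-point union of finitely many unit spheres;
no sphere at all gives a point; the empty space counts as the sphere of dimension `-1`. -/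
def IsWedge (X : Type) [TopologicalSpace X] : Prop :=
  IsEmpty X ∨ ∃ (n : ℕ) (d : Fin n → ℕ) (p : ∀ i, Sph (d i)), Nonempty (X ≃ₕ Wedge d p)

end wedge

/-! ## Commuting elements of fundamental groups -/

section pi

/-- the fundamental group at `x` contains two commuting independent elements -/
def HasZ2At (X : Type) [TopologicalSpace X] (x : X) : Prop :=
  ∃ a b : FundamentalGroup X x, a * b = b * a ∧ ∀ i j : ℤ, a ^ i * b ^ j = 1 → i = 0 ∧ j = 0

/-- some fundamental group contains two commuting independent elements -/
def HasZ2 (X : Type) [TopologicalSpace X] : Prop := ∃ x : X, HasZ2At X x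

end pi

end CT
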