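import Mathlib
import Pool.Agent.CT.Defs

/-!
# Combinatorial topology: attaching cones, formal facts
-/

namespace CT

open scoped unitInterval ContinuousMap

/-- projection of the real line to the unit interval -/
noncomputable def pI (r : ℝ) : I := Set.projIcc 0 1 zero_le_one r

variable {X Y : Type} [TopologicalSpace X] [TopologicalSpace Y] {J J' : Type} (S : J → Type)
  [∀ j, TopologicalSpace (S j)] (S' : J' → Type) [∀ j, TopologicalSpace (S' j)]

/-- a homeomorphism from two mutually inverse continuous maps -/
def AttA_homeo {A B : Type} [TopologicalSpace A] [TopologicalSpace B] (a : C(A, B)) (b : C(B, A))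
    (h : b.comp a = ContinuousMap.id A) (h' : a.comp b = ContinuousMap.id B) : A ≃ₜ B where
  toFun := a
  invFun := b
  left_inv x := DFunLike.congr_fun h x
  right_inv x := DFunLike.congr_fun h' x
  continuous_toFun := a.continuous
  continuous_invFun := b.continuous

/-- the product of the defining quotient map with the unit interval is a quotient map: maps
out of `I × Att S f` (homotopies) can be defined piecewise -/
theorem att_homotopy_exists (f : ∀ j, C(S j, X)) {Z : Type} [TopologicalSpace Z]
    (g : C(I × X, Z)) (h : ∀ j, C(I × (I × S j), Z))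
    (h1 : ∀ j u s, h j (u, (1, s)) = g (u, f j s))
    (h0 : ∀ j u s s', h j (u, (0, s)) = h j (u, (0, s'))) :
    ∃ K : C(I × Att S f, Z), (∀ u x, K (u, attIn S f x) = g (u, x)) ∧
      ∀ j u p, K (u, attCell S f j p) = h j (u, p) := by
  let Φ : C(Att S f, C(I, Z)) := attDesc (g.comp ContinuousMap.prodSwap).curry
    (fun j => ((h j).comp ContinuousMap.prodSwap).curry)
    (fun j s => by
      ext u
      exact h1 j u s)
    (fun j s s' => by
      ext u
      exact h0 j u s s')
  exact ⟨Φ.uncurry.comp ContinuousMap.prodSwap, fun u x => rfl, fun j u p => rfl⟩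

/-- two families of cones can be attached in any order -/
theorem att_comm (f : ∀ j, C(S j, X)) (g : ∀ j, C(S' j, X)) :
    ∃ e : Att S' (fun j => (attIn S f).comp (g j)) ≃ₜ Att S (fun j => (attIn S' g).comp (f j)),
      (∀ x, e (attIn S' _ (attIn S f x)) = attIn S _ (attIn S' g x)) ∧
      (∀ j p, e (attCell S' _ j p) = attIn S _ (attCell S' g j p)) ∧
      (∀ j p, e (attIn S' _ (attCell S f j p)) = attCell S _ j p) := by
  let a : C(Att S' (fun j => (attIn S f).comp (g j)), Att S (fun j => (attIn S' g).comp (f j))) :=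
    attDesc
      (attDesc ((attIn S _).comp (attIn S' g)) (fun j => attCell S _ j)
        (fun j s => attCell_one j s) (fun j s s' => attCell_zero j s s'))
      (fun j => (attIn S _).comp (attCell S' g j))
      (fun j s => congrArg (attIn S (fun j => (attIn S' g).comp (f j))) (attCell_one j s))
      (fun j s s' => congrArg (attIn S (fun j => (attIn S' g).comp (f j))) (attCell_zero j s s'))
  let b : C(Att S (fun j => (attIn S' g).comp (f j)), Att S' (fun j => (attIn S f).comp (g j))) :=
    attDesc
      (attDesc ((attIn S' _).comp (attIn S f)) (fun j => attCell S' _ j)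
        (fun j s => attCell_one j s) (fun j s s' => attCell_zero j s s'))
      (fun j => (attIn S' _).comp (attCell S f j))
      (fun j s => congrArg (attIn S' (fun j => (attIn S f).comp (g j))) (attCell_one j s))
      (fun j s s' => congrArg (attIn S' (fun j => (attIn S f).comp (g j))) (attCell_zero j s s'))
  refine ⟨AttA_homeo a b ?_ ?_, fun x => rfl, fun j p => rfl, fun j p => rfl⟩
  · refine att_hom_ext (fun z => ?_) (fun j p => rfl)
    refine att_cases (motive := fun z => (b.comp a) (attIn S' _ z) =
      (ContinuousMap.id _) (attIn S' _ z)) z (fun x => rfl) (fun j p => rfl)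
  · refine att_hom_ext (fun z => ?_) (fun j p => rfl)
    refine att_cases (motive := fun z => (a.comp b) (attIn S _ z) =
      (ContinuousMap.id _) (attIn S _ z)) z (fun x => rfl) (fun j p => rfl)

/-- a family indexed by a disjoint union can be attached in two steps -/
theorem att_sum (T : J ⊕ J' → Type) [∀ j, TopologicalSpace (T j)] (f : ∀ j, C(T j, X)) :
    ∃ e : Att T f ≃ₜ Att (fun j => T (Sum.inr j))
        (fun j => (attIn (fun i => T (Sum.inl i)) (fun i => f (Sum.inl i))).comp (f (Sum.inr j))),
      (∀ x, e (attIn T f x) = attIn _ _ (attIn _ _ x)) ∧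
      (∀ j p, e (attCell T f (Sum.inl j) p) = attIn _ _ (attCell _ _ j p)) ∧
      (∀ j p, e (attCell T f (Sum.inr j) p) = attCell _ _ j p) := by
  let F1 : ∀ i : J, C(T (Sum.inl i), X) := fun i => f (Sum.inl i)
  let F2 : ∀ j : J', C(T (Sum.inr j), Att (fun i => T (Sum.inl i)) F1) :=
    fun j => (attIn (fun i => T (Sum.inl i)) F1).comp (f (Sum.inr j))
  let hc : ∀ j : J ⊕ J', C(I × T j, Att (fun j => T (Sum.inr j)) F2) := fun j =>
    match j with
    | Sum.inl i => (attIn (fun j => T (Sum.inr j)) F2).comp (attCell (fun i => T (Sum.inl i)) F1 i)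
    | Sum.inr i => attCell (fun j => T (Sum.inr j)) F2 i
  let a : C(Att T f, Att (fun j => T (Sum.inr j)) F2) :=
    attDesc ((attIn (fun j => T (Sum.inr j)) F2).comp (attIn (fun i => T (Sum.inl i)) F1)) hc
      (fun j s => by
        cases j with
        | inl i =>
          exact congrArg (attIn (fun j => T (Sum.inr j)) F2) (attCell_one (f := F1) i s)
        | inr i => exact attCell_one (f := F2) i s)
      (fun j s s' => by
        cases j with
        | inl i =>
          exact congrArg (attIn (fun j => T (Sum.inr j)) F2) (attCell_zero (f := F1) i s s')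
        | inr i => exact attCell_zero (f := F2) i s s')
  let b : C(Att (fun j => T (Sum.inr j)) F2, Att T f) :=
    attDesc
      (attDesc (attIn T f) (fun j => attCell T f (Sum.inl j))
        (fun j s => attCell_one (f := f) (Sum.inl j) s)
        (fun j s s' => attCell_zero (f := f) (Sum.inl j) s s'))
      (fun j => attCell T f (Sum.inr j))
      (fun j s => attCell_one (f := f) (Sum.inr j) s)
      (fun j s s' => attCell_zero (f := f) (Sum.inr j) s s')
  refine ⟨AttA_homeo a b ?_ ?_, fun x => rfl, fun j p => rfl, fun j p => rfl⟩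
  · refine att_hom_ext (fun z => rfl) (fun j p => ?_)
    cases j with
    | inl i => rfl
    | inr i => rfl
  · refine att_hom_ext (fun z => ?_) (fun j p => rfl)
    refine att_cases (motive := fun z => (a.comp b) (attIn (fun j => T (Sum.inr j)) F2 z) =
      (ContinuousMap.id _) (attIn (fun j => T (Sum.inr j)) F2 z)) z (fun x => rfl) (fun j p => rfl)

/-- change of the index set -/
theorem att_reindex (f : ∀ j, C(S j, X)) (ρ : J' ≃ J) :
    ∃ e : Att (fun j => S (ρ j)) (fun j => f (ρ j)) ≃ₜ Att S f,
      (∀ x, e (attIn _ _ x) = attIn S f x) ∧ ∀ j p, e (attCell _ _ j p) = attCell S f (ρ j) p := by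
  let a : C(Att (fun j => S (ρ j)) (fun j => f (ρ j)), Att S f) :=
    attDesc (attIn S f) (fun j => attCell S f (ρ j))
      (fun j s => attCell_one (f := f) (ρ j) s) (fun j s s' => attCell_zero (f := f) (ρ j) s s')
  let hc : ∀ j : J, C(I × S j, Att (fun j => S (ρ j)) (fun j => f (ρ j))) :=
    Equiv.piCongrLeft (fun j => C(I × S j, Att (fun j => S (ρ j)) (fun j => f (ρ j)))) ρ
      (fun j' => attCell (fun j => S (ρ j)) (fun j => f (ρ j)) j')
  have hcρ : ∀ j' : J', hc (ρ j') = attCell (fun j => S (ρ j)) (fun j => f (ρ j)) j' := fun j' =>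
    Equiv.piCongrLeft_apply_apply
      (fun j => C(I × S j, Att (fun j => S (ρ j)) (fun j => f (ρ j)))) ρ _ j'
  let b : C(Att S f, Att (fun j => S (ρ j)) (fun j => f (ρ j))) :=
    attDesc (attIn _ _) hc
      (fun j s => by
        obtain ⟨j', rfl⟩ := ρ.surjective j
        rw [hcρ]
        exact attCell_one (f := fun j => f (ρ j)) j' s)
      (fun j s s' => by
        obtain ⟨j', rfl⟩ := ρ.surjective j
        rw [hcρ]
        exact attCell_zero (f := fun j => f (ρ j)) j' s s')
  refine ⟨AttA_homeo a b ?_ ?_, fun x => rfl, fun j p => rfl⟩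
  · refine att_hom_ext (fun z => rfl) (fun j p => ?_)
    show hc (ρ j) p = attCell _ _ j p
    rw [hcρ]
  · refine att_hom_ext (fun z => rfl) (fun j p => ?_)
    obtain ⟨j', rfl⟩ := ρ.surjective j
    show a (hc (ρ j') p) = attCell S f (ρ j') p
    rw [hcρ]
    rfl

/-- change of the spaces by homeomorphisms -/
theorem att_congr (S₁ : J → Type) [∀ j, TopologicalSpace (S₁ j)] (f : ∀ j, C(S j, X))
    (φ : ∀ j, S₁ j ≃ₜ S j) :
    ∃ e : Att S₁ (fun j => (f j).comp (φ j : C(S₁ j, S j))) ≃ₜ Att S f,
      (∀ x, e (attIn _ _ x) = attIn S f x) ∧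
      ∀ j (t : I) (s : S₁ j), e (attCell _ _ j (t, s)) = attCell S f j (t, φ j s) := by
  let F1 : ∀ j, C(S₁ j, X) := fun j => (f j).comp (φ j : C(S₁ j, S j))
  let a : C(Att S₁ F1, Att S f) :=
    attDesc (attIn S f)
      (fun j => (attCell S f j).comp ((ContinuousMap.id I).prodMap (φ j : C(S₁ j, S j))))
      (fun j s => attCell_one (f := f) j (φ j s))
      (fun j s s' => attCell_zero (f := f) j (φ j s) (φ j s'))
  let b : C(Att S f, Att S₁ F1) :=
    attDesc (attIn S₁ F1)
      (fun j => (attCell S₁ F1 j).comp
        ((ContinuousMap.id I).prodMap ((φ j).symm : C(S j, S₁ j))))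
      (fun j s => (attCell_one (f := F1) j ((φ j).symm s)).trans
        (congrArg (attIn S₁ F1) (congrArg (f j) ((φ j).apply_symm_apply s))))
      (fun j s s' => attCell_zero (f := F1) j ((φ j).symm s) ((φ j).symm s'))
  refine ⟨AttA_homeo a b ?_ ?_, fun x => rfl, fun j t s => rfl⟩
  · refine att_hom_ext (fun z => rfl) (fun j p => ?_)
    show attCell S₁ F1 j (p.1, (φ j).symm (φ j p.2)) = attCell S₁ F1 j p
    rw [(φ j).symm_apply_apply]
  · refine att_hom_ext (fun z => rfl) (fun j p => ?_)
    show attCell S f j (p.1, φ j ((φ j).symm p.2)) = attCell S f j p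
    rw [(φ j).apply_symm_apply]

end CT
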