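import Mathlib
import Pool.Agent.CT.AttA

/-!
# Combinatorial topology: attaching cones, topological facts
-/

namespace CT

open scoped unitInterval ContinuousMap

variable {X Y : Type} [TopologicalSpace X] [TopologicalSpace Y] {J J' : Type} (S : J → Type)
  [∀ j, TopologicalSpace (S j)] (S' : J' → Type) [∀ j, TopologicalSpace (S' j)]

open Classical in
/-- normal forms of the points of the union of the base and the cylinders -/
noncomputable def AttC_nf (f : ∀ j, C(S j, X)) : X ⊕ (Σ j, I × S j) → X ⊕ (Σ j, I × S j)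
  | Sum.inl x => Sum.inl x
  | Sum.inr ⟨j, (t, s)⟩ =>
    if t = 1 then Sum.inl (f j s)
    else if t = 0 then Sum.inr ⟨j, (0, @Classical.choice (S j) ⟨s⟩)⟩
    else Sum.inr ⟨j, (t, s)⟩

/-- the normal form of a point of the space with attached cones -/
noncomputable def AttC_nfQ (f : ∀ j, C(S j, X)) : Att S f → X ⊕ (Σ j, I × S j) :=
  Quot.lift (AttC_nf S f) (by
    rintro _ _ (⟨j, s⟩ | ⟨j, s, s'⟩)
    · simp only [AttC_nf, if_true]
    · simp only [AttC_nf, zero_ne_one, if_false, if_true])

theorem AttC_nfQ_in (f : ∀ j, C(S j, X)) (x : X) : AttC_nfQ S f (attIn S f x) = Sum.inl x := rfl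

open Classical in
theorem AttC_nfQ_cell (f : ∀ j, C(S j, X)) (j : J) (t : I) (s : S j) :
    AttC_nfQ S f (attCell S f j (t, s)) =
      if t = 1 then Sum.inl (f j s)
      else if t = 0 then Sum.inr ⟨j, (0, @Classical.choice (S j) ⟨s⟩)⟩
      else Sum.inr ⟨j, (t, s)⟩ := rfl

/-- the inclusion of the base is injective -/
theorem attIn_injective (f : ∀ j, C(S j, X)) : Function.Injective (attIn S f) := by
  intro x y h
  have := congrArg (AttC_nfQ S f) h
  rw [AttC_nfQ_in, AttC_nfQ_in] at this
  exact Sum.inl_injective this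

/-- when two points of the union of base and cones are identified -/
theorem attCell_eq_iff (f : ∀ j, C(S j, X)) (j : J) (t t' : I) (s s' : S j) :
    attCell S f j (t, s) = attCell S f j (t', s') ↔
      t = t' ∧ (t = 0 ∨ (t = 1 ∧ f j s = f j s') ∨ s = s') := by
  constructor
  · intro h
    have h' := congrArg (AttC_nfQ S f) h
    rw [AttC_nfQ_cell, AttC_nfQ_cell] at h'
    by_cases h1 : t = 1
    · rw [if_pos h1] at h'
      by_cases h2 : t' = 1
      · rw [if_pos h2] at h'
        exact ⟨h1.trans h2.symm, Or.inr (Or.inl ⟨h1, Sum.inl_injective h'⟩)⟩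
      · rw [if_neg h2] at h'
        exfalso
        by_cases h3 : t' = 0
        · rw [if_pos h3] at h'
          exact Sum.inl_ne_inr h'
        · rw [if_neg h3] at h'
          exact Sum.inl_ne_inr h'
    · rw [if_neg h1] at h'
      by_cases h2 : t' = 1
      · rw [if_pos h2] at h'
        exfalso
        by_cases h3 : t = 0
        · rw [if_pos h3] at h'
          exact Sum.inr_ne_inl h'
        · rw [if_neg h3] at h'
          exact Sum.inr_ne_inl h'
      · rw [if_neg h2] at h'
        by_cases h3 : t = 0
        · rw [if_pos h3] at h'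
          by_cases h4 : t' = 0
          · exact ⟨h3.trans h4.symm, Or.inl h3⟩
          · rw [if_neg h4] at h'
            have h5 := sigma_mk_injective (Sum.inr_injective h')
            exact absurd (congrArg Prod.fst h5).symm h4
        · rw [if_neg h3] at h'
          by_cases h4 : t' = 0
          · rw [if_pos h4] at h'
            have h5 := sigma_mk_injective (Sum.inr_injective h')
            exact absurd (congrArg Prod.fst h5) h3
          · rw [if_neg h4] at h'
            have h5 := sigma_mk_injective (Sum.inr_injective h')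
            exact ⟨congrArg Prod.fst h5, Or.inr (Or.inr (congrArg Prod.snd h5))⟩
  · rintro ⟨rfl, rfl | ⟨rfl, h⟩ | rfl⟩
    · exact attCell_zero j s s'
    · rw [attCell_one, attCell_one, h]
    · rfl

/-- attaching finitely many cones over compact spaces to a compact space gives a compact
space -/
theorem att_compact [Finite J] (f : ∀ j, C(S j, X)) [CompactSpace X]
    [∀ j, CompactSpace (S j)] : CompactSpace (Att S f) := by
  have : CompactSpace (X ⊕ (Σ j, I × S j)) := inferInstance
  exact inferInstanceAs (CompactSpace (Quot (AttRel S f)))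

theorem att_pathConnected (f : ∀ j, C(S j, X)) [PathConnectedSpace X]
    [∀ j, Nonempty (S j)] : PathConnectedSpace (Att S f) := by
  obtain ⟨x₀⟩ := (inferInstance : Nonempty X)
  have : PathConnectedSpace I := isPathConnected_iff_pathConnectedSpace.1
    ((convex_Icc (0 : ℝ) 1).isPathConnected ⟨0, ⟨le_rfl, zero_le_one⟩⟩)
  have hin : ∀ x y : X, Joined (attIn S f x) (attIn S f y) := fun x y =>
    ⟨(PathConnectedSpace.somePath x y).map (attIn S f).continuous⟩
  have h : ∀ z : Att S f, Joined z (attIn S f x₀) := by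
    intro z
    refine att_cases (motive := fun z => Joined z (attIn S f x₀)) z (fun x => hin x x₀) ?_
    rintro j ⟨t, s⟩
    have h1 : Joined (attCell S f j (t, s)) (attCell S f j (1, s)) :=
      ⟨(PathConnectedSpace.somePath t 1).map (f := fun u : I => attCell S f j (u, s))
        ((attCell S f j).continuous.comp (by fun_prop))⟩
    rw [attCell_one] at h1
    exact h1.trans (hin _ _)
  exact ⟨⟨attIn S f x₀⟩, fun a b => (h a).trans (h b).symm⟩

/-- cones attached along null-homotopic maps: the base is a retract -/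
theorem att_retract (f : ∀ j, C(S j, X)) (h : ∀ j, ∃ x, (f j).Homotopic (ContinuousMap.const _ x)) :
    ∃ r : C(Att S f, X), ∀ x, r (attIn S f x) = x := by
  choose x hx using h
  have hx' : ∀ j, Nonempty ((ContinuousMap.const (S j) (x j)).Homotopy (f j)) := fun j =>
    (hx j).symm
  let H : ∀ j, (ContinuousMap.const (S j) (x j)).Homotopy (f j) := fun j => (hx' j).some
  refine ⟨attDesc (ContinuousMap.id X) (fun j => (H j).toContinuousMap) (fun j s => ?_)
    (fun j s s' => ?_), fun x => rfl⟩
  · exact (H j).apply_one s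
  · exact ((H j).apply_zero s).trans ((H j).apply_zero s').symm

/-- the map of cones over the cells with constant attaching maps -/
noncomputable def AttC_map (S₁ : J → Type) [∀ j, TopologicalSpace (S₁ j)] (x₀ : X)
    (φ : ∀ j, C(S j, S₁ j)) :
    C(Att S (fun _ => ContinuousMap.const _ x₀), Att S₁ (fun _ => ContinuousMap.const _ x₀)) :=
  attDesc (attIn S₁ (fun _ => ContinuousMap.const _ x₀))
    (fun j => (attCell S₁ (fun _ => ContinuousMap.const _ x₀) j).comp
      ((ContinuousMap.id I).prodMap (φ j)))
    (fun j s => attCell_one (f := fun _ => ContinuousMap.const _ x₀) j (φ j s))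
    (fun j s s' => attCell_zero (f := fun _ => ContinuousMap.const _ x₀) j (φ j s) (φ j s'))

theorem AttC_map_homotopic (S₁ : J → Type) [∀ j, TopologicalSpace (S₁ j)] (x₀ : X)
    (φ : ∀ j, C(S j, S₁ j)) (ψ : ∀ j, C(S₁ j, S j))
    (h : ∀ j, ((ψ j).comp (φ j)).Homotopic (ContinuousMap.id (S j))) :
    ((AttC_map S₁ S x₀ ψ).comp (AttC_map S S₁ x₀ φ)).Homotopic (ContinuousMap.id _) := by
  let H : ∀ j, ((ψ j).comp (φ j)).Homotopy (ContinuousMap.id (S j)) := fun j => (h j).some
  let F : ∀ j, C(S j, X) := fun _ => ContinuousMap.const _ x₀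
  obtain ⟨K, hK1, hK2⟩ := att_homotopy_exists S F (Z := Att S F)
    ((attIn S F).comp ContinuousMap.snd)
    (fun j => (attCell S F j).comp
      ⟨fun p => (p.2.1, H j (p.1, p.2.2)), by fun_prop⟩)
    (fun j u s => attCell_one (f := F) j (H j (u, s)))
    (fun j u s s' => attCell_zero (f := F) j (H j (u, s)) (H j (u, s')))
  refine ⟨⟨K, fun z => ?_, fun z => ?_⟩⟩
  · refine att_cases (motive := fun z => K (0, z) =
      ((AttC_map S₁ S x₀ ψ).comp (AttC_map S S₁ x₀ φ)) z) z (fun x => hK1 0 x) ?_
    rintro j ⟨t, s⟩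
    refine (hK2 j 0 (t, s)).trans ?_
    show attCell S F j (t, H j (0, s)) = attCell S F j (t, ψ j (φ j s))
    rw [(H j).apply_zero]
    rfl
  · refine att_cases (motive := fun z => K (1, z) = z) z (fun x => hK1 1 x) ?_
    rintro j ⟨t, s⟩
    refine (hK2 j 1 (t, s)).trans ?_
    show attCell S F j (t, H j (1, s)) = attCell S F j (t, s)
    rw [(H j).apply_one]
    rfl

/-- cones attached by constant maps to one point: only the homotopy types of the attached
spaces matter -/
theorem att_const_equiv (S₁ : J → Type) [∀ j, TopologicalSpace (S₁ j)] (x₀ : X)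
    (φ : ∀ j, S j ≃ₕ S₁ j) :
    ∃ e : Att S (fun _ => ContinuousMap.const _ x₀) ≃ₕ
        Att S₁ (fun _ => ContinuousMap.const _ x₀), ∀ x, e (attIn _ _ x) = attIn _ _ x :=
  ⟨⟨AttC_map S S₁ x₀ fun j => (φ j).toFun, AttC_map S₁ S x₀ fun j => (φ j).invFun,
    AttC_map_homotopic S S₁ x₀ _ _ fun j => (φ j).left_inv,
    AttC_map_homotopic S₁ S x₀ _ _ fun j => (φ j).right_inv⟩, fun _ => rfl⟩

end CT
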