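import Mathlib
import Pool.Agent.CT.AttBasic

/-!
# Combinatorial topology: attaching cones along homotopic maps
-/

namespace CT

open scoped unitInterval ContinuousMap

variable {X Y : Type} [TopologicalSpace X] [TopologicalSpace Y] {J J' : Type} (S : J → Type)
  [∀ j, TopologicalSpace (S j)]

theorem AttHom_pI_zero {r : ℝ} (h : r ≤ 0) : pI r = 0 := Set.projIcc_of_le_left zero_le_one h

theorem AttHom_pI_one {r : ℝ} (h : 1 ≤ r) : pI r = 1 := Set.projIcc_of_right_le zero_le_one h

theorem AttHom_pI_coe {r : ℝ} (h0 : 0 ≤ r) (h1 : r ≤ 1) : (pI r : ℝ) = r := by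
  unfold pI
  rw [Set.projIcc_of_mem zero_le_one ⟨h0, h1⟩]

theorem AttHom_pI_cont : Continuous pI := continuous_projIcc (h := zero_le_one)

theorem AttHom_symm_pI {r : ℝ} (h0 : 0 ≤ r) (h1 : r ≤ 1) : σ (pI r) = pI (1 - r) := by
  apply Subtype.ext
  rw [unitInterval.coe_symm_eq, AttHom_pI_coe h0 h1, AttHom_pI_coe (by linarith) (by linarith)]

/-- the ray of a cell, prolonged by a homotopy of the attaching map -/
noncomputable def AttHomQ (f g : ∀ j, C(S j, X)) (H : ∀ j, (f j).Homotopy (g j)) (j : J) :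
    C(ℝ × S j, Att S f) where
  toFun p := if p.1 ≤ 1 then attCell S f j (pI p.1, p.2)
    else attIn S f (H j (pI (p.1 - 1), p.2))
  continuous_toFun := by
    refine Continuous.if_le ?_ ?_ continuous_fst continuous_const ?_
    · exact (attCell S f j).continuous.comp
        ((AttHom_pI_cont.comp continuous_fst).prodMk continuous_snd)
    · exact (attIn S f).continuous.comp ((H j).continuous.comp
        ((AttHom_pI_cont.comp (continuous_fst.sub continuous_const)).prodMk continuous_snd))
    · rintro ⟨r, s⟩ (hr : r = 1)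
      subst hr
      simp only [sub_self]
      rw [AttHom_pI_one le_rfl, AttHom_pI_zero le_rfl, attCell_one, (H j).apply_zero]

variable {S}

theorem AttHomQ_le (f g : ∀ j, C(S j, X)) (H : ∀ j, (f j).Homotopy (g j)) (j : J) (r : ℝ)
    (s : S j) (h : r ≤ 1) : AttHomQ S f g H j (r, s) = attCell S f j (pI r, s) :=
  if_pos h

theorem AttHomQ_ge (f g : ∀ j, C(S j, X)) (H : ∀ j, (f j).Homotopy (g j)) (j : J) (r : ℝ)
    (s : S j) (h : 1 ≤ r) : AttHomQ S f g H j (r, s) = attIn S f (H j (pI (r - 1), s)) := by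
  rcases h.eq_or_lt with rfl | h
  · rw [AttHomQ_le _ _ _ _ _ _ le_rfl, sub_self, AttHom_pI_one le_rfl, AttHom_pI_zero le_rfl,
      attCell_one, (H j).apply_zero]
  · exact if_neg (not_le.2 h)

/-- the map of the attached spaces given by a homotopy of the attaching maps -/
noncomputable def AttHomE (f g : ∀ j, C(S j, X)) (H : ∀ j, (f j).Homotopy (g j)) :
    C(Att S f, Att S g) :=
  attDesc (attIn S g)
    (fun j => (AttHomQ S g f (fun j => (H j).symm) j).comp
      ⟨fun p : I × S j => ((2 * (p.1 : ℝ), p.2) : ℝ × S j), by fun_prop⟩)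
    (by
      intro j s
      simp only [ContinuousMap.comp_apply, ContinuousMap.coe_mk, Set.Icc.coe_one]
      rw [AttHomQ_ge _ _ _ _ _ _ (by norm_num), AttHom_pI_one (by norm_num)]
      simp)
    (by
      intro j s s'
      simp only [ContinuousMap.comp_apply, ContinuousMap.coe_mk, Set.Icc.coe_zero]
      rw [AttHomQ_le _ _ _ _ _ _ (by norm_num), AttHomQ_le _ _ _ _ _ _ (by norm_num),
        AttHom_pI_zero (by norm_num)]
      exact attCell_zero j s s')

theorem AttHomE_in (f g : ∀ j, C(S j, X)) (H : ∀ j, (f j).Homotopy (g j)) (x : X) :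
    AttHomE f g H (attIn S f x) = attIn S g x := rfl

theorem AttHomE_cell (f g : ∀ j, C(S j, X)) (H : ∀ j, (f j).Homotopy (g j)) (j : J) (t : I)
    (s : S j) : AttHomE f g H (attCell S f j (t, s)) =
      AttHomQ S g f (fun j => (H j).symm) j (2 * (t : ℝ), s) := rfl

theorem AttHomE_le (f g : ∀ j, C(S j, X)) (H : ∀ j, (f j).Homotopy (g j)) (j : J) (t : I)
    (s : S j) (h : (t : ℝ) ≤ 1 / 2) : AttHomE f g H (attCell S f j (t, s)) =
      attCell S g j (pI (2 * t), s) := by
  rw [AttHomE_cell, AttHomQ_le _ _ _ _ _ _ (by linarith)]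

theorem AttHomE_ge (f g : ∀ j, C(S j, X)) (H : ∀ j, (f j).Homotopy (g j)) (j : J) (t : I)
    (s : S j) (h : 1 / 2 ≤ (t : ℝ)) : AttHomE f g H (attCell S f j (t, s)) =
      attIn S g (H j (pI (2 - 2 * t), s)) := by
  rw [AttHomE_cell, AttHomQ_ge _ _ _ _ _ _ (by linarith)]
  have h1 := t.2.2
  rw [ContinuousMap.Homotopy.symm_apply, AttHom_symm_pI (by linarith) (by linarith)]
  congr 3
  ring_nf

theorem AttHom_comp (f g : ∀ j, C(S j, X)) (H : ∀ j, (f j).Homotopy (g j)) :
    ((AttHomE g f (fun j => (H j).symm)).comp (AttHomE f g H)).Homotopic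
      (ContinuousMap.id (Att S f)) := by
  obtain ⟨K, hK1, hK2⟩ := att_homotopy_exists S f
    (⟨fun p : I × X => attIn S f p.2, (attIn S f).continuous.comp continuous_snd⟩ :
      C(I × X, Att S f))
    (fun j => (AttHomQ S f g H j).comp
      ⟨fun p : I × (I × S j) => (((1 - (p.1 : ℝ)) * min (4 * (p.2.1 : ℝ)) (3 - 2 * (p.2.1 : ℝ)) +
        (p.1 : ℝ) * (p.2.1 : ℝ), p.2.2) : ℝ × S j), by fun_prop⟩)
    (by
      intro j u s
      simp only [ContinuousMap.comp_apply, ContinuousMap.coe_mk, Set.Icc.coe_one]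
      have : (1 - (u : ℝ)) * min (4 * 1) (3 - 2 * 1) + (u : ℝ) * 1 = 1 := by
        rw [min_eq_right (by norm_num)]; ring
      rw [this, AttHomQ_le _ _ _ _ _ _ le_rfl, AttHom_pI_one le_rfl, attCell_one])
    (by
      intro j u s s'
      simp only [ContinuousMap.comp_apply, ContinuousMap.coe_mk, Set.Icc.coe_zero]
      have : (1 - (u : ℝ)) * min (4 * 0) (3 - 2 * 0) + (u : ℝ) * 0 = 0 := by
        rw [min_eq_left (by norm_num)]; ring
      rw [this, AttHomQ_le _ _ _ _ _ _ zero_le_one, AttHomQ_le _ _ _ _ _ _ zero_le_one,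
        AttHom_pI_zero le_rfl]
      exact attCell_zero j s s')
  refine ⟨⟨K, ?_, ?_⟩⟩
  · intro z
    refine att_cases (motive := fun z => K (0, z) = AttHomE g f (fun j => (H j).symm)
      (AttHomE f g H z)) z ?_ ?_
    · intro x
      rw [hK1]; rfl
    · rintro j ⟨t, s⟩
      rw [hK2]
      simp only [ContinuousMap.comp_apply, ContinuousMap.coe_mk, Set.Icc.coe_zero, sub_zero,
        one_mul, zero_mul, add_zero]
      have h0 := t.2.1
      have h1 := t.2.2
      rcases le_total (t : ℝ) (1 / 2) with h | h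
      · rw [AttHomE_le _ _ _ _ _ _ h, min_eq_left (by linarith), AttHomE_cell,
          AttHom_pI_coe (by linarith) (by linarith)]
        have : (2 : ℝ) * (2 * (t : ℝ)) = 4 * t := by ring
        rw [this]
        simp only [ContinuousMap.Homotopy.symm_symm]
      · rw [AttHomE_ge _ _ _ _ _ _ h, min_eq_right (by linarith), AttHomE_in,
          AttHomQ_ge _ _ _ _ _ _ (by linarith)]
        congr 4
        ring
  · intro z
    refine att_cases (motive := fun z => K (1, z) = z) z ?_ ?_
    · intro x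
      rw [hK1]; rfl
    · rintro j ⟨t, s⟩
      rw [hK2]
      simp only [ContinuousMap.comp_apply, ContinuousMap.coe_mk, Set.Icc.coe_one, sub_self,
        one_mul, zero_mul, zero_add]
      rw [AttHomQ_le _ _ _ _ _ _ t.2.2]
      congr 2
      exact Subtype.ext (AttHom_pI_coe t.2.1 t.2.2)

variable (S)

/-- homotopic attaching maps give homotopy equivalent spaces; the equivalence is the
identity on the base and uses the given homotopy in a collar of each cone -/
theorem att_homotopic (f g : ∀ j, C(S j, X)) (H : ∀ j, (f j).Homotopy (g j)) :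
    ∃ e : Att S f ≃ₕ Att S g, (∀ x, e (attIn S f x) = attIn S g x) ∧
      (∀ j (t : I) (s : S j), (t : ℝ) ≤ 1 / 2 →
        e (attCell S f j (t, s)) = attCell S g j (pI (2 * t), s)) ∧
      (∀ j (t : I) (s : S j), 1 / 2 ≤ (t : ℝ) →
        e (attCell S f j (t, s)) = attIn S g (H j (pI (2 - 2 * t), s))) := by
  refine ⟨⟨AttHomE f g H, AttHomE g f (fun j => (H j).symm), AttHom_comp f g H, ?_⟩,
    fun x => rfl, fun j t s h => AttHomE_le f g H j t s h, fun j t s h => AttHomE_ge f g H j t s h⟩
  have := AttHom_comp g f (fun j => (H j).symm)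
  simpa only [ContinuousMap.Homotopy.symm_symm] using this

end CT
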