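import Mathlib
import Pool.Agent.CT.AttHom

/-!
# Combinatorial topology: change of the base
-/

namespace CT

open scoped unitInterval ContinuousMap

variable {X Y : Type} [TopologicalSpace X] [TopologicalSpace Y] {J J' : Type} (S : J → Type)
  [∀ j, TopologicalSpace (S j)] (S' : J' → Type) [∀ j, TopologicalSpace (S' j)]

/-- functoriality in the base -/
def attMap (f : ∀ j, C(S j, X)) (φ : C(X, Y)) : C(Att S f, Att S (fun j => φ.comp (f j))) :=
  attDesc ((attIn S (fun j => φ.comp (f j))).comp φ) (fun j => attCell S _ j)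
    (fun j s => attCell_one j s) (fun j s s' => attCell_zero j s s')

theorem AttBase_continuous_pI : Continuous pI := continuous_projIcc (h := zero_le_one)

theorem AttBase_pI_of_mem {r : ℝ} (h0 : 0 ≤ r) (h1 : r ≤ 1) : pI r = ⟨r, h0, h1⟩ :=
  Set.projIcc_of_mem zero_le_one ⟨h0, h1⟩

theorem AttBase_pI_one : pI 1 = 1 := AttBase_pI_of_mem zero_le_one le_rfl

theorem AttBase_pI_zero : pI 0 = 0 := AttBase_pI_of_mem le_rfl zero_le_one

theorem AttBase_pI_coe (t : I) : pI (t : ℝ) = t := AttBase_pI_of_mem t.2.1 t.2.2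

/-- the homotopy on a cell -/
noncomputable def AttBase_cell (f : ∀ j, C(S j, X)) (φ ψ : C(X, Y)) (h : φ.Homotopy ψ) (j : J) :
    C(I × (I × S j), Att S (fun j => ψ.comp (f j))) where
  toFun p := if 2 * (p.2.1 : ℝ) ≤ 1 + (p.1 : ℝ)
    then attCell S (fun j => ψ.comp (f j)) j (pI (2 * (p.2.1 : ℝ) / (1 + (p.1 : ℝ))), p.2.2)
    else attIn S (fun j => ψ.comp (f j)) (h (pI (2 - 2 * (p.2.1 : ℝ) + (p.1 : ℝ)), f j p.2.2))
  continuous_toFun := by
    refine Continuous.if_le ?_ ?_ (by fun_prop) (by fun_prop) ?_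
    · refine (attCell S (fun j => ψ.comp (f j)) j).continuous.comp ?_
      refine Continuous.prodMk (AttBase_continuous_pI.comp ?_) (by fun_prop)
      refine Continuous.div (by fun_prop) (by fun_prop) ?_
      intro p
      have := p.1.2.1
      positivity
    · refine (attIn S (fun j => ψ.comp (f j))).continuous.comp (h.continuous.comp ?_)
      exact Continuous.prodMk (AttBase_continuous_pI.comp (by fun_prop)) (by fun_prop)
    · intro p hp
      have h0 : (1 + (p.1 : ℝ)) ≠ 0 := by
        have := p.1.2.1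
        positivity
      have e1 : 2 * (p.2.1 : ℝ) / (1 + (p.1 : ℝ)) = 1 := by rw [hp]; exact div_self h0
      have e2 : 2 - 2 * (p.2.1 : ℝ) + (p.1 : ℝ) = 1 := by rw [hp]; ring
      rw [e1, e2, AttBase_pI_one, attCell_one, ContinuousMap.Homotopy.apply_one]
      rfl

/-- attaching along a homotopy: the collar -/
theorem AttBase_collar (f : ∀ j, C(S j, X)) (φ ψ : C(X, Y)) (h : φ.Homotopy ψ) :
    ∃ E : Att S (fun j => φ.comp (f j)) ≃ₕ Att S (fun j => ψ.comp (f j)),
      (E.toFun.comp (attMap S f φ)).Homotopic (attMap S f ψ) := by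
  obtain ⟨E, hE0, hE1, hE2⟩ := att_homotopic S (fun j => φ.comp (f j)) (fun j => ψ.comp (f j))
    (fun j => h.compContinuousMap (f j))
  refine ⟨E, ?_⟩
  have hb1 : ∀ (j : J) (u : I) (s : S j), AttBase_cell S f φ ψ h j (u, (1, s)) =
      ((attIn S (fun j => ψ.comp (f j))).comp h.toContinuousMap) (u, f j s) := by
    intro j u s
    have hu := u.2.1
    have hu' := u.2.2
    change (if 2 * ((1 : I) : ℝ) ≤ 1 + (u : ℝ)
      then attCell S (fun j => ψ.comp (f j)) j (pI (2 * ((1 : I) : ℝ) / (1 + (u : ℝ))), s)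
      else attIn S (fun j => ψ.comp (f j)) (h (pI (2 - 2 * ((1 : I) : ℝ) + (u : ℝ)), f j s))) =
      attIn S _ (h (u, f j s))
    by_cases h1 : 2 * ((1 : I) : ℝ) ≤ 1 + (u : ℝ)
    · have h2 : (u : ℝ) = 1 := by
        rw [Set.Icc.coe_one] at h1
        linarith
      have h3 : u = 1 := Subtype.ext h2
      subst h3
      have e1 : 2 * ((1 : I) : ℝ) / (1 + ((1 : I) : ℝ)) = 1 := by
        rw [Set.Icc.coe_one]; norm_num
      rw [if_pos h1, e1, AttBase_pI_one, attCell_one, ContinuousMap.Homotopy.apply_one]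
      rfl
    · have e2 : 2 - 2 * ((1 : I) : ℝ) + (u : ℝ) = u := by rw [Set.Icc.coe_one]; ring
      rw [if_neg h1, e2, AttBase_pI_coe]
  have hb0 : ∀ (j : J) (u : I) (s s' : S j), AttBase_cell S f φ ψ h j (u, (0, s)) =
      AttBase_cell S f φ ψ h j (u, (0, s')) := by
    intro j u s s'
    have hu := u.2.1
    have h1 : 2 * ((0 : I) : ℝ) ≤ 1 + (u : ℝ) := by rw [Set.Icc.coe_zero]; linarith
    change (if 2 * ((0 : I) : ℝ) ≤ 1 + (u : ℝ)
      then attCell S (fun j => ψ.comp (f j)) j (pI (2 * ((0 : I) : ℝ) / (1 + (u : ℝ))), s)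
      else _) = (if 2 * ((0 : I) : ℝ) ≤ 1 + (u : ℝ)
      then attCell S (fun j => ψ.comp (f j)) j (pI (2 * ((0 : I) : ℝ) / (1 + (u : ℝ))), s')
      else _)
    have e1 : 2 * ((0 : I) : ℝ) / (1 + (u : ℝ)) = 0 := by rw [Set.Icc.coe_zero]; simp
    rw [if_pos h1, if_pos h1, e1, AttBase_pI_zero]
    exact attCell_zero j s s'
  obtain ⟨K, hK1, hK2⟩ := att_homotopy_exists S f
    ((attIn S (fun j => ψ.comp (f j))).comp h.toContinuousMap)
    (AttBase_cell S f φ ψ h) hb1 hb0
  refine ⟨⟨K, ?_, ?_⟩⟩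
  · intro z
    refine att_cases (motive := fun z => K.toFun (0, z) = (E.toFun.comp (attMap S f φ)) z) z
      ?_ ?_
    · intro x
      change K (0, attIn S f x) = E (attIn S _ (φ x))
      rw [hK1, hE0]
      change attIn S _ (h (0, x)) = _
      rw [ContinuousMap.Homotopy.apply_zero]
    · rintro j ⟨t, s⟩
      change K (0, attCell S f j (t, s)) = E (attCell S _ j (t, s))
      rw [hK2]
      by_cases ht : 2 * (t : ℝ) ≤ 1
      · rw [hE1 j t s (by linarith)]
        simp [AttBase_cell, ht]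
      · rw [hE2 j t s (by linarith [not_le.1 ht])]
        simp [AttBase_cell, ht]
  · intro z
    refine att_cases (motive := fun z => K.toFun (1, z) = (attMap S f ψ) z) z ?_ ?_
    · intro x
      change K (1, attIn S f x) = attIn S _ (ψ x)
      rw [hK1]
      change attIn S _ (h (1, x)) = _
      rw [ContinuousMap.Homotopy.apply_one]
    · rintro j ⟨t, s⟩
      change K (1, attCell S f j (t, s)) = attCell S _ j (t, s)
      rw [hK2]
      have ht : 2 * (t : ℝ) ≤ 1 + 1 := by linarith [t.2.2]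
      have e : 2 * (t : ℝ) / (1 + 1) = t := by ring
      simp only [AttBase_cell, ContinuousMap.coe_mk, Set.Icc.coe_one, ht, if_true, e,
        AttBase_pI_coe]

theorem AttBase_attMap_id (f : ∀ j, C(S j, X)) :
    attMap S f (ContinuousMap.id X) = ContinuousMap.id (Att S f) := by
  refine att_hom_ext (fun x => rfl) (fun j p => rfl)

theorem AttBase_attMap_comp {Z : Type} [TopologicalSpace Z] (f : ∀ j, C(S j, X)) (φ : C(X, Y))
    (ψ : C(Y, Z)) : (attMap S (fun j => φ.comp (f j)) ψ).comp (attMap S f φ) =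
      attMap S f (ψ.comp φ) := by
  refine att_hom_ext (fun x => rfl) (fun j p => rfl)

/-- a left inverse up to homotopy -/
theorem AttBase_left (f : ∀ j, C(S j, X)) (φ : C(X, Y)) (ψ : C(Y, X))
    (h : (ψ.comp φ).Homotopic (ContinuousMap.id X)) :
    ∃ E : Att S (fun j => ψ.comp (φ.comp (f j))) ≃ₕ Att S f,
      ((E.toFun.comp (attMap S (fun j => φ.comp (f j)) ψ)).comp (attMap S f φ)).Homotopic
        (ContinuousMap.id (Att S f)) := by
  obtain ⟨E, hE⟩ := AttBase_collar S f (ψ.comp φ) (ContinuousMap.id X) h.some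
  refine ⟨E, ?_⟩
  rw [AttBase_attMap_id] at hE
  have key : ((E.toFun.comp (attMap S (fun j => φ.comp (f j)) ψ)).comp (attMap S f φ)) =
      E.toFun.comp (attMap S f (ψ.comp φ)) :=
    congrArg (fun m => E.toFun.comp m) (AttBase_attMap_comp S f φ ψ)
  exact (congrArg (fun m : C(Att S f, Att S f) => m.Homotopic (ContinuousMap.id (Att S f)))
    key).mpr hE

/-- a homotopy equivalence of the base induces a homotopy equivalence -/
theorem att_base (f : ∀ j, C(S j, X)) (e : X ≃ₕ Y) :
    ∃ E : Att S f ≃ₕ Att S (fun j => e.toFun.comp (f j)), E.toFun = attMap S f e.toFun := by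
  obtain ⟨E, hE⟩ := AttBase_left S f e.toFun e.invFun e.left_inv
  obtain ⟨E2, hE2⟩ := AttBase_left S (fun j => e.toFun.comp (f j)) e.invFun e.toFun e.right_inv
  set p := attMap S f e.toFun with hp
  set q := attMap S (fun j => e.toFun.comp (f j)) e.invFun with hq
  set r := attMap S (fun j => e.invFun.comp (e.toFun.comp (f j))) e.toFun with hr
  -- `E q p = 1`, `E2 r q = 1`
  -- hence `q (p E) = 1`
  have h1 : (q.comp (p.comp E.toFun)).Homotopic (ContinuousMap.id _) := by
    have a1 : ((E.invFun.comp E.toFun).comp (q.comp (p.comp E.toFun))).Homotopic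
        (q.comp (p.comp E.toFun)) := by
      have := E.left_inv.comp (ContinuousMap.Homotopic.refl (q.comp (p.comp E.toFun)))
      exact this
    have a2 : (E.invFun.comp (((E.toFun.comp q).comp p).comp E.toFun)).Homotopic
        (E.invFun.comp E.toFun) := by
      have := (ContinuousMap.Homotopic.refl E.invFun).comp
        (hE.comp (ContinuousMap.Homotopic.refl E.toFun))
      exact this
    exact (a1.symm.trans a2).trans E.left_inv
  -- hence `p E` is homotopic to `E2 r`
  have h2 : (E2.toFun.comp r).Homotopic (p.comp E.toFun) := by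
    have b1 : ((E2.toFun.comp r).comp (q.comp (p.comp E.toFun))).Homotopic
        (E2.toFun.comp r) := by
      have := (ContinuousMap.Homotopic.refl (E2.toFun.comp r)).comp h1
      exact this
    have b2 : (((E2.toFun.comp r).comp q).comp (p.comp E.toFun)).Homotopic
        (p.comp E.toFun) := by
      have := hE2.comp (ContinuousMap.Homotopic.refl (p.comp E.toFun))
      exact this
    exact b1.symm.trans b2
  refine ⟨⟨p, E.toFun.comp q, hE, ?_⟩, rfl⟩
  have c1 : ((p.comp E.toFun).comp q).Homotopic ((E2.toFun.comp r).comp q) :=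
    h2.symm.comp (ContinuousMap.Homotopic.refl q)
  exact c1.trans hE2

/-- all changes together: homotopy equivalent bases, reindexing, homeomorphic spaces,
homotopic attaching maps -/
theorem att_equiv (f : ∀ j, C(S j, X)) (g : ∀ j, C(S' j, Y)) (e : X ≃ₕ Y) (ρ : J ≃ J')
    (ψ : ∀ j, S j ≃ₜ S' (ρ j))
    (h : ∀ j, (e.toFun.comp (f j)).Homotopic ((g (ρ j)).comp (ψ j : C(S j, S' (ρ j))))) :
    ∃ E : Att S f ≃ₕ Att S' g, ∀ x, E (attIn S f x) = attIn S' g (e x) := by
  classical
  obtain ⟨E1, h1⟩ := att_base S f e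
  obtain ⟨E2, h2, -⟩ := att_homotopic S (fun j => e.toFun.comp (f j))
    (fun j => (g (ρ j)).comp (ψ j : C(S j, S' (ρ j)))) (fun j => (h j).some)
  obtain ⟨E3, h3, -⟩ := att_congr (fun j => S' (ρ j)) S (fun j => g (ρ j)) ψ
  obtain ⟨E4, h4, -⟩ := att_reindex S' g ρ
  refine ⟨((E1.trans E2).trans E3.toHomotopyEquiv).trans E4.toHomotopyEquiv, fun x => ?_⟩
  change E4 (E3 (E2 (E1.toFun (attIn S f x)))) = _
  rw [h1]
  change E4 (E3 (E2 (attIn S _ (e x)))) = _
  rw [h2, h3, h4]

end CT
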