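import Mathlib
import Pool.Agent.CT.AttHom

/-!
# Combinatorial topology: loops
-/

namespace CT

open scoped unitInterval ContinuousMap

variable {X Y : Type} [TopologicalSpace X] [TopologicalSpace Y] {x₀ x₁ : X}

theorem LoopA_coe_one : (((1 : ℝ)) : S1) = (((0 : ℝ)) : S1) := by
  have := AddCircle.coe_period (1 : ℝ)
  rw [this]
  rfl

theorem toLoop_coe (γ : Path x₀ x₀) (t : I) : toLoop γ (((t : ℝ) : S1)) = γ t := by
  have h0 : ∀ s : ℝ, s ∈ Set.Ico (0 : ℝ) 1 → toLoop γ ((s : ℝ) : S1) = γ.extend s := by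
    intro s hs
    change AddCircle.liftIco 1 0 γ.extend ((s : ℝ) : S1) = _
    exact AddCircle.liftIco_coe_apply (by simpa using hs)
  rcases lt_or_eq_of_le t.2.2 with h | h
  · rw [h0 _ ⟨t.2.1, h⟩]
    exact γ.extend_extends' t
  · have ht : t = 1 := Subtype.ext h
    subst ht
    have h1 : (((1 : I) : ℝ) : S1) = (((0 : ℝ)) : S1) := LoopA_coe_one
    rw [h1, h0 0 ⟨le_rfl, zero_lt_one⟩, γ.target]
    exact γ.extend_zero

theorem LoopA_surj (z : S1) : ∃ t : I, ((t : ℝ) : S1) = z := by
  have h := AddCircle.coe_image_Icc_eq (1 : ℝ) (0 : ℝ)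
  have hz : z ∈ ((↑) : ℝ → S1) '' Set.Icc (0 : ℝ) (0 + 1) := by
    rw [h]
    trivial
  obtain ⟨t, ht, rfl⟩ := hz
  exact ⟨⟨t, by simpa using ht⟩, rfl⟩

theorem LoopA_ext {f g : C(S1, X)} (h : ∀ t : I, f ((t : ℝ) : S1) = g ((t : ℝ) : S1)) :
    f = g := by
  ext z
  obtain ⟨t, rfl⟩ := LoopA_surj z
  exact h t

theorem LoopA_eq {t t' : I} (h : ((t : ℝ) : S1) = ((t' : ℝ) : S1)) :
    t = t' ∨ (t = 0 ∧ t' = 1) ∨ (t = 1 ∧ t' = 0) := by
  have h1 : (((t : ℝ) - (t' : ℝ) : ℝ) : S1) = 0 := by
    rw [AddCircle.coe_sub, h, sub_self]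
  obtain ⟨n, hn⟩ := (AddCircle.coe_eq_zero_iff (1 : ℝ)).1 h1
  have ha := t.2
  have hb := t'.2
  have hn' : (n : ℝ) = (t : ℝ) - (t' : ℝ) := by
    rw [← hn]
    simp
  have h2 : (n : ℝ) ≤ 1 := by rw [hn']; linarith [ha.2, hb.1]
  have h3 : -1 ≤ (n : ℝ) := by rw [hn']; linarith [ha.1, hb.2]
  have h2' : n ≤ 1 := by exact_mod_cast h2
  have h3' : -1 ≤ n := by exact_mod_cast h3
  have hc : n = -1 ∨ n = 0 ∨ n = 1 := by omega
  rcases hc with rfl | rfl | rfl
  · right; left
    push_cast at hn'
    constructor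
    · apply Subtype.ext
      have : (t : ℝ) = 0 := le_antisymm (by linarith [hb.2]) ha.1
      simpa using this
    · apply Subtype.ext
      have : (t' : ℝ) = 1 := le_antisymm hb.2 (by linarith [ha.1])
      simpa using this
  · left
    apply Subtype.ext
    push_cast at hn'
    linarith
  · right; right
    push_cast at hn'
    constructor
    · apply Subtype.ext
      have : (t : ℝ) = 1 := le_antisymm ha.2 (by linarith [hb.1])
      simpa using this
    · apply Subtype.ext
      have : (t' : ℝ) = 0 := le_antisymm (by linarith [ha.2]) hb.1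
      simpa using this

/-- maps on the product of the interval with the circle -/
theorem LoopA_lift (F : C(I × I, X)) (h : ∀ s, F (s, 0) = F (s, 1)) :
    ∃ G : C(I × S1, X), ∀ s t : I, G (s, ((t : ℝ) : S1)) = F (s, t) := by
  let q : C(I × I, I × S1) :=
    ⟨fun z => (z.1, ((z.2 : ℝ) : S1)), by
      refine continuous_fst.prodMk ?_
      exact (AddCircle.continuous_mk' (1 : ℝ)).comp (continuous_subtype_val.comp continuous_snd)⟩
  have hq : Topology.IsQuotientMap q := by
    refine IsClosedMap.isQuotientMap q.continuous.isClosedMap q.continuous ?_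
    rintro ⟨s, z⟩
    obtain ⟨t, rfl⟩ := LoopA_surj z
    exact ⟨(s, t), rfl⟩
  have hf : Function.FactorsThrough F q := by
    rintro ⟨s, t⟩ ⟨s', t'⟩ he
    have h1 : s = s' := congrArg Prod.fst he
    have h2 : ((t : ℝ) : S1) = ((t' : ℝ) : S1) := congrArg Prod.snd he
    subst h1
    rcases LoopA_eq h2 with rfl | ⟨rfl, rfl⟩ | ⟨rfl, rfl⟩
    · rfl
    · exact h s
    · exact (h s).symm
  refine ⟨hq.lift F hf, fun s t => ?_⟩
  exact DFunLike.congr_fun (hq.lift_comp F hf) (s, t)

/-- a continuous family of loops is a free homotopy -/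
theorem LoopA_family (b : I → X) (γ : ∀ u, Path (b u) (b u))
    (hγ : Continuous fun z : I × I => γ z.1 z.2) :
    (toLoop (γ 0)).Homotopic (toLoop (γ 1)) := by
  obtain ⟨G, hG⟩ := LoopA_lift ⟨fun z : I × I => γ z.1 z.2, hγ⟩ (fun s => by
    change γ s 0 = γ s 1
    rw [(γ s).source, (γ s).target])
  refine ⟨⟨G, ?_, ?_⟩⟩
  · intro z
    obtain ⟨t, rfl⟩ := LoopA_surj z
    rw [toLoop_coe]
    exact hG 0 t
  · intro z
    obtain ⟨t, rfl⟩ := LoopA_surj z
    rw [toLoop_coe]
    exact hG 1 t

/-- a continuous family of paths is a homotopy -/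
theorem LoopA_pathfam (p : I → Path x₀ x₁) (hp : Continuous fun z : I × I => p z.1 z.2) :
    (p 0).Homotopic (p 1) :=
  ⟨{ toFun := fun z => p z.1 z.2
     continuous_toFun := hp
     map_zero_left := fun _ => rfl
     map_one_left := fun _ => rfl
     prop' := by
      intro t z hz
      rcases hz with rfl | rfl
      · change p t 0 = p 0 0
        rw [(p t).source, (p 0).source]
      · change p t 1 = p 0 1
        rw [(p t).target, (p 0).target] }⟩

/-- based homotopic loops are freely homotopic -/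
theorem toLoop_homotopic {γ γ' : Path x₀ x₀} (h : γ.Homotopic γ') :
    (toLoop γ).Homotopic (toLoop γ') := by
  obtain ⟨F⟩ := h
  have := LoopA_family (fun _ => x₀) (fun u => F.eval u) (by
    change Continuous fun z : I × I => F (z.1, z.2)
    exact F.continuous)
  rwa [F.eval_zero, F.eval_one] at this

theorem toLoop_comp (φ : C(X, Y)) (γ : Path x₀ x₀) :
    φ.comp (toLoop γ) = toLoop (γ.map φ.continuous) := by
  apply LoopA_ext
  intro t
  rw [ContinuousMap.comp_apply, toLoop_coe, toLoop_coe]
  rfl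

/-- the inverse loop -/
theorem toLoop_symm (γ : Path x₀ x₀) :
    toLoop γ.symm = (toLoop γ).comp (Homeomorph.neg S1 : C(S1, S1)) := by
  apply LoopA_ext
  intro t
  rw [ContinuousMap.comp_apply, toLoop_coe]
  have h : (Homeomorph.neg S1 : C(S1, S1)) ((t : ℝ) : S1) = (((σ t : I) : ℝ) : S1) := by
    change -((t : ℝ) : S1) = (((1 - (t : ℝ)) : ℝ) : S1)
    rw [AddCircle.coe_sub, LoopA_coe_one, QuotientAddGroup.mk_zero, zero_sub]
  rw [h, toLoop_coe]
  rfl

theorem toLoop_refl : toLoop (Path.refl x₀) = ContinuousMap.const S1 x₀ := by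
  apply LoopA_ext
  intro t
  rw [toLoop_coe]
  rfl

/-- the end piece of a path -/
noncomputable def LoopA_tail (δ : Path x₁ x₀) (u : I) : Path (δ u) x₀ where
  toFun t := δ (max u t)
  continuous_toFun := δ.continuous.comp (continuous_const.max continuous_id)
  source' := by
    have : max u 0 = u := max_eq_left u.2.1
    rw [this]
  target' := by
    have : max u 1 = 1 := max_eq_right u.2.2
    rw [this, δ.target]

theorem LoopA_tail_cont (δ : Path x₁ x₀) :
    Continuous fun z : I × I => LoopA_tail δ z.1 z.2 :=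
  δ.continuous.comp (continuous_fst.max continuous_snd)

theorem LoopA_tail_zero (δ : Path x₁ x₀) (t : I) : LoopA_tail δ 0 t = δ t := by
  change δ (max 0 t) = δ t
  rw [max_eq_right (show (0 : I) ≤ t from t.2.1)]

theorem LoopA_tail_one (δ : Path x₁ x₀) (t : I) : LoopA_tail δ 1 t = x₀ := by
  change δ (max 1 t) = x₀
  rw [max_eq_left (show t ≤ (1 : I) from t.2.2), δ.target]

/-- equal paths with different names of the end points -/
theorem LoopA_toLoop_congr {a b : X} (γ : Path a a) (γ' : Path b b) (h : ∀ t, γ t = γ' t) :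
    toLoop γ = toLoop γ' := by
  apply LoopA_ext
  intro t
  rw [toLoop_coe, toLoop_coe, h]

theorem LoopA_trans_congr {a b c a' b' c' : X} {p : Path a b} {q : Path b c} {p' : Path a' b'}
    {q' : Path b' c'} (hp : ∀ t, p t = p' t) (hq : ∀ t, q t = q' t) (t : I) :
    p.trans q t = p'.trans q' t := by
  rw [Path.trans_apply, Path.trans_apply]
  split_ifs
  · exact hp _
  · exact hq _

/-- conjugate loops are freely homotopic -/
theorem toLoop_conj (γ : Path x₀ x₀) (δ : Path x₁ x₀) :
    (toLoop (δ.trans (γ.trans δ.symm))).Homotopic (toLoop γ) := by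
  have hfam := LoopA_family (fun u => δ u)
    (fun u => (LoopA_tail δ u).trans (γ.trans (LoopA_tail δ u).symm)) (by
      change Continuous ↿(fun u => (LoopA_tail δ u).trans (γ.trans (LoopA_tail δ u).symm))
      refine Path.trans_continuous_family _ (LoopA_tail_cont δ) _ ?_
      refine Path.trans_continuous_family _ ?_ _ ?_
      · exact γ.continuous.comp continuous_snd
      · exact Path.symm_continuous_family _ (LoopA_tail_cont δ))
  have h0 : toLoop ((LoopA_tail δ 0).trans (γ.trans (LoopA_tail δ 0).symm)) =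
      toLoop (δ.trans (γ.trans δ.symm)) := by
    apply LoopA_toLoop_congr
    refine LoopA_trans_congr (LoopA_tail_zero δ) (LoopA_trans_congr (fun _ => rfl) ?_)
    intro t
    exact LoopA_tail_zero δ (σ t)
  have h1 : toLoop ((LoopA_tail δ 1).trans (γ.trans (LoopA_tail δ 1).symm)) =
      toLoop ((Path.refl x₀).trans (γ.trans (Path.refl x₀).symm)) := by
    apply LoopA_toLoop_congr
    refine LoopA_trans_congr (LoopA_tail_one δ) (LoopA_trans_congr (fun _ => rfl) ?_)
    intro t
    exact LoopA_tail_one δ (σ t)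
  rw [h0, h1] at hfam
  refine hfam.trans (toLoop_homotopic ?_)
  have e1 : ((Path.refl x₀).trans (γ.trans (Path.refl x₀).symm)).Homotopic
      (γ.trans (Path.refl x₀).symm) := ⟨(Path.Homotopy.reflTrans _)⟩
  have e2 : (γ.trans (Path.refl x₀).symm).Homotopic γ := by
    rw [Path.refl_symm]
    exact ⟨Path.Homotopy.transRefl _⟩
  exact e1.trans e2

/-- every map of the circle is `toLoop` of a loop -/
theorem exists_toLoop (f : C(S1, X)) : ∃ γ : Path (f 0) (f 0), toLoop γ = f := by
  refine ⟨⟨⟨fun t => f ((t : ℝ) : S1), ?_⟩, ?_, ?_⟩, ?_⟩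
  · exact f.continuous.comp ((AddCircle.continuous_mk' (1 : ℝ)).comp continuous_subtype_val)
  · change f (((0 : ℝ)) : S1) = f 0
    rfl
  · change f (((1 : ℝ)) : S1) = f 0
    rw [LoopA_coe_one]
    rfl
  · apply LoopA_ext
    intro t
    rw [toLoop_coe]
    rfl

/-- a free homotopy from a constant makes a based loop null-homotopic -/
theorem LoopA_null (γ : Path x₀ x₀) (b : Path x₁ x₀) (p : ∀ u, Path (b u) (b u))
    (hp : Continuous fun z : I × I => p z.1 z.2) (h0 : ∀ t, p 0 t = x₁) (h1 : ∀ t, p 1 t = γ t) :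
    γ.Homotopic (Path.refl x₀) := by
  have hfam := LoopA_pathfam
    (fun u => (LoopA_tail b u).symm.trans ((p u).trans (LoopA_tail b u))) (by
      change Continuous ↿(fun u => (LoopA_tail b u).symm.trans ((p u).trans (LoopA_tail b u)))
      refine Path.trans_continuous_family _
        (Path.symm_continuous_family _ (LoopA_tail_cont b)) _ ?_
      exact Path.trans_continuous_family _ hp _ (LoopA_tail_cont b))
  have e0 : (LoopA_tail b 0).symm.trans ((p 0).trans (LoopA_tail b 0)) =
      b.symm.trans ((Path.refl x₁).trans b) := by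
    ext t
    refine LoopA_trans_congr ?_ (LoopA_trans_congr ?_ (LoopA_tail_zero b)) t
    · intro t
      exact LoopA_tail_zero b (σ t)
    · intro t
      exact h0 t
  have e1 : (LoopA_tail b 1).symm.trans ((p 1).trans (LoopA_tail b 1)) =
      (Path.refl x₀).trans (γ.trans (Path.refl x₀)) := by
    ext t
    refine LoopA_trans_congr ?_ (LoopA_trans_congr ?_ (LoopA_tail_one b)) t
    · intro t
      exact LoopA_tail_one b (σ t)
    · intro t
      exact h1 t
  change ((LoopA_tail b 0).symm.trans ((p 0).trans (LoopA_tail b 0))).Homotopic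
    ((LoopA_tail b 1).symm.trans ((p 1).trans (LoopA_tail b 1))) at hfam
  rw [e0, e1] at hfam
  have f1 : ((Path.refl x₀).trans (γ.trans (Path.refl x₀))).Homotopic γ :=
    Path.Homotopic.trans ⟨(Path.Homotopy.reflTrans _)⟩ ⟨Path.Homotopy.transRefl _⟩
  have f0 : (b.symm.trans ((Path.refl x₁).trans b)).Homotopic (Path.refl x₀) := by
    refine Path.Homotopic.trans (Path.Homotopic.hcomp (Path.Homotopic.refl _)
      ⟨Path.Homotopy.reflTrans _⟩) ?_
    exact ⟨(Path.Homotopy.reflSymmTrans b).symm⟩
  exact (f1.symm.trans hfam.symm).trans f0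

/-- a loop along which a disc is attached becomes null-homotopic -/
theorem cell_null {J : Type} (f : J → C(S1, X)) (j : J) (γ : Path x₀ x₀)
    (h : f j = toLoop γ) :
    (γ.map (attIn (fun _ : J => S1) f).continuous).Homotopic (Path.refl _) := by
  let c : C(I × S1, Att (fun _ : J => S1) f) := attCell (fun _ : J => S1) f j
  have hx : f j ((0 : ℝ) : S1) = x₀ := by
    rw [h]
    have := toLoop_coe γ 0
    rw [γ.source] at this
    exact this
  let b : Path (c (0, ((0 : ℝ) : S1))) (attIn (fun _ : J => S1) f x₀) :=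
    { toFun := fun r => c (r, ((0 : ℝ) : S1))
      continuous_toFun := c.continuous.comp (continuous_id.prodMk continuous_const)
      source' := rfl
      target' := by
        change attCell (fun _ : J => S1) f j (1, ((0 : ℝ) : S1)) = _
        rw [attCell_one, hx] }
  let p : ∀ u, Path (b u) (b u) := fun u =>
    { toFun := fun t => c (u, ((t : ℝ) : S1))
      continuous_toFun := c.continuous.comp (continuous_const.prodMk
        ((AddCircle.continuous_mk' (1 : ℝ)).comp continuous_subtype_val))
      source' := rfl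
      target' := by
        change c (u, ((1 : ℝ) : S1)) = c (u, ((0 : ℝ) : S1))
        rw [LoopA_coe_one] }
  refine LoopA_null _ b p ?_ ?_ ?_
  · change Continuous fun z : I × I => c (z.1, ((z.2 : ℝ) : S1))
    exact c.continuous.comp (continuous_fst.prodMk
      ((AddCircle.continuous_mk' (1 : ℝ)).comp (continuous_subtype_val.comp continuous_snd)))
  · intro t
    exact attCell_zero j _ _
  · intro t
    change attCell (fun _ : J => S1) f j (1, ((t : ℝ) : S1)) = attIn (fun _ : J => S1) f (γ t)
    rw [attCell_one, h, toLoop_coe]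

end CT
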