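import Mathlib
import Pool.Agent.CT.LoopA
import Pool.Agent.NB.Fam

/-!
# Combinatorial topology: words in loops
-/

namespace CT

open scoped unitInterval ContinuousMap

variable {X Y : Type} [TopologicalSpace X] [TopologicalSpace Y] {x₀ x₁ : X}

section words

variable {Γ : Type} (ℓ : Γ → Path x₀ x₀)

theorem wpath_append (w w' : List (Γ × Bool)) :
    (wpath ℓ (w ++ w')).Homotopic ((wpath ℓ w).trans (wpath ℓ w')) := by
  induction w with
  | nil => exact Path.Homotopic.symm ⟨Path.Homotopy.reflTrans _⟩
  | cons p w ih =>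
    change ((lpath ℓ p).trans (wpath ℓ (w ++ w'))).Homotopic
      (((lpath ℓ p).trans (wpath ℓ w)).trans (wpath ℓ w'))
    refine Path.Homotopic.trans (Path.Homotopic.hcomp (Path.Homotopic.refl _) ih) ?_
    exact Path.Homotopic.symm ⟨Path.Homotopy.transAssoc _ _ _⟩

theorem Loops_lpath_map (φ : C(X, Y)) (p : Γ × Bool) :
    (lpath ℓ p).map φ.continuous = lpath (fun z => (ℓ z).map φ.continuous) p := by
  rcases p with ⟨z, b⟩
  cases b <;> rfl

theorem wpath_map (φ : C(X, Y)) (w : List (Γ × Bool)) :
    (wpath ℓ w).map φ.continuous = wpath (fun z => (ℓ z).map φ.continuous) w := by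
  induction w with
  | nil => rfl
  | cons p w ih =>
    change ((lpath ℓ p).trans (wpath ℓ w)).map φ.continuous =
      (lpath (fun z => (ℓ z).map φ.continuous) p).trans
        (wpath (fun z => (ℓ z).map φ.continuous) w)
    rw [Path.map_trans, ih, Loops_lpath_map]

theorem wpath_congr {ℓ' : Γ → Path x₀ x₀} (h : ∀ z, (ℓ z).Homotopic (ℓ' z))
    (w : List (Γ × Bool)) : (wpath ℓ w).Homotopic (wpath ℓ' w) := by
  induction w with
  | nil => exact Path.Homotopic.refl _
  | cons p w ih =>
    refine Path.Homotopic.hcomp ?_ ih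
    rcases p with ⟨z, b⟩
    cases b
    · exact (h z).symm₂
    · exact h z

/-- the class of a loop in the opposite of the fundamental group -/
noncomputable def Loops_cls (γ : Path x₀ x₀) : (FundamentalGroup X x₀)ᵐᵒᵖ :=
  MulOpposite.op (FundamentalGroup.fromPath (Path.Homotopic.Quotient.mk γ))

theorem Loops_cls_eq {γ γ' : Path x₀ x₀} : Loops_cls γ = Loops_cls γ' ↔ γ.Homotopic γ' := by
  unfold Loops_cls
  rw [MulOpposite.op_inj]
  exact Path.Homotopic.Quotient.eq

theorem Loops_cls_trans (γ γ' : Path x₀ x₀) :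
    Loops_cls (γ.trans γ') = Loops_cls γ * Loops_cls γ' := rfl

theorem Loops_cls_refl : Loops_cls (Path.refl x₀) = 1 := rfl

theorem Loops_cls_symm (γ : Path x₀ x₀) : Loops_cls γ.symm = (Loops_cls γ)⁻¹ := rfl

theorem Loops_lift (w : List (Γ × Bool)) :
    FreeGroup.lift (fun z => Loops_cls (ℓ z)) (FreeGroup.mk w) = Loops_cls (wpath ℓ w) := by
  rw [FreeGroup.lift_mk]
  induction w with
  | nil => exact Loops_cls_refl.symm
  | cons p w ih =>
    rw [List.map_cons, List.prod_cons, ih]
    change _ = Loops_cls ((lpath ℓ p).trans (wpath ℓ w))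
    rw [Loops_cls_trans]
    congr 1
    rcases p with ⟨z, b⟩
    cases b
    · exact (Loops_cls_symm _).symm
    · rfl

/-- if all relators are null-homotopic, words which are equal in the presented group give
homotopic paths -/
theorem wpath_group (R : List (List (Γ × Bool)))
    (hR : ∀ r ∈ R, (wpath ℓ r).Homotopic (Path.refl x₀)) (w w' : List (Γ × Bool))
    (h : PresentedGroup.mk (NB.relSet R) (FreeGroup.mk w) =
      PresentedGroup.mk (NB.relSet R) (FreeGroup.mk w')) :
    (wpath ℓ w).Homotopic (wpath ℓ w') := by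
  have hrel : ∀ r ∈ NB.relSet R, FreeGroup.lift (fun z => Loops_cls (ℓ z)) r = 1 := by
    rintro _ ⟨L, hL, rfl⟩
    rw [Loops_lift, ← Loops_cls_refl, Loops_cls_eq]
    exact hR L hL
  have h2 : ∀ u : FreeGroup Γ, PresentedGroup.toGroup hrel (PresentedGroup.mk (NB.relSet R) u) =
      FreeGroup.lift (fun z => Loops_cls (ℓ z)) u := fun _ => rfl
  have h3 := congrArg (PresentedGroup.toGroup hrel) h
  rw [h2, h2, Loops_lift, Loops_lift, Loops_cls_eq] at h3
  exact h3

/-- the same for the complex of the presentation -/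
theorem PC_wpath (R : List (List (Γ × Bool))) (w w' : List (Γ × Bool))
    (h : PresentedGroup.mk (NB.relSet R) (FreeGroup.mk w) =
      PresentedGroup.mk (NB.relSet R) (FreeGroup.mk w')) :
    ((wpath ℓ w).map (attIn (fun _ : Fin R.length => S1)
      (fun i => toLoop (wpath ℓ (R.get i)))).continuous).Homotopic
    ((wpath ℓ w').map (attIn (fun _ : Fin R.length => S1)
      (fun i => toLoop (wpath ℓ (R.get i)))).continuous) := by
  rw [wpath_map, wpath_map]
  refine wpath_group _ R ?_ w w' h
  intro r hr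
  obtain ⟨i, rfl⟩ := List.get_of_mem hr
  rw [← wpath_map]
  exact cell_null (fun i => toLoop (wpath ℓ (R.get i))) i _ rfl

end words

end CT
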