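import Mathlib
import Pool.Agent.CT.Loops
import Pool.Agent.CT.AttBase

/-!
# Combinatorial topology: moves on presentations
-/

namespace CT

open scoped unitInterval ContinuousMap

variable {X : Type} [TopologicalSpace X] {x₀ : X} {Γ : Type} (ℓ : Γ → Path x₀ x₀)

/-- the inclusion of the base in the presentation complex -/
noncomputable abbrev pcIn (R : List (List (Γ × Bool))) : C(X, PC ℓ R) :=
  attIn (fun _ : Fin R.length => S1) (fun i => toLoop (wpath ℓ (R.get i)))

namespace SlideAux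

/-- the last family is attached last -/
def ρ (n : ℕ) : Fin n ⊕ Unit ≃ Fin (n + 1) where
  toFun := Sum.elim Fin.succ (fun _ => 0)
  invFun := Fin.cases (Sum.inr ()) Sum.inl
  left_inv := by
    rintro (i | ⟨⟩)
    · rfl
    · rfl
  right_inv := by
    intro i
    refine Fin.cases ?_ (fun i => ?_) i
    · rfl
    · rfl

end SlideAux

/-- attaching the discs one by one -/
theorem pc_cons (r : List (Γ × Bool)) (R : List (List (Γ × Bool))) :
    ∃ e : PC ℓ (r :: R) ≃ₜ Att (X := PC ℓ R) (J := Unit) (fun _ => S1)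
        (fun _ => (pcIn ℓ R).comp (toLoop (wpath ℓ r))),
      ∀ x, e (pcIn ℓ (r :: R) x) = attIn _ _ (pcIn ℓ R x) := by
  obtain ⟨e1, h1, -⟩ := att_reindex (X := X) (J := Fin (R.length + 1))
    (J' := Fin R.length ⊕ Unit) (fun _ => S1)
    (fun i => toLoop (wpath ℓ ((r :: R).get i))) (SlideAux.ρ R.length)
  obtain ⟨e2, h2, -, -⟩ := att_sum (X := X) (J := Fin R.length) (J' := Unit) (fun _ => S1)
    (fun j => toLoop (wpath ℓ ((r :: R).get (SlideAux.ρ R.length j))))
  refine ⟨e1.symm.trans e2, fun x => ?_⟩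
  change e2 (e1.symm (attIn _ _ x)) = _
  have h3 : e1.symm (attIn (fun _ : Fin (R.length + 1) => S1)
      (fun i => toLoop (wpath ℓ ((r :: R).get i))) x) = attIn _ _ x := by
    rw [← h1 x, Homeomorph.symm_apply_apply]
  exact (congrArg e2 h3).trans (h2 x)

/-- homotopy equivalence of presentation complexes relative to the base -/
def PCEqv (R R' : List (List (Γ × Bool))) : Prop :=
  ∃ e : PC ℓ R ≃ₕ PC ℓ R', ∀ x, e (pcIn ℓ R x) = pcIn ℓ R' x

theorem PCEqv.refl (R : List (List (Γ × Bool))) : PCEqv ℓ R R :=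
  ⟨ContinuousMap.HomotopyEquiv.refl _, fun _ => rfl⟩

theorem PCEqv.trans {R R' R'' : List (List (Γ × Bool))} (h : PCEqv ℓ R R')
    (h' : PCEqv ℓ R' R'') : PCEqv ℓ R R'' := by
  obtain ⟨e, he⟩ := h
  obtain ⟨e', he'⟩ := h'
  refine ⟨e.trans e', fun x => ?_⟩
  change e' (e (pcIn ℓ R x)) = _
  rw [he, he']

namespace SlideAux

theorem cons_eqv {R R' : List (List (Γ × Bool))} (r r' : List (Γ × Bool))
    (e : PC ℓ R ≃ₕ PC ℓ R') (he : ∀ x, e (pcIn ℓ R x) = pcIn ℓ R' x)
    (h : (e.toFun.comp ((pcIn ℓ R).comp (toLoop (wpath ℓ r)))).Homotopic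
      ((pcIn ℓ R').comp (toLoop (wpath ℓ r')))) : PCEqv ℓ (r :: R) (r' :: R') := by
  obtain ⟨e1, h1⟩ := pc_cons ℓ r R
  obtain ⟨e2, h2⟩ := pc_cons ℓ r' R'
  obtain ⟨E, hE⟩ := att_equiv (J := Unit) (J' := Unit) (fun _ => S1) (fun _ => S1)
    (fun _ => (pcIn ℓ R).comp (toLoop (wpath ℓ r)))
    (fun _ => (pcIn ℓ R').comp (toLoop (wpath ℓ r'))) e (Equiv.refl Unit)
    (fun _ => Homeomorph.refl S1) (fun _ => h)
  refine ⟨e1.toHomotopyEquiv.trans (E.trans e2.symm.toHomotopyEquiv), fun x => ?_⟩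
  change e2.symm (E (e1 (pcIn ℓ (r :: R) x))) = _
  rw [h1, hE, he, Homeomorph.symm_apply_eq, h2]

theorem of_equiv {R R' : List (List (Γ × Bool))} (ρ : Fin R.length ≃ Fin R'.length)
    (h : ∀ i, R.get i = R'.get (ρ i)) : PCEqv ℓ R R' := by
  obtain ⟨E, hE⟩ := att_equiv (J := Fin R.length) (J' := Fin R'.length) (fun _ => S1)
    (fun _ => S1) (fun i => toLoop (wpath ℓ (R.get i))) (fun i => toLoop (wpath ℓ (R'.get i)))
    (ContinuousMap.HomotopyEquiv.refl X) ρ (fun _ => Homeomorph.refl S1) (fun i => by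
      rw [h i]
      exact ContinuousMap.Homotopic.refl _)
  exact ⟨E, hE⟩

end SlideAux

theorem PCEqv.cons {R R' : List (List (Γ × Bool))} (r : List (Γ × Bool))
    (h : PCEqv ℓ R R') : PCEqv ℓ (r :: R) (r :: R') := by
  obtain ⟨e, he⟩ := h
  refine SlideAux.cons_eqv ℓ r r e he ?_
  have h1 : e.toFun.comp ((pcIn ℓ R).comp (toLoop (wpath ℓ r))) =
      (pcIn ℓ R').comp (toLoop (wpath ℓ r)) := by
    ext s
    exact he _
  rw [h1]

theorem PCEqv.perm {R R' : List (List (Γ × Bool))} (h : R.Perm R') : PCEqv ℓ R R' := by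
  induction h with
  | nil => exact PCEqv.refl ℓ _
  | cons r _ ih => exact ih.cons ℓ r
  | swap a b l =>
    refine SlideAux.of_equiv ℓ (Equiv.swap (0 : Fin (l.length + 2)) 1) ?_
    intro i
    refine Fin.cases ?_ (fun i => ?_) i
    · rw [Equiv.swap_apply_left]
      rfl
    · refine Fin.cases ?_ (fun i => ?_) i
      · have h1 : (Fin.succ 0 : Fin (l.length + 2)) = 1 := rfl
        rw [h1, Equiv.swap_apply_right]
        rfl
      · rw [Equiv.swap_apply_of_ne_of_ne]
        · rfl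
        · exact Fin.succ_ne_zero _
        · intro h2
          have h3 : (Fin.succ 0 : Fin (l.length + 2)) = 1 := rfl
          rw [← h3] at h2
          exact Fin.succ_ne_zero _ (Fin.succ_injective _ h2)
  | trans _ _ ih1 ih2 => exact ih1.trans ℓ ih2

/-- a relator can be replaced by any word which is equal to it modulo the other relators -/
theorem PCEqv.slide (r r' : List (Γ × Bool)) (R : List (List (Γ × Bool)))
    (h : PresentedGroup.mk (NB.relSet R) (FreeGroup.mk r) =
      PresentedGroup.mk (NB.relSet R) (FreeGroup.mk r')) : PCEqv ℓ (r :: R) (r' :: R) := by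
  refine SlideAux.cons_eqv ℓ r r' (ContinuousMap.HomotopyEquiv.refl _) (fun _ => rfl) ?_
  have h1 := PC_wpath ℓ R r r' h
  have h2 := toLoop_homotopic h1
  rw [← toLoop_comp, ← toLoop_comp] at h2
  exact h2

end CT
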