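import Mathlib
import Pool.Agent.CT.Slide

/-!
# Combinatorial topology: simplifying the presentation in the halting case
-/

namespace CT

open scoped unitInterval ContinuousMap

variable {X : Type} [TopologicalSpace X] {x₀ : X} {Γ : Type} (ℓ : Γ → Path x₀ x₀)

/-- equality of two words modulo a list of relators -/
def EqMod (R : List (List (Γ × Bool))) (r r' : List (Γ × Bool)) : Prop :=
  PresentedGroup.mk (NB.relSet R) (FreeGroup.mk r) =
    PresentedGroup.mk (NB.relSet R) (FreeGroup.mk r')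

theorem EqMod.mono {R R' : List (List (Γ × Bool))} (hRR : ∀ r ∈ R, r ∈ R')
    {r r' : List (Γ × Bool)} (h : EqMod R r r') : EqMod R' r r' := by
  have h1 : (FreeGroup.mk r)⁻¹ * FreeGroup.mk r' ∈ Subgroup.normalClosure (NB.relSet R) :=
    QuotientGroup.eq.1 h
  refine QuotientGroup.eq.2 (Subgroup.normalClosure_mono ?_ h1)
  rintro _ ⟨L, hL, rfl⟩
  exact ⟨L, hRR L hL, rfl⟩

/-- several replacements modulo a common list of relators -/
theorem PCEqv.slides (C : List (List (Γ × Bool))) {A B : List (List (Γ × Bool))}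
    (h : List.Forall₂ (EqMod C) A B) : PCEqv ℓ (A ++ C) (B ++ C) := by
  induction h with
  | nil => exact PCEqv.refl ℓ C
  | @cons a b A B h1 h2 ih =>
    refine PCEqv.trans ℓ (PCEqv.slide ℓ a b (A ++ C)
      (h1.mono fun r hr => List.mem_append_right _ hr)) ?_
    exact PCEqv.cons ℓ b ih

/-- inserting a cancelling pair in front of a word -/
def pad (x : Γ) (r : List (Γ × Bool)) : List (Γ × Bool) := (x, true) :: (x, false) :: r

theorem mk_pad (x : Γ) (r : List (Γ × Bool)) : FreeGroup.mk (pad x r) = FreeGroup.mk r := by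
  have h : pad x r = [(x, true)] ++ ([(x, false)] ++ r) := rfl
  rw [h, ← FreeGroup.mul_mk, ← FreeGroup.mul_mk, ← mul_assoc]
  have h2 : FreeGroup.mk [(x, true)] * FreeGroup.mk [(x, false)] = 1 := by
    have : (FreeGroup.mk [(x, false)] : FreeGroup Γ) = (FreeGroup.mk [(x, true)])⁻¹ := by
      rw [FreeGroup.inv_mk]
      rfl
    rw [this, mul_inv_cancel]
  rw [h2, one_mul]

theorem relSet_pad (x : Γ) (R : List (List (Γ × Bool))) :
    NB.relSet (R.map (pad x)) = NB.relSet R := by
  ext g
  constructor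
  · rintro ⟨L, hL, rfl⟩
    obtain ⟨L', hL', rfl⟩ := List.mem_map.1 hL
    exact ⟨L', hL', (mk_pad x L').symm⟩
  · rintro ⟨L, hL, rfl⟩
    exact ⟨pad x L, List.mem_map.2 ⟨L, hL, rfl⟩, mk_pad x L⟩

/-- padded presentations -/
theorem PCEqv.pad (x : Γ) (R : List (List (Γ × Bool))) : PCEqv ℓ (R.map (CT.pad x)) R := by
  have h := PCEqv.slides ℓ [] (A := R.map (CT.pad x)) (B := R) (by
    rw [List.forall₂_map_left_iff, List.forall₂_same]
    intro r _
    unfold EqMod
    rw [mk_pad])
  simpa using h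

variable {γ : Type} (ℓ' : γ ⊕ γ → Path x₀ x₀)

theorem mk_oldWord (S : Set (FreeGroup (γ ⊕ γ))) (L : List (γ × Bool)) :
    PresentedGroup.mk S (FreeGroup.mk (NB.oldWord L)) =
      FreeGroup.lift ((PresentedGroup.of (rels := S)) ∘ Sum.inl) (FreeGroup.mk L) := by
  rw [← NB.lift_oldWord, NB.lift_of_eq_mk]

theorem oldWord_eq_one (R : List (List (γ × Bool))) (w : List (γ × Bool))
    (hw : PresentedGroup.mk (NB.relSet R) (FreeGroup.mk w) = 1) :
    PresentedGroup.mk (NB.relSet (R.map NB.oldWord)) (FreeGroup.mk (NB.oldWord w)) = 1 := by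
  have h1 : ∀ r ∈ NB.relSet R, FreeGroup.lift
      ((PresentedGroup.of (rels := NB.relSet (R.map NB.oldWord))) ∘ Sum.inl) r = 1 := by
    rintro _ ⟨L, hL, rfl⟩
    rw [← mk_oldWord]
    exact PresentedGroup.one_of_mem ⟨NB.oldWord L, List.mem_map.2 ⟨L, hL, rfl⟩, rfl⟩
  rw [mk_oldWord]
  have h2 : (PresentedGroup.toGroup h1).comp (PresentedGroup.mk (NB.relSet R)) =
      FreeGroup.lift ((PresentedGroup.of (rels := NB.relSet (R.map NB.oldWord))) ∘
        Sum.inl) := by
    ext x
    exact (PresentedGroup.toGroup.of h1).trans (by simp)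
  rw [← h2, MonoidHom.comp_apply, hw, map_one]

theorem oldWord_killed (gens : List γ) (hg : ∀ z, z ∈ gens) (w : List (γ × Bool)) :
    PresentedGroup.mk (NB.relSet (gens.map (fun z => [((Sum.inl z : γ ⊕ γ), false)])))
      (FreeGroup.mk (NB.oldWord w)) = 1 := by
  rw [mk_oldWord]
  have h2 : FreeGroup.lift ((PresentedGroup.of (rels := NB.relSet
      (gens.map (fun z => [((Sum.inl z : γ ⊕ γ), false)])))) ∘ Sum.inl) =
      (1 : FreeGroup γ →* _) := by
    ext x
    simp only [FreeGroup.lift_apply_of, Function.comp_apply, MonoidHom.one_apply]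
    rw [← inv_eq_one]
    have h3 : PresentedGroup.mk (NB.relSet (gens.map (fun z => [((Sum.inl z : γ ⊕ γ), false)])))
        (FreeGroup.mk [(Sum.inl x, false)]) = 1 :=
      PresentedGroup.one_of_mem ⟨[(Sum.inl x, false)], List.mem_map.2 ⟨x, hg x, rfl⟩, rfl⟩
    rw [← h3]
    have h4 : (FreeGroup.mk [((Sum.inl x : γ ⊕ γ), false)] : FreeGroup (γ ⊕ γ)) =
        (FreeGroup.of (Sum.inl x))⁻¹ := by
      rw [FreeGroup.of, FreeGroup.inv_mk]
      rfl
    rw [h4, map_inv]
    rfl
  rw [h2]
  rfl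

/-- **The halting case.**  If the word is trivial, the new presentation can be transformed
into the presentation which kills the old letters, with some trivial relators. -/
theorem famRels_eqv (gens : List γ) (hg : ∀ z, z ∈ gens) (R : List (List (γ × Bool)))
    (w : List (γ × Bool)) (hw : PresentedGroup.mk (NB.relSet R) (FreeGroup.mk w) = 1) :
    PCEqv ℓ' (NB.famRels gens R w)
      (List.replicate R.length [] ++ gens.map (fun z => [(Sum.inl z, false)])) := by
  unfold NB.famRels
  refine PCEqv.trans ℓ' (PCEqv.perm ℓ' List.perm_append_comm) ?_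
  refine PCEqv.trans ℓ' (R' := gens.map (fun z => [(Sum.inl z, false)]) ++ R.map NB.oldWord)
    (PCEqv.slides ℓ' _ ?_) ?_
  · rw [List.forall₂_map_left_iff, List.forall₂_map_right_iff, List.forall₂_same]
    intro z _
    unfold EqMod
    rw [← FreeGroup.mul_mk, ← FreeGroup.mul_mk, ← FreeGroup.mul_mk, map_mul, map_mul, map_mul,
      oldWord_eq_one R w hw, one_mul, ← mul_assoc, ← map_mul]
    have h2 : FreeGroup.mk [((Sum.inr z : γ ⊕ γ), true)] *
        FreeGroup.mk [((Sum.inr z : γ ⊕ γ), false)] = 1 := by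
      have : (FreeGroup.mk [((Sum.inr z : γ ⊕ γ), false)] : FreeGroup (γ ⊕ γ)) =
          (FreeGroup.mk [(Sum.inr z, true)])⁻¹ := by
        rw [FreeGroup.inv_mk]
        rfl
      rw [this, mul_inv_cancel]
    rw [h2, map_one, one_mul]
  refine PCEqv.trans ℓ' (PCEqv.perm ℓ' List.perm_append_comm) ?_
  refine PCEqv.slides ℓ' _ ?_
  have h5 : List.replicate R.length ([] : List ((γ ⊕ γ) × Bool)) = R.map (fun _ => []) := by
    simp
  rw [h5, List.forall₂_map_left_iff, List.forall₂_map_right_iff, List.forall₂_same]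
  intro r _
  unfold EqMod
  rw [oldWord_killed gens hg r]
  exact (map_one _).symm

end CT
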