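import Mathlib
import Pool.Agent.CT.Defs

/-!
# Combinatorial topology: basic facts on realisations
-/

namespace CT

open scoped unitInterval ContinuousMap

variable {V W : Type}

theorem Real_le_one_of_mem_cl {s : Finset V} {x : V → ℝ} (h : x ∈ cl s) (v : V) : x v ≤ 1 := by
  by_cases hv : v ∈ s
  · rw [← h.2.2]
    exact Finset.single_le_sum (f := x) (fun i _ => h.1 i) hv
  · rw [h.2.1 v hv]; exact zero_le_one

theorem cl_of_bary {s : Finset V} {x : V → ℝ} (h : IsBary s x) : x ∈ cl s := by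
  refine ⟨fun v => ?_, h.2.1, h.2.2⟩
  by_cases hv : v ∈ s
  · exact (h.1 v hv).le
  · exact (h.2.1 v hv).ge

theorem Real_bary_nonempty {s : Finset V} {x : V → ℝ} (h : IsBary s x) : s.Nonempty := by
  rw [Finset.nonempty_iff_ne_empty]
  rintro rfl
  have := h.2.2
  simp at this

/-- the exact support of a point of a closed simplex is a face -/
theorem exists_bary {t : Finset V} {x : V → ℝ} (ht : x ∈ cl t) :
    ∃ s, s ⊆ t ∧ s.Nonempty ∧ IsBary s x := by
  classical
  have hb : IsBary (t.filter fun v => 0 < x v) x := by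
    refine ⟨fun v hv => (Finset.mem_filter.1 hv).2, fun v hv => ?_, ?_⟩
    · by_cases hvt : v ∈ t
      · have h1 : ¬ 0 < x v := fun h => hv (Finset.mem_filter.2 ⟨hvt, h⟩)
        exact le_antisymm (not_lt.1 h1) (ht.1 v)
      · exact ht.2.1 v hvt
    · rw [Finset.sum_filter, ← ht.2.2]
      refine Finset.sum_congr rfl fun v _ => ?_
      by_cases h : 0 < x v
      · rw [if_pos h]
      · rw [if_neg h]
        exact le_antisymm (ht.1 v) (not_lt.1 h)
  exact ⟨_, Finset.filter_subset _ _, Real_bary_nonempty hb, hb⟩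

theorem mem_Rz_iff {F : Set (Finset V)} (hF : IsCx F) (x : V → ℝ) :
    x ∈ Rz F ↔ ∃ s ∈ F, x ∈ cl s := by
  constructor
  · rintro ⟨s, hs, hx⟩
    exact ⟨s, hs, cl_of_bary hx⟩
  · rintro ⟨s, hs, hx⟩
    obtain ⟨t, hts, htn, hb⟩ := exists_bary hx
    exact ⟨t, hF.down s hs t hts htn, hb⟩

theorem cl_mono {s t : Finset V} (h : s ⊆ t) : cl s ⊆ cl t := by
  rintro x ⟨h0, h1, h2⟩
  refine ⟨h0, fun v hv => h1 v fun hvs => hv (h hvs), ?_⟩
  rw [← h2]
  exact (Finset.sum_subset h fun v _ hv => h1 v hv).symm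

/-- a point of two closed simplices lies in the simplex on the intersection -/
theorem cl_inter [DecidableEq V] {s t : Finset V} {x : V → ℝ} (hs : x ∈ cl s) (ht : x ∈ cl t) :
    x ∈ cl (s ∩ t) := by
  refine ⟨hs.1, fun v hv => ?_, ?_⟩
  · by_cases hvs : v ∈ s
    · exact ht.2.1 v fun hvt => hv (Finset.mem_inter.2 ⟨hvs, hvt⟩)
    · exact hs.2.1 v hvs
  · rw [← hs.2.2]
    refine Finset.sum_subset Finset.inter_subset_left fun v hvs hv => ?_
    exact ht.2.1 v fun hvt => hv (Finset.mem_inter.2 ⟨hvs, hvt⟩)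

theorem bary_sub {s t : Finset V} {x : V → ℝ} (hs : IsBary s x) (ht : x ∈ cl t) :
    s ⊆ t := by
  intro v hv
  by_contra hvt
  exact (hs.1 v hv).ne' (ht.2.1 v hvt)

theorem bary_unique {s t : Finset V} {x : V → ℝ} (hs : IsBary s x) (ht : IsBary t x) :
    s = t :=
  Finset.Subset.antisymm (bary_sub hs (cl_of_bary ht)) (bary_sub ht (cl_of_bary hs))

/-- the closed simplex is convex -/
theorem cl_convex (s : Finset V) : Convex ℝ (cl s) := by
  rintro x ⟨hx0, hx1, hx2⟩ y ⟨hy0, hy1, hy2⟩ a b ha hb hab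
  refine ⟨fun v => ?_, fun v hv => ?_, ?_⟩
  · exact add_nonneg (mul_nonneg ha (hx0 v)) (mul_nonneg hb (hy0 v))
  · show a * x v + b * y v = 0
    rw [hx1 v hv, hy1 v hv, mul_zero, mul_zero, add_zero]
  · show ∑ v ∈ s, (a * x v + b * y v) = 1
    rw [Finset.sum_add_distrib, ← Finset.mul_sum, ← Finset.mul_sum, hx2, hy2, mul_one, mul_one, hab]

theorem Real_isClosed_cl (s : Finset V) : IsClosed (cl s) := by
  have h : cl s = (⋂ v, {x : V → ℝ | 0 ≤ x v}) ∩ ((⋂ v, ⋂ (_ : v ∉ s), {x : V → ℝ | x v = 0}) ∩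
      {x : V → ℝ | ∑ v ∈ s, x v = 1}) := by
    ext x
    simp only [cl, Set.mem_ofPred_eq, Set.mem_inter_iff, Set.mem_iInter]
  rw [h]
  refine IsClosed.inter (isClosed_iInter fun v => ?_) (IsClosed.inter (isClosed_iInter fun v =>
    isClosed_iInter fun _ => ?_) ?_)
  · exact isClosed_le continuous_const (continuous_apply v)
  · exact isClosed_eq (continuous_apply v) continuous_const
  · exact isClosed_eq (continuous_finsetSum _ fun v _ => continuous_apply v) continuous_const

theorem isCompact_cl (s : Finset V) : IsCompact (cl s) := by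
  have hK : IsCompact (Set.pi Set.univ fun _ : V => Set.Icc (0 : ℝ) 1) :=
    isCompact_univ_pi fun _ => isCompact_Icc
  refine hK.of_isClosed_subset (Real_isClosed_cl s) ?_
  intro x hx v _
  exact ⟨hx.1 v, Real_le_one_of_mem_cl hx v⟩

theorem Real_Rz_eq {F : Set (Finset V)} (hF : IsCx F) : Rz F = ⋃ s ∈ F, cl s := by
  ext x
  rw [mem_Rz_iff hF]
  simp only [Set.mem_iUnion, exists_prop]

theorem isCompact_Rz {F : Set (Finset V)} (hF : IsCx F) (hfin : F.Finite) :
    IsCompact (Rz F) := by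
  rw [Real_Rz_eq hF]
  exact hfin.isCompact_biUnion fun s _ => isCompact_cl s

/-- two maps into a realisation are homotopic if the two images of each point lie in a
common closed simplex; the homotopy is the straight line -/
theorem homotopic_of_common {X : Type} [TopologicalSpace X] {F : Set (Finset V)}
    (hF : IsCx F) (f g : C(X, Rz F))
    (h : ∀ x, ∃ s ∈ F, (f x : V → ℝ) ∈ cl s ∧ (g x : V → ℝ) ∈ cl s) :
    ∃ H : f.Homotopy g, ∀ (t : I) (x : X),
      (H (t, x) : V → ℝ) = (1 - (t : ℝ)) • (f x : V → ℝ) + (t : ℝ) • (g x : V → ℝ) := by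
  have hmem : ∀ p : I × X, (1 - (p.1 : ℝ)) • (f p.2 : V → ℝ) + (p.1 : ℝ) • (g p.2 : V → ℝ) ∈ Rz F := by
    intro p
    obtain ⟨s, hs, hf, hg⟩ := h p.2
    rw [mem_Rz_iff hF]
    exact ⟨s, hs, cl_convex s hf hg (sub_nonneg.2 p.1.2.2) p.1.2.1 (by ring)⟩
  refine ⟨{ toFun := fun p => ⟨_, hmem p⟩
            continuous_toFun := ?_
            map_zero_left := fun x => ?_
            map_one_left := fun x => ?_ }, fun t x => rfl⟩
  · refine Continuous.subtype_mk ?_ _
    have hf : Continuous fun p : I × X => (f p.2 : V → ℝ) :=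
      continuous_subtype_val.comp (f.continuous.comp continuous_snd)
    have hg : Continuous fun p : I × X => (g p.2 : V → ℝ) :=
      continuous_subtype_val.comp (g.continuous.comp continuous_snd)
    have ht : Continuous fun p : I × X => (p.1 : ℝ) := continuous_subtype_val.comp continuous_fst
    exact ((continuous_const.sub ht).smul hf).add (ht.smul hg)
  · apply Subtype.ext
    show (1 - ((0 : I) : ℝ)) • (f x : V → ℝ) + ((0 : I) : ℝ) • (g x : V → ℝ) = f x
    simp
  · apply Subtype.ext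
    show (1 - ((1 : I) : ℝ)) • (f x : V → ℝ) + ((1 : I) : ℝ) • (g x : V → ℝ) = g x
    simp

theorem Rz_mono {F G : Set (Finset V)} (h : F ⊆ G) : Rz F ⊆ Rz G := by
  rintro x ⟨s, hs, hx⟩
  exact ⟨s, h hs, hx⟩

/-- the inclusion of subfamilies -/
def RIncl {F G : Set (Finset V)} (h : F ⊆ G) : C(Rz F, Rz G) :=
  ⟨Set.inclusion (Rz_mono h), continuous_inclusion (Rz_mono h)⟩

@[simp] theorem RIncl_coe {F G : Set (Finset V)} (h : F ⊆ G) (x : Rz F) :
    (RIncl h x : V → ℝ) = x := rfl

theorem OC_mono {P : Type} [PartialOrder P] {Q Q' : Set P} (h : Q ⊆ Q') : OC Q ⊆ OC Q' :=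
  fun _ hs => ⟨hs.1, hs.2.1.trans h, hs.2.2⟩

theorem OC_finite {P : Type} [PartialOrder P] {Q : Set P} (h : Q.Finite) : (OC Q).Finite := by
  refine (h.toFinset.powerset.finite_toSet).subset fun s hs => ?_
  rw [Finset.mem_coe, Finset.mem_powerset]
  intro v hv
  exact h.mem_toFinset.2 (hs.2.1 hv)

open Classical in
/-- the vertex `v` as a point -/
noncomputable def vtx (v : V) : V → ℝ := fun u => if u = v then 1 else 0

theorem Real_vtx_bary (v : V) : IsBary {v} (vtx v) := by
  refine ⟨fun u hu => ?_, fun u hu => ?_, ?_⟩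
  · rw [Finset.mem_singleton] at hu
    simp [vtx, hu]
  · rw [Finset.mem_singleton] at hu
    simp [vtx, hu]
  · rw [Finset.sum_singleton]
    simp [vtx]

theorem vtx_mem {F : Set (Finset V)} {v : V} (h : {v} ∈ F) : vtx v ∈ Rz F :=
  ⟨{v}, h, Real_vtx_bary v⟩

theorem vtx_mem_cl {s : Finset V} {v : V} (h : v ∈ s) : vtx v ∈ cl s :=
  cl_mono (Finset.singleton_subset_iff.2 h) (cl_of_bary (Real_vtx_bary v))

end CT
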