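import Mathlib
import Pool.Agent.CT.Real

/-!
# Combinatorial topology: contractible realisations, relabelling
-/

namespace CT

open scoped unitInterval ContinuousMap

variable {V W : Type}

theorem contractible_cl {s : Finset V} (hs : s.Nonempty) : ContractibleSpace (cl s) := by
  obtain ⟨v, hv⟩ := hs
  exact (cl_convex s).contractibleSpace ⟨vtx v, vtx_mem_cl hv⟩

/-- cones are contractible -/
theorem contractible_cone [DecidableEq V] {F : Set (Finset V)} (hF : IsCx F) (v : V)
    (hv : {v} ∈ F) (h : ∀ s ∈ F, insert v s ∈ F) : ContractibleSpace (Rz F) := by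
  rw [contractible_iff_id_nullhomotopic]
  refine ⟨⟨vtx v, vtx_mem hv⟩, ?_⟩
  obtain ⟨H, _⟩ := homotopic_of_common hF (ContinuousMap.id (Rz F))
    (ContinuousMap.const (Rz F) ⟨vtx v, vtx_mem hv⟩) (by
      rintro ⟨x, s, hs, hx⟩
      exact ⟨insert v s, h s hs, cl_mono (Finset.subset_insert v s) (cl_of_bary hx),
        vtx_mem_cl (Finset.mem_insert_self v s)⟩)
  exact ⟨H⟩

/-- an order complex with an element comparable to all others is contractible -/
theorem contractible_OC {P : Type} [PartialOrder P] {Q : Set P} (a : P) (ha : a ∈ Q)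
    (h : ∀ b ∈ Q, a ≤ b ∨ b ≤ a) : ContractibleSpace (Rz (OC Q)) := by
  classical
  refine contractible_cone (OC_isCx Q) a
    ⟨Finset.singleton_nonempty a, by simpa using ha, by simp⟩ ?_
  rintro s ⟨_, hsQ, hsc⟩
  refine ⟨Finset.insert_nonempty a s, ?_, ?_⟩
  · rw [Finset.coe_insert]
    exact Set.insert_subset ha hsQ
  · rw [Finset.coe_insert]
    exact hsc.insert fun b hb _ => h b (hsQ hb)

open Classical in
theorem Contr_extend_bary (e : V ↪ W) {s : Finset V} {x : V → ℝ} (h : IsBary s x) :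
    IsBary (s.map e) (Function.extend e x 0) := by
  refine ⟨?_, ?_, ?_⟩
  · intro w hw
    obtain ⟨v, hv, rfl⟩ := Finset.mem_map.1 hw
    rw [e.injective.extend_apply]
    exact h.1 v hv
  · intro w hw
    by_cases hr : ∃ v, e v = w
    · obtain ⟨v, rfl⟩ := hr
      rw [e.injective.extend_apply]
      exact h.2.1 v fun hv => hw (Finset.mem_map_of_mem e hv)
    · rw [Function.extend_apply' _ _ _ hr]; rfl
  · rw [Finset.sum_map]
    rw [← h.2.2]
    exact Finset.sum_congr rfl fun v _ => e.injective.extend_apply _ _ v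

/-- relabelling the vertices -/
theorem homeo_of_embedding (e : V ↪ W) (F : Set (Finset V)) :
    Nonempty (Rz F ≃ₜ Rz ((fun s => s.map e) '' F)) := by
  refine ⟨{
    toFun := fun x => ⟨Function.extend e x.1 0, ?_⟩
    invFun := fun y => ⟨fun v => y.1 (e v), ?_⟩
    left_inv := ?_
    right_inv := ?_
    continuous_toFun := ?_
    continuous_invFun := ?_ }⟩
  · obtain ⟨s, hs, hx⟩ := x.2
    exact ⟨s.map e, ⟨s, hs, rfl⟩, Contr_extend_bary e hx⟩
  · obtain ⟨_, ⟨s, hs, rfl⟩, hx⟩ := y.2
    refine ⟨s, hs, fun v hv => hx.1 _ (Finset.mem_map_of_mem e hv), fun v hv =>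
      hx.2.1 _ fun h => hv ?_, ?_⟩
    · simpa using h
    · rw [← hx.2.2, Finset.sum_map]
  · intro x
    apply Subtype.ext
    funext v
    exact e.injective.extend_apply _ _ v
  · rintro ⟨y, _, ⟨s, hs, rfl⟩, hx⟩
    apply Subtype.ext
    funext w
    show Function.extend e (fun v => y (e v)) 0 w = y w
    by_cases hr : ∃ v, e v = w
    · obtain ⟨v, rfl⟩ := hr
      rw [e.injective.extend_apply]
    · rw [Function.extend_apply' _ _ _ hr]
      symm
      apply hx.2.1
      intro hw
      obtain ⟨v, _, rfl⟩ := Finset.mem_map.1 hw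
      exact hr ⟨v, rfl⟩
  · refine Continuous.subtype_mk (continuous_pi fun w => ?_) _
    by_cases hr : ∃ v, e v = w
    · obtain ⟨v, rfl⟩ := hr
      simp only [e.injective.extend_apply]
      exact (continuous_apply v).comp continuous_subtype_val
    · simp only [Function.extend_apply' _ _ _ hr]
      exact continuous_const
  · refine Continuous.subtype_mk (continuous_pi fun v => ?_) _
    exact (continuous_apply (e v)).comp continuous_subtype_val

theorem Contr_OC_range {A B : Type} [PartialOrder A] [PartialOrder B] (ι : A ↪o B) :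
    (fun s : Finset A => s.map ι.toEmbedding) '' OC (Set.univ : Set A) = OC (Set.range ι) := by
  classical
  ext t
  constructor
  · rintro ⟨s, ⟨hne, _, hc⟩, rfl⟩
    refine ⟨hne.map, ?_, ?_⟩
    · intro b hb
      obtain ⟨a, _, rfl⟩ := Finset.mem_map.1 (Finset.mem_coe.1 hb)
      exact ⟨a, rfl⟩
    · intro b hb b' hb' _
      obtain ⟨a, ha, rfl⟩ := Finset.mem_map.1 (Finset.mem_coe.1 hb)
      obtain ⟨a', ha', rfl⟩ := Finset.mem_map.1 (Finset.mem_coe.1 hb')
      rcases hc.total (Finset.mem_coe.2 ha) (Finset.mem_coe.2 ha') with h | h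
      · exact Or.inl (ι.le_iff_le.2 h)
      · exact Or.inr (ι.le_iff_le.2 h)
  · rintro ⟨hne, hsub, hc⟩
    refine ⟨t.preimage ι ι.injective.injOn, ⟨?_, Set.subset_univ _, ?_⟩, ?_⟩
    · obtain ⟨b, hb⟩ := hne
      obtain ⟨a, rfl⟩ := hsub hb
      exact ⟨a, Finset.mem_preimage.2 hb⟩
    · intro a ha a' ha' _
      have h1 := Finset.mem_preimage.1 (Finset.mem_coe.1 ha)
      have h2 := Finset.mem_preimage.1 (Finset.mem_coe.1 ha')
      rcases hc.total (Finset.mem_coe.2 h1) (Finset.mem_coe.2 h2) with h | h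
      · exact Or.inl (ι.le_iff_le.1 h)
      · exact Or.inr (ι.le_iff_le.1 h)
    · ext b
      simp only [Finset.mem_map, Finset.mem_preimage]
      constructor
      · rintro ⟨a, ha, rfl⟩; exact ha
      · intro hb
        obtain ⟨a, rfl⟩ := hsub hb
        exact ⟨a, hb, rfl⟩

theorem Contr_homeo_range {A B : Type} [PartialOrder A] [PartialOrder B] (ι : A ↪o B)
    {Q : Set B} (hQ : Set.range ι = Q) :
    Nonempty (Rz (OC (Set.univ : Set A)) ≃ₜ Rz (OC Q)) := by
  subst hQ
  rw [← Contr_OC_range ι]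
  exact homeo_of_embedding ι.toEmbedding _

/-- order isomorphic posets have homeomorphic order complexes -/
theorem homeo_of_orderIso {P P' : Type} [PartialOrder P] [PartialOrder P'] {Q : Set P}
    {Q' : Set P'} (e : Q ≃o Q') : Nonempty (Rz (OC Q) ≃ₜ Rz (OC Q')) := by
  obtain ⟨h1⟩ := Contr_homeo_range (OrderEmbedding.subtype (· ∈ Q)) (Q := Q)
    Subtype.range_coe
  obtain ⟨h2⟩ := Contr_homeo_range
    (e.toOrderEmbedding.trans (OrderEmbedding.subtype (· ∈ Q'))) (Q := Q') (by
      ext b
      constructor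
      · rintro ⟨a, rfl⟩; exact (e a).2
      · intro hb
        exact ⟨e.symm ⟨b, hb⟩, by simp⟩)
  exact ⟨h1.symm.trans h2⟩

end CT
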