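import Mathlib
import Pool.Agent.CT.Real

/-!
# Combinatorial topology: paths along edges
-/

namespace CT

open scoped unitInterval ContinuousMap

variable {V W : Type}

/-! ## Paths along edges -/

/-- the vertices of a complex -/
abbrev VF (F : Set (Finset V)) : Type := {v : V // {v} ∈ F}

/-- a vertex as a point of the realisation -/
noncomputable def ptv {F : Set (Finset V)} (v : VF F) : Rz F := ⟨vtx v.1, vtx_mem v.2⟩

theorem Edge_mem_cl {s : Finset V} {u v : V} (hu : u ∈ s) (hv : v ∈ s) (t : I) :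
    (1 - (t : ℝ)) • vtx u + (t : ℝ) • vtx v ∈ cl s :=
  cl_convex s (vtx_mem_cl hu) (vtx_mem_cl hv) (by linarith [t.2.2]) t.2.1 (by ring)

theorem edge_point_mem [DecidableEq V] {F : Set (Finset V)} (hF : IsCx F) {u v : V}
    (h : ({u, v} : Finset V) ∈ F) (t : I) :
    (1 - (t : ℝ)) • vtx u + (t : ℝ) • vtx v ∈ Rz F :=
  (mem_Rz_iff hF _).2 ⟨_, h, Edge_mem_cl (by simp) (by simp) t⟩

/-- the straight path along an edge (or a constant path) -/
noncomputable def edge [DecidableEq V] {F : Set (Finset V)} (hF : IsCx F) (u v : VF F)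
    (h : ({u.1, v.1} : Finset V) ∈ F) : Path (ptv u) (ptv v) where
  toFun t := ⟨(1 - (t : ℝ)) • vtx u.1 + (t : ℝ) • vtx v.1, edge_point_mem hF h t⟩
  continuous_toFun := by fun_prop
  source' := by ext1; simp [ptv]
  target' := by ext1; simp [ptv]

section edge

variable [DecidableEq V] {F G : Set (Finset V)} (hF : IsCx F)

theorem edge_self (u : VF F) (h : ({u.1, u.1} : Finset V) ∈ F) :
    (edge hF u u h).Homotopic (Path.refl (ptv u)) := by
  have h1 : edge hF u u h = Path.refl (ptv u) := by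
    apply Path.ext
    funext t
    apply Subtype.ext
    show (1 - (t : ℝ)) • vtx u.1 + (t : ℝ) • vtx u.1 = vtx u.1
    rw [← add_smul]
    simp
  rw [h1]

theorem edge_symm (u v : VF F) (h : ({u.1, v.1} : Finset V) ∈ F)
    (h' : ({v.1, u.1} : Finset V) ∈ F) :
    (edge hF u v h).symm.Homotopic (edge hF v u h') := by
  have h1 : (edge hF u v h).symm = edge hF v u h' := by
    apply Path.ext
    funext t
    apply Subtype.ext
    show (1 - ((unitInterval.symm t : I) : ℝ)) • vtx u.1 + ((unitInterval.symm t : I) : ℝ) • vtx v.1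
      = (1 - (t : ℝ)) • vtx v.1 + (t : ℝ) • vtx u.1
    rw [unitInterval.coe_symm_eq, sub_sub_cancel, add_comm]
  rw [h1]

omit [DecidableEq V] in
theorem Edge_homotopic (hF : IsCx F) {a b : Rz F} (p q : Path a b) {s : Finset V} (hs : s ∈ F)
    (hp : ∀ t, (p t : V → ℝ) ∈ cl s) (hq : ∀ t, (q t : V → ℝ) ∈ cl s) : p.Homotopic q := by
  obtain ⟨H, hH⟩ := homotopic_of_common hF p.toContinuousMap q.toContinuousMap
    (fun t => ⟨s, hs, hp t, hq t⟩)
  refine ⟨⟨H, ?_⟩⟩
  intro t x hx
  have h1 : p x = q x := by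
    rcases hx with hx | hx
    · rw [hx, p.source, q.source]
    · rw [hx, p.target, q.target]
  apply Subtype.ext
  show (H (t, x) : V → ℝ) = (p x : V → ℝ)
  rw [hH t x]
  show (1 - (t : ℝ)) • (p x : V → ℝ) + (t : ℝ) • (q x : V → ℝ) = _
  rw [← h1, ← add_smul]
  simp

/-- the boundary of a triangle -/
theorem edge_tri (u v w : VF F) (huv : ({u.1, v.1} : Finset V) ∈ F)
    (hvw : ({v.1, w.1} : Finset V) ∈ F) (huw : ({u.1, w.1} : Finset V) ∈ F)
    (h : ({u.1, v.1, w.1} : Finset V) ∈ F) :
    ((edge hF u v huv).trans (edge hF v w hvw)).Homotopic (edge hF u w huw) := by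
  refine Edge_homotopic hF _ _ h (fun t => ?_) (fun t => ?_)
  · rw [Path.trans_apply]
    split_ifs
    · exact Edge_mem_cl (by simp) (by simp) _
    · exact Edge_mem_cl (by simp) (by simp) _
  · exact Edge_mem_cl (by simp) (by simp) _

/-- vertices of a larger complex -/
def VFi (h : F ⊆ G) (v : VF F) : VF G := ⟨v.1, h v.2⟩

omit [DecidableEq V] in
theorem ptv_incl (h : F ⊆ G) (v : VF F) : RIncl h (ptv v) = ptv (VFi h v) := rfl

theorem edge_incl (hG : IsCx G) (h : F ⊆ G) (u v : VF F) (huv : ({u.1, v.1} : Finset V) ∈ F) :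
    (edge hF u v huv).map (RIncl h).continuous =
      edge hG (VFi h u) (VFi h v) (h huv) := rfl

end edge

end CT
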