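import Mathlib
import Pool.Agent.CT.Real
import Pool.Agent.CT.Contr
import Pool.Agent.CT.Edge

/-!
# Combinatorial topology: the basic files together
-/
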