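import Mathlib
import Pool.Agent.CT.Defs

/-!
# Combinatorial topology: extending homotopies over cones
-/

namespace CT

open scoped unitInterval ContinuousMap

/-- the projection of the line onto the unit interval -/
noncomputable def cfill_pr (x : ℝ) : I := Set.projIcc 0 1 zero_le_one x

theorem cfill_pr_cont : Continuous cfill_pr := continuous_projIcc (h := zero_le_one)

theorem cfill_pr_coe (t : I) : cfill_pr t = t := Set.projIcc_val zero_le_one t

theorem cfill_pr_zero {x : ℝ} (h : x ≤ 0) : cfill_pr x = 0 := Set.projIcc_of_le_left _ h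

theorem cfill_pr_one {x : ℝ} (h : 1 ≤ x) : cfill_pr x = 1 := Set.projIcc_of_right_le _ h

/-- extension of a homotopy over a cone with values in a contractible space: `h₀, h₁` are
maps of the cone over `S`, `H` is a homotopy between them on the base of the cone -/
theorem cone_fill {S C : Type} [TopologicalSpace S] [TopologicalSpace C]
    [ContractibleSpace C] (h₀ h₁ : C(I × S, C)) (H : C(I × S, C))
    (e₀ : ∀ s s', h₀ (0, s) = h₀ (0, s')) (e₁ : ∀ s s', h₁ (0, s) = h₁ (0, s'))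
    (H₀ : ∀ s, H (0, s) = h₀ (1, s)) (H₁ : ∀ s, H (1, s) = h₁ (1, s)) :
    ∃ G : C(I × (I × S), C), (∀ p, G (0, p) = h₀ p) ∧ (∀ p, G (1, p) = h₁ p) ∧
      (∀ u s, G (u, (1, s)) = H (u, s)) ∧ ∀ u s s', G (u, (0, s)) = G (u, (0, s')) := by
  classical
  obtain ⟨c, ⟨K⟩⟩ := id_nullhomotopic C
  have hK0 : ∀ y, K (0, y) = y := fun y => by simp
  have hK1 : ∀ y, K (1, y) = c := fun y => by simp
  have hpr := cfill_pr_cont
  have hmax : ∀ x : ℝ, max x (1 / 2) ≠ 0 := fun x =>
    (lt_of_lt_of_le (by norm_num) (le_max_right x (1 / 2))).ne'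
  let a : I × (I × S) → C := fun p =>
    K (cfill_pr (4 * (p.1 : ℝ)),
      h₀ (cfill_pr ((p.2.1 : ℝ) / max (1 - 2 * (p.1 : ℝ)) (1 / 2)), p.2.2))
  let b : I × (I × S) → C := fun p =>
    K (cfill_pr (4 * (1 - (p.1 : ℝ))),
      h₁ (cfill_pr ((p.2.1 : ℝ) / max (2 * (p.1 : ℝ) - 1) (1 / 2)), p.2.2))
  let m : I × (I × S) → C := fun p =>
    K (cfill_pr (2 * (1 - (p.2.1 : ℝ))),
      H (cfill_pr (((p.1 : ℝ) - 1 / 2) / max (p.2.1 : ℝ) (1 / 2) + 1 / 2), p.2.2))
  have ca : Continuous a := by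
    refine K.continuous.comp ((hpr.comp (by fun_prop)).prodMk (h₀.continuous.comp
      ((hpr.comp ?_).prodMk (by fun_prop))))
    exact Continuous.div (by fun_prop) (by fun_prop) fun p => hmax _
  have cb : Continuous b := by
    refine K.continuous.comp ((hpr.comp (by fun_prop)).prodMk (h₁.continuous.comp
      ((hpr.comp ?_).prodMk (by fun_prop))))
    exact Continuous.div (by fun_prop) (by fun_prop) fun p => hmax _
  have cm : Continuous m := by
    refine K.continuous.comp ((hpr.comp (by fun_prop)).prodMk (H.continuous.comp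
      ((hpr.comp ?_).prodMk (by fun_prop))))
    exact (Continuous.div (by fun_prop) (by fun_prop) fun p => hmax _).add continuous_const
  have hbm : ∀ p : I × (I × S), (p.2.1 : ℝ) = 2 * (p.1 : ℝ) - 1 → b p = m p := by
    rintro ⟨u, t, s⟩ h
    simp only at h
    have hu := u.2.2
    have ht := t.2.1
    by_cases h4 : (u : ℝ) ≤ 3 / 4
    · simp only [b, m]
      rw [cfill_pr_one (x := 4 * (1 - (u : ℝ))) (by linarith),
        cfill_pr_one (x := 2 * (1 - (t : ℝ))) (by linarith), hK1, hK1]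
    · rw [not_le] at h4
      simp only [b, m]
      rw [max_eq_left (by linarith), max_eq_left (by linarith), h]
      have h1 : (2 * (u : ℝ) - 1) / (2 * (u : ℝ) - 1) = 1 := div_self (by linarith)
      have h2 : ((u : ℝ) - 1 / 2) / (2 * (u : ℝ) - 1) + 1 / 2 = 1 := by
        have h3 : 2 * (u : ℝ) - 1 ≠ 0 := by linarith
        have h5 : ((u : ℝ) - 1 / 2) / (2 * (u : ℝ) - 1) = 1 / 2 := by
          rw [div_eq_iff h3]; ring
        rw [h5]; norm_num
      rw [h1, h2, cfill_pr_one le_rfl, H₁]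
      congr 3
      ring
  have cbm : Continuous (fun p : I × (I × S) =>
      if (p.2.1 : ℝ) ≤ 2 * (p.1 : ℝ) - 1 then b p else m p) :=
    cb.if_le cm (by fun_prop) (by fun_prop) hbm
  have ham : ∀ p : I × (I × S), (p.2.1 : ℝ) = 1 - 2 * (p.1 : ℝ) →
      a p = if (p.2.1 : ℝ) ≤ 2 * (p.1 : ℝ) - 1 then b p else m p := by
    rintro ⟨u, t, s⟩ h
    simp only at h
    have hu := u.2.1
    have hu1 := u.2.2
    have ht := t.2.1
    split_ifs with h5
    · simp only at h5
      have hu2 : (u : ℝ) = 1 / 2 := by linarith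
      simp only [a, b]
      rw [cfill_pr_one (x := 4 * (u : ℝ)) (by rw [hu2]; norm_num),
        cfill_pr_one (x := 4 * (1 - (u : ℝ))) (by rw [hu2]; norm_num), hK1, hK1]
    · by_cases h4 : 1 / 4 ≤ (u : ℝ)
      · simp only [a, m]
        rw [cfill_pr_one (x := 4 * (u : ℝ)) (by linarith),
          cfill_pr_one (x := 2 * (1 - (t : ℝ))) (by linarith), hK1, hK1]
      · rw [not_le] at h4
        simp only [a, m]
        rw [max_eq_left (a := 1 - 2 * (u : ℝ)) (by linarith),
          max_eq_left (a := (t : ℝ)) (by linarith), h]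
        have h1 : (1 - 2 * (u : ℝ)) / (1 - 2 * (u : ℝ)) = 1 := div_self (by linarith)
        have h2 : ((u : ℝ) - 1 / 2) / (1 - 2 * (u : ℝ)) + 1 / 2 = 0 := by
          have h3 : 1 - 2 * (u : ℝ) ≠ 0 := by linarith
          have h5 : ((u : ℝ) - 1 / 2) / (1 - 2 * (u : ℝ)) = -(1 / 2) := by
            rw [div_eq_iff h3]; ring
          rw [h5]; norm_num
        rw [h1, h2, cfill_pr_one le_rfl, cfill_pr_zero le_rfl, H₀]
        congr 3
        ring
  have cG : Continuous (fun p : I × (I × S) => if (p.2.1 : ℝ) ≤ 1 - 2 * (p.1 : ℝ) then a p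
      else if (p.2.1 : ℝ) ≤ 2 * (p.1 : ℝ) - 1 then b p else m p) :=
    ca.if_le cbm (by fun_prop) (by fun_prop) ham
  refine ⟨⟨_, cG⟩, ?_, ?_, ?_, ?_⟩
  · rintro ⟨t, s⟩
    have ht := t.2.2
    have h1 : (t : ℝ) ≤ 1 - 2 * ((0 : I) : ℝ) := by simpa using ht
    show (if (t : ℝ) ≤ 1 - 2 * ((0 : I) : ℝ) then a (0, t, s) else _) = _
    rw [if_pos h1]
    simp only [a]
    rw [cfill_pr_zero (by simp), hK0]
    congr 2
    have : (t : ℝ) / max (1 - 2 * ((0 : I) : ℝ)) (1 / 2) = t := by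
      rw [max_eq_left (by norm_num)]
      simp
    rw [this, cfill_pr_coe]
  · rintro ⟨t, s⟩
    have ht := t.2.2
    have ht0 := t.2.1
    have h1 : ¬ (t : ℝ) ≤ 1 - 2 * ((1 : I) : ℝ) := by
      rw [not_le, Set.Icc.coe_one]; linarith
    have h2 : (t : ℝ) ≤ 2 * ((1 : I) : ℝ) - 1 := by
      rw [Set.Icc.coe_one]; linarith
    show (if (t : ℝ) ≤ 1 - 2 * ((1 : I) : ℝ) then a (1, t, s) else
      if (t : ℝ) ≤ 2 * ((1 : I) : ℝ) - 1 then b (1, t, s) else m (1, t, s)) = _
    rw [if_neg h1, if_pos h2]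
    simp only [b]
    rw [cfill_pr_zero (by simp), hK0]
    congr 2
    have : (t : ℝ) / max (2 * ((1 : I) : ℝ) - 1) (1 / 2) = t := by
      rw [max_eq_left (by norm_num), Set.Icc.coe_one]
      norm_num
    rw [this, cfill_pr_coe]
  · intro u s
    have hu0 := u.2.1
    have hu1 := u.2.2
    show (if ((1 : I) : ℝ) ≤ 1 - 2 * (u : ℝ) then a (u, 1, s) else
      if ((1 : I) : ℝ) ≤ 2 * (u : ℝ) - 1 then b (u, 1, s) else m (u, 1, s)) = _
    have hm : m (u, 1, s) = H (u, s) := by
      simp only [m]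
      rw [cfill_pr_zero (by simp), hK0]
      congr 2
      have : ((u : ℝ) - 1 / 2) / max ((1 : I) : ℝ) (1 / 2) + 1 / 2 = u := by
        rw [Set.Icc.coe_one, max_eq_left (by norm_num)]
        ring
      rw [this, cfill_pr_coe]
    rw [Set.Icc.coe_one]
    split_ifs with h1 h2
    · rw [ham (u, 1, s) (by
        show ((1 : I) : ℝ) = 1 - 2 * (u : ℝ)
        rw [Set.Icc.coe_one]; linarith), if_neg (by
        show ¬ ((1 : I) : ℝ) ≤ 2 * (u : ℝ) - 1
        rw [Set.Icc.coe_one]; linarith)]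
      exact hm
    · rw [hbm (u, 1, s) (by
        show ((1 : I) : ℝ) = 2 * (u : ℝ) - 1
        rw [Set.Icc.coe_one]; linarith)]
      exact hm
    · exact hm
  · intro u s s'
    show (if ((0 : I) : ℝ) ≤ 1 - 2 * (u : ℝ) then a (u, 0, s) else
      if ((0 : I) : ℝ) ≤ 2 * (u : ℝ) - 1 then b (u, 0, s) else m (u, 0, s)) =
      (if ((0 : I) : ℝ) ≤ 1 - 2 * (u : ℝ) then a (u, 0, s') else
      if ((0 : I) : ℝ) ≤ 2 * (u : ℝ) - 1 then b (u, 0, s') else m (u, 0, s'))
    rw [Set.Icc.coe_zero]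
    split_ifs with h1 h2
    · simp only [a]
      rw [Set.Icc.coe_zero, zero_div, cfill_pr_zero le_rfl, e₀ s s']
    · simp only [b]
      rw [Set.Icc.coe_zero, zero_div, cfill_pr_zero le_rfl, e₁ s s']
    · linarith

end CT
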