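import Mathlib
import Pool.Agent.CT.Basic

/-!
# Combinatorial topology: adding cone vertices

If `R` is a set of pairwise non-adjacent vertices of a complex, the realisation is obtained
from the subcomplex without `R` by attaching cones over the links.
-/

namespace CT

open scoped unitInterval ContinuousMap

/-- faces avoiding `R` -/
def avoid {V : Type} (F : Set (Finset V)) (R : Set V) : Set (Finset V) :=
  {s ∈ F | ∀ v ∈ s, v ∉ R}

/-- the link of a vertex -/
def lk {V : Type} [DecidableEq V] (F : Set (Finset V)) (v : V) : Set (Finset V) :=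
  {s | s.Nonempty ∧ v ∉ s ∧ insert v s ∈ F}

theorem lk_sub {V : Type} [DecidableEq V] {F : Set (Finset V)} (hF : IsCx F) {R : Set V}
    (hR : ∀ s ∈ F, ∀ v ∈ s, ∀ w ∈ s, v ∈ R → w ∈ R → v = w) (v : R) :
    lk F (v : V) ⊆ avoid F R := by
  rintro s ⟨hs, hv, hi⟩
  refine ⟨hF.down _ hi s (Finset.subset_insert _ _) hs, fun w hw hwR => ?_⟩
  have := hR _ hi v (Finset.mem_insert_self _ _) w (Finset.mem_insert_of_mem hw) v.2 hwR
  exact hv (this ▸ hw)

theorem lk_isCx {V : Type} [DecidableEq V] {F : Set (Finset V)} (hF : IsCx F) (v : V) :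
    IsCx (lk F v) where
  ne := fun _ hs => hs.1
  down := fun _ hs _ hts ht =>
    ⟨ht, fun h => hs.2.1 (hts h),
      hF.down _ hs.2.2 _ (Finset.insert_subset_insert _ hts) (Finset.insert_nonempty _ _)⟩

theorem avoid_isCx {V : Type} {F : Set (Finset V)} (hF : IsCx F) (R : Set V) :
    IsCx (avoid F R) where
  ne := fun s hs => hF.ne s hs.1
  down := fun s hs t hts ht => ⟨hF.down s hs.1 t hts ht, fun v hv => hs.2 v (hts hv)⟩

section vatt

theorem vatt_vtx_self {V : Type} (v : V) : vtx v v = 1 := by simp [vtx]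

theorem vatt_vtx_ne {V : Type} {v w : V} (h : w ≠ v) : vtx v w = 0 := by simp [vtx, h]

variable {V : Type} [DecidableEq V] {F A : Set (Finset V)} {R : Set V}
  {L : R → Set (Finset V)}

theorem vatt_mem (hF : IsCx F) (hL : ∀ v : R, L v = lk F (v : V)) (v : R) (t : I)
    (y : Rz (L v)) :
    (1 - (t : ℝ)) • vtx (v : V) + (t : ℝ) • (y : V → ℝ) ∈ Rz F := by
  obtain ⟨y, s, hs, hy⟩ := y
  rw [hL] at hs
  rw [mem_Rz_iff hF]
  refine ⟨insert (v : V) s, hs.2.2, ?_⟩
  have h1 : vtx (v : V) ∈ cl (insert (v : V) s) := vtx_mem_cl (Finset.mem_insert_self _ _)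
  have h2 : y ∈ cl (insert (v : V) s) := cl_mono (Finset.subset_insert _ _) (cl_of_bary hy)
  exact cl_convex _ h1 h2 (by linarith [t.2.2]) t.2.1 (by ring)

/-- the map of the attached space to the realisation -/
noncomputable def vattMap (hF : IsCx F) (hA : A = avoid F R)
    (hL : ∀ v : R, L v = lk F (v : V)) (hs : ∀ v, L v ⊆ A) :
    C(Att (X := Rz A) (J := R) (fun v => Rz (L v)) (fun v => RIncl (hs v)), Rz F) :=
  attDesc (RIncl (by rw [hA]; exact fun s h => h.1))
    (fun v => ⟨fun p => ⟨(1 - (p.1 : ℝ)) • vtx (v : V) + (p.1 : ℝ) • (p.2 : V → ℝ),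
      vatt_mem hF hL v p.1 p.2⟩, by
        refine Continuous.subtype_mk ?_ _
        fun_prop⟩)
    (by intro j s; apply Subtype.ext; simp) (by intro j s s'; apply Subtype.ext; simp)

theorem vattMap_in (hF : IsCx F) (hA : A = avoid F R)
    (hL : ∀ v : R, L v = lk F (v : V)) (hs : ∀ v, L v ⊆ A) (x : Rz A) :
    (vattMap hF hA hL hs (attIn _ _ x) : V → ℝ) = x := rfl

theorem vattMap_cell (hF : IsCx F) (hA : A = avoid F R)
    (hL : ∀ v : R, L v = lk F (v : V)) (hs : ∀ v, L v ⊆ A) (v : R) (t : I) (y : Rz (L v)) :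
    (vattMap hF hA hL hs (attCell _ _ v (t, y)) : V → ℝ) =
      (1 - (t : ℝ)) • vtx (v : V) + (t : ℝ) • (y : V → ℝ) := rfl

omit [DecidableEq V] in
theorem vatt_base_zero (hA : A = avoid F R) (v : R) (x : Rz A) : (x : V → ℝ) v = 0 := by
  obtain ⟨x, s, hs, hx⟩ := x
  rw [hA] at hs
  exact hx.2.1 v fun h => hs.2 v h v.2

theorem vatt_link_zero (hL : ∀ v : R, L v = lk F (v : V)) (v : R) (y : Rz (L v)) :
    (y : V → ℝ) v = 0 := by
  obtain ⟨y, s, hs, hy⟩ := y
  rw [hL] at hs
  exact hy.2.1 v hs.2.1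

theorem vatt_cell_val (hL : ∀ v : R, L v = lk F (v : V)) (v : R) (t : I) (y : Rz (L v)) :
    ((1 - (t : ℝ)) • vtx (v : V) + (t : ℝ) • (y : V → ℝ)) v = 1 - (t : ℝ) := by
  simp [vatt_vtx_self, vatt_link_zero hL v y]

theorem vatt_uniq (hR : ∀ s ∈ F, ∀ v ∈ s, ∀ w ∈ s, v ∈ R → w ∈ R → v = w)
    (x : Rz F) (v w : R) (hv : (x : V → ℝ) v ≠ 0) (hw : (x : V → ℝ) w ≠ 0) : v = w := by
  obtain ⟨x, s, hs, hx⟩ := x
  have h1 : (v : V) ∈ s := by
    by_contra h
    exact hv (hx.2.1 v h)
  have h2 : (w : V) ∈ s := by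
    by_contra h
    exact hw (hx.2.1 w h)
  exact Subtype.ext (hR s hs v h1 w h2 v.2 w.2)

omit [DecidableEq V] in
/-- each point is in the base or in an open cone -/
theorem vatt_normal (hs : ∀ v, L v ⊆ A)
    (z : Att (X := Rz A) (J := R) (fun v => Rz (L v)) (fun v => RIncl (hs v))) :
    (∃ x, z = attIn _ _ x) ∨ ∃ (v : R) (t : I) (y : Rz (L v)), t ≠ 1 ∧
      z = attCell _ _ v (t, y) := by
  refine att_cases (motive := fun z => (∃ x, z = attIn _ _ x) ∨ ∃ (v : R) (t : I)
    (y : Rz (L v)), t ≠ 1 ∧ z = attCell _ _ v (t, y)) z ?_ ?_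
  · intro x
    exact Or.inl ⟨x, rfl⟩
  · rintro v ⟨t, y⟩
    by_cases ht : t = 1
    · subst ht
      exact Or.inl ⟨_, attCell_one (S := fun v => Rz (L v)) (f := fun v => RIncl (hs v)) v y⟩
    · exact Or.inr ⟨v, t, y, ht, rfl⟩

theorem vattMap_injective (hF : IsCx F) (hA : A = avoid F R)
    (hL : ∀ v : R, L v = lk F (v : V)) (hs : ∀ v, L v ⊆ A)
    (hR : ∀ s ∈ F, ∀ v ∈ s, ∀ w ∈ s, v ∈ R → w ∈ R → v = w) :
    Function.Injective (vattMap hF hA hL hs) := by
  intro z z' h
  rcases vatt_normal hs z with ⟨x, rfl⟩ | ⟨v, t, y, ht, rfl⟩ <;>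
  rcases vatt_normal hs z' with ⟨x', rfl⟩ | ⟨v', t', y', ht', rfl⟩
  · congr 1
    apply Subtype.ext
    have := congrArg (fun q : Rz F => (q : V → ℝ)) h
    exact this
  · exfalso
    have h1 := congrFun (congrArg (fun q : Rz F => (q : V → ℝ)) h) (v' : V)
    simp only [vattMap_in, vattMap_cell, vatt_cell_val hL, vatt_base_zero hA] at h1
    apply ht'
    apply Subtype.ext
    show (t' : ℝ) = 1
    linarith
  · exfalso
    have h1 := congrFun (congrArg (fun q : Rz F => (q : V → ℝ)) h) (v : V)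
    simp only [vattMap_in, vattMap_cell, vatt_cell_val hL, vatt_base_zero hA] at h1
    apply ht
    apply Subtype.ext
    show (t : ℝ) = 1
    linarith
  · have hpos : ∀ (v : R) (t : I) (y : Rz (L v)), t ≠ 1 →
        (vattMap hF hA hL hs (attCell _ _ v (t, y)) : V → ℝ) v ≠ 0 := by
      intro v t y ht h0
      rw [vattMap_cell, vatt_cell_val hL] at h0
      apply ht
      apply Subtype.ext
      show (t : ℝ) = 1
      linarith
    have hvv : v = v' := by
      refine vatt_uniq hR (vattMap hF hA hL hs (attCell _ _ v (t, y))) v v'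
        (hpos v t y ht) ?_
      rw [h]
      exact hpos v' t' y' ht'
    subst hvv
    have h1 := congrFun (congrArg (fun q : Rz F => (q : V → ℝ)) h) (v : V)
    simp only [vattMap_cell, vatt_cell_val hL] at h1
    have htt : t = t' := by
      apply Subtype.ext
      linarith
    subst htt
    by_cases ht0 : t = 0
    · subst ht0
      exact attCell_zero (S := fun v => Rz (L v)) (f := fun v => RIncl (hs v)) v y y'
    · have ht0' : (t : ℝ) ≠ 0 := fun h0 => ht0 (Subtype.ext h0)
      have h2 := congrArg (fun q : Rz F => (q : V → ℝ)) h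
      simp only [vattMap_cell] at h2
      have h3 : (y : V → ℝ) = y' := by
        have := add_left_cancel h2
        exact smul_right_injective _ ht0' this
      have h4 : y = y' := Subtype.ext h3
      rw [h4]

theorem vattMap_surjective (hF : IsCx F) (hA : A = avoid F R)
    (hL : ∀ v : R, L v = lk F (v : V)) (hs : ∀ v, L v ⊆ A)
    (hne : ∀ v : R, (lk F (v : V)).Nonempty) :
    Function.Surjective (vattMap hF hA hL hs) := by
  rintro ⟨x, s, hsF, hx⟩
  by_cases hsR : ∀ v ∈ s, v ∉ R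
  · refine ⟨attIn _ _ ⟨x, s, ?_, hx⟩, rfl⟩
    rw [hA]
    exact ⟨hsF, hsR⟩
  · push Not at hsR
    obtain ⟨v, hvs, hvR⟩ := hsR
    by_cases hsv : s = {v}
    · -- the cone point
      obtain ⟨u, hu, huv, huF⟩ := hne ⟨v, hvR⟩
      obtain ⟨w, hw⟩ := hu
      have hwL : ({w} : Finset V) ∈ L ⟨v, hvR⟩ := by
        rw [hL]
        refine (lk_isCx hF v).down u ⟨⟨w, hw⟩, huv, huF⟩ {w} ?_ (Finset.singleton_nonempty w)
        simpa using hw
      refine ⟨attCell _ _ ⟨v, hvR⟩ (0, ⟨vtx w, vtx_mem hwL⟩), ?_⟩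
      apply Subtype.ext
      rw [vattMap_cell]
      subst hsv
      funext q
      have hxv : x v = 1 := by
        have := hx.2.2
        simpa using this
      by_cases hq : q = v
      · subst hq
        simp [vatt_vtx_self, hxv]
      · have : x q = 0 := hx.2.1 q (by simpa using hq)
        simp [vatt_vtx_ne hq, this]
    · -- a point of the open cone
      have hne' : (s.erase v).Nonempty := by
        rw [Finset.nonempty_iff_ne_empty]
        intro h0
        apply hsv
        rw [← Finset.insert_erase hvs, h0]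
        rfl
      have hsum : ∑ u ∈ s.erase v, x u = 1 - x v := by
        have := Finset.add_sum_erase s x hvs
        rw [hx.2.2] at this
        linarith
      have hpos : 0 < 1 - x v := by
        rw [← hsum]
        exact Finset.sum_pos (fun u hu => hx.1 u (Finset.mem_of_mem_erase hu)) hne'
      have hxv : 0 < x v := hx.1 v hvs
      have hmem : s.erase v ∈ L ⟨v, hvR⟩ := by
        rw [hL]
        refine ⟨hne', Finset.notMem_erase _ _, ?_⟩
        show insert v (s.erase v) ∈ F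
        rw [Finset.insert_erase hvs]
        exact hsF
      have hy : IsBary (s.erase v) (fun u => if u = v then 0 else x u / (1 - x v)) := by
        refine ⟨?_, ?_, ?_⟩
        · intro u hu
          have hu' := Finset.mem_erase.1 hu
          simp only [hu'.1, if_false]
          exact div_pos (hx.1 u hu'.2) hpos
        · intro u hu
          by_cases huv : u = v
          · simp [huv]
          · simp only [huv, if_false]
            rw [hx.2.1 u (fun h => hu (Finset.mem_erase.2 ⟨huv, h⟩)), zero_div]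
        · rw [Finset.sum_congr rfl (g := fun u => x u / (1 - x v))]
          · rw [← Finset.sum_div, hsum, div_self hpos.ne']
          · intro u hu
            simp [(Finset.mem_erase.1 hu).1]
      refine ⟨attCell _ _ ⟨v, hvR⟩ (⟨1 - x v, hpos.le, by linarith⟩, ⟨_, _, hmem, hy⟩), ?_⟩
      apply Subtype.ext
      rw [vattMap_cell]
      funext q
      by_cases hq : q = v
      · subst hq
        simp [vatt_vtx_self]
      · simp only [Pi.add_apply, Pi.smul_apply, smul_eq_mul, vatt_vtx_ne hq, hq, if_false]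
        field_simp
        ring

/-- general form -/
theorem vatt_general (hF : IsCx F) (hfin : F.Finite) (hA : A = avoid F R)
    (hL : ∀ v : R, L v = lk F (v : V)) (hs : ∀ v, L v ⊆ A)
    (hR : ∀ s ∈ F, ∀ v ∈ s, ∀ w ∈ s, v ∈ R → w ∈ R → v = w) (hRV : ∀ v ∈ R, {v} ∈ F)
    (hne : ∀ v : R, (lk F (v : V)).Nonempty) :
    ∃ e : Att (X := Rz A) (J := R) (fun v => Rz (L v)) (fun v => RIncl (hs v)) ≃ₜ Rz F,
      (∀ x, (e (attIn _ _ x) : V → ℝ) = x) ∧
      ∀ (v : R) (t : I) (y : Rz (L v)),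
        (e (attCell _ _ v (t, y)) : V → ℝ) =
          (1 - (t : ℝ)) • vtx (v : V) + (t : ℝ) • (y : V → ℝ) := by
  have hfR : Finite R := by
    have h1 : (F.preimage fun v : V => ({v} : Finset V)).Finite :=
      hfin.preimage (Function.Injective.injOn Finset.singleton_injective)
    exact (h1.subset fun v hv => hRV v hv).to_subtype
  have hfA : A.Finite := by
    rw [hA]
    exact hfin.subset fun s h => h.1
  have hcA : IsCx A := by
    rw [hA]
    exact avoid_isCx hF R
  have : CompactSpace (Rz A) := isCompact_iff_compactSpace.1 (isCompact_Rz hcA hfA)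
  have : ∀ v : R, CompactSpace (Rz (L v)) := fun v =>
    isCompact_iff_compactSpace.1 (isCompact_Rz (by rw [hL]; exact lk_isCx hF _)
      (hfA.subset (hs v)))
  have : CompactSpace (Att (X := Rz A) (J := R) (fun v => Rz (L v))
      (fun v => RIncl (hs v))) :=
    inferInstanceAs (CompactSpace (Quot _))
  let f : Att (X := Rz A) (J := R) (fun v => Rz (L v)) (fun v => RIncl (hs v)) ≃ Rz F :=
    Equiv.ofBijective (vattMap hF hA hL hs)
      ⟨vattMap_injective hF hA hL hs hR, vattMap_surjective hF hA hL hs hne⟩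
  have hf : Continuous f := (vattMap hF hA hL hs).continuous
  exact ⟨hf.homeoOfEquivCompactToT2, fun x => rfl, fun v t y => rfl⟩

end vatt

/-- attaching cones over the links of the vertices in `R` (each link is nonempty) -/
theorem vertex_attach {V : Type} [DecidableEq V] {F : Set (Finset V)}
    (hF : IsCx F) (hfin : F.Finite) {R : Set V}
    (hR : ∀ s ∈ F, ∀ v ∈ s, ∀ w ∈ s, v ∈ R → w ∈ R → v = w) (hRV : ∀ v ∈ R, {v} ∈ F)
    (hne : ∀ v ∈ R, (lk F v).Nonempty) :
    ∃ e : Att (X := Rz (avoid F R)) (J := R) (fun v => Rz (lk F (v : V)))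
        (fun v => RIncl (lk_sub hF hR v)) ≃ₜ Rz F,
      (∀ x, (e (attIn _ _ x) : V → ℝ) = x) ∧
      ∀ (v : R) (t : I) (y : Rz (lk F (v : V))),
        (e (attCell _ _ v (t, y)) : V → ℝ) = (1 - (t : ℝ)) • vtx (v : V) + (t : ℝ) • (y : V → ℝ) :=
  vatt_general hF hfin rfl (fun _ => rfl) (fun v => lk_sub hF hR v) hR hRV
    (fun v => hne v v.2)

/-- the elements of `Q` below `p` -/
abbrev below {P : Type} [PartialOrder P] (Q : Set P) (p : P) : Set P := {q ∈ Q | q < p}

theorem OC_below_sub {P : Type} [PartialOrder P] {Q : Set P} {R : Set P} (hRQ : R ⊆ Q)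
    (hR : ∀ p ∈ R, ∀ q ∈ Q, p ≤ q → q = p) (p : R) :
    OC (below Q (p : P)) ⊆ OC (Q \ R) := by
  rintro s ⟨h1, h2, h3⟩
  refine ⟨h1, fun q hq => ⟨(h2 hq).1, fun hqR => ?_⟩, h3⟩
  have h4 := hR q hqR p (hRQ p.2) (h2 hq).2.le
  exact (h2 hq).2.ne h4.symm

theorem vatt_OC_avoid {P : Type} [PartialOrder P] (Q R : Set P) :
    OC (Q \ R) = avoid (OC Q) R := by
  ext s
  constructor
  · rintro ⟨h1, h2, h3⟩
    exact ⟨⟨h1, fun q hq => (h2 hq).1, h3⟩, fun q hq => (h2 hq).2⟩
  · rintro ⟨⟨h1, h2, h3⟩, h4⟩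
    exact ⟨h1, fun q hq => ⟨h2 hq, h4 q hq⟩, h3⟩

theorem vatt_OC_lk {P : Type} [PartialOrder P] [DecidableEq P] {Q R : Set P} (hRQ : R ⊆ Q)
    (hR : ∀ p ∈ R, ∀ q ∈ Q, p ≤ q → q = p) (p : R) :
    OC (below Q (p : P)) = lk (OC Q) (p : P) := by
  ext s
  constructor
  · rintro ⟨h1, h2, h3⟩
    refine ⟨h1, fun h => lt_irrefl _ (h2 h).2, Finset.insert_nonempty _ _, ?_, ?_⟩
    · intro q hq
      rcases Finset.mem_insert.1 (Finset.mem_coe.1 hq) with rfl | hq
      · exact hRQ p.2
      · exact (h2 hq).1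
    · rw [Finset.coe_insert]
      exact h3.insert fun q hq _ => Or.inr (h2 hq).2.le
  · rintro ⟨h1, h2, h3, h4, h5⟩
    refine ⟨h1, fun q hq => ?_, h5.mono (Finset.coe_subset.2 (Finset.subset_insert _ _))⟩
    have hq' : q ∈ insert (p : P) s := Finset.mem_insert_of_mem hq
    have hqQ : q ∈ Q := h4 (Finset.mem_coe.2 hq')
    have hne : q ≠ p := fun h => h2 (h ▸ hq)
    refine ⟨hqQ, ?_⟩
    rcases h5 (Finset.mem_coe.2 hq') (Finset.mem_coe.2 (Finset.mem_insert_self _ _)) hne with
      h | h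
    · exact lt_of_le_of_ne h hne
    · exact absurd (hR p p.2 q hqQ h) hne

/-- the poset version: adding a set `R ⊆ Q` of maximal elements of `Q` -/
theorem poset_attach {P : Type} [PartialOrder P] {Q R : Set P} (hQ : Q.Finite) (hRQ : R ⊆ Q)
    (hR : ∀ p ∈ R, ∀ q ∈ Q, p ≤ q → q = p) (hne : ∀ p ∈ R, ∃ q ∈ Q, q < p) :
    ∃ e : Att (X := Rz (OC (Q \ R))) (J := R) (fun p => Rz (OC (below Q (p : P))))
        (fun p => RIncl (OC_below_sub hRQ hR p)) ≃ₜ Rz (OC Q),
      (∀ x, (e (attIn _ _ x) : P → ℝ) = x) ∧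
      ∀ (p : R) (t : I) (y : Rz (OC (below Q (p : P)))),
        (e (attCell _ _ p (t, y)) : P → ℝ) = (1 - (t : ℝ)) • vtx (p : P) + (t : ℝ) • (y : P → ℝ) := by
  classical
  refine vatt_general (OC_isCx Q) (OC_finite hQ) (vatt_OC_avoid Q R)
    (fun p => vatt_OC_lk hRQ hR p) (fun p => OC_below_sub hRQ hR p) ?_ ?_ ?_
  · rintro s ⟨h1, h2, h3⟩ v hv w hw hvR hwR
    by_contra hne
    rcases h3 (Finset.mem_coe.2 hv) (Finset.mem_coe.2 hw) hne with h | h
    · exact hne (hR v hvR w (h2 hw) h).symm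
    · exact hne (hR w hwR v (h2 hv) h)
  · intro v hv
    refine ⟨Finset.singleton_nonempty v, ?_, ?_⟩
    · rw [Finset.coe_singleton, Set.singleton_subset_iff]
      exact hRQ hv
    · rw [Finset.coe_singleton]
      exact Set.subsingleton_singleton.isChain
  · intro p
    obtain ⟨q, hq, hlt⟩ := hne p p.2
    rw [← vatt_OC_lk hRQ hR p]
    refine ⟨{q}, Finset.singleton_nonempty q, ?_, ?_⟩
    · rw [Finset.coe_singleton, Set.singleton_subset_iff]
      exact ⟨hq, hlt⟩
    · rw [Finset.coe_singleton]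
      exact Set.subsingleton_singleton.isChain

end CT
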