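import Mathlib
import Pool.Agent.CT.Vatt
import Pool.Agent.CT.CFill
import Pool.Agent.CT.AttA

/-!
# Combinatorial topology: contractible carriers on finite posets
-/

namespace CT

open scoped unitInterval ContinuousMap

variable {P : Type} [PartialOrder P]

/-- the elements of `A` which are at most `p` -/
abbrev le1 (A : Set P) (p : P) : Set P := {q ∈ A | q ≤ p}

/-- the elements of `A` which are at least `p` -/
abbrev ge1 (A : Set P) (p : P) : Set P := {q ∈ A | p ≤ q}

/-- induction on finite posets by removing maximal elements -/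
theorem carr_ind {motive : Set P → Prop} (h0 : motive ∅)
    (h1 : ∀ A : Set P, A.Finite → ∀ m ∈ A, (∀ q ∈ A, m ≤ q → q = m) → motive (A \ {m}) →
      motive A) (A : Set P) (hA : A.Finite) : motive A := by
  induction hn : A.ncard using Nat.strong_induction_on generalizing A with
  | _ n ih =>
    rcases A.eq_empty_or_nonempty with rfl | hne
    · exact h0
    · obtain ⟨m, hm⟩ := hA.exists_maximal hne
      refine h1 A hA m hm.prop (fun q hq hmq => le_antisymm (hm.le_of_ge hq hmq) hmq)
        (ih _ ?_ (A \ {m}) (hA.subset Set.sdiff_subset) rfl)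
      rw [← hn]
      exact Set.ncard_sdiff_singleton_lt_of_mem hm.prop hA

/-- points of a realisation of an order complex vanish outside -/
theorem carr_zero {Q : Set P} {x : P → ℝ} (hx : x ∈ Rz (OC Q)) {p : P} (hp : p ∉ Q) :
    x p = 0 := by
  obtain ⟨s, hs, hb⟩ := hx
  exact hb.2.1 p fun h => hp (hs.2.1 h)

/-- a point of a larger order complex vanishing outside of a subset lies in its realisation -/
theorem carr_restrict {Q Q' : Set P} {x : P → ℝ} (hx : x ∈ Rz (OC Q))
    (h : ∀ p ∈ Q, x p ≠ 0 → p ∈ Q') : x ∈ Rz (OC Q') := by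
  obtain ⟨s, hs, hb⟩ := hx
  exact ⟨s, ⟨hs.1, fun p hp => h p (hs.2.1 hp) (hb.1 p hp).ne', hs.2.2⟩, hb⟩

/-- a point of the realisation of an order complex lies below an element -/
theorem carr_top {Q : Set P} {x : P → ℝ} (hx : x ∈ Rz (OC Q)) :
    ∃ q ∈ Q, x ∈ Rz (OC (le1 Q q)) := by
  obtain ⟨s, hs, hb⟩ := hx
  obtain ⟨q, hq⟩ := s.finite_toSet.exists_maximal hs.1
  have hq1 : q ∈ s := hq.prop
  refine ⟨q, hs.2.1 hq1, s, ⟨hs.1, fun p hp => ⟨hs.2.1 hp, ?_⟩, hs.2.2⟩, hb⟩
  rcases hs.2.2.total hp hq1 with h | h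
  · exact h
  · exact hq.le_of_ge hp h

/-- extension over an isolated point -/
theorem carr_isolated {T Z : Type} [TopologicalSpace T] [TopologicalSpace Z] {A : Set P} {m : P}
    (hm : ∀ q ∈ A, m ≤ q → q = m) (hm' : ∀ q ∈ A, ¬ q < m)
    (F' : C(T × Rz (OC (A \ {m})), Z)) (G : C(T, Z)) :
    ∃ F : C(T × Rz (OC A), Z), (∀ t (x : Rz (OC A)) (x' : Rz (OC (A \ {m}))),
      (x : P → ℝ) = x' → F (t, x) = F' (t, x')) ∧
      ∀ t (x : Rz (OC A)), (x : P → ℝ) m ≠ 0 → F (t, x) = G t := by
  classical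
  have key : ∀ x : Rz (OC A), (x : P → ℝ) m = 0 ∨ (x : P → ℝ) m = 1 := by
    rintro ⟨x, s, hs, hb⟩
    by_cases hms : m ∈ s
    · right
      have : s = {m} := by
        refine Finset.eq_singleton_iff_unique_mem.2 ⟨hms, fun q hq => ?_⟩
        rcases hs.2.2.total hms hq with h | h
        · exact hm q (hs.2.1 hq) h
        · rcases h.lt_or_eq with h | h
          · exact (hm' q (hs.2.1 hq) h).elim
          · exact h
      have h1 := hb.2.2
      rw [this, Finset.sum_singleton] at h1
      exact h1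
    · left
      exact hb.2.1 m hms
  have hin : ∀ x : Rz (OC A), (x : P → ℝ) m = 0 → (x : P → ℝ) ∈ Rz (OC (A \ {m})) := by
    intro x hx
    refine carr_restrict x.2 fun p hp hxp => ⟨hp, ?_⟩
    rintro rfl
    exact hxp hx
  let F : T × Rz (OC A) → Z := fun p =>
    if h : (p.2 : P → ℝ) ∈ Rz (OC (A \ {m})) then F' (p.1, ⟨p.2, h⟩) else G p.1
  have hev : Continuous fun p : T × Rz (OC A) => (p.2 : P → ℝ) m :=
    (continuous_apply m).comp (continuous_subtype_val.comp continuous_snd)
  have hU : IsOpen {p : T × Rz (OC A) | (p.2 : P → ℝ) m < 1 / 2} :=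
    isOpen_lt hev continuous_const
  have hW : IsOpen {p : T × Rz (OC A) | 1 / 2 < (p.2 : P → ℝ) m} :=
    isOpen_lt continuous_const hev
  have hinU : ∀ p : T × Rz (OC A), (p.2 : P → ℝ) m < 1 / 2 →
      (p.2 : P → ℝ) ∈ Rz (OC (A \ {m})) := by
    intro p hp
    rcases key p.2 with h | h
    · exact hin p.2 h
    · rw [h] at hp; norm_num at hp
  have hF : Continuous F := by
    rw [continuous_iff_continuousAt]
    intro p
    rcases key p.2 with h | h
    · have hpU : p ∈ {p : T × Rz (OC A) | (p.2 : P → ℝ) m < 1 / 2} := by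
        show (p.2 : P → ℝ) m < 1 / 2
        rw [h]; norm_num
      refine ContinuousOn.continuousAt ?_ (hU.mem_nhds hpU)
      rw [continuousOn_iff_continuous_domRestrict]
      have : Set.domRestrict {p : T × Rz (OC A) | (p.2 : P → ℝ) m < 1 / 2} F =
          fun p => F' (p.1.1, ⟨p.1.2, hinU p.1 p.2⟩) := by
        funext q
        exact dif_pos (hinU q.1 q.2)
      rw [this]
      refine F'.continuous.comp (Continuous.prodMk (by fun_prop) ?_)
      exact Continuous.subtype_mk (by fun_prop) _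
    · have hpW : p ∈ {p : T × Rz (OC A) | 1 / 2 < (p.2 : P → ℝ) m} := by
        show 1 / 2 < (p.2 : P → ℝ) m
        rw [h]; norm_num
      refine ContinuousOn.continuousAt ?_ (hW.mem_nhds hpW)
      refine (G.continuous.comp continuous_fst).continuousOn.congr ?_
      intro q hq
      refine dif_neg fun hq' => ?_
      have h0 : (q.2 : P → ℝ) m = 0 := carr_zero hq' (fun h => h.2 rfl)
      have hq1 : 1 / 2 < (q.2 : P → ℝ) m := hq
      rw [h0] at hq1
      norm_num at hq1
  refine ⟨⟨F, hF⟩, ?_, ?_⟩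
  · intro t x x' hxx
    have h1 : (x : P → ℝ) ∈ Rz (OC (A \ {m})) := by rw [hxx]; exact x'.2
    show F (t, x) = _
    simp only [F]
    rw [dif_pos h1]
    congr 2
    exact Subtype.ext hxx
  · intro t x hx
    show F (t, x) = _
    simp only [F]
    rw [dif_neg]
    intro h
    exact hx (carr_zero h (fun h => h.2 rfl))

section step

variable {Y : Type} {A : Set P} {m : P}

/-- carriers on the pieces, base points -/
theorem carr_base (hmA : m ∈ A) (hm : ∀ q ∈ A, m ≤ q → q = m) (C : P → Set Y)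
    (hmono : ∀ p ∈ A, ∀ q ∈ A, p ≤ q → C p ⊆ C q)
    (f' : Rz (OC (A \ {m})) → Y)
    (hf' : ∀ p ∈ A \ {m}, ∀ x : Rz (OC (A \ {m})), (x : P → ℝ) ∈ Rz (OC (le1 (A \ {m}) p)) →
      f' x ∈ C p) (x : Rz (OC (A \ {m}))) (p : P) (hp : p ∈ A)
    (hx : (x : P → ℝ) ∈ Rz (OC (le1 A p))) : f' x ∈ C p := by
  by_cases hpm : p = m
  · subst hpm
    have h1 : (x : P → ℝ) ∈ Rz (OC (le1 (A \ {p}) p)) := by
      refine carr_restrict hx fun q hq hxq => ⟨⟨hq.1, ?_⟩, hq.2⟩
      intro hqm
      rw [Set.mem_singleton_iff] at hqm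
      rw [hqm] at hxq
      exact hxq (carr_zero x.2 fun h => h.2 rfl)
    obtain ⟨q, hq, hxq⟩ := carr_top h1
    refine hmono q hq.1.1 p hp hq.2 (hf' q hq.1 x (carr_restrict hxq fun r hr _ => ?_))
    exact ⟨hr.1.1, hr.2⟩
  · exact hf' p ⟨hp, hpm⟩ x (carr_restrict hx fun q hq hxq => ⟨⟨hq.1, fun hqm => by
      rw [Set.mem_singleton_iff] at hqm
      rw [hqm] at hxq
      exact hxq (carr_zero x.2 fun h => h.2 rfl)⟩, hq.2⟩)

end step

/-- the realisation of a poset with a maximal element `m` which is not minimal: it consists of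
the part without `m` and a cone; maps (and homotopies) can be defined piecewise -/
theorem carr_pushout {A : Set P} (hA : A.Finite) {m : P} (hmA : m ∈ A)
    (hm : ∀ q ∈ A, m ≤ q → q = m) (hlow : ∃ q ∈ A, q < m) :
    ∃ cel : C(I × Rz (OC (below A m)), Rz (OC A)),
      (∀ (t : I) (y : Rz (OC (below A m))), (cel (t, y) : P → ℝ) =
        (1 - (t : ℝ)) • vtx m + (t : ℝ) • (y : P → ℝ)) ∧
      (∀ x : Rz (OC A), (∃ x' : Rz (OC (A \ {m})), (x : P → ℝ) = x') ∨ ∃ p, cel p = x) ∧
      ∀ (Z : Type) [TopologicalSpace Z] (F' : C(I × Rz (OC (A \ {m})), Z))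
        (h : C(I × (I × Rz (OC (below A m))), Z)),
        (∀ u (y : Rz (OC (below A m))) (y' : Rz (OC (A \ {m}))), (y : P → ℝ) = y' →
          h (u, (1, y)) = F' (u, y')) →
        (∀ u y y', h (u, (0, y)) = h (u, (0, y'))) →
        ∃ K : C(I × Rz (OC A), Z),
          (∀ u (x : Rz (OC A)) (x' : Rz (OC (A \ {m}))), (x : P → ℝ) = x' →
            K (u, x) = F' (u, x')) ∧ ∀ u p, K (u, cel p) = h (u, p) := by
  classical
  have hR : ∀ p ∈ ({m} : Set P), ∀ q ∈ A, p ≤ q → q = p := by
    intro p hp q hq hpq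
    rw [Set.mem_singleton_iff] at hp
    subst hp
    exact hm q hq hpq
  obtain ⟨e, he1, he2⟩ := poset_attach (R := {m}) hA (Set.singleton_subset_iff.2 hmA) hR
    (fun p hp => by
      rw [Set.mem_singleton_iff] at hp
      subst hp
      exact hlow)
  let S : ({m} : Set P) → Type := fun p => Rz (OC (below A (p : P)))
  let f : ∀ p : ({m} : Set P), C(S p, Rz (OC (A \ {m}))) := fun p => RIncl (OC_below_sub (Set.singleton_subset_iff.2 hmA) hR p)
  let M : ({m} : Set P) := ⟨m, rfl⟩
  let cel : C(I × Rz (OC (below A m)), Rz (OC A)) := (e : C(Att S f, Rz (OC A))).comp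
    (attCell S f M)
  refine ⟨cel, fun t y => he2 M t y, ?_, ?_⟩
  · intro x
    obtain ⟨z, rfl⟩ := e.surjective x
    refine att_cases (S := S) (f := f) (motive := fun z =>
      (∃ x' : Rz (OC (A \ {m})), (e z : P → ℝ) = x') ∨ ∃ p, cel p = e z) z ?_ ?_
    · intro x'
      exact Or.inl ⟨x', he1 x'⟩
    · rintro ⟨j, hj⟩ p
      obtain rfl : j = m := hj
      exact Or.inr ⟨p, rfl⟩
  · intro Z _ F' h h1 h0
    have hex : ∀ j : ({m} : Set P), ∃ h' : C(I × (I × S j), Z),
        (∀ u y, h' (u, (1, y)) = F' (u, f j y)) ∧ (∀ u y y', h' (u, (0, y)) = h' (u, (0, y'))) ∧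
        ∀ (u t : I) (y : S j) (y' : Rz (OC (below A m))), (y : P → ℝ) = y' →
          h' (u, (t, y)) = h (u, (t, y')) := by
      rintro ⟨j, hj⟩
      obtain rfl : j = m := hj
      refine ⟨h, fun u y => h1 u y _ rfl, h0, fun u t y y' hy => ?_⟩
      have : y = y' := Subtype.ext hy
      rw [this]
    choose h' h1' h0' hh' using hex
    obtain ⟨K, K1, K2⟩ := att_homotopy_exists S f F' h' (fun j u y => h1' j u y)
      (fun j u y y' => h0' j u y y')
    refine ⟨K.comp (ContinuousMap.prodMap (ContinuousMap.id I) (e.symm : C(Rz (OC A), Att S f))),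
      ?_, ?_⟩
    · intro u x x' hx
      have hx2 : x = e (attIn S f x') := Subtype.ext (hx.trans (he1 x').symm)
      show K (u, e.symm x) = _
      rw [hx2, e.symm_apply_apply, K1]
    · intro u p
      show K (u, e.symm (e (attCell S f M p))) = _
      rw [e.symm_apply_apply, K2]
      exact hh' M u p.1 p.2 p.2 rfl

/-- carriers on the cone -/
theorem carr_cell_mem {A : Set P} {m : P}
    {x : P → ℝ} {t : I} {y : Rz (OC (below A m))}
    (hx : x = (1 - (t : ℝ)) • vtx m + (t : ℝ) • (y : P → ℝ)) (hxA : x ∈ Rz (OC A)) :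
    x ∈ Rz (OC (le1 A m)) := by
  refine carr_restrict hxA fun q hq hxq => ⟨hq, ?_⟩
  rw [hx] at hxq
  by_contra hqj
  apply hxq
  have hy0 : (y : P → ℝ) q = 0 := carr_zero y.2 fun h => hqj h.2.le
  have hne : q ≠ m := fun h => hqj h.le
  simp [vtx, hy0, hne]

/-- a point of the cone without the coordinate of the apex lies in the base -/
theorem carr_cell_base {A : Set P} {m : P} {x : P → ℝ} {t : I} {y : Rz (OC (below A m))}
    (hx : x = (1 - (t : ℝ)) • vtx m + (t : ℝ) • (y : P → ℝ)) (hxm : x m = 0) : x = y := by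
  have hy0 : (y : P → ℝ) m = 0 := carr_zero y.2 fun h => lt_irrefl _ h.2
  have ht : (t : ℝ) = 1 := by
    rw [hx] at hxm
    simp only [Pi.add_apply, Pi.smul_apply, smul_eq_mul, hy0, mul_zero, add_zero, vtx,
      if_true, mul_one] at hxm
    linarith
  rw [hx, ht]
  simp

/-- the empty realisation -/
theorem carr_isEmpty : IsEmpty (Rz (OC (∅ : Set P))) := by
  refine ⟨fun x => ?_⟩
  obtain ⟨s, hs, _⟩ := x.2
  obtain ⟨q, hq⟩ := hs.1
  exact hs.2.1 hq

/-- existence of carried maps -/
theorem carrier_exists {Y : Type} [TopologicalSpace Y] {A : Set P} (hA : A.Finite)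
    (C : P → Set Y) (hmono : ∀ p ∈ A, ∀ q ∈ A, p ≤ q → C p ⊆ C q)
    (hc : ∀ p ∈ A, ContractibleSpace (C p)) :
    ∃ f : C(Rz (OC A), Y), ∀ p ∈ A, ∀ x : Rz (OC A),
      (x : P → ℝ) ∈ Rz (OC (le1 A p)) → f x ∈ C p := by
  classical
  revert hmono hc
  refine carr_ind (motive := fun A => (∀ p ∈ A, ∀ q ∈ A, p ≤ q → C p ⊆ C q) →
    (∀ p ∈ A, ContractibleSpace (C p)) → ∃ f : C(Rz (OC A), Y), ∀ p ∈ A, ∀ x : Rz (OC A),
      (x : P → ℝ) ∈ Rz (OC (le1 A p)) → f x ∈ C p) ?_ ?_ A hA
  · intro _ _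
    have := carr_isEmpty (P := P)
    refine ⟨⟨fun x => isEmptyElim x, ?_⟩, fun p hp => hp.elim⟩
    exact continuous_of_const fun x => isEmptyElim x
  · intro A hA m hmA hm ih hmono hc
    obtain ⟨f', hf'⟩ := ih (fun p hp q hq => hmono p hp.1 q hq.1) (fun p hp => hc p hp.1)
    have hbase := carr_base hmA hm C hmono f' hf'
    by_cases hiso : ∀ q ∈ A, ¬ q < m
    · -- isolated point
      have hcm' := hc m hmA
      obtain ⟨⟨c, hcm⟩⟩ : Nonempty (C m) :=
        (inferInstance : PathConnectedSpace (C m)).nonempty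
      obtain ⟨F, hF1, hF2⟩ := carr_isolated (T := I) hm hiso (f'.comp ContinuousMap.snd)
        (ContinuousMap.const I c)
      refine ⟨F.comp ((ContinuousMap.const _ 0).prodMk (ContinuousMap.id _)), ?_⟩
      intro p hp x hx
      show F (0, x) ∈ C p
      by_cases hxm : (x : P → ℝ) m = 0
      · have hx' : (x : P → ℝ) ∈ Rz (OC (A \ {m})) := carr_restrict x.2 fun q hq hxq =>
          ⟨hq, fun hqm => by
            rw [Set.mem_singleton_iff] at hqm
            rw [hqm] at hxq
            exact hxq hxm⟩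
        rw [hF1 0 x ⟨x, hx'⟩ rfl]
        exact hbase ⟨x, hx'⟩ p hp hx
      · rw [hF2 0 x hxm]
        have : m ∈ le1 A p := by
          by_contra hmp
          exact hxm (carr_zero hx hmp)
        exact hmono m hmA p hp this.2 hcm
    · push Not at hiso
      obtain ⟨cel, hcel, hcov, hext⟩ := carr_pushout hA hmA hm hiso
      have hsub : OC (below A m) ⊆ OC (A \ {m}) := OC_mono fun q hq => ⟨hq.1, hq.2.ne⟩
      have hval : ∀ y : Rz (OC (below A m)), f' (RIncl hsub y) ∈ C m := fun y =>
        hbase (RIncl hsub y) m hmA (carr_restrict y.2 fun q hq _ => ⟨hq.1, hq.2.le⟩)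
      have hcm := hc m hmA
      obtain ⟨c, ⟨K⟩⟩ := id_nullhomotopic (C m)
      let h : C(I × (I × Rz (OC (below A m))), Y) :=
        ⟨fun q => (K (unitInterval.symm q.2.1, ⟨f' (RIncl hsub q.2.2), hval q.2.2⟩) : Y), by
          refine continuous_subtype_val.comp (K.continuous.comp ?_)
          refine Continuous.prodMk (by fun_prop) (Continuous.subtype_mk ?_ _)
          exact f'.continuous.comp ((RIncl hsub).continuous.comp (by fun_prop))⟩
      have hh : ∀ q, h q = (K (unitInterval.symm q.2.1, ⟨f' (RIncl hsub q.2.2), hval q.2.2⟩) : Y) :=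
        fun q => rfl
      obtain ⟨F, hF1, hF2⟩ := hext Y (f'.comp ContinuousMap.snd) h
        (by
          intro u y y' hy
          rw [hh]
          show (K (unitInterval.symm 1, _) : Y) = f' y'
          rw [unitInterval.symm_one, K.apply_zero]
          show f' (RIncl hsub y) = f' y'
          congr 1
          exact Subtype.ext hy)
        (by
          intro u y y'
          rw [hh, hh]
          show (K (unitInterval.symm 0, _) : Y) = (K (unitInterval.symm 0, _) : Y)
          rw [unitInterval.symm_zero, K.apply_one, K.apply_one]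
          rfl)
      refine ⟨F.comp ((ContinuousMap.const _ 0).prodMk (ContinuousMap.id _)), ?_⟩
      intro p hp x hx
      show F (0, x) ∈ C p
      have hin : ∀ x' : Rz (OC (A \ {m})), (x : P → ℝ) = x' → F (0, x) ∈ C p := by
        intro x' hxx
        rw [hF1 0 x x' hxx]
        rw [hxx] at hx
        exact hbase x' p hp hx
      rcases hcov x with ⟨x', hxx⟩ | ⟨⟨t, y⟩, rfl⟩
      · exact hin x' hxx
      · by_cases hmp : m ≤ p
        · rw [hF2]
          exact hmono m hmA p hp hmp (Subtype.coe_prop _)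
        · have h0 : (cel (t, y) : P → ℝ) m = 0 := carr_zero hx fun h => hmp h.2
          exact hin (RIncl hsub y) (carr_cell_base (hcel t y) h0)

/-- uniqueness of carried maps up to homotopy -/
theorem carrier_homotopic {Y : Type} [TopologicalSpace Y] {A : Set P} (hA : A.Finite)
    (C : P → Set Y) (hmono : ∀ p ∈ A, ∀ q ∈ A, p ≤ q → C p ⊆ C q)
    (hc : ∀ p ∈ A, ContractibleSpace (C p)) (f g : C(Rz (OC A), Y))
    (hf : ∀ p ∈ A, ∀ x : Rz (OC A), (x : P → ℝ) ∈ Rz (OC (le1 A p)) → f x ∈ C p)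
    (hg : ∀ p ∈ A, ∀ x : Rz (OC A), (x : P → ℝ) ∈ Rz (OC (le1 A p)) → g x ∈ C p) :
    f.Homotopic g := by
  classical
  suffices hmain : ∃ H : C(I × Rz (OC A), Y), (∀ x, H (0, x) = f x) ∧ (∀ x, H (1, x) = g x) ∧
      ∀ u, ∀ p ∈ A, ∀ x : Rz (OC A), (x : P → ℝ) ∈ Rz (OC (le1 A p)) → H (u, x) ∈ C p by
    obtain ⟨H, H0, H1, -⟩ := hmain
    exact ⟨{ toContinuousMap := H, map_zero_left := H0, map_one_left := H1 }⟩
  revert hmono hc f g
  refine carr_ind (motive := fun A => (∀ p ∈ A, ∀ q ∈ A, p ≤ q → C p ⊆ C q) →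
    (∀ p ∈ A, ContractibleSpace (C p)) → ∀ (f g : C(Rz (OC A), Y)),
    (∀ p ∈ A, ∀ x : Rz (OC A), (x : P → ℝ) ∈ Rz (OC (le1 A p)) → f x ∈ C p) →
    (∀ p ∈ A, ∀ x : Rz (OC A), (x : P → ℝ) ∈ Rz (OC (le1 A p)) → g x ∈ C p) →
    ∃ H : C(I × Rz (OC A), Y), (∀ x, H (0, x) = f x) ∧ (∀ x, H (1, x) = g x) ∧
      ∀ u, ∀ p ∈ A, ∀ x : Rz (OC A), (x : P → ℝ) ∈ Rz (OC (le1 A p)) → H (u, x) ∈ C p) ?_ ?_ A hA
  · intro _ _ f g _ _
    have := carr_isEmpty (P := P)
    exact ⟨f.comp ContinuousMap.snd, fun x => isEmptyElim x, fun x => isEmptyElim x,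
      fun _ _ _ x => isEmptyElim x⟩
  · intro A hA m hmA hm ih hmono hc f g hf hg
    have hsub : OC (A \ {m}) ⊆ OC A := OC_mono Set.sdiff_subset
    have hcar : ∀ (f : C(Rz (OC A), Y)),
        (∀ p ∈ A, ∀ x : Rz (OC A), (x : P → ℝ) ∈ Rz (OC (le1 A p)) → f x ∈ C p) →
        ∀ p ∈ A \ {m}, ∀ x : Rz (OC (A \ {m})), (x : P → ℝ) ∈ Rz (OC (le1 (A \ {m}) p)) →
          (f.comp (RIncl hsub)) x ∈ C p := by
      intro f hf p hp x hx
      exact hf p hp.1 _ (carr_restrict hx fun q hq _ => ⟨hq.1.1, hq.2⟩)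
    obtain ⟨H', H0', H1', HC'⟩ := ih (fun p hp q hq => hmono p hp.1 q hq.1)
      (fun p hp => hc p hp.1) (f.comp (RIncl hsub)) (g.comp (RIncl hsub)) (hcar f hf) (hcar g hg)
    have hbase : ∀ (u : I) (x : Rz (OC (A \ {m}))) (p : P), p ∈ A →
        (x : P → ℝ) ∈ Rz (OC (le1 A p)) → H' (u, x) ∈ C p := fun u =>
      carr_base hmA hm C hmono (fun x => H' (u, x)) (HC' u)
    by_cases hiso : ∀ q ∈ A, ¬ q < m
    · -- isolated point: choose a path in `C m`
      have hvm : ({m} : Finset P) ∈ OC A := ⟨Finset.singleton_nonempty m, by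
        simpa using hmA, by simp⟩
      have hvm' : vtx m ∈ Rz (OC A) := vtx_mem hvm
      have hvl : vtx m ∈ Rz (OC (le1 A m)) :=
        vtx_mem ⟨Finset.singleton_nonempty m, by simpa using hmA, by simp⟩
      have hfm := hf m hmA ⟨vtx m, hvm'⟩ hvl
      have hgm := hg m hmA ⟨vtx m, hvm'⟩ hvl
      have := hc m hmA
      obtain ⟨γ⟩ : Joined (⟨_, hfm⟩ : C m) ⟨_, hgm⟩ := PathConnectedSpace.joined _ _
      obtain ⟨F, hF1, hF2⟩ := carr_isolated (T := I) hm hiso H'
        ⟨fun t => (γ t : Y), continuous_subtype_val.comp γ.continuous⟩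
      have hx0 : ∀ x : Rz (OC A), (x : P → ℝ) m = 0 → (x : P → ℝ) ∈ Rz (OC (A \ {m})) := by
        intro x hxm
        exact carr_restrict x.2 fun q hq hxq =>
          ⟨hq, fun hqm => by
            rw [Set.mem_singleton_iff] at hqm
            rw [hqm] at hxq
            exact hxq hxm⟩
      have hx1 : ∀ x : Rz (OC A), (x : P → ℝ) m ≠ 0 → x = ⟨vtx m, hvm'⟩ := by
        rintro ⟨x, s, hs, hb⟩ hxm
        have hms : m ∈ s := by
          by_contra h
          exact hxm (hb.2.1 m h)
        have hsm : s = {m} := by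
          refine Finset.eq_singleton_iff_unique_mem.2 ⟨hms, fun q hq => ?_⟩
          rcases hs.2.2.total hms hq with h | h
          · exact hm q (hs.2.1 hq) h
          · rcases h.lt_or_eq with h | h
            · exact (hiso q (hs.2.1 hq) h).elim
            · exact h
        apply Subtype.ext
        funext q
        show x q = vtx m q
        by_cases hq : q = m
        · subst hq
          have h1 := hb.2.2
          rw [hsm, Finset.sum_singleton] at h1
          simp [vtx, h1]
        · rw [hb.2.1 q (by rw [hsm]; simpa using hq)]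
          simp [vtx, hq]
      refine ⟨F, ?_, ?_, ?_⟩
      · intro x
        by_cases hxm : (x : P → ℝ) m = 0
        · rw [hF1 0 x ⟨x, hx0 x hxm⟩ rfl, H0']
          rfl
        · rw [hF2 0 x hxm]
          show (γ 0 : Y) = _
          rw [γ.source, hx1 x hxm]
      · intro x
        by_cases hxm : (x : P → ℝ) m = 0
        · rw [hF1 1 x ⟨x, hx0 x hxm⟩ rfl, H1']
          rfl
        · rw [hF2 1 x hxm]
          show (γ 1 : Y) = _
          rw [γ.target, hx1 x hxm]
      · intro u p hp x hx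
        by_cases hxm : (x : P → ℝ) m = 0
        · rw [hF1 u x ⟨x, hx0 x hxm⟩ rfl]
          exact hbase u ⟨x, hx0 x hxm⟩ p hp hx
        · rw [hF2 u x hxm]
          have : m ∈ le1 A p := by
            by_contra hmp
            exact hxm (carr_zero hx hmp)
          exact hmono m hmA p hp this.2 (γ u).2
    · push Not at hiso
      obtain ⟨cel, hcel, hcov, hext⟩ := carr_pushout hA hmA hm hiso
      have hbsub : OC (below A m) ⊆ OC (A \ {m}) := OC_mono fun q hq => ⟨hq.1, hq.2.ne⟩
      have hcelm : ∀ p, (cel p : P → ℝ) ∈ Rz (OC (le1 A m)) := fun p =>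
        carr_cell_mem (hcel p.1 p.2) (cel p).2
      have hbelow : ∀ (u : I) (y : Rz (OC (below A m))), H' (u, RIncl hbsub y) ∈ C m :=
        fun u y => hbase u (RIncl hbsub y) m hmA
          (carr_restrict y.2 fun q hq _ => ⟨hq.1, hq.2.le⟩)
      have hone : ∀ y : Rz (OC (below A m)), RIncl hsub (RIncl hbsub y) = cel (1, y) := by
        intro y
        apply Subtype.ext
        rw [hcel]
        simp
      have hcm := hc m hmA
      have hcz : ∀ y y', cel (0, y) = cel (0, y') := fun y y' => Subtype.ext (by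
        rw [hcel, hcel]; simp)
      let h₀ : C(I × Rz (OC (below A m)), C m) :=
        ⟨fun p => ⟨f (cel p), hf m hmA _ (hcelm p)⟩, by fun_prop⟩
      let h₁ : C(I × Rz (OC (below A m)), C m) :=
        ⟨fun p => ⟨g (cel p), hg m hmA _ (hcelm p)⟩, by fun_prop⟩
      let Hb : C(I × Rz (OC (below A m)), C m) :=
        ⟨fun p => ⟨H' (p.1, RIncl hbsub p.2), hbelow p.1 p.2⟩, by fun_prop⟩
      obtain ⟨G, G0, G1, GH, Gz⟩ := cone_fill h₀ h₁ Hb
        (fun s s' => Subtype.ext (congrArg f (hcz s s')))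
        (fun s s' => Subtype.ext (congrArg g (hcz s s')))
        (fun s => Subtype.ext (by
          show H' (0, RIncl hbsub s) = f (cel (1, s))
          rw [H0', ← hone s]
          rfl))
        (fun s => Subtype.ext (by
          show H' (1, RIncl hbsub s) = g (cel (1, s))
          rw [H1', ← hone s]
          rfl))
      obtain ⟨K, K1, K2⟩ := hext Y H' ⟨fun q => (G q : Y), continuous_subtype_val.comp G.continuous⟩
        (by
          intro u y y' hy
          show (G (u, (1, y)) : Y) = H' (u, y')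
          rw [GH]
          show H' (u, RIncl hbsub y) = H' (u, y')
          congr 2
          exact Subtype.ext hy)
        (by
          intro u y y'
          show (G (u, (0, y)) : Y) = G (u, (0, y'))
          rw [Gz u y y'])
      refine ⟨K, ?_, ?_, ?_⟩
      · intro x
        rcases hcov x with ⟨x', hxx⟩ | ⟨p, rfl⟩
        · rw [K1 0 x x' hxx, H0']
          show f (RIncl hsub x') = f x
          congr 1
          exact Subtype.ext hxx.symm
        · rw [K2]
          show (G (0, p) : Y) = _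
          rw [G0]
          rfl
      · intro x
        rcases hcov x with ⟨x', hxx⟩ | ⟨p, rfl⟩
        · rw [K1 1 x x' hxx, H1']
          show g (RIncl hsub x') = g x
          congr 1
          exact Subtype.ext hxx.symm
        · rw [K2]
          show (G (1, p) : Y) = _
          rw [G1]
          rfl
      · intro u p hp x hx
        have hin : ∀ x' : Rz (OC (A \ {m})), (x : P → ℝ) = x' → K (u, x) ∈ C p := by
          intro x' hxx
          rw [K1 u x x' hxx]
          rw [hxx] at hx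
          exact hbase u x' p hp hx
        rcases hcov x with ⟨x', hxx⟩ | ⟨⟨t, y⟩, rfl⟩
        · exact hin x' hxx
        · by_cases hmp : m ≤ p
          · rw [K2]
            exact hmono m hmA p hp hmp (Subtype.coe_prop _)
          · have h0 : (cel (t, y) : P → ℝ) m = 0 := carr_zero hx fun h => hmp h.2
            exact hin (RIncl hbsub y) (carr_cell_base (hcel t y) h0)

end CT
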