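import Mathlib
import Pool.Agent.CT.Defs

/-!
# Combinatorial topology: the circle
-/

namespace CT

/-- the circle and the unit sphere of dimension one -/
theorem circle_sph : Nonempty (S1 ≃ₜ Sph 1) := by
  have h1 : S1 ≃ₜ Circle := AddCircle.homeomorphCircle one_ne_zero
  have h2 : Circle ≃ₜ Sph 1 := by
    refine (Complex.orthonormalBasisOneI.repr.toHomeomorph).subtype (fun x => ?_)
    show x ∈ Submonoid.unitSphere ℂ ↔ _ ∈ Metric.sphere _ _
    rw [Submonoid.unitSphere, mem_sphere_zero_iff_norm]
    show x ∈ Metric.sphere (0 : ℂ) 1 ↔ _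
    rw [mem_sphere_zero_iff_norm]
    have := Complex.orthonormalBasisOneI.repr.norm_map x
    constructor
    · intro h; rw [← h]; exact this
    · intro h; rw [← h]; exact this.symm
  exact ⟨h1.trans h2⟩

end CT
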