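import Mathlib
import Pool.Agent.CT.Basic
import Pool.Agent.CT.Loops

/-!
# Combinatorial topology: closed polygons
-/

namespace CT

open scoped unitInterval ContinuousMap

variable {V : Type} [DecidableEq V] {F G : Set (Finset V)}

/-- the edge path along a sequence of vertices -/
noncomputable def walk (hF : IsCx F) (v : ℕ → VF F)
    (h : ∀ j, ({(v j).1, (v (j + 1)).1} : Finset V) ∈ F) : ∀ k, Path (ptv (v 0)) (ptv (v k))
  | 0 => Path.refl _
  | k + 1 => (walk hF v h k).trans (edge hF (v k) (v (k + 1)) (h k))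

/-- the closed edge path -/
noncomputable def cwalk (hF : IsCx F) (v : ℕ → VF F)
    (h : ∀ j, ({(v j).1, (v (j + 1)).1} : Finset V) ∈ F) (k : ℕ) (hk : v k = v 0) :
    Path (ptv (v 0)) (ptv (v 0)) :=
  (walk hF v h k).cast rfl (by rw [hk])

theorem cwalk_incl (hF : IsCx F) (hG : IsCx G) (hFG : F ⊆ G) (v : ℕ → VF F)
    (h : ∀ j, ({(v j).1, (v (j + 1)).1} : Finset V) ∈ F) (k : ℕ) (hk : v k = v 0) :
    (cwalk hF v h k hk).map (RIncl hFG).continuous =
      cwalk hG (fun j => VFi hFG (v j)) (fun j => hFG (h j)) k (by rw [hk]) := by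
  have key : ∀ n, (walk hF v h n).map (RIncl hFG).continuous =
      walk hG (fun j => VFi hFG (v j)) (fun j => hFG (h j)) n := by
    intro n
    induction n with
    | zero => ext t; rfl
    | succ n ih =>
      change ((walk hF v h n).trans (edge hF (v n) (v (n + 1)) (h n))).map
          (RIncl hFG).continuous =
        (walk hG (fun j => VFi hFG (v j)) (fun j => hFG (h j)) n).trans
          (edge hG (VFi hFG (v n)) (VFi hFG (v (n + 1))) (hFG (h n)))
      have he : (edge hF (v n) (v (n + 1)) (h n)).map (RIncl hFG).continuous =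
          edge hG (VFi hFG (v n)) (VFi hFG (v (n + 1))) (hFG (h n)) :=
        edge_incl hF hG hFG (v n) (v (n + 1)) (h n)
      rw [Path.map_trans, ih]
      exact congrArg (Path.trans (walk hG (fun j => VFi hFG (v j)) (fun j => hFG (h j)) n)) he
  apply Path.ext
  funext t
  have h1 := congrArg (fun p => p t) (key k)
  exact h1

/-- the closed polygon with the vertices `v 0, ..., v (k - 1)` -/
def Cyc (v : ℕ → V) : Set (Finset V) :=
  {s | s.Nonempty ∧ ∃ j, s ⊆ {v j, v (j + 1)}}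

theorem Cyc_isCx (v : ℕ → V) : IsCx (Cyc v) where
  ne := fun _ h => h.1
  down := fun _ h _ hts ht => ⟨ht, h.2.imp fun _ hj => hts.trans hj⟩

theorem Cyc_vert (v : ℕ → V) (j : ℕ) : ({v j} : Finset V) ∈ Cyc v :=
  ⟨Finset.singleton_nonempty _, j, by simp⟩

theorem Cyc_edge (v : ℕ → V) (j : ℕ) : ({v j, v (j + 1)} : Finset V) ∈ Cyc v :=
  ⟨⟨v j, by simp⟩, j, subset_rfl⟩

/-! ### the polygon as the image of the real line -/

/-- the clamp function -/
def Cyc_clamp (x : ℝ) : ℝ := max 0 (min 1 x)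

theorem Cyc_clamp_one {x : ℝ} (h : 1 ≤ x) : Cyc_clamp x = 1 := by
  unfold Cyc_clamp
  rw [min_eq_left h, max_eq_right zero_le_one]

theorem Cyc_clamp_zero {x : ℝ} (h : x ≤ 0) : Cyc_clamp x = 0 := by
  unfold Cyc_clamp
  rw [min_eq_right (h.trans zero_le_one), max_eq_left h]

theorem Cyc_clamp_self {x : ℝ} (h : 0 ≤ x) (h1 : x ≤ 1) : Cyc_clamp x = x := by
  unfold Cyc_clamp
  rw [min_eq_right h1, max_eq_right h]

/-- the piecewise linear curve -/
noncomputable def Cyc_G (v : ℕ → V) (k : ℕ) (r : ℝ) : V → ℝ :=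
  vtx (v 0) + ∑ j ∈ Finset.range k, Cyc_clamp (r - j) • (vtx (v (j + 1)) - vtx (v j))

omit [DecidableEq V] in
theorem Cyc_G_zero (v : ℕ → V) (r : ℝ) : Cyc_G v 0 r = vtx (v 0) := by
  simp [Cyc_G]

omit [DecidableEq V] in
theorem Cyc_G_succ (v : ℕ → V) (n : ℕ) (r : ℝ) :
    Cyc_G v (n + 1) r = Cyc_G v n r + Cyc_clamp (r - n) • (vtx (v (n + 1)) - vtx (v n)) := by
  rw [Cyc_G, Cyc_G, Finset.sum_range_succ, add_assoc]

omit [DecidableEq V] in
theorem Cyc_G_ge (v : ℕ → V) (n : ℕ) (r : ℝ) (h : (n : ℝ) ≤ r) : Cyc_G v n r = vtx (v n) := by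
  induction n with
  | zero => exact Cyc_G_zero v r
  | succ n ih =>
    have h1 : (n : ℝ) + 1 ≤ r := by exact_mod_cast h
    rw [Cyc_G_succ, ih (by linarith), Cyc_clamp_one (by linarith), one_smul]
    abel

omit [DecidableEq V] in
theorem Cyc_G_le (v : ℕ → V) (n k : ℕ) (r : ℝ) (hn : n ≤ k) (h : r ≤ n) :
    Cyc_G v k r = Cyc_G v n r := by
  induction k, hn using Nat.le_induction with
  | base => rfl
  | succ k hk ih =>
    have h1 : (n : ℝ) ≤ k := by exact_mod_cast hk
    rw [Cyc_G_succ, ih, Cyc_clamp_zero (by linarith), zero_smul, add_zero]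

omit [DecidableEq V] in
theorem Cyc_G_seg (v : ℕ → V) (i k : ℕ) (r : ℝ) (hi : i < k) (h : (i : ℝ) ≤ r)
    (h1 : r ≤ i + 1) :
    Cyc_G v k r = (1 - (r - i)) • vtx (v i) + (r - i) • vtx (v (i + 1)) := by
  rw [Cyc_G_le v (i + 1) k r hi (by push_cast; exact h1), Cyc_G_succ, Cyc_G_ge v i r h,
    Cyc_clamp_self (by linarith) (by linarith)]
  module

omit [DecidableEq V] in
theorem Cyc_G_cont (v : ℕ → V) (k : ℕ) : Continuous (Cyc_G v k) := by
  unfold Cyc_G Cyc_clamp
  fun_prop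

theorem Cyc_G_mem (v : ℕ → V) (k : ℕ) (r : ℝ) : Cyc_G v k r ∈ Rz (Cyc v) := by
  rcases le_or_gt r 0 with h0 | h0
  · rw [Cyc_G_le v 0 k r (Nat.zero_le k) (by simpa using h0), Cyc_G_zero]
    exact vtx_mem (Cyc_vert v 0)
  · rcases le_or_gt (k : ℝ) r with hk | hk
    · rw [Cyc_G_ge v k r hk]
      exact vtx_mem (Cyc_vert v k)
    · have h1 : (⌊r⌋₊ : ℝ) ≤ r := Nat.floor_le h0.le
      have h2 : r < ⌊r⌋₊ + 1 := Nat.lt_floor_add_one r
      have h3 : ⌊r⌋₊ < k := by exact_mod_cast h1.trans_lt hk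
      rw [Cyc_G_seg v ⌊r⌋₊ k r h3 h1 h2.le]
      exact edge_point_mem (Cyc_isCx v) (Cyc_edge v ⌊r⌋₊)
        ⟨r - ⌊r⌋₊, by linarith, by linarith⟩

/-- the curve as a map into the realisation -/
noncomputable def Cyc_Gp (v : ℕ → V) (k : ℕ) : C(ℝ, Rz (Cyc v)) :=
  ⟨fun r => ⟨Cyc_G v k r, Cyc_G_mem v k r⟩, (Cyc_G_cont v k).subtype_mk _⟩

/-- the unit segment -/
noncomputable def Cyc_seg (n : ℕ) : Path (n : ℝ) ((n + 1 : ℕ) : ℝ) where
  toFun t := n + t
  continuous_toFun := by fun_prop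
  source' := by simp
  target' := by simp

/-- the long segment -/
noncomputable def Cyc_long (k : ℕ) : Path (0 : ℝ) (k : ℝ) where
  toFun t := k * t
  continuous_toFun := by fun_prop
  source' := by simp
  target' := by simp

theorem Cyc_walk (v : ℕ → V) (k n : ℕ) (hn : n ≤ k) :
    ∃ τ : Path (0 : ℝ) (n : ℝ), ∀ t,
      walk (Cyc_isCx v) (fun j => ⟨v j, Cyc_vert v j⟩) (fun j => Cyc_edge v j) n t =
        Cyc_Gp v k (τ t) := by
  induction n with
  | zero =>
    refine ⟨(Path.refl (0 : ℝ)).cast rfl (by simp), fun t => ?_⟩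
    apply Subtype.ext
    change vtx (v 0) = Cyc_G v k 0
    rw [Cyc_G_le v 0 k 0 (Nat.zero_le k) (by simp), Cyc_G_zero]
  | succ n ih =>
    obtain ⟨τ, hτ⟩ := ih (by omega)
    refine ⟨τ.trans (Cyc_seg n), fun t => ?_⟩
    change ((walk (Cyc_isCx v) (fun j => ⟨v j, Cyc_vert v j⟩) (fun j => Cyc_edge v j) n).trans
      (edge (Cyc_isCx v) ⟨v n, Cyc_vert v n⟩ ⟨v (n + 1), Cyc_vert v (n + 1)⟩
        (Cyc_edge v n))) t = _
    rw [Path.trans_apply, Path.trans_apply]
    split_ifs with h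
    · exact hτ _
    · apply Subtype.ext
      have hs0 : 0 ≤ 2 * (t : ℝ) - 1 := by
        have := not_le.1 h
        linarith
      have hs1 : 2 * (t : ℝ) - 1 ≤ 1 := by
        have := t.2.2
        linarith
      change (1 - (2 * (t : ℝ) - 1)) • vtx (v n) + (2 * (t : ℝ) - 1) • vtx (v (n + 1)) =
        Cyc_G v k (n + (2 * (t : ℝ) - 1))
      rw [Cyc_G_seg v n k _ (by omega) (by linarith) (by linarith)]
      simp only [add_sub_cancel_left]

theorem Cyc_cast_homotopic {X : Type} [TopologicalSpace X] {x y x' y' : X} (hx : x' = x)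
    (hy : y' = y) {p q : Path x y} (h : p.Homotopic q) :
    (p.cast hx hy).Homotopic (q.cast hx hy) := by
  subst hx hy
  exact h

/-- a closed polygon with at least three different vertices is a circle, via a
homeomorphism homotopic to the closed edge path -/
theorem cyc_homeo (v : ℕ → V) (k : ℕ) (hk : 3 ≤ k) (hper : ∀ j, v (j + k) = v j)
    (hinj : ∀ i j, i < k → j < k → v i = v j → i = j) :
    ∃ e : S1 ≃ₜ Rz (Cyc v), (e : C(S1, Rz (Cyc v))).Homotopic
      (toLoop (cwalk (Cyc_isCx v) (fun j => ⟨v j, Cyc_vert v j⟩) (fun j => Cyc_edge v j) k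
        (Subtype.ext (by simpa using hper 0)))) := by
  classical
  have hC := Cyc_isCx v
  have hvk : v k = v 0 := by simpa using hper 0
  have hG0 : Cyc_Gp v k 0 = ptv ⟨v 0, Cyc_vert v 0⟩ := by
    apply Subtype.ext
    change Cyc_G v k 0 = vtx (v 0)
    rw [Cyc_G_le v 0 k 0 (Nat.zero_le k) (by simp), Cyc_G_zero]
  have hGk : Cyc_Gp v k k = ptv ⟨v 0, Cyc_vert v 0⟩ := by
    apply Subtype.ext
    change Cyc_G v k k = vtx (v 0)
    rw [Cyc_G_ge v k k le_rfl, hvk]
  obtain ⟨τ, hτ⟩ := Cyc_walk v k k le_rfl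
  have hhom : τ.Homotopic (Cyc_long k) := SimplyConnectedSpace.paths_homotopic _ _
  have hhom2 := hhom.map (Cyc_Gp v k)
  have hhom3 := Cyc_cast_homotopic hG0.symm hGk.symm hhom2
  set γ : Path (ptv (F := Cyc v) ⟨v 0, Cyc_vert v 0⟩) (ptv ⟨v 0, Cyc_vert v 0⟩) :=
    ((Cyc_long k).map (Cyc_Gp v k).continuous).cast hG0.symm hGk.symm with hγ
  have hcw : cwalk hC (fun j => ⟨v j, Cyc_vert v j⟩) (fun j => Cyc_edge v j) k
      (Subtype.ext hvk) = (τ.map (Cyc_Gp v k).continuous).cast hG0.symm hGk.symm := by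
    apply Path.ext
    funext t
    exact hτ t
  have hγt : ∀ t : I, γ t = Cyc_Gp v k (k * t) := fun t => rfl
  have hkpos : (0 : ℝ) < k := by
    have : (3 : ℝ) ≤ k := by exact_mod_cast hk
    linarith
  -- neighbours
  have hnext : ∀ i, i < k → ∀ j, j < k → v j = v (i + 1) → (i + 1 = j ∨ (i + 1 = k ∧ j = 0)) := by
    intro i hi j hj hv
    rcases Nat.lt_or_ge (i + 1) k with h | h
    · left
      exact hinj _ _ h hj hv.symm
    · right
      have h1 : i + 1 = k := by omega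
      refine ⟨h1, ?_⟩
      rw [h1, hvk] at hv
      exact hinj _ _ hj (by omega) hv
  have hne : ∀ i, i < k → v i ≠ v (i + 1) := by
    intro i hi hv
    rcases hnext i hi i hi hv with h | h
    · omega
    · omega
  -- coordinates
  have hcoord : ∀ (r : ℝ) (i : ℕ), i < k → (i : ℝ) ≤ r → r ≤ i + 1 → ∀ w : V,
      Cyc_G v k r w = (1 - (r - i)) * (if w = v i then 1 else 0) +
        (r - i) * (if w = v (i + 1) then 1 else 0) := by
    intro r i hi h1 h2 w
    rw [Cyc_G_seg v i k r hi h1 h2]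
    simp only [Pi.add_apply, Pi.smul_apply, smul_eq_mul, vtx]
    congr 1 <;> congr 1 <;> split_ifs <;> rfl
  have hfloor : ∀ r : ℝ, 0 ≤ r → r < k → ⌊r⌋₊ < k ∧ (⌊r⌋₊ : ℝ) ≤ r ∧ r < ⌊r⌋₊ + 1 := by
    intro r h0 h1
    have h2 : (⌊r⌋₊ : ℝ) ≤ r := Nat.floor_le h0
    exact ⟨by exact_mod_cast h2.trans_lt h1, h2, Nat.lt_floor_add_one r⟩
  have hinjG : ∀ r r' : ℝ, 0 ≤ r → r < k → 0 ≤ r' → r' < k → Cyc_G v k r = Cyc_G v k r' →
      r = r' := by
    intro r r' h0 h1 h0' h1' he
    obtain ⟨hi, hi1, hi2⟩ := hfloor r h0 h1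
    obtain ⟨hj, hj1, hj2⟩ := hfloor r' h0' h1'
    set i := ⌊r⌋₊
    set j := ⌊r'⌋₊
    have e1 := congrFun he (v i)
    have e2 := congrFun he (v j)
    rw [hcoord r i hi hi1 hi2.le, hcoord r' j hj hj1 hj2.le] at e1 e2
    rw [if_pos rfl, if_neg (hne i hi)] at e1
    rw [if_pos (rfl : v j = v j), if_neg (hne j hj)] at e2
    by_cases hij : v i = v j
    · have hij' : i = j := hinj _ _ hi hj hij
      rw [if_pos hij, if_neg (by rw [hij]; exact hne j hj), hij'] at e1
      linarith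
    · rw [if_neg hij] at e1
      rw [if_neg (fun h => hij h.symm)] at e2
      have c1 : v i = v (j + 1) := by
        by_contra hc
        rw [if_neg hc] at e1
        linarith
      have c2 : v j = v (i + 1) := by
        by_contra hc
        rw [if_neg hc] at e2
        linarith
      rcases hnext j hj i hi c1 with h | h <;> rcases hnext i hi j hj c2 with h' | h' <;> omega
  have hinjL : Function.Injective (toLoop γ) := by
    have : Fact ((0 : ℝ) < 1) := ⟨one_pos⟩
    have hrep : ∀ a : S1, ∃ t : I, (t : ℝ) < 1 ∧ ((t : ℝ) : S1) = a := by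
      intro a
      have h1 := (AddCircle.equivIco (1 : ℝ) 0 a).2
      refine ⟨⟨(AddCircle.equivIco (1 : ℝ) 0 a : ℝ), h1.1, ?_⟩, ?_, ?_⟩
      · have := h1.2
        linarith
      · have := h1.2
        simpa using this
      · exact AddCircle.coe_equivIco
    intro a b hab
    obtain ⟨s, hs, rfl⟩ := hrep a
    obtain ⟨t, ht, rfl⟩ := hrep b
    rw [toLoop_coe, toLoop_coe, hγt, hγt] at hab
    have hab' : Cyc_G v k (k * s) = Cyc_G v k (k * t) := congrArg Subtype.val hab
    have := hinjG (k * s) (k * t) (mul_nonneg hkpos.le s.2.1)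
      (by nlinarith) (mul_nonneg hkpos.le t.2.1) (by nlinarith) hab'
    have h2 : (s : ℝ) = t := mul_left_cancel₀ hkpos.ne' this
    rw [h2]
  have hsurjL : Function.Surjective (toLoop γ) := by
    rintro ⟨x, hx⟩
    obtain ⟨s, hs, hxs⟩ := (mem_Rz_iff hC x).1 hx
    obtain ⟨hsne, j, hsj⟩ := hs
    have hp : Function.Periodic v k := hper
    have e1 : v (j % k) = v j := hp.map_mod_nat j
    have e2 : v (j % k + 1) = v (j + 1) := by
      rw [← hp.map_mod_nat (j % k + 1), ← hp.map_mod_nat (j + 1), Nat.mod_add_mod]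
    have hi : j % k < k := Nat.mod_lt _ (by omega)
    set i := j % k
    have hxc : x ∈ cl ({v i, v (i + 1)} : Finset V) := by
      rw [e1, e2]
      exact cl_mono hsj hxs
    obtain ⟨p0, p1, p2⟩ := hxc
    rw [Finset.sum_pair (hne i hi)] at p2
    have ht0 : 0 ≤ x (v (i + 1)) := p0 _
    have ht1 : x (v (i + 1)) ≤ 1 := by
      have := p0 (v i)
      linarith
    set t := x (v (i + 1)) with ht
    have hik : (i : ℝ) + 1 ≤ k := by exact_mod_cast hi
    have hu : ((i : ℝ) + t) / k ∈ Set.Icc (0 : ℝ) 1 := by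
      constructor
      · positivity
      · rw [div_le_one hkpos]
        linarith
    refine ⟨((((i : ℝ) + t) / k : ℝ) : S1), ?_⟩
    have h3 := toLoop_coe γ ⟨((i : ℝ) + t) / k, hu⟩
    change toLoop γ ((((i : ℝ) + t) / k : ℝ) : S1) = _ at h3
    rw [h3, hγt]
    apply Subtype.ext
    change Cyc_G v k (k * (((i : ℝ) + t) / k)) = x
    rw [mul_div_cancel₀ _ hkpos.ne']
    funext w
    rw [hcoord _ i hi (by linarith) (by linarith) w]
    by_cases hw : w = v i
    · rw [hw, if_pos rfl, if_neg (hne i hi)]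
      linarith
    · by_cases hw' : w = v (i + 1)
      · rw [if_neg hw, if_pos hw', hw']
        linarith
      · rw [if_neg hw, if_neg hw', p1 w (by simp [hw, hw'])]
        ring
  have : Fact ((0 : ℝ) < 1) := ⟨one_pos⟩
  have hcont : Continuous (Equiv.ofBijective (toLoop γ) ⟨hinjL, hsurjL⟩) :=
    (toLoop γ).continuous
  refine ⟨hcont.homeoOfEquivCompactToT2, ?_⟩
  have he : ((hcont.homeoOfEquivCompactToT2 : S1 ≃ₜ Rz (Cyc v)) : C(S1, Rz (Cyc v))) =
      toLoop γ := by
    ext a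
    rfl
  rw [he, hcw]
  exact toLoop_homotopic hhom3.symm

end CT
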