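import Mathlib
import Pool.Agent.CT.Carrier

/-!
# Combinatorial topology: Quillen's fibre lemma
-/

namespace CT

open scoped unitInterval ContinuousMap

namespace QuilAux

/-- a subset, seen inside a larger subset -/
def subHomeo {E : Type} [TopologicalSpace E] {S T : Set E} (h : S ⊆ T) :
    ({x : T | (x : E) ∈ S} : Set T) ≃ₜ S where
  toFun x := ⟨((x : T) : E), x.2⟩
  invFun y := ⟨⟨(y : E), h y.2⟩, y.2⟩
  left_inv _ := rfl
  right_inv _ := rfl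
  continuous_toFun :=
    (continuous_subtype_val.comp continuous_subtype_val).subtype_mk _
  continuous_invFun := (continuous_subtype_val.subtype_mk _).subtype_mk _

theorem contr_sub {E : Type} [TopologicalSpace E] {S T : Set E} (h : S ⊆ T)
    (hc : ContractibleSpace S) : ContractibleSpace ({x : T | (x : E) ∈ S} : Set T) :=
  (subHomeo h).contractibleSpace

theorem mono_mem {P : Type} [PartialOrder P] {S T : Set P} {x : P → ℝ}
    (hx : x ∈ Rz (OC S)) (h : ∀ p ∈ S, p ∈ T) : x ∈ Rz (OC T) := Rz_mono (OC_mono h) hx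

/-- a point of an order complex lies below the top of its support -/
theorem exists_top {P : Type} [PartialOrder P] {A : Set P} {x : P → ℝ} (hx : x ∈ Rz (OC A)) :
    ∃ p ∈ A, x ∈ Rz (OC {q ∈ A | q ≤ p}) := by
  obtain ⟨s, ⟨hne, hsub, hch⟩, hb⟩ := hx
  obtain ⟨m, hm, hmax⟩ := s.exists_maximal hne
  refine ⟨m, hsub hm, s, ⟨hne, fun q hq => ⟨hsub hq, ?_⟩, hch⟩, hb⟩
  rcases eq_or_ne q m with rfl | hqm
  · exact le_rfl
  · rcases hch hq hm hqm with h | h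
    · exact h
    · exact hmax hq h

/-- the core of Quillen's lemma, with a given carried map -/
theorem core {P Q : Type} [PartialOrder P] [PartialOrder Q] {A : Set P} {B : Set Q}
    (hA : A.Finite) (hB : B.Finite) (φ : P → Q)
    (hφ : ∀ p ∈ A, φ p ∈ B) (hm : ∀ p ∈ A, ∀ q ∈ A, p ≤ q → φ p ≤ φ q)
    (h : ∀ b ∈ B, ContractibleSpace (Rz (OC {p ∈ A | φ p ≤ b})))
    (f : C(Rz (OC A), Rz (OC B)))
    (hf : ∀ p ∈ A, ∀ x : Rz (OC A), (x : P → ℝ) ∈ Rz (OC (le1 A p)) →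
      ((f x : Rz (OC B)) : Q → ℝ) ∈ Rz (OC (le1 B (φ p)))) :
    ∃ e : Rz (OC A) ≃ₕ Rz (OC B), e.toFun = f := by
  -- the map in the other direction
  obtain ⟨g, hg⟩ := carrier_exists (Y := Rz (OC A)) hB
    (fun b => {x : Rz (OC A) | (x : P → ℝ) ∈ Rz (OC {p ∈ A | φ p ≤ b})})
    (fun b _ b' _ hbb' x (hx : (x : P → ℝ) ∈ Rz (OC {p ∈ A | φ p ≤ b})) =>
      (mono_mem hx (fun p hp => ⟨hp.1, hp.2.trans hbb'⟩) :
        (x : P → ℝ) ∈ Rz (OC {p ∈ A | φ p ≤ b'})))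
    (fun b hb => contr_sub (Rz_mono (OC_mono (fun p hp => hp.1))) (h b hb))
  have hleft : (g.comp f).Homotopic (ContinuousMap.id _) := by
    refine carrier_homotopic (Y := Rz (OC A)) hA
      (fun p => {x : Rz (OC A) | (x : P → ℝ) ∈ Rz (OC {q ∈ A | φ q ≤ φ p})})
      (fun p hp q hq hpq x (hx : (x : P → ℝ) ∈ Rz (OC {r ∈ A | φ r ≤ φ p})) =>
        (mono_mem hx (fun r hr => ⟨hr.1, hr.2.trans (hm p hp q hq hpq)⟩) :
          (x : P → ℝ) ∈ Rz (OC {r ∈ A | φ r ≤ φ q})))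
      (fun p hp => contr_sub (Rz_mono (OC_mono (fun p hp => hp.1))) (h (φ p) (hφ p hp)))
      _ _ ?_ ?_
    · intro p hp x hx
      exact hg (φ p) (hφ p hp) (f x) (hf p hp x hx)
    · intro p hp x hx
      change (x : P → ℝ) ∈ Rz (OC {r ∈ A | φ r ≤ φ p})
      exact mono_mem hx (fun q hq => ⟨hq.1, hm q hq.1 p hp hq.2⟩)
  have hright : (f.comp g).Homotopic (ContinuousMap.id _) := by
    refine carrier_homotopic (Y := Rz (OC B)) hB
      (fun b => {y : Rz (OC B) | (y : Q → ℝ) ∈ Rz (OC (le1 B b))})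
      (fun b _ b' _ hbb' x (hx : (x : Q → ℝ) ∈ Rz (OC (le1 B b))) =>
        (mono_mem hx (fun p hp => ⟨hp.1, hp.2.trans hbb'⟩) :
          (x : Q → ℝ) ∈ Rz (OC (le1 B b'))))
      (fun b hb => contr_sub (Rz_mono (OC_mono (fun p hp => hp.1)))
        (contractible_OC b ⟨hb, le_rfl⟩ (fun c hc => Or.inr hc.2)))
      _ _ ?_ ?_
    · intro b hb y hy
      have h1 := hg b hb y hy
      obtain ⟨p, hp, hx⟩ := exists_top h1
      have hx' : ((g y : Rz (OC A)) : P → ℝ) ∈ Rz (OC (le1 A p)) :=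
        mono_mem hx (fun q hq => ⟨hq.1.1, hq.2⟩)
      have h2 := hf p hp.1 (g y) hx'
      change ((f (g y) : Rz (OC B)) : Q → ℝ) ∈ Rz (OC (le1 B b))
      exact mono_mem h2 (fun q hq => ⟨hq.1, hq.2.trans hp.2⟩)
    · intro b hb y hy
      exact hy
  exact ⟨⟨f, g, hleft, hright⟩, rfl⟩

theorem core' {P Q : Type} [PartialOrder P] [PartialOrder Q] {A : Set P} {B : Set Q}
    (hA : A.Finite) (hB : B.Finite) (φ : P → Q)
    (hφ : ∀ p ∈ A, φ p ∈ B) (hm : ∀ p ∈ A, ∀ q ∈ A, p ≤ q → φ p ≤ φ q)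
    (h : ∀ b ∈ B, ContractibleSpace (Rz (OC {p ∈ A | φ p ≤ b}))) :
    Nonempty (Rz (OC A) ≃ₕ Rz (OC B)) := by
  obtain ⟨f, hf⟩ := carrier_exists (Y := Rz (OC B)) hA
    (fun p => {y : Rz (OC B) | (y : Q → ℝ) ∈ Rz (OC (le1 B (φ p)))})
    (fun p hp q hq hpq x (hx : (x : Q → ℝ) ∈ Rz (OC (le1 B (φ p)))) =>
      (mono_mem hx (fun r hr => ⟨hr.1, hr.2.trans (hm p hp q hq hpq)⟩) :
        (x : Q → ℝ) ∈ Rz (OC (le1 B (φ q)))))
    (fun p hp => contr_sub (Rz_mono (OC_mono (fun p hp => hp.1)))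
      (contractible_OC (φ p) ⟨hφ p hp, le_rfl⟩ (fun c hc => Or.inr hc.2)))
  obtain ⟨e, -⟩ := core hA hB φ hφ hm h f hf
  exact ⟨e⟩

/-- the order complex of the dual order -/
theorem OC_dual {P : Type} [PartialOrder P] (Q : Set P) :
    (@OC Pᵒᵈ _ Q : Set (Finset P)) = OC Q := by
  ext s
  constructor
  · rintro ⟨h1, h2, h3⟩
    refine ⟨h1, h2, ?_⟩
    intro a ha b hb hab
    exact (h3 ha hb hab).symm
  · rintro ⟨h1, h2, h3⟩
    refine ⟨h1, h2, ?_⟩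
    intro a ha b hb hab
    exact (h3 ha hb hab).symm

theorem Rz_dual {P : Type} [PartialOrder P] (Q : Set P) :
    (@Rz P (@OC Pᵒᵈ _ Q)) = Rz (OC Q) := congrArg Rz (OC_dual Q)

end QuilAux

variable {P Q : Type} [PartialOrder P] [PartialOrder Q]

/-- **Quillen's fibre lemma**, lower fibres. -/
theorem quillen_lower {A : Set P} {B : Set Q} (hA : A.Finite) (hB : B.Finite) (φ : P → Q)
    (hφ : ∀ p ∈ A, φ p ∈ B) (hm : ∀ p ∈ A, ∀ q ∈ A, p ≤ q → φ p ≤ φ q)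
    (h : ∀ b ∈ B, ContractibleSpace (Rz (OC {p ∈ A | φ p ≤ b}))) :
    Nonempty (Rz (OC A) ≃ₕ Rz (OC B)) := QuilAux.core' hA hB φ hφ hm h

/-- Quillen's fibre lemma, upper fibres. -/
theorem quillen_upper {A : Set P} {B : Set Q} (hA : A.Finite) (hB : B.Finite) (φ : P → Q)
    (hφ : ∀ p ∈ A, φ p ∈ B) (hm : ∀ p ∈ A, ∀ q ∈ A, p ≤ q → φ p ≤ φ q)
    (h : ∀ b ∈ B, ContractibleSpace (Rz (OC {p ∈ A | b ≤ φ p}))) :
    Nonempty (Rz (OC A) ≃ₕ Rz (OC B)) := by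
  have key := @QuilAux.core' Pᵒᵈ Qᵒᵈ _ _ A B hA hB φ hφ
    (fun p hp q hq hpq => hm q hq p hp hpq) (by
      intro b hb
      have h1 := h b hb
      rw [← QuilAux.Rz_dual] at h1
      exact h1)
  change Nonempty ((@Rz P (@OC Pᵒᵈ _ A)) ≃ₕ (@Rz Q (@OC Qᵒᵈ _ B))) at key
  rw [QuilAux.Rz_dual, QuilAux.Rz_dual] at key
  exact key

/-- Quillen's fibre lemma, lower fibres, order reversing map. -/
theorem quillen_anti {A : Set P} {B : Set Q} (hA : A.Finite) (hB : B.Finite) (φ : P → Q)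
    (hφ : ∀ p ∈ A, φ p ∈ B) (hm : ∀ p ∈ A, ∀ q ∈ A, p ≤ q → φ q ≤ φ p)
    (h : ∀ b ∈ B, ContractibleSpace (Rz (OC {p ∈ A | b ≤ φ p}))) :
    Nonempty (Rz (OC A) ≃ₕ Rz (OC B)) := by
  have key := @QuilAux.core' P Qᵒᵈ _ _ A B hA hB φ hφ
    (fun p hp q hq hpq => hm p hp q hq hpq) h
  change Nonempty (Rz (OC A) ≃ₕ (@Rz Q (@OC Qᵒᵈ _ B))) at key
  rw [QuilAux.Rz_dual] at key
  exact key

/-- inclusion of a subposet, lower fibres -/
theorem incl_lower {A B : Set P} (hB : B.Finite) (hAB : A ⊆ B)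
    (h : ∀ b ∈ B, ContractibleSpace (Rz (OC (le1 A b)))) :
    ∃ e : Rz (OC A) ≃ₕ Rz (OC B), e.toFun = RIncl (OC_mono hAB) :=
  QuilAux.core (hB.subset hAB) hB id (fun p hp => hAB hp) (fun p _ q _ hpq => hpq) h
    (RIncl (OC_mono hAB))
    (fun p _ x hx => QuilAux.mono_mem hx (fun q hq => ⟨hAB hq.1, hq.2⟩))

/-- inclusion of a subposet, upper fibres -/
theorem incl_upper {A B : Set P} (hB : B.Finite) (hAB : A ⊆ B)
    (h : ∀ b ∈ B, ContractibleSpace (Rz (OC (ge1 A b)))) :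
    ∃ e : Rz (OC A) ≃ₕ Rz (OC B), e.toFun = RIncl (OC_mono hAB) := by
  have key : ∀ (FA FB : Set (Finset P)) (hF : FA ⊆ FB) (_ : FA = @OC Pᵒᵈ _ A)
      (_ : FB = @OC Pᵒᵈ _ B), ∃ e : Rz FA ≃ₕ Rz FB, e.toFun = RIncl hF := by
    rintro _ _ hF rfl rfl
    exact @incl_lower Pᵒᵈ _ A B hB hAB (by
      intro b hb
      have h1 := h b hb
      rw [← QuilAux.Rz_dual] at h1
      exact h1)
  exact key _ _ _ (QuilAux.OC_dual A).symm (QuilAux.OC_dual B).symm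

/-- if all joins with `a` exist, the order complex is contractible -/
theorem contractible_join {A : Set P} (hA : A.Finite) (a : P) (ha : a ∈ A) (g : P → P)
    (hg : ∀ p ∈ A, g p ∈ A) (h1 : ∀ p ∈ A, p ≤ g p) (h2 : ∀ p ∈ A, a ≤ g p)
    (h3 : ∀ p ∈ A, ∀ q ∈ A, p ≤ q → a ≤ q → g p ≤ q) : ContractibleSpace (Rz (OC A)) := by
  have hsub : {p ∈ A | a ≤ p} ⊆ A := fun p hp => hp.1
  obtain ⟨e, -⟩ := incl_upper hA hsub (fun b hb =>
    contractible_OC (g b) ⟨⟨hg b hb, h2 b hb⟩, h1 b hb⟩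
      (fun c hc => Or.inl (h3 b hb c hc.1.1 hc.2 hc.1.2)))
  have : ContractibleSpace (Rz (OC {p ∈ A | a ≤ p})) :=
    contractible_OC a ⟨ha, le_rfl⟩ (fun c hc => Or.inl hc.2)
  exact e.symm.contractibleSpace

end CT
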