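import Mathlib
import Pool.Agent.CT.Basic

/-!
# Combinatorial topology: barycentric subdivision
-/

namespace CT

open scoped unitInterval ContinuousMap

variable {V : Type}

open Classical in
/-- the barycentre of a finite set -/
noncomputable def bary (s : Finset V) : V → ℝ := fun v => if v ∈ s then (s.card : ℝ)⁻¹ else 0

open Classical in
/-- weighted sum of the indicator functions of the members of `c` -/
noncomputable def SubdW (c : Finset (Finset V)) (z : Finset V → ℝ) (v : V) : ℝ :=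
  ∑ s ∈ c, if v ∈ s then z s else 0

theorem Subd_top {c : Finset (Finset V)} (hne : c.Nonempty)
    (hc : IsChain (· ≤ ·) (c : Set (Finset V))) : ∃ T ∈ c, ∀ s ∈ c, s ≤ T := by
  obtain ⟨T, hT, hmax⟩ := c.exists_maximal hne
  refine ⟨T, hT, fun s hs => ?_⟩
  rcases hc.total hs hT with h | h
  · exact h
  · exact hmax hs h

theorem Subd_private {c : Finset (Finset V)} (hc : IsChain (· ≤ ·) (c : Set (Finset V)))
    (hne : ∀ s ∈ c, s.Nonempty) {s : Finset V} (hs : s ∈ c) :
    ∃ v, ∀ s' ∈ c, v ∈ s' ↔ s ≤ s' := by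
  classical
  by_cases hemp : (c.filter (fun s' => s' < s)).Nonempty
  · obtain ⟨T, hT, hTmax⟩ := Subd_top hemp
      (hc.mono (by intro x hx; exact (Finset.mem_filter.1 hx).1))
    rw [Finset.mem_filter] at hT
    obtain ⟨v, hvs, hvT⟩ := Finset.exists_of_ssubset hT.2
    refine ⟨v, fun s' hs' => ⟨fun hv => ?_, fun h => h hvs⟩⟩
    rcases hc.total hs hs' with h | h
    · exact h
    · rcases h.lt_or_eq with h | h
      · exact absurd (hTmax s' (Finset.mem_filter.2 ⟨hs', h⟩) hv) hvT
      · exact h.ge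
  · obtain ⟨v, hv⟩ := hne s hs
    refine ⟨v, fun s' hs' => ⟨fun _ => ?_, fun h => h hv⟩⟩
    rcases hc.total hs hs' with h | h
    · exact h
    · rcases h.lt_or_eq with h | h
      · exact absurd ⟨s', Finset.mem_filter.2 ⟨hs', h⟩⟩ hemp
      · exact h.ge

theorem SubdW_lt {c : Finset (Finset V)} (hc : IsChain (· ≤ ·) (c : Set (Finset V)))
    {z : Finset V → ℝ} (hz : ∀ s ∈ c, 0 < z s) {s : Finset V} (hs : s ∈ c) {v w : V}
    (hw : w ∈ s) (hv : v ∉ s) : SubdW c z v < SubdW c z w := by
  classical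
  unfold SubdW
  apply Finset.sum_lt_sum
  · intro s' hs'
    by_cases h : v ∈ s'
    · have hle : s ≤ s' := by
        rcases hc.total hs hs' with h' | h'
        · exact h'
        · exact absurd (h' h) hv
      rw [if_pos h, if_pos (hle hw)]
    · rw [if_neg h]
      split_ifs
      · exact (hz s' hs').le
      · exact le_rfl
  · exact ⟨s, hs, by rw [if_neg hv, if_pos hw]; exact hz s hs⟩

theorem SubdW_le {c : Finset (Finset V)}
    {z : Finset V → ℝ} (hz : ∀ s ∈ c, 0 < z s) {v w : V}
    (h : ∀ s ∈ c, w ∈ s → v ∈ s) : SubdW c z w ≤ SubdW c z v := by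
  classical
  unfold SubdW
  apply Finset.sum_le_sum
  intro s hs
  by_cases hw : w ∈ s
  · rw [if_pos hw, if_pos (h s hs hw)]
  · rw [if_neg hw]
    split_ifs
    · exact (hz s hs).le
    · exact le_rfl

theorem SubdW_pos_iff {c : Finset (Finset V)}
    {z : Finset V → ℝ} (hz : ∀ s ∈ c, 0 < z s) {v : V} :
    0 < SubdW c z v ↔ ∃ s ∈ c, v ∈ s := by
  classical
  constructor
  · intro h
    by_contra hcon
    push Not at hcon
    have : SubdW c z v = 0 := by
      unfold SubdW
      exact Finset.sum_eq_zero fun s hs => if_neg (hcon s hs)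
    linarith
  · rintro ⟨s, hs, hv⟩
    unfold SubdW
    refine lt_of_lt_of_le (hz s hs) ?_
    have := Finset.single_le_sum (f := fun s => if v ∈ s then z s else 0) (s := c)
      (fun s' hs' => by
        show 0 ≤ if v ∈ s' then z s' else 0
        split_ifs
        · exact (hz s' hs').le
        · exact le_rfl) hs
    simpa only [if_pos hv] using this

/-- the chain is determined by the function -/
theorem SubdW_mem_iff {c : Finset (Finset V)} (hc : IsChain (· ≤ ·) (c : Set (Finset V)))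
    (hne : ∀ s ∈ c, s.Nonempty) {z : Finset V → ℝ} (hz : ∀ s ∈ c, 0 < z s) (s : Finset V) :
    s ∈ c ↔ s.Nonempty ∧ (∀ w ∈ s, 0 < SubdW c z w) ∧
      ∀ w ∈ s, ∀ v, v ∉ s → SubdW c z v < SubdW c z w := by
  classical
  constructor
  · intro hs
    exact ⟨hne s hs, fun w hw => (SubdW_pos_iff hz).2 ⟨s, hs, hw⟩,
      fun w hw v hv => SubdW_lt hc hz hs hw hv⟩
  · rintro ⟨hsne, hpos, hlt⟩
    -- the point of `s` of minimal value
    obtain ⟨w₀, hw₀, hmin⟩ := s.exists_min_image (fun w => SubdW c z w) hsne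
    -- the members containing `w₀` contain `s`
    have hsub : ∀ s' ∈ c, w₀ ∈ s' → s ≤ s' := by
      intro s' hs' hw w hw'
      by_contra hws'
      exact absurd (SubdW_lt hc hz hs' hw hws') (not_lt.2 (hmin w hw'))
    obtain ⟨s₁, hs₁, hws₁⟩ := (SubdW_pos_iff hz).1 (hpos w₀ hw₀)
    obtain ⟨s₂, hs₂, hs₂min⟩ := (c.filter (fun s' => w₀ ∈ s')).exists_minimal
      ⟨s₁, Finset.mem_filter.2 ⟨hs₁, hws₁⟩⟩
    rw [Finset.mem_filter] at hs₂
    have hle : s ≤ s₂ := hsub s₂ hs₂.1 hs₂.2
    rcases hle.lt_or_eq with hl | he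
    · exfalso
      obtain ⟨v, hv2, hvs⟩ := Finset.exists_of_ssubset hl
      have h1 := hlt w₀ hw₀ v hvs
      have h2 : ∃ s' ∈ c, w₀ ∈ s' ∧ v ∉ s' := by
        by_contra hcon
        push Not at hcon
        exact absurd h1 (not_lt.2 (SubdW_le hz hcon))
      obtain ⟨s', hs', hw', hv'⟩ := h2
      rcases hc.total hs' hs₂.1 with h | h
      · exact hv' (hs₂min (Finset.mem_filter.2 ⟨hs', hw'⟩) h hv2)
      · exact hv' (h hv2)
    · rw [he]; exact hs₂.1

open Classical in
theorem SubdW_private {c : Finset (Finset V)} {z : Finset V → ℝ} {s : Finset V} {v : V}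
    (hv : ∀ s' ∈ c, v ∈ s' ↔ s ≤ s') :
    SubdW c z v = ∑ s' ∈ c with s ≤ s', z s' := by
  unfold SubdW
  rw [Finset.sum_filter]
  exact Finset.sum_congr rfl fun s' hs' => by simp only [hv s' hs']

theorem SubdW_inj {c c' : Finset (Finset V)} (hc : IsChain (· ≤ ·) (c : Set (Finset V)))
    (hne : ∀ s ∈ c, s.Nonempty) {z : Finset V → ℝ} (hz : ∀ s ∈ c, 0 < z s)
    (hc' : IsChain (· ≤ ·) (c' : Set (Finset V)))
    (hne' : ∀ s ∈ c', s.Nonempty) {z' : Finset V → ℝ} (hz' : ∀ s ∈ c', 0 < z' s)
    (h : ∀ v, SubdW c z v = SubdW c' z' v) : c = c' ∧ ∀ s ∈ c, z s = z' s := by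
  classical
  have hcc : c = c' := by
    ext s
    rw [SubdW_mem_iff hc hne hz, SubdW_mem_iff hc' hne' hz']
    simp only [h]
  subst hcc
  refine ⟨rfl, ?_⟩
  by_contra hcon
  push Not at hcon
  obtain ⟨s₁, hs₁, hne₁⟩ := hcon
  obtain ⟨s, hs, hsmax⟩ := (c.filter (fun s => z s ≠ z' s)).exists_maximal
    ⟨s₁, Finset.mem_filter.2 ⟨hs₁, hne₁⟩⟩
  rw [Finset.mem_filter] at hs
  obtain ⟨v, hv⟩ := Subd_private hc hne hs.1
  have h1 := h v
  rw [SubdW_private hv, SubdW_private hv] at h1
  have hmem : s ∈ c.filter (fun s' => s ≤ s') := Finset.mem_filter.2 ⟨hs.1, le_rfl⟩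
  rw [← Finset.add_sum_erase _ _ hmem, ← Finset.add_sum_erase _ _ hmem] at h1
  have h2 : ∑ s' ∈ (c.filter (fun s' => s ≤ s')).erase s, z s' =
      ∑ s' ∈ (c.filter (fun s' => s ≤ s')).erase s, z' s' := by
    apply Finset.sum_congr rfl
    intro s' hs'
    rw [Finset.mem_erase, Finset.mem_filter] at hs'
    by_contra hne2
    have := hsmax (Finset.mem_filter.2 ⟨hs'.2.1, hne2⟩) hs'.2.2
    exact hs'.1 (le_antisymm this hs'.2.2)
  rw [h2] at h1
  exact hs.2 (by linarith)

theorem SubdW_exists (T : Finset V) : ∀ x : V → ℝ, (∀ v ∈ T, 0 < x v) → (∀ v, v ∉ T → x v = 0) →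
    ∃ (c : Finset (Finset V)) (z : Finset V → ℝ), IsChain (· ≤ ·) (c : Set (Finset V)) ∧
      (∀ s ∈ c, s.Nonempty ∧ s ≤ T ∧ 0 < z s) ∧ (∀ s, s ∉ c → z s = 0) ∧
      ∀ v, x v = SubdW c z v := by
  classical
  induction T using Finset.strongInduction with
  | H T ih =>
    intro x hx hx0
    rcases T.eq_empty_or_nonempty with rfl | hT
    · refine ⟨∅, fun _ => 0, by simp, by simp, fun _ _ => rfl, fun v => ?_⟩
      rw [hx0 v (Finset.notMem_empty v)]
      simp [SubdW]
    · obtain ⟨v₀, hv₀, hmin⟩ := T.exists_min_image x hT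
      set m := x v₀ with hm
      have hmpos : 0 < m := hx v₀ hv₀
      have hT' : T.filter (fun v => m < x v) ⊂ T := by
        rw [Finset.filter_ssubset]
        exact ⟨v₀, hv₀, lt_irrefl _⟩
      obtain ⟨c', z', hc', hs', hz0', hsum'⟩ := ih _ hT' (fun v => if v ∈ T then x v - m else 0)
        (fun v hv => by
          rw [Finset.mem_filter] at hv
          show 0 < if v ∈ T then x v - m else 0
          rw [if_pos hv.1]; linarith [hv.2])
        (fun v hv => by
          show (if v ∈ T then x v - m else 0) = 0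
          split_ifs with h
          · rw [Finset.mem_filter] at hv
            push Not at hv
            have h1 := hv h
            have h2 := hmin v h
            linarith
          · rfl)
      have hTc' : T ∉ c' := fun h => absurd (hs' T h).2.1 (by
        intro h'
        exact absurd (lt_of_le_of_lt h' hT') (lt_irrefl _))
      refine ⟨insert T c', Function.update z' T m, ?_, ?_, ?_, ?_⟩
      · rw [Finset.coe_insert]
        apply hc'.insert
        intro s hs _
        right
        exact (hs' s hs).2.1.trans (Finset.filter_subset _ _)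
      · intro s hs
        rw [Finset.mem_insert] at hs
        rcases hs with rfl | hs
        · rw [Function.update_self]; exact ⟨hT, le_rfl, hmpos⟩
        · have hne : s ≠ T := by rintro rfl; exact hTc' hs
          rw [Function.update_of_ne hne]
          exact ⟨(hs' s hs).1, (hs' s hs).2.1.trans (Finset.filter_subset _ _), (hs' s hs).2.2⟩
      · intro s hs
        rw [Finset.mem_insert, not_or] at hs
        rw [Function.update_of_ne hs.1]
        exact hz0' s hs.2
      · intro v
        have h1 : SubdW (insert T c') (Function.update z' T m) v =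
            (if v ∈ T then m else 0) + SubdW c' z' v := by
          unfold SubdW
          rw [Finset.sum_insert hTc', Function.update_self]
          congr 1
          apply Finset.sum_congr rfl
          intro s hs
          have hne : s ≠ T := by rintro rfl; exact hTc' hs
          rw [Function.update_of_ne hne]
        rw [h1, ← hsum' v]
        split_ifs with h
        · ring
        · rw [hx0 v h, add_zero]

theorem SubdW_sum {c : Finset (Finset V)} {T : Finset V} (hT : ∀ s ∈ c, s ≤ T)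
    (z : Finset V → ℝ) : ∑ v ∈ T, SubdW c z v = ∑ s ∈ c, (s.card : ℝ) * z s := by
  classical
  unfold SubdW
  rw [Finset.sum_comm]
  apply Finset.sum_congr rfl
  intro s hs
  rw [← Finset.sum_filter, Finset.sum_const, nsmul_eq_mul]
  congr 3
  ext v
  simp only [Finset.mem_filter]
  exact ⟨fun h => h.2, fun h => ⟨hT s hs h, h⟩⟩

theorem Subd_coord {F : Set (Finset V)} (hfin : F.Finite) {c : Finset (Finset V)}
    {y : Finset V → ℝ} (hcF : (c : Set (Finset V)) ⊆ F) (hy : ∀ s, s ∉ c → y s = 0) (v : V) :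
    (∑ s ∈ hfin.toFinset, y s • bary s) v = SubdW c (fun s => y s * (s.card : ℝ)⁻¹) v := by
  classical
  rw [Finset.sum_apply]
  unfold SubdW
  symm
  have hsub : c ⊆ hfin.toFinset := fun s hs => hfin.mem_toFinset.2 (hcF hs)
  rw [← Finset.sum_subset hsub (f := fun s => (y s • bary s) v)]
  · apply Finset.sum_congr rfl
    intro s _
    simp only [Pi.smul_apply, smul_eq_mul, bary]
    split_ifs <;> simp
  · intro s _ hs
    show (y s • bary s) v = 0
    rw [hy s hs, zero_smul]; rfl

theorem Subd_pos {F : Set (Finset V)} (hF : IsCx F) {c : Finset (Finset V)}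
    {y : Finset V → ℝ} (hcF : (c : Set (Finset V)) ⊆ F) (hy : ∀ s ∈ c, 0 < y s) (s : Finset V)
    (hs : s ∈ c) : 0 < y s * (s.card : ℝ)⁻¹ := by
  have : 0 < s.card := Finset.card_pos.2 (hF.ne s (hcF hs))
  have h2 : (0 : ℝ) < s.card := by exact_mod_cast this
  exact mul_pos (hy s hs) (inv_pos.2 h2)

theorem Subd_mem {F : Set (Finset V)} (hF : IsCx F) (hfin : F.Finite) (y : Rz (OC F)) :
    (∑ s ∈ hfin.toFinset, (y : Finset V → ℝ) s • bary s) ∈ Rz F := by
  obtain ⟨c, hc, hpos, hzero, hsum⟩ := y.2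
  obtain ⟨T, hT, hTmax⟩ := Subd_top hc.1 hc.2.2
  have hz := Subd_pos hF hc.2.1 hpos
  refine ⟨T, hc.2.1 hT, ?_, ?_, ?_⟩
  · intro v hv
    rw [Subd_coord hfin hc.2.1 hzero]
    exact (SubdW_pos_iff hz).2 ⟨T, hT, hv⟩
  · intro v hv
    rw [Subd_coord hfin hc.2.1 hzero]
    unfold SubdW
    exact Finset.sum_eq_zero fun s hs => if_neg fun h => hv (hTmax s hs h)
  · rw [Finset.sum_congr rfl (fun v _ => Subd_coord hfin hc.2.1 hzero v), SubdW_sum hTmax,
      ← hsum]
    apply Finset.sum_congr rfl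
    intro s hs
    have : 0 < s.card := Finset.card_pos.2 (hF.ne s (hc.2.1 hs))
    have h2 : (s.card : ℝ) ≠ 0 := by exact_mod_cast this.ne'
    field_simp

theorem Subd_injective {F : Set (Finset V)} (hF : IsCx F) (hfin : F.Finite) :
    Function.Injective (fun y : Rz (OC F) =>
      (⟨∑ s ∈ hfin.toFinset, (y : Finset V → ℝ) s • bary s, Subd_mem hF hfin y⟩ : Rz F)) := by
  intro y y' h
  obtain ⟨c, hc, hpos, hzero, hsum⟩ := y.2
  obtain ⟨c', hc', hpos', hzero', hsum'⟩ := y'.2
  have h1 : ∀ v, SubdW c (fun s => (y : Finset V → ℝ) s * (s.card : ℝ)⁻¹) v =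
      SubdW c' (fun s => (y' : Finset V → ℝ) s * (s.card : ℝ)⁻¹) v := by
    intro v
    rw [← Subd_coord hfin hc.2.1 hzero, ← Subd_coord hfin hc'.2.1 hzero']
    exact congrFun (congrArg Subtype.val h) v
  obtain ⟨hcc, hzz⟩ := SubdW_inj hc.2.2 (fun s hs => hF.ne s (hc.2.1 hs))
    (Subd_pos hF hc.2.1 hpos) hc'.2.2 (fun s hs => hF.ne s (hc'.2.1 hs))
    (Subd_pos hF hc'.2.1 hpos') h1
  subst hcc
  apply Subtype.ext
  funext s
  by_cases hs : s ∈ c
  · have h2 := hzz s hs
    have : 0 < s.card := Finset.card_pos.2 (hF.ne s (hc.2.1 hs))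
    have h3 : (s.card : ℝ)⁻¹ ≠ 0 := by
      have : (s.card : ℝ) ≠ 0 := by exact_mod_cast this.ne'
      exact inv_ne_zero this
    exact mul_right_cancel₀ h3 h2
  · rw [hzero s hs, hzero' s hs]

theorem Subd_surjective {F : Set (Finset V)} (hF : IsCx F) (hfin : F.Finite) :
    Function.Surjective (fun y : Rz (OC F) =>
      (⟨∑ s ∈ hfin.toFinset, (y : Finset V → ℝ) s • bary s, Subd_mem hF hfin y⟩ : Rz F)) := by
  rintro ⟨x, T, hT, hx, hx0, hxsum⟩
  obtain ⟨c, z, hc, hcs, hz0, hxW⟩ := SubdW_exists T x hx hx0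
  have hcF : (c : Set (Finset V)) ⊆ F := fun s hs => hF.down T hT s (hcs s hs).2.1 (hcs s hs).1
  have hcard : ∀ s ∈ c, (s.card : ℝ) ≠ 0 := by
    intro s hs
    have : 0 < s.card := Finset.card_pos.2 (hcs s hs).1
    exact_mod_cast this.ne'
  have hsum1 : ∑ s ∈ c, (s.card : ℝ) * z s = 1 := by
    rw [← SubdW_sum (T := T) (fun s hs => (hcs s hs).2.1) z, ← hxsum]
    exact Finset.sum_congr rfl fun v _ => (hxW v).symm
  have hcne : c.Nonempty := by
    rw [Finset.nonempty_iff_ne_empty]
    rintro rfl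
    simp at hsum1
  refine ⟨⟨fun s => (s.card : ℝ) * z s, c, ⟨hcne, hcF, hc⟩, ?_, ?_, hsum1⟩, ?_⟩
  · intro s hs
    have : 0 < s.card := Finset.card_pos.2 (hcs s hs).1
    have h2 : (0 : ℝ) < s.card := by exact_mod_cast this
    exact mul_pos h2 (hcs s hs).2.2
  · intro s hs
    show (s.card : ℝ) * z s = 0
    rw [hz0 s hs, mul_zero]
  · apply Subtype.ext
    funext v
    show (∑ s ∈ hfin.toFinset, ((s.card : ℝ) * z s) • bary s) v = x v
    rw [Subd_coord (y := fun s => (s.card : ℝ) * z s) hfin hcF (fun s hs => by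
      show (s.card : ℝ) * z s = 0
      rw [hz0 s hs, mul_zero]) v, hxW v]
    unfold SubdW
    apply Finset.sum_congr rfl
    intro s hs
    have h1 := hcard s hs
    have : (s.card : ℝ) * z s * (s.card : ℝ)⁻¹ = z s := by
      field_simp
    simp only [this]

/-- the order complex of the poset of faces is homeomorphic to the complex, by the natural
map (which is compatible with inclusions) -/
theorem sd_homeo {F : Set (Finset V)} (hF : IsCx F) (hfin : F.Finite) :
    ∃ e : Rz (OC F) ≃ₜ Rz F, ∀ y : Rz (OC F),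
      (e y : V → ℝ) = ∑ s ∈ hfin.toFinset, (y : Finset V → ℝ) s • bary s := by
  have : CompactSpace (Rz (OC F)) :=
    isCompact_iff_compactSpace.1 (isCompact_Rz (OC_isCx F) (OC_finite hfin))
  let E : Rz (OC F) ≃ Rz F := Equiv.ofBijective _ ⟨Subd_injective hF hfin, Subd_surjective hF hfin⟩
  have hE : Continuous E := by
    refine Continuous.subtype_mk ?_ _
    refine continuous_finsetSum _ fun s _ => ?_
    exact ((continuous_apply s).comp continuous_subtype_val).smul continuous_const
  exact ⟨hE.homeoOfEquivCompactToT2, fun y => rfl⟩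

/-- the barycentric subdivision -/
noncomputable def sd {F : Set (Finset V)} (hF : IsCx F) (hfin : F.Finite) :
    Rz (OC F) ≃ₜ Rz F := (sd_homeo hF hfin).choose

theorem sd_coe {F : Set (Finset V)} (hF : IsCx F) (hfin : F.Finite) (y : Rz (OC F)) :
    (sd hF hfin y : V → ℝ) = ∑ s ∈ hfin.toFinset, (y : Finset V → ℝ) s • bary s :=
  (sd_homeo hF hfin).choose_spec y

/-- naturality for inclusions -/
theorem sd_incl {F G : Set (Finset V)} (hF : IsCx F) (hfin : F.Finite) (hG : IsCx G)
    (hgin : G.Finite) (h : F ⊆ G) (y : Rz (OC F)) :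
    sd hG hgin (RIncl (OC_mono h) y) = RIncl h (sd hF hfin y) := by
  ext1
  rw [sd_coe, RIncl_coe, RIncl_coe, sd_coe]
  symm
  refine Finset.sum_subset ?_ ?_
  · intro s hs
    simp only [Set.Finite.mem_toFinset] at hs ⊢
    exact h hs
  · intro s _ hs
    simp only [Set.Finite.mem_toFinset] at hs
    obtain ⟨t, ht, hy⟩ := y.2
    rw [hy.2.1 s (fun hst => hs (ht.2.1 hst)), zero_smul]

end CT
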