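import Mathlib
import Pool.Agent.CT.Quillen
import Pool.Agent.CT.Subd

/-!
# Combinatorial topology: deleting dominated vertices
-/

namespace CT

open scoped unitInterval ContinuousMap

variable {V : Type} [DecidableEq V]

/-- the poset version -/
theorem del_dominated_poset {F : Set (Finset V)} (hF : IsCx F) (hfin : F.Finite) (v w : V)
    (hvw : v ≠ w) (h : ∀ s ∈ F, v ∈ s → insert w s ∈ F) :
    ∃ e : Rz (OC {s ∈ F | v ∉ s}) ≃ₕ Rz (OC F),
      e.toFun = RIncl (OC_mono (Set.sep_subset F _)) := by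
  set A1 : Set (Finset V) := {s ∈ F | v ∈ s → w ∈ s} with hA1
  have hsub1 : A1 ⊆ F := Set.sep_subset F _
  have hsub0 : {s ∈ F | v ∉ s} ⊆ A1 := fun s hs => ⟨hs.1, fun h' => absurd h' hs.2⟩
  obtain ⟨e1, he1⟩ := incl_upper (A := A1) (B := F) hfin hsub1 (by
    intro b hb
    by_cases hv : v ∈ b
    · refine contractible_OC (insert w b) ⟨⟨h b hb hv, fun _ => Finset.mem_insert_self _ _⟩,
        Finset.subset_insert _ _⟩ ?_
      intro q hq
      left
      refine Finset.insert_subset ?_ hq.2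
      exact hq.1.2 (hq.2 hv)
    · refine contractible_OC b ⟨⟨hb, fun h' => absurd h' hv⟩, le_rfl⟩ ?_
      intro q hq
      exact Or.inl hq.2)
  obtain ⟨e0, he0⟩ := incl_lower (A := {s ∈ F | v ∉ s}) (B := A1) (hfin.subset hsub1) hsub0 (by
    intro b hb
    by_cases hv : v ∈ b
    · have hw : w ∈ b := hb.2 hv
      have hw' : w ∈ b.erase v := Finset.mem_erase.2 ⟨hvw.symm, hw⟩
      refine contractible_OC (b.erase v) ⟨⟨hF.down b hb.1 _ (Finset.erase_subset _ _) ⟨w, hw'⟩,
        Finset.notMem_erase v b⟩, Finset.erase_subset _ _⟩ ?_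
      intro q hq
      right
      intro u hu
      refine Finset.mem_erase.2 ⟨?_, hq.2 hu⟩
      rintro rfl
      exact hq.1.2 hu
    · refine contractible_OC b ⟨⟨hb.1, hv⟩, le_rfl⟩ ?_
      intro q hq
      exact Or.inr hq.2)
  refine ⟨e0.trans e1, ?_⟩
  ext1 x
  change e1.toFun (e0.toFun x) = _
  rw [he1, he0]
  rfl

omit [DecidableEq V] in
theorem sep_isCx {F : Set (Finset V)} (hF : IsCx F) (v : V) : IsCx {s ∈ F | v ∉ s} where
  ne := fun s hs => hF.ne s hs.1
  down := fun s hs t hts ht => ⟨hF.down s hs.1 t hts ht, fun h => hs.2 (hts h)⟩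

/-- deleting a dominated vertex does not change the homotopy type -/
theorem del_dominated {F : Set (Finset V)} (hF : IsCx F) (hfin : F.Finite) (v w : V)
    (hvw : v ≠ w) (h : ∀ s ∈ F, v ∈ s → insert w s ∈ F) :
    Nonempty (Rz {s ∈ F | v ∉ s} ≃ₕ Rz F) := by
  obtain ⟨e, -⟩ := del_dominated_poset hF hfin v w hvw h
  exact ⟨((sd (sep_isCx hF v) (hfin.subset (Set.sep_subset F _))).symm.toHomotopyEquiv.trans
    e).trans (sd hF hfin).toHomotopyEquiv⟩

end CT
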