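import Mathlib
import Pool.Agent.CT.Cyc

/-!
# The nerve complex of a list of alternating words

A list `T` of relators, each one given by a list `[a₀, a₁, a₂, ...]` of even length at least
four which stands for `a₀ a₁⁻¹ a₂ a₃⁻¹ ...`.
-/

namespace CT

open scoped unitInterval ContinuousMap

/-- the vertices -/
inductive Vx : Type
  | x | y (a : ℕ) | z (i j : ℕ)
  deriving DecidableEq

/-- the length of the `i`-th word -/
def lenT (T : List (List ℕ)) (i : ℕ) : ℕ := (T.getD i []).length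

/-- the `j`-th letter of the `i`-th word -/
def colT (T : List (List ℕ)) (i j : ℕ) : ℕ := (T.getD i []).getD j 0

/-- the letters which occur -/
def OccT (T : List (List ℕ)) (a : ℕ) : Prop := ∃ l ∈ T, a ∈ l

/-- the admissible lists -/
structure GoodT (T : List (List ℕ)) : Prop where
  two : 2 ≤ T.length
  even : ∀ l ∈ T, Even l.length
  four : ∀ l ∈ T, 4 ≤ l.length

variable (T : List (List ℕ))

/-- all `z`-vertices -/
def allZ : Set Vx := {v | ∃ i j, j < lenT T i ∧ v = .z i j}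

/-- all `y`-vertices -/
def allY : Set Vx := {v | ∃ a, OccT T a ∧ v = .y a}

/-- the facets of the second kind -/
def Face2 (i j : ℕ) : Set Vx := allY T ∪ {.z i (2 * j), .z i (2 * j + 1)}

/-- the facets of the third kind -/
def Face3 (i j : ℕ) : Set Vx := {.x, .z i (2 * j + 1), .z i ((2 * j + 2) % lenT T i)}

/-- the facets of the fourth kind -/
def Face4 (i j : ℕ) : Set Vx := {.x, .y (colT T i j), .z i j}

/-- the complex of all facets except the simplex of all `z`-vertices -/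
def N1 : Set (Finset Vx) := {s | s.Nonempty ∧
  ((∃ i j, 2 * j + 1 < lenT T i ∧ (s : Set Vx) ⊆ Face2 T i j) ∨
   (∃ i j, 2 * j + 1 < lenT T i ∧ (s : Set Vx) ⊆ Face3 T i j) ∨
   ∃ i j, j < lenT T i ∧ (s : Set Vx) ⊆ Face4 T i j)}

/-- the nerve complex -/
def NC : Set (Finset Vx) := {s | s.Nonempty ∧ (s : Set Vx) ⊆ allZ T} ∪ N1 T

/-- the simplex of the `y`-vertices, and the edges from `x` to the `y`-vertices -/
def K0 : Set (Finset Vx) := {s | s.Nonempty ∧
  ((s : Set Vx) ⊆ allY T ∨ ∃ a, OccT T a ∧ (s : Set Vx) ⊆ {.x, .y a})}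

/-- adding the triangles `x, y 0, y a` -/
def K4 (L : Set ℕ) : Set (Finset Vx) :=
  K0 T ∪ {s | ∃ a ∈ L, s = {.x, .y a, .y 0}}

/-- the set of the `z`-vertices of one word -/
def top (i : ℕ) : Finset Vx := (Finset.range (lenT T i)).image (fun j => Vx.z i j)

/-- the set of the `z`-vertices of the words up to `k` -/
def topU (k : ℕ) : Finset Vx := (Finset.range (k + 1)).biUnion (fun i => top T i)

variable {T}

theorem N1_isCx : IsCx (N1 T) where
  ne := fun _ h => h.1
  down := by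
    intro s h t hts ht
    have h1 : (t : Set Vx) ⊆ (s : Set Vx) := Finset.coe_subset.2 hts
    refine ⟨ht, ?_⟩
    rcases h.2 with ⟨i, j, h2, h3⟩ | ⟨i, j, h2, h3⟩ | ⟨i, j, h2, h3⟩
    · exact Or.inl ⟨i, j, h2, h1.trans h3⟩
    · exact Or.inr (Or.inl ⟨i, j, h2, h1.trans h3⟩)
    · exact Or.inr (Or.inr ⟨i, j, h2, h1.trans h3⟩)

theorem NC_isCx : IsCx (NC T) where
  ne := by
    rintro s (h | h)
    · exact h.1
    · exact h.1
  down := by
    rintro s (h | h) t hts ht
    · exact Or.inl ⟨ht, (Finset.coe_subset.2 hts).trans h.2⟩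
    · exact Or.inr (N1_isCx.down s h t hts ht)

theorem K0_isCx : IsCx (K0 T) where
  ne := fun _ h => h.1
  down := by
    intro s h t hts ht
    have h1 : (t : Set Vx) ⊆ (s : Set Vx) := Finset.coe_subset.2 hts
    refine ⟨ht, ?_⟩
    rcases h.2 with h2 | ⟨a, h2, h3⟩
    · exact Or.inl (h1.trans h2)
    · exact Or.inr ⟨a, h2, h1.trans h3⟩

theorem NCdef_occ_finite : {a | OccT T a}.Finite := by
  refine (T.flatten.toFinset.finite_toSet).subset ?_
  rintro a ⟨l, hl, ha⟩
  simp only [List.coe_toFinset, Set.mem_ofPred_eq, List.mem_flatten]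
  exact ⟨l, hl, ha⟩

theorem allY_finite : (allY T).Finite := by
  refine ((NCdef_occ_finite (T := T)).image Vx.y).subset ?_
  rintro v ⟨a, ha, rfl⟩
  exact ⟨a, ha, rfl⟩

theorem NCdef_lt_length {i j : ℕ} (h : j < lenT T i) : i < T.length := by
  by_contra hi
  unfold lenT at h
  rw [List.getD_eq_default _ _ (not_lt.1 hi)] at h
  simp at h

theorem allZ_finite : (allZ T).Finite := by
  refine (((Finset.range T.length).biUnion (fun i => top T i)).finite_toSet).subset ?_
  rintro v ⟨i, j, h, rfl⟩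
  simp only [Finset.coe_biUnion, Finset.coe_range, Set.mem_Iio, Set.mem_iUnion, Finset.mem_coe]
  exact ⟨i, NCdef_lt_length h, Finset.mem_image.2 ⟨j, Finset.mem_range.2 h, rfl⟩⟩

theorem NCdef_sub_finite {A : Set Vx} (hA : A.Finite) : {s : Finset Vx | (s : Set Vx) ⊆ A}.Finite := by
  refine (hA.toFinset.powerset.finite_toSet).subset ?_
  intro s hs
  simp only [Finset.coe_powerset, Set.mem_preimage, Set.Finite.coe_toFinset, Set.mem_powerset_iff]
  exact hs

theorem occ_col {i j : ℕ} (h : j < lenT T i) : OccT T (colT T i j) := by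
  have hi := NCdef_lt_length h
  unfold lenT at h
  unfold colT
  rw [List.getD_eq_getElem _ _ hi] at h ⊢
  rw [List.getD_eq_getElem _ _ h]
  exact ⟨_, List.getElem_mem hi, List.getElem_mem h⟩

theorem NC_finite : (NC T).Finite := by
  have hA : (insert Vx.x (allY T ∪ allZ T)).Finite :=
    (allY_finite.union allZ_finite).insert _
  refine (NCdef_sub_finite hA).subset ?_
  rintro s (h | h)
  · exact h.2.trans (Set.subset_union_right.trans (Set.subset_insert _ _))
  · have hz : ∀ {i j : ℕ}, j < lenT T i → Vx.z i j ∈ insert Vx.x (allY T ∪ allZ T) :=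
      fun {i j} h => Or.inr (Or.inr ⟨i, j, h, rfl⟩)
    rcases h.2 with ⟨i, j, h2, h3⟩ | ⟨i, j, h2, h3⟩ | ⟨i, j, h2, h3⟩
    · refine h3.trans ?_
      rintro v (hv | rfl | rfl)
      · exact Or.inr (Or.inl hv)
      · exact hz (by omega)
      · exact hz h2
    · refine h3.trans ?_
      rintro v (rfl | rfl | rfl)
      · exact Or.inl rfl
      · exact hz h2
      · exact hz (Nat.mod_lt _ (by omega))
    · refine h3.trans ?_
      rintro v (rfl | rfl | rfl)
      · exact Or.inl rfl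
      · exact Or.inr (Or.inl ⟨_, occ_col h2, rfl⟩)
      · exact hz h2

theorem N1_finite : (N1 T).Finite := NC_finite.subset fun _ h => Or.inr h

theorem K0_finite : (K0 T).Finite := by
  have hA : (insert Vx.x (allY T)).Finite := allY_finite.insert _
  refine (NCdef_sub_finite hA).subset ?_
  rintro s h
  rcases h.2 with h2 | ⟨a, h2, h3⟩
  · exact h2.trans (Set.subset_insert _ _)
  · refine h3.trans ?_
    rintro v (rfl | rfl)
    · exact Or.inl rfl
    · exact Or.inr ⟨a, h2, rfl⟩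

theorem N1_sub : N1 T ⊆ NC T := fun _ h => Or.inr h

theorem exists_col {a : ℕ} (h : OccT T a) : ∃ i j, j < lenT T i ∧ colT T i j = a := by
  obtain ⟨l, hl, ha⟩ := h
  obtain ⟨i, hi, rfl⟩ := List.getElem_of_mem hl
  obtain ⟨j, hj, rfl⟩ := List.getElem_of_mem ha
  refine ⟨i, j, ?_, ?_⟩
  · unfold lenT
    rw [List.getD_eq_getElem _ _ hi]
    exact hj
  · unfold colT
    rw [List.getD_eq_getElem _ _ hi, List.getD_eq_getElem _ _ hj]

theorem NCdef_four (hT : GoodT T) {i : ℕ} (hi : i < T.length) : 4 ≤ lenT T i := by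
  unfold lenT
  rw [List.getD_eq_getElem _ _ hi]
  exact hT.four _ (List.getElem_mem hi)

theorem NCdef_even (hT : GoodT T) (i : ℕ) : Even (lenT T i) := by
  unfold lenT
  by_cases hi : i < T.length
  · rw [List.getD_eq_getElem _ _ hi]
    exact hT.even _ (List.getElem_mem hi)
  · rw [List.getD_eq_default _ _ (not_lt.1 hi)]
    simp

theorem K0_sub (hT : GoodT T) : K0 T ⊆ N1 T := by
  rintro s ⟨hs, h | ⟨a, ha, h⟩⟩
  · have h2 := hT.two
    have h4 := NCdef_four hT (i := 0) (by omega)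
    exact ⟨hs, Or.inl ⟨0, 0, by omega, h.trans Set.subset_union_left⟩⟩
  · obtain ⟨i, j, hj, rfl⟩ := exists_col ha
    refine ⟨hs, Or.inr (Or.inr ⟨i, j, hj, h.trans ?_⟩)⟩
    rintro v (rfl | rfl)
    · exact Or.inl rfl
    · exact Or.inr (Or.inl rfl)

/-! ### the loops -/

section loops

variable {F : Set (Finset Vx)} (hF : IsCx F) (hK : K0 T ⊆ F)

theorem K0_x (h0 : OccT T 0) : ({Vx.x} : Finset Vx) ∈ K0 T :=
  ⟨Finset.singleton_nonempty _, Or.inr ⟨0, h0, by simp⟩⟩
theorem K0_y {a : ℕ} (ha : OccT T a) : ({Vx.y a} : Finset Vx) ∈ K0 T := by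
  refine ⟨Finset.singleton_nonempty _, Or.inl ?_⟩
  rw [Finset.coe_singleton, Set.singleton_subset_iff]
  exact ⟨a, ha, rfl⟩
theorem K0_xy {a : ℕ} (ha : OccT T a) : ({Vx.x, Vx.y a} : Finset Vx) ∈ K0 T :=
  ⟨⟨Vx.x, by simp⟩, Or.inr ⟨a, ha, by simp⟩⟩
theorem K0_yx {a : ℕ} (ha : OccT T a) : ({Vx.y a, Vx.x} : Finset Vx) ∈ K0 T := by
  rw [Finset.pair_comm]
  exact K0_xy ha
theorem K0_yy {a b : ℕ} (ha : OccT T a) (hb : OccT T b) :
    ({Vx.y a, Vx.y b} : Finset Vx) ∈ K0 T := by
  refine ⟨⟨Vx.y a, by simp⟩, Or.inl ?_⟩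
  rw [Finset.coe_insert, Finset.coe_singleton]
  rintro v (rfl | rfl)
  · exact ⟨a, ha, rfl⟩
  · exact ⟨b, hb, rfl⟩

/-- the vertex `x` -/
def vX (h0 : OccT T 0) : VF F := ⟨Vx.x, hK (K0_x h0)⟩

/-- the vertex `y a` -/
def vY {a : ℕ} (ha : OccT T a) : VF F := ⟨Vx.y a, hK (K0_y ha)⟩

/-- the loop of a letter: `x → y a → y 0 → x` -/
noncomputable def bloop (h0 : OccT T 0) {a : ℕ} (ha : OccT T a) :
    Path (ptv (vX hK h0)) (ptv (vX hK h0)) :=
  (edge hF (vX hK h0) (vY hK ha) (hK (K0_xy ha))).trans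
    ((edge hF (vY hK ha) (vY hK h0) (hK (K0_yy ha h0))).trans
      (edge hF (vY hK h0) (vX hK h0) (hK (K0_yx h0))))

end loops

end CT
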