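import Mathlib
import Pool.Agent.CT.NCdef

/-!
# Alternating words and the cycles of the nerve complex
-/

namespace CT

open scoped unitInterval ContinuousMap

variable {T : List (List ℕ)}

/-! ### words in letters and alternating words -/

/-- the alternating word of a word -/
def altW {n : ℕ} (w : List (Fin n × Bool)) : List ℕ :=
  w.flatMap (fun p => cond p.2 [(p.1 : ℕ) + 1, 0] [0, (p.1 : ℕ) + 1])

/-- the list of alternating words of a presentation -/
def altT {n : ℕ} (R : List (List (Fin n × Bool))) : List (List ℕ) := R.map altW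

/-- the admissible presentations: at least two relators, all relators have length at least
two, and each generator occurs -/
structure GoodR {n : ℕ} (R : List (List (Fin n × Bool))) : Prop where
  two : 2 ≤ R.length
  len : ∀ r ∈ R, 2 ≤ r.length
  occ : ∀ a : Fin n, ∃ r ∈ R, ∃ b, (a, b) ∈ r

variable {n : ℕ} {R : List (List (Fin n × Bool))}

theorem altW_length (w : List (Fin n × Bool)) : (altW w).length = 2 * w.length := by
  induction w with
  | nil => rfl
  | cons p w ih =>
    have h1 : altW (p :: w) = cond p.2 [(p.1 : ℕ) + 1, 0] [0, (p.1 : ℕ) + 1] ++ altW w := rfl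
    rw [h1, List.length_append, ih, List.length_cons]
    rcases p with ⟨a, _ | _⟩ <;> simp <;> omega

theorem NCalt_pair (w : List (Fin n × Bool)) : ∀ (j : ℕ) (hj : j < w.length),
    (altW w).getD (2 * j) 0 = cond (w.get ⟨j, hj⟩).2 (((w.get ⟨j, hj⟩).1 : ℕ) + 1) 0 ∧
    (altW w).getD (2 * j + 1) 0 = cond (w.get ⟨j, hj⟩).2 0 (((w.get ⟨j, hj⟩).1 : ℕ) + 1) := by
  induction w with
  | nil =>
    intro j hj
    exact absurd hj (Nat.not_lt_zero j)
  | cons p w ih =>
    intro j hj
    have h1 : altW (p :: w) = cond p.2 [(p.1 : ℕ) + 1, 0] [0, (p.1 : ℕ) + 1] ++ altW w := rfl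
    have h2 : ∃ a b, cond p.2 [(p.1 : ℕ) + 1, 0] [0, (p.1 : ℕ) + 1] = [a, b] ∧
        a = cond p.2 ((p.1 : ℕ) + 1) 0 ∧ b = cond p.2 0 ((p.1 : ℕ) + 1) := by
      rcases p with ⟨a, _ | _⟩
      · exact ⟨_, _, rfl, rfl, rfl⟩
      · exact ⟨_, _, rfl, rfl, rfl⟩
    obtain ⟨a, b, h3, h4, h5⟩ := h2
    rw [h1, h3]
    cases j with
    | zero => exact ⟨h4, h5⟩
    | succ j =>
      have h6 : j < w.length := by simpa using hj
      have h7 := ih j h6
      exact h7

theorem altW_even (w : List (Fin n × Bool)) (j : ℕ) (hj : j < w.length) :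
    (altW w).getD (2 * j) 0 = cond (w.get ⟨j, hj⟩).2 (((w.get ⟨j, hj⟩).1 : ℕ) + 1) 0 :=
  (NCalt_pair w j hj).1

theorem altW_odd (w : List (Fin n × Bool)) (j : ℕ) (hj : j < w.length) :
    (altW w).getD (2 * j + 1) 0 = cond (w.get ⟨j, hj⟩).2 0 (((w.get ⟨j, hj⟩).1 : ℕ) + 1) :=
  (NCalt_pair w j hj).2

theorem NCalt_mem (w : List (Fin n × Bool)) (c : ℕ) : c ∈ altW w ↔
    ∃ p ∈ w, c = (p.1 : ℕ) + 1 ∨ c = 0 := by
  unfold altW
  rw [List.mem_flatMap]
  refine exists_congr fun p => and_congr_right fun _ => ?_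
  rcases p with ⟨a, _ | _⟩
  · simp [or_comm]
  · simp

theorem altT_good (hR : GoodR R) : GoodT (altT R) where
  two := by
    unfold altT
    rw [List.length_map]
    exact hR.two
  even := by
    intro l hl
    obtain ⟨r, hr, rfl⟩ := List.mem_map.1 hl
    rw [altW_length]
    exact even_two_mul _
  four := by
    intro l hl
    obtain ⟨r, hr, rfl⟩ := List.mem_map.1 hl
    rw [altW_length]
    have := hR.len r hr
    omega

theorem NCalt_zero (hR : GoodR R) : ∃ r ∈ R, ∃ p, p ∈ r := by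
  have h2 := hR.two
  have h3 : R.get ⟨0, by omega⟩ ∈ R := List.get_mem _ _
  have h4 := hR.len _ h3
  exact ⟨_, h3, (R.get ⟨0, by omega⟩).get ⟨0, by omega⟩, List.get_mem _ _⟩

theorem altT_occ_zero (hR : GoodR R) : OccT (altT R) 0 := by
  obtain ⟨r, hr, p, hp⟩ := NCalt_zero hR
  exact ⟨altW r, List.mem_map.2 ⟨r, hr, rfl⟩, (NCalt_mem r 0).2 ⟨p, hp, Or.inr rfl⟩⟩

theorem altT_occ (hR : GoodR R) (a : Fin n) : OccT (altT R) ((a : ℕ) + 1) := by
  obtain ⟨r, hr, b, hp⟩ := hR.occ a
  exact ⟨altW r, List.mem_map.2 ⟨r, hr, rfl⟩, (NCalt_mem r _).2 ⟨(a, b), hp, Or.inl rfl⟩⟩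

theorem altT_occ_iff (hR : GoodR R) (a : ℕ) : OccT (altT R) a ↔ a ≤ n := by
  constructor
  · rintro ⟨l, hl, ha⟩
    obtain ⟨r, hr, rfl⟩ := List.mem_map.1 hl
    obtain ⟨p, hp, rfl | rfl⟩ := (NCalt_mem r a).1 ha
    · exact p.1.2
    · exact Nat.zero_le _
  · intro h
    rcases Nat.eq_zero_or_pos a with rfl | h0
    · exact altT_occ_zero hR
    · obtain ⟨b, rfl⟩ := Nat.exists_eq_succ_of_ne_zero (Nat.pos_iff_ne_zero.1 h0)
      exact altT_occ hR ⟨b, h⟩

theorem lenT_altT (i : Fin R.length) : lenT (altT R) i = 2 * (R.get i).length := by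
  unfold lenT altT
  rw [List.getD_eq_getElem _ _ (by rw [List.length_map]; exact i.2), List.getElem_map,
    altW_length]
  rfl

theorem lenT_altT_ge (i : ℕ) (hi : R.length ≤ i) : lenT (altT R) i = 0 := by
  unfold lenT altT
  rw [List.getD_eq_default _ _ (by rw [List.length_map]; exact hi)]
  rfl

/-- the loops of the generators in a complex containing `K0` -/
noncomputable def gl {F : Set (Finset Vx)} (hF : IsCx F) (hK : K0 (altT R) ⊆ F)
    (hR : GoodR R) (a : Fin n) :
    Path (ptv (vX hK (altT_occ_zero hR))) (ptv (vX hK (altT_occ_zero hR))) :=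
  bloop hF hK (altT_occ_zero hR) (altT_occ hR a)

/-! ### the cycles -/

section cycles

variable {F : Set (Finset Vx)} (hF : IsCx F) (hN : N1 T ⊆ F)

/-- the vertices of the `i`-th cycle -/
def cyv (T : List (List ℕ)) (i : ℕ) : ℕ → Vx := fun j => .z i (j % lenT T i)

theorem N1_z {i j : ℕ} (hT : GoodT T) (h : j < lenT T i) : ({Vx.z i j} : Finset Vx) ∈ N1 T := by
  refine ⟨Finset.singleton_nonempty _, Or.inr (Or.inr ⟨i, j, h, ?_⟩)⟩
  rw [Finset.coe_singleton, Set.singleton_subset_iff]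
  exact Or.inr (Or.inr rfl)

theorem NCalt_mem_top {T : List (List ℕ)} {i : ℕ} {v : Vx} :
    v ∈ top T i ↔ ∃ j, j < lenT T i ∧ v = .z i j := by
  unfold top
  rw [Finset.mem_image]
  constructor
  · rintro ⟨j, hj, rfl⟩
    exact ⟨j, Finset.mem_range.1 hj, rfl⟩
  · rintro ⟨j, hj, rfl⟩
    exact ⟨j, Finset.mem_range.2 hj, rfl⟩

theorem NCalt_card_top (T : List (List ℕ)) (i : ℕ) : (top T i).card = lenT T i := by
  unfold top
  rw [Finset.card_image_of_injective _ (fun a b h => (Vx.z.inj h).2), Finset.card_range]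

theorem NCalt_cyv_mem {T : List (List ℕ)} {i : ℕ} (hi : 0 < lenT T i) (j : ℕ) :
    cyv T i j ∈ top T i := NCalt_mem_top.2 ⟨_, Nat.mod_lt _ hi, rfl⟩

/-- the faces of `N1` with vertices in one top -/
theorem NCalt_face {T : List (List ℕ)} {i : ℕ} {s : Finset Vx} (hs : s ∈ N1 T)
    (h : s ⊆ top T i) : ∃ j, s ⊆ {cyv T i j, cyv T i (j + 1)} := by
  have hz : ∀ v ∈ s, ∃ j, j < lenT T i ∧ v = .z i j := fun v hv => NCalt_mem_top.1 (h hv)
  have hsm : ∀ {j}, j < lenT T i → cyv T i j = .z i j := fun {j} hj => by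
    unfold cyv
    rw [Nat.mod_eq_of_lt hj]
  obtain ⟨v0, hv0⟩ := hs.1
  rcases hs.2 with ⟨i', j, h2, h3⟩ | ⟨i', j, h2, h3⟩ | ⟨i', j, h2, h3⟩
  · have hi : i' = i := by
      obtain ⟨k, -, rfl⟩ := hz v0 hv0
      rcases h3 hv0 with ⟨a, -, ha⟩ | ha | ha
      · cases ha
      · exact (Vx.z.inj ha).1.symm
      · exact (Vx.z.inj ha).1.symm
    subst hi
    refine ⟨2 * j, fun v hv => ?_⟩
    rw [hsm (by omega), hsm h2, Finset.mem_insert, Finset.mem_singleton]
    obtain ⟨k, -, rfl⟩ := hz v hv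
    rcases h3 hv with ⟨a, -, ha⟩ | ha | ha
    · cases ha
    · exact Or.inl ha
    · exact Or.inr ha
  · have hi : i' = i := by
      obtain ⟨k, -, rfl⟩ := hz v0 hv0
      rcases h3 hv0 with ha | ha | ha
      · cases ha
      · exact (Vx.z.inj ha).1.symm
      · exact (Vx.z.inj ha).1.symm
    subst hi
    refine ⟨2 * j + 1, fun v hv => ?_⟩
    rw [hsm h2, Finset.mem_insert, Finset.mem_singleton]
    obtain ⟨k, -, rfl⟩ := hz v hv
    rcases h3 hv with ha | ha | ha
    · cases ha
    · exact Or.inl ha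
    · exact Or.inr ha
  · have hi : i' = i := by
      obtain ⟨k, -, rfl⟩ := hz v0 hv0
      rcases h3 hv0 with ha | ha | ha
      · cases ha
      · cases ha
      · exact (Vx.z.inj ha).1.symm
    subst hi
    refine ⟨j, fun v hv => ?_⟩
    rw [hsm h2, Finset.mem_insert, Finset.mem_singleton]
    obtain ⟨k, -, rfl⟩ := hz v hv
    rcases h3 hv with ha | ha | ha
    · cases ha
    · cases ha
    · exact Or.inl ha

theorem NCalt_len {T : List (List ℕ)} (hT : GoodT T) {i : ℕ} (hi : 0 < lenT T i) :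
    4 ≤ lenT T i := NCdef_four hT (NCdef_lt_length hi)

/-- the `i`-th cycle consists of the faces of `N1` inside its vertex set -/
theorem cyc_eq (hT : GoodT T) (i : ℕ) (hi : 0 < lenT T i) :
    Cyc (cyv T i) = {s | s ∈ N1 T ∧ s < top T i} := by
  ext s
  constructor
  · rintro ⟨hs, j, hj⟩
    refine ⟨⟨hs, ?_⟩, ?_⟩
    · obtain ⟨m, hm⟩ := NCdef_even hT i
      have hlt : j % lenT T i < lenT T i := Nat.mod_lt _ hi
      have hj' : (s : Set Vx) ⊆ {cyv T i j, cyv T i (j + 1)} := by
        intro v hv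
        have := hj hv
        rwa [Finset.mem_insert, Finset.mem_singleton] at this
      rcases Nat.even_or_odd' (j % lenT T i) with ⟨q, hq | hq⟩
      · left
        have h1 : (j + 1) % lenT T i = 2 * q + 1 := by
          rw [Nat.add_mod, hq, Nat.mod_eq_of_lt (show 1 < lenT T i by omega),
            Nat.mod_eq_of_lt (by omega)]
        refine ⟨i, q, by omega, hj'.trans ?_⟩
        rintro v (rfl | rfl)
        · exact Or.inr (Or.inl (by unfold cyv; rw [hq]))
        · exact Or.inr (Or.inr (by unfold cyv; rw [h1]; rfl))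
      · right
        left
        have h1 : (j + 1) % lenT T i = (2 * q + 2) % lenT T i := by
          rw [Nat.add_mod, hq, Nat.mod_eq_of_lt (show 1 < lenT T i by omega)]
        refine ⟨i, q, by omega, hj'.trans ?_⟩
        rintro v (rfl | rfl)
        · exact Or.inr (Or.inl (by unfold cyv; rw [hq]))
        · exact Or.inr (Or.inr (by unfold cyv; rw [h1]; rfl))
    · refine lt_of_le_of_ne ?_ ?_
      · intro v hv
        have h1 := hj hv
        rw [Finset.mem_insert, Finset.mem_singleton] at h1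
        rcases h1 with rfl | rfl
        · exact NCalt_cyv_mem hi _
        · exact NCalt_cyv_mem hi _
      · rintro rfl
        have h1 := (Finset.card_le_card hj).trans Finset.card_le_two
        rw [NCalt_card_top] at h1
        have h2 := NCalt_len hT hi
        omega
  · rintro ⟨h1, h2⟩
    exact ⟨h1.1, NCalt_face h1 h2.le⟩

theorem Cyc_sub_N1 (hT : GoodT T) (i : ℕ) (hi : 0 < lenT T i) : Cyc (cyv T i) ⊆ N1 T := by
  rw [cyc_eq hT i hi]
  exact fun _ h => h.1

theorem cyv_inj (i : ℕ) (j k : ℕ) (hj : j < lenT T i) (hk : k < lenT T i)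
    (h : cyv T i j = cyv T i k) : j = k := by
  unfold cyv at h
  rw [Nat.mod_eq_of_lt hj, Nat.mod_eq_of_lt hk] at h
  exact (Vx.z.inj h).2

theorem cyv_per (i : ℕ) (j : ℕ) : cyv T i (j + lenT T i) = cyv T i j := by
  unfold cyv
  rw [Nat.add_mod_right]

end cycles

end CT
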