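import Mathlib
import Pool.Agent.CT.NC
import Pool.Agent.CT.Quillen
import Pool.Agent.CT.Subd

/-!
# The base graph of the nerve complex
-/

namespace CT

open scoped unitInterval ContinuousMap

section gen

variable {P : Type} [PartialOrder P]

theorem NCB_up {A B : Set P} (hB : B.Finite) (hAB : A ⊆ B)
    (h : ∀ b ∈ B, b ∉ A → ContractibleSpace (Rz (OC (ge1 A b)))) :
    ∃ e : Rz (OC A) ≃ₕ Rz (OC B), e.toFun = RIncl (OC_mono hAB) := by
  refine incl_upper hB hAB fun b hb => ?_
  by_cases hbA : b ∈ A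
  · exact contractible_OC b ⟨hbA, le_rfl⟩ (fun c hc => Or.inl hc.2)
  · exact h b hb hbA

theorem NCB_lo {A B : Set P} (hB : B.Finite) (hAB : A ⊆ B)
    (h : ∀ b ∈ B, b ∉ A → ContractibleSpace (Rz (OC (le1 A b)))) :
    ∃ e : Rz (OC A) ≃ₕ Rz (OC B), e.toFun = RIncl (OC_mono hAB) := by
  refine incl_lower hB hAB fun b hb => ?_
  by_cases hbA : b ∈ A
  · exact contractible_OC b ⟨hbA, le_rfl⟩ (fun c hc => Or.inr hc.2)
  · exact h b hb hbA

theorem NCB_trans {A B C : Set P} (hAB : A ⊆ B) (hBC : B ⊆ C)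
    (h1 : ∃ e : Rz (OC A) ≃ₕ Rz (OC B), e.toFun = RIncl (OC_mono hAB))
    (h2 : ∃ e : Rz (OC B) ≃ₕ Rz (OC C), e.toFun = RIncl (OC_mono hBC)) :
    ∃ e : Rz (OC A) ≃ₕ Rz (OC C), e.toFun = RIncl (OC_mono (hAB.trans hBC)) := by
  obtain ⟨e1, h1⟩ := h1
  obtain ⟨e2, h2⟩ := h2
  refine ⟨e1.trans e2, ?_⟩
  change e2.toFun.comp e1.toFun = _
  rw [h1, h2]
  rfl

end gen

variable {T : List (List ℕ)}

/-- the edge in the facet of the third kind -/
def NCB_E (T : List (List ℕ)) (s : Finset Vx) : Prop :=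
  ∃ i j, 2 * j + 1 < lenT T i ∧ s = {.z i (2 * j + 1), .z i ((2 * j + 2) % lenT T i)}

/-- the facets of the third kind -/
def NCB_D (T : List (List ℕ)) (s : Finset Vx) : Prop :=
  ∃ i j, 2 * j + 1 < lenT T i ∧ s = {.x, .z i (2 * j + 1), .z i ((2 * j + 2) % lenT T i)}

def NCB_C (T : List (List ℕ)) (s : Finset Vx) : Prop :=
  ∃ i j, j < lenT T i ∧ s = {.x, .z i j}

def NCB_B (T : List (List ℕ)) (s : Finset Vx) : Prop :=
  ∃ i j, j < lenT T i ∧ s = {.x, .y (colT T i j), .z i j}

def NCB_A4 (T : List (List ℕ)) : Set (Finset Vx) := {s | s ∈ N1 T ∧ ¬ NCB_E T s}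
def NCB_A3 (T : List (List ℕ)) : Set (Finset Vx) := {s | s ∈ NCB_A4 T ∧ ¬ NCB_D T s}
def NCB_A2 (T : List (List ℕ)) : Set (Finset Vx) := {s | s ∈ NCB_A3 T ∧ ¬ NCB_C T s}
def NCB_A1 (T : List (List ℕ)) : Set (Finset Vx) := {s | s ∈ NCB_A2 T ∧ ¬ NCB_B T s}
def NCB_A0 (T : List (List ℕ)) : Set (Finset Vx) :=
  {s | s ∈ NCB_A1 T ∧ ¬ ∀ v ∈ s, ∃ i j, v = Vx.z i j}

theorem NCB_s4 : NCB_A4 T ⊆ N1 T := fun _ h => h.1
theorem NCB_s3 : NCB_A3 T ⊆ NCB_A4 T := fun _ h => h.1
theorem NCB_s2 : NCB_A2 T ⊆ NCB_A3 T := fun _ h => h.1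
theorem NCB_s1 : NCB_A1 T ⊆ NCB_A2 T := fun _ h => h.1
theorem NCB_s0 : NCB_A0 T ⊆ NCB_A1 T := fun _ h => h.1

theorem NCB_even (hT : GoodT T) (i : ℕ) : Even (lenT T i) := by
  unfold lenT
  by_cases h : i < T.length
  · rw [List.getD_eq_getElem _ _ h]
    exact hT.even _ (List.getElem_mem h)
  · rw [List.getD_eq_default _ _ (by omega)]
    exact Even.zero

theorem NCB_four (hT : GoodT T) (i : ℕ) (hi : 0 < lenT T i) : 4 ≤ lenT T i := by
  unfold lenT at *
  by_cases h : i < T.length
  · rw [List.getD_eq_getElem _ _ h]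
    exact hT.four _ (List.getElem_mem h)
  · rw [List.getD_eq_default _ _ (by omega)] at hi
    simp at hi

/-- the successor of an odd index: parity and the two cases -/
theorem NCB_succ (hT : GoodT T) {i j : ℕ} (h : 2 * j + 1 < lenT T i) :
    ((2 * j + 2) % lenT T i = 2 * j + 2 ∧ 2 * j + 2 < lenT T i) ∨
      ((2 * j + 2) % lenT T i = 0 ∧ 0 < j) := by
  obtain ⟨m, hm⟩ := NCB_even hT i
  have h4 := NCB_four hT i (by omega)
  by_cases h2 : 2 * j + 2 < lenT T i
  · exact Or.inl ⟨Nat.mod_eq_of_lt h2, h2⟩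
  · right
    have h3 : 2 * j + 2 = lenT T i := by omega
    refine ⟨by rw [h3, Nat.mod_self], by omega⟩

theorem NCB_mem2 {i j : ℕ} {v : Vx} : v ∈ Face2 T i j ↔
    v ∈ allY T ∨ v = .z i (2 * j) ∨ v = .z i (2 * j + 1) := Iff.rfl

theorem NCB_mem3 {i j : ℕ} {v : Vx} : v ∈ Face3 T i j ↔
    v = .x ∨ v = .z i (2 * j + 1) ∨ v = .z i ((2 * j + 2) % lenT T i) := Iff.rfl

theorem NCB_mem4 {i j : ℕ} {v : Vx} : v ∈ Face4 T i j ↔
    v = .x ∨ v = .y (colT T i j) ∨ v = .z i j := Iff.rfl

theorem NCB_x_allY : Vx.x ∉ allY T := by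
  rintro ⟨a, -, h⟩
  cases h

theorem NCB_z_allY {i j : ℕ} : Vx.z i j ∉ allY T := by
  rintro ⟨a, -, h⟩
  cases h

theorem NCB_col_allY {i j : ℕ} (h : j < lenT T i) : Vx.y (colT T i j) ∈ allY T :=
  ⟨_, occ_col h, rfl⟩

theorem NCB_step4 (hT : GoodT T) : ∃ e : Rz (OC (NCB_A4 T)) ≃ₕ Rz (OC (N1 T)),
    e.toFun = RIncl (OC_mono NCB_s4) := by
  refine NCB_up N1_finite NCB_s4 fun b hb hbA => ?_
  have hE : NCB_E T b := by
    by_contra h
    exact hbA ⟨hb, h⟩
  obtain ⟨i, j, hj, rfl⟩ := hE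
  have hsucc := NCB_succ hT hj
  refine contractible_OC {.x, .z i (2 * j + 1), .z i ((2 * j + 2) % lenT T i)} ⟨⟨?_, ?_⟩, ?_⟩ ?_
  · refine ⟨⟨.x, by simp⟩, Or.inr (Or.inl ⟨i, j, hj, ?_⟩)⟩
    intro v hv
    simpa [Face3] using hv
  · rintro ⟨i', j', hj', h⟩
    have : Vx.x ∈ ({.z i' (2 * j' + 1), .z i' ((2 * j' + 2) % lenT T i')} : Finset Vx) := by
      rw [← h]; simp
    simp at this
  · intro v hv
    simp only [Finset.mem_insert, Finset.mem_singleton] at hv ⊢
    exact Or.inr hv
  · rintro q ⟨⟨hq, hqE⟩, hbq⟩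
    left
    have h1 : Vx.z i (2 * j + 1) ∈ q := hbq (by simp)
    have h2 : Vx.z i ((2 * j + 2) % lenT T i) ∈ q := hbq (by simp)
    have hx : Vx.x ∈ q := by
      by_contra hx
      obtain ⟨-, ⟨i', j', hj', hs⟩ | ⟨i', j', hj', hs⟩ | ⟨i', j', hj', hs⟩⟩ := hq
      · have h1' := NCB_mem2.1 (hs h1)
        have h2' := NCB_mem2.1 (hs h2)
        simp only [NCB_z_allY, false_or, Vx.z.injEq] at h1' h2'
        omega
      · have h1' := NCB_mem3.1 (hs h1)
        simp only [Vx.z.injEq, reduceCtorEq, false_or] at h1'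
        have hsucc' := NCB_succ hT hj'
        have hij : i = i' ∧ j = j' := by
          obtain ⟨m, hm⟩ := NCB_even hT i'
          omega
        obtain ⟨rfl, rfl⟩ := hij
        refine hqE ⟨i, j, hj, ?_⟩
        refine Finset.Subset.antisymm ?_ hbq
        intro v hv
        have hv' := NCB_mem3.1 (hs hv)
        rcases hv' with rfl | rfl | rfl
        · exact (hx hv).elim
        · simp
        · simp
      · have h1' := NCB_mem4.1 (hs h1)
        have h2' := NCB_mem4.1 (hs h2)
        simp only [Vx.z.injEq, reduceCtorEq, false_or] at h1' h2'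
        omega
    intro v hv
    simp only [Finset.mem_insert, Finset.mem_singleton] at hv
    rcases hv with rfl | rfl | rfl
    · exact hx
    · exact h1
    · exact h2

theorem NCB_step3 (hT : GoodT T) : ∃ e : Rz (OC (NCB_A3 T)) ≃ₕ Rz (OC (NCB_A4 T)),
    e.toFun = RIncl (OC_mono NCB_s3) := by
  refine NCB_lo (N1_finite.subset fun _ h => h.1) NCB_s3 fun b hb hbA => ?_
  have hD : NCB_D T b := by
    by_contra h
    exact hbA ⟨hb, h⟩
  obtain ⟨i, j, hj, rfl⟩ := hD
  have hsucc := NCB_succ hT hj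
  have hne : Vx.z i (2 * j + 1) ≠ Vx.z i ((2 * j + 2) % lenT T i) := by
    intro h
    have := (Vx.z.inj h).2
    omega
  have hN1 : ∀ q : Finset Vx, q.Nonempty →
      q ≤ {.x, .z i (2 * j + 1), .z i ((2 * j + 2) % lenT T i)} → q ∈ N1 T := by
    intro q hq0 hq
    refine ⟨hq0, Or.inr (Or.inl ⟨i, j, hj, ?_⟩)⟩
    intro v hv
    have := hq hv
    simpa [Face3] using this
  have hfin : (le1 (NCB_A3 T) ({.x, .z i (2 * j + 1), .z i ((2 * j + 2) % lenT T i)} :
      Finset Vx)).Finite := N1_finite.subset fun _ h => h.1.1.1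
  refine contractible_join hfin {.x} ⟨⟨⟨hN1 _ ⟨.x, by simp⟩ (by
    intro v hv
    simp only [Finset.mem_singleton] at hv
    simp [hv]), ?_⟩, ?_⟩, ?_⟩ (fun q => insert Vx.x q) ?_ ?_ ?_ ?_
  · rintro ⟨i', j', hj', h⟩
    have : Vx.z i' (2 * j' + 1) ∈ ({.x} : Finset Vx) := by
      rw [h]; simp
    simp at this
  · rintro ⟨i', j', hj', h⟩
    have : Vx.z i' (2 * j' + 1) ∈ ({.x} : Finset Vx) := by
      rw [h]; simp
    simp at this
  · intro v hv
    simp only [Finset.mem_singleton] at hv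
    simp [hv]
  · rintro q ⟨⟨⟨hq, hqE⟩, hqD⟩, hqb⟩
    have hle : insert Vx.x q ≤
        ({.x, .z i (2 * j + 1), .z i ((2 * j + 2) % lenT T i)} : Finset Vx) := by
      intro v hv
      rcases Finset.mem_insert.1 hv with rfl | hv
      · simp
      · exact hqb hv
    refine ⟨⟨⟨hN1 _ (Finset.insert_nonempty _ _) hle, ?_⟩, ?_⟩, hle⟩
    · rintro ⟨i', j', hj', h⟩
      have : Vx.x ∈ ({.z i' (2 * j' + 1), .z i' ((2 * j' + 2) % lenT T i')} : Finset Vx) := by
        rw [← h]; simp
      simp at this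
    · rintro ⟨i', j', hj', h⟩
      have hsucc' := NCB_succ hT hj'
      have k1 : Vx.z i' (2 * j' + 1) ∈ insert Vx.x q := by rw [h]; simp
      have k2 : Vx.z i' ((2 * j' + 2) % lenT T i') ∈ insert Vx.x q := by rw [h]; simp
      have l1 := hle k1
      have l2 := hle k2
      simp only [Finset.mem_insert, Finset.mem_singleton, Vx.z.injEq, reduceCtorEq,
        false_or] at k1 k2 l1 l2
      have hij : i' = i ∧ j' = j := by
        obtain ⟨m, hm⟩ := NCB_even hT i
        omega
      obtain ⟨rfl, rfl⟩ := hij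
      by_cases hx : Vx.x ∈ q
      · refine hqD ⟨i', j', hj', ?_⟩
        rw [← h, Finset.insert_eq_of_mem hx]
      · refine hqE ⟨i', j', hj', ?_⟩
        ext v
        constructor
        · intro hv
          have := hqb hv
          simp only [Finset.mem_insert, Finset.mem_singleton] at this ⊢
          rcases this with rfl | h | h
          · exact (hx hv).elim
          · exact Or.inl h
          · exact Or.inr h
        · intro hv
          simp only [Finset.mem_insert, Finset.mem_singleton] at hv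
          rcases hv with rfl | rfl
          · exact k1
          · exact k2
  · intro q _
    exact Finset.subset_insert _ _
  · intro q _ v hv
    simp only [Finset.mem_singleton] at hv
    simp [hv]
  · intro p _ q _ hpq hx v hv
    rcases Finset.mem_insert.1 hv with rfl | hv
    · exact hx (by simp)
    · exact hpq hv

theorem NCB_step2 (_hT : GoodT T) : ∃ e : Rz (OC (NCB_A2 T)) ≃ₕ Rz (OC (NCB_A3 T)),
    e.toFun = RIncl (OC_mono NCB_s2) := by
  refine NCB_up (N1_finite.subset fun _ h => h.1.1) NCB_s2 fun b hb hbA => ?_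
  have hC : NCB_C T b := by
    by_contra h
    exact hbA ⟨hb, h⟩
  obtain ⟨i, j, hj, rfl⟩ := hC
  have hy : Vx.y (colT T i j) ∈ ({.x, .y (colT T i j), .z i j} : Finset Vx) := by simp
  refine contractible_OC {.x, .y (colT T i j), .z i j} ⟨⟨⟨⟨?_, ?_⟩, ?_⟩, ?_⟩, ?_⟩ ?_
  · refine ⟨⟨.x, by simp⟩, Or.inr (Or.inr ⟨i, j, hj, ?_⟩)⟩
    intro v hv
    simpa [Face4] using hv
  · rintro ⟨i', j', hj', h⟩
    rw [h] at hy
    simp at hy
  · rintro ⟨i', j', hj', h⟩
    rw [h] at hy
    simp at hy
  · rintro ⟨i', j', hj', h⟩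
    rw [h] at hy
    simp at hy
  · intro v hv
    simp only [Finset.mem_insert, Finset.mem_singleton] at hv ⊢
    tauto
  · rintro q ⟨⟨⟨⟨hq, hqE⟩, hqD⟩, hqC⟩, hbq⟩
    left
    have h1 : Vx.x ∈ q := hbq (by simp)
    have h2 : Vx.z i j ∈ q := hbq (by simp)
    obtain ⟨-, ⟨i', j', hj', hs⟩ | ⟨i', j', hj', hs⟩ | ⟨i', j', hj', hs⟩⟩ := hq
    · have h1' := NCB_mem2.1 (hs h1)
      simp [NCB_x_allY] at h1'
    · exfalso
      have hlt : (2 * j' + 2) % lenT T i' < lenT T i' := Nat.mod_lt _ (by omega)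
      by_cases k1 : Vx.z i' (2 * j' + 1) ∈ q
      · by_cases k2 : Vx.z i' ((2 * j' + 2) % lenT T i') ∈ q
        · refine hqD ⟨i', j', hj', ?_⟩
          ext v
          constructor
          · intro hv
            have := NCB_mem3.1 (hs hv)
            simpa using this
          · intro hv
            simp only [Finset.mem_insert, Finset.mem_singleton] at hv
            rcases hv with rfl | rfl | rfl
            · exact h1
            · exact k1
            · exact k2
        · refine hqC ⟨i', 2 * j' + 1, hj', ?_⟩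
          ext v
          constructor
          · intro hv
            rcases NCB_mem3.1 (hs hv) with rfl | rfl | rfl
            · simp
            · simp
            · exact (k2 hv).elim
          · intro hv
            simp only [Finset.mem_insert, Finset.mem_singleton] at hv
            rcases hv with rfl | rfl
            · exact h1
            · exact k1
      · refine hqC ⟨i', (2 * j' + 2) % lenT T i', hlt, ?_⟩
        have k2 : Vx.z i' ((2 * j' + 2) % lenT T i') ∈ q := by
          rcases NCB_mem3.1 (hs h2) with h | h | h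
          · cases h
          · rw [h] at h2
            exact (k1 h2).elim
          · rw [h] at h2
            exact h2
        ext v
        constructor
        · intro hv
          rcases NCB_mem3.1 (hs hv) with rfl | rfl | rfl
          · simp
          · exact (k1 hv).elim
          · simp
        · intro hv
          simp only [Finset.mem_insert, Finset.mem_singleton] at hv
          rcases hv with rfl | rfl
          · exact h1
          · exact k2
    · have h2' := NCB_mem4.1 (hs h2)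
      simp only [Vx.z.injEq, reduceCtorEq, false_or] at h2'
      obtain ⟨rfl, rfl⟩ := h2'
      have h3 : Vx.y (colT T i j) ∈ q := by
        by_contra h3
        refine hqC ⟨i, j, hj, ?_⟩
        ext v
        constructor
        · intro hv
          rcases NCB_mem4.1 (hs hv) with rfl | rfl | rfl
          · simp
          · exact (h3 hv).elim
          · simp
        · intro hv
          simp only [Finset.mem_insert, Finset.mem_singleton] at hv
          rcases hv with rfl | rfl
          · exact h1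
          · exact h2
      intro v hv
      simp only [Finset.mem_insert, Finset.mem_singleton] at hv
      rcases hv with rfl | rfl | rfl
      · exact h1
      · exact h3
      · exact h2

theorem NCB_step1 (_hT : GoodT T) : ∃ e : Rz (OC (NCB_A1 T)) ≃ₕ Rz (OC (NCB_A2 T)),
    e.toFun = RIncl (OC_mono NCB_s1) := by
  refine NCB_lo (N1_finite.subset fun _ h => h.1.1.1) NCB_s1 fun b hb hbA => ?_
  have hC : NCB_B T b := by
    by_contra h
    exact hbA ⟨hb, h⟩
  obtain ⟨i, j, hj, rfl⟩ := hC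
  have hN1 : ∀ q : Finset Vx, q.Nonempty →
      q ≤ {.x, .y (colT T i j), .z i j} → q ∈ N1 T := by
    intro q hq0 hq
    refine ⟨hq0, Or.inr (Or.inr ⟨i, j, hj, ?_⟩)⟩
    intro v hv
    have := hq hv
    simpa [Face4] using this
  have hfin : (le1 (NCB_A1 T) ({.x, .y (colT T i j), .z i j} :
      Finset Vx)).Finite := N1_finite.subset fun _ h => h.1.1.1.1.1
  have hyE : ∀ q : Finset Vx, Vx.y (colT T i j) ∈ q → ¬ NCB_E T q := by
    rintro _ h ⟨i', j', hj', rfl⟩
    simp at h
  have hyD : ∀ q : Finset Vx, Vx.y (colT T i j) ∈ q → ¬ NCB_D T q := by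
    rintro _ h ⟨i', j', hj', rfl⟩
    simp at h
  have hyC : ∀ q : Finset Vx, Vx.y (colT T i j) ∈ q → ¬ NCB_C T q := by
    rintro _ h ⟨i', j', hj', rfl⟩
    simp at h
  have hyy : Vx.y (colT T i j) ∈ ({.y (colT T i j)} : Finset Vx) := by simp
  refine contractible_join hfin {.y (colT T i j)} ⟨⟨⟨⟨⟨hN1 _ ⟨_, hyy⟩ (by
    intro v hv
    simp only [Finset.mem_singleton] at hv
    simp [hv]), hyE _ hyy⟩, hyD _ hyy⟩, hyC _ hyy⟩, ?_⟩, ?_⟩
    (fun q => insert (Vx.y (colT T i j)) q) ?_ ?_ ?_ ?_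
  · rintro ⟨i', j', hj', h⟩
    have : Vx.x ∈ ({.y (colT T i j)} : Finset Vx) := by
      rw [h]; simp
    simp at this
  · intro v hv
    simp only [Finset.mem_singleton] at hv
    simp [hv]
  · rintro q ⟨⟨⟨⟨⟨hq, hqE⟩, hqD⟩, hqC⟩, hqB⟩, hqb⟩
    have hle : insert (Vx.y (colT T i j)) q ≤
        ({.x, .y (colT T i j), .z i j} : Finset Vx) := by
      intro v hv
      rcases Finset.mem_insert.1 hv with rfl | hv
      · simp
      · exact hqb hv
    have hyq := Finset.mem_insert_self (Vx.y (colT T i j)) q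
    refine ⟨⟨⟨⟨⟨hN1 _ (Finset.insert_nonempty _ _) hle, hyE _ hyq⟩, hyD _ hyq⟩,
      hyC _ hyq⟩, ?_⟩, hle⟩
    rintro ⟨i', j', hj', h⟩
    have k1 : Vx.x ∈ insert (Vx.y (colT T i j)) q := by rw [h]; simp
    have k2 : Vx.z i' j' ∈ insert (Vx.y (colT T i j)) q := by rw [h]; simp
    have l2 := hle k2
    simp only [Finset.mem_insert, Finset.mem_singleton, Vx.z.injEq, reduceCtorEq,
      false_or] at k1 k2 l2
    obtain ⟨rfl, rfl⟩ := l2
    by_cases hx : Vx.y (colT T i' j') ∈ q
    · refine hqB ⟨i', j', hj', ?_⟩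
      rw [← h, Finset.insert_eq_of_mem hx]
    · refine hqC ⟨i', j', hj', ?_⟩
      ext v
      constructor
      · intro hv
        have := hqb hv
        simp only [Finset.mem_insert, Finset.mem_singleton] at this ⊢
        rcases this with h | rfl | h
        · exact Or.inl h
        · exact (hx hv).elim
        · exact Or.inr h
      · intro hv
        simp only [Finset.mem_insert, Finset.mem_singleton] at hv
        rcases hv with rfl | rfl
        · exact k1
        · exact k2
  · intro q _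
    exact Finset.subset_insert _ _
  · intro q _ v hv
    simp only [Finset.mem_singleton] at hv
    simp [hv]
  · intro p _ q _ hpq hx v hv
    rcases Finset.mem_insert.1 hv with rfl | hv
    · exact hx (by simp)
    · exact hpq hv

/-- the faces which contain `x` and a `z`-vertex have been removed -/
theorem NCB_xz {q : Finset Vx} (hq : q ∈ NCB_A1 T) (hx : Vx.x ∈ q) (i j : ℕ)
    (hz : Vx.z i j ∈ q) : False := by
  obtain ⟨⟨⟨⟨hq, hqE⟩, hqD⟩, hqC⟩, hqB⟩ := hq
  obtain ⟨-, ⟨i', j', hj', hs⟩ | ⟨i', j', hj', hs⟩ | ⟨i', j', hj', hs⟩⟩ := hq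
  · have h1' := NCB_mem2.1 (hs hx)
    simp [NCB_x_allY] at h1'
  · have hlt : (2 * j' + 2) % lenT T i' < lenT T i' := Nat.mod_lt _ (by omega)
    by_cases k1 : Vx.z i' (2 * j' + 1) ∈ q
    · by_cases k2 : Vx.z i' ((2 * j' + 2) % lenT T i') ∈ q
      · refine hqD ⟨i', j', hj', ?_⟩
        ext v
        constructor
        · intro hv
          have := NCB_mem3.1 (hs hv)
          simpa using this
        · intro hv
          simp only [Finset.mem_insert, Finset.mem_singleton] at hv
          rcases hv with rfl | rfl | rfl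
          · exact hx
          · exact k1
          · exact k2
      · refine hqC ⟨i', 2 * j' + 1, hj', ?_⟩
        ext v
        constructor
        · intro hv
          rcases NCB_mem3.1 (hs hv) with rfl | rfl | rfl
          · simp
          · simp
          · exact (k2 hv).elim
        · intro hv
          simp only [Finset.mem_insert, Finset.mem_singleton] at hv
          rcases hv with rfl | rfl
          · exact hx
          · exact k1
    · refine hqC ⟨i', (2 * j' + 2) % lenT T i', hlt, ?_⟩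
      have k2 : Vx.z i' ((2 * j' + 2) % lenT T i') ∈ q := by
        rcases NCB_mem3.1 (hs hz) with h | h | h
        · cases h
        · rw [h] at hz
          exact (k1 hz).elim
        · rw [h] at hz
          exact hz
      ext v
      constructor
      · intro hv
        rcases NCB_mem3.1 (hs hv) with rfl | rfl | rfl
        · simp
        · exact (k1 hv).elim
        · simp
      · intro hv
        simp only [Finset.mem_insert, Finset.mem_singleton] at hv
        rcases hv with rfl | rfl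
        · exact hx
        · exact k2
  · have h2' := NCB_mem4.1 (hs hz)
    simp only [Vx.z.injEq, reduceCtorEq, false_or] at h2'
    obtain ⟨rfl, rfl⟩ := h2'
    by_cases h3 : Vx.y (colT T i j) ∈ q
    · refine hqB ⟨i, j, hj', ?_⟩
      ext v
      constructor
      · intro hv
        have := NCB_mem4.1 (hs hv)
        simpa using this
      · intro hv
        simp only [Finset.mem_insert, Finset.mem_singleton] at hv
        rcases hv with rfl | rfl | rfl
        · exact hx
        · exact h3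
        · exact hz
    · refine hqC ⟨i, j, hj', ?_⟩
      ext v
      constructor
      · intro hv
        rcases NCB_mem4.1 (hs hv) with rfl | rfl | rfl
        · simp
        · exact (h3 hv).elim
        · simp
      · intro hv
        simp only [Finset.mem_insert, Finset.mem_singleton] at hv
        rcases hv with rfl | rfl
        · exact hx
        · exact hz

theorem NCB_pair (hT : GoodT T) {i k : ℕ} (hk : k < lenT T i) :
    2 * (k / 2) + 1 < lenT T i := by
  obtain ⟨m, hm⟩ := NCB_even hT i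
  omega

theorem NCB_step0 (hT : GoodT T) : ∃ e : Rz (OC (NCB_A0 T)) ≃ₕ Rz (OC (NCB_A1 T)),
    e.toFun = RIncl (OC_mono NCB_s0) := by
  refine NCB_up (N1_finite.subset fun _ h => h.1.1.1.1) NCB_s0 fun b hb hbA => ?_
  have hz : ∀ v ∈ b, ∃ i j, v = Vx.z i j := by
    by_contra h
    exact hbA ⟨hb, h⟩
  have hbN : b ∈ N1 T := hb.1.1.1.1
  have hx : Vx.x ∉ b := fun h => by
    obtain ⟨i, j, h⟩ := hz _ h
    cases h
  have hy : ∀ a, Vx.y a ∉ b := fun a h => by
    obtain ⟨i, j, h⟩ := hz _ h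
    cases h
  -- the pair
  obtain ⟨i, j, hj, hsub⟩ : ∃ i j, 2 * j + 1 < lenT T i ∧
      ∀ v ∈ b, v = Vx.z i (2 * j) ∨ v = Vx.z i (2 * j + 1) := by
    have key : ∀ i k, k < lenT T i → (∀ v ∈ b, v = Vx.z i k) → ∃ i j, 2 * j + 1 < lenT T i ∧
      ∀ v ∈ b, v = Vx.z i (2 * j) ∨ v = Vx.z i (2 * j + 1) := by
      intro i k hk h
      refine ⟨i, k / 2, NCB_pair hT hk, fun v hv => ?_⟩
      rw [h v hv]
      simp only [Vx.z.injEq, true_and]
      omega
    obtain ⟨hne, ⟨i', j', hj', hs⟩ | ⟨i', j', hj', hs⟩ | ⟨i', j', hj', hs⟩⟩ := hbN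
    · refine ⟨i', j', hj', fun v hv => ?_⟩
      rcases NCB_mem2.1 (hs hv) with h | h
      · obtain ⟨a, -, rfl⟩ := h
        exact (hy _ hv).elim
      · exact h
    · have hlt : (2 * j' + 2) % lenT T i' < lenT T i' := Nat.mod_lt _ (by omega)
      by_cases k1 : Vx.z i' (2 * j' + 1) ∈ b
      · by_cases k2 : Vx.z i' ((2 * j' + 2) % lenT T i') ∈ b
        · exfalso
          refine hb.1.1.1.2 ⟨i', j', hj', ?_⟩
          ext v
          constructor
          · intro hv
            rcases NCB_mem3.1 (hs hv) with rfl | rfl | rfl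
            · exact (hx hv).elim
            · simp
            · simp
          · intro hv
            simp only [Finset.mem_insert, Finset.mem_singleton] at hv
            rcases hv with rfl | rfl
            · exact k1
            · exact k2
        · refine key i' (2 * j' + 1) hj' fun v hv => ?_
          rcases NCB_mem3.1 (hs hv) with rfl | rfl | rfl
          · exact (hx hv).elim
          · rfl
          · exact (k2 hv).elim
      · refine key i' _ hlt fun v hv => ?_
        rcases NCB_mem3.1 (hs hv) with rfl | rfl | rfl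
        · exact (hx hv).elim
        · exact (k1 hv).elim
        · rfl
    · refine key i' j' hj' fun v hv => ?_
      rcases NCB_mem4.1 (hs hv) with rfl | rfl | rfl
      · exact (hx hv).elim
      · exact (hy _ hv).elim
      · rfl
  have hc : ∀ v, v ∈ (allY_finite (T := T)).toFinset ∪ {.z i (2 * j), .z i (2 * j + 1)} ↔
      v ∈ allY T ∨ v = .z i (2 * j) ∨ v = .z i (2 * j + 1) := by
    intro v
    rw [Finset.mem_union, Set.Finite.mem_toFinset, Finset.mem_insert, Finset.mem_singleton]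
  have hyc : Vx.y (colT T i (2 * j + 1)) ∈
      (allY_finite (T := T)).toFinset ∪ {.z i (2 * j), .z i (2 * j + 1)} :=
    (hc _).2 (Or.inl (NCB_col_allY hj))
  have hxc : Vx.x ∉ (allY_finite (T := T)).toFinset ∪ {.z i (2 * j), .z i (2 * j + 1)} := by
    rw [hc]
    simp [NCB_x_allY]
  refine contractible_OC ((allY_finite (T := T)).toFinset ∪ {.z i (2 * j), .z i (2 * j + 1)})
    ⟨⟨⟨⟨⟨⟨?_, ?_⟩, ?_⟩, ?_⟩, ?_⟩, ?_⟩, ?_⟩ ?_
  · refine ⟨⟨_, hyc⟩, Or.inl ⟨i, j, hj, fun v hv => ?_⟩⟩
    exact (hc v).1 hv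
  · rintro ⟨i', j', hj', h⟩
    rw [h] at hyc
    simp at hyc
  · rintro ⟨i', j', hj', h⟩
    rw [h] at hyc
    simp at hyc
  · rintro ⟨i', j', hj', h⟩
    rw [h] at hyc
    simp at hyc
  · rintro ⟨i', j', hj', h⟩
    rw [h] at hxc
    simp at hxc
  · intro h
    obtain ⟨i', j', h⟩ := h _ hyc
    cases h
  · intro v hv
    exact (hc v).2 (Or.inr (hsub v hv))
  · rintro q ⟨⟨hq1, hqz⟩, hbq⟩
    right
    obtain ⟨z0, hz0⟩ := hbN.1
    have hxq : Vx.x ∉ q := fun h => by
      obtain ⟨i1, j1, h1⟩ := hz z0 hz0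
      exact NCB_xz hq1 h i1 j1 (h1 ▸ hbq hz0)
    have hqN := hq1.1.1.1.1
    obtain ⟨-, ⟨i', j', hj', hs⟩ | ⟨i', j', hj', hs⟩ | ⟨i', j', hj', hs⟩⟩ := hqN
    · have h0 := hsub z0 hz0
      have h1 := NCB_mem2.1 (hs (hbq hz0))
      have hij : i' = i ∧ j' = j := by
        rcases h0 with rfl | rfl
        · simp only [NCB_z_allY, false_or, Vx.z.injEq] at h1
          omega
        · simp only [NCB_z_allY, false_or, Vx.z.injEq] at h1
          omega
      obtain ⟨rfl, rfl⟩ := hij
      intro v hv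
      exact (hc v).2 (NCB_mem2.1 (hs hv))
    · exfalso
      refine hqz fun v hv => ?_
      rcases NCB_mem3.1 (hs hv) with rfl | rfl | rfl
      · exact (hxq hv).elim
      · exact ⟨_, _, rfl⟩
      · exact ⟨_, _, rfl⟩
    · have h0 := hsub z0 hz0
      have h1 := NCB_mem4.1 (hs (hbq hz0))
      intro v hv
      rw [hc]
      rcases NCB_mem4.1 (hs hv) with rfl | rfl | rfl
      · exact (hxq hv).elim
      · exact Or.inl (NCB_col_allY hj')
      · right
        rcases h1 with h1 | h1 | h1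
        · rw [h1] at hz0
          exact (hx hz0).elim
        · rw [h1] at hz0
          exact (hy _ hz0).elim
        · rw [← h1]
          exact h0

theorem NCB_K0_A0 (hT : GoodT T) : K0 T ⊆ NCB_A0 T := by
  intro s hs
  have hN := K0_sub hT hs
  obtain ⟨hne, hs⟩ := hs
  have hz : ∀ i j, Vx.z i j ∉ s := by
    intro i j h
    rcases hs with hs | ⟨a, -, hs⟩
    · exact NCB_z_allY (hs h)
    · have := hs h
      simp at this
  refine ⟨⟨⟨⟨⟨hN, ?_⟩, ?_⟩, ?_⟩, ?_⟩, ?_⟩
  · rintro ⟨i', j', hj', rfl⟩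
    exact hz i' (2 * j' + 1) (by simp)
  · rintro ⟨i', j', hj', rfl⟩
    exact hz i' (2 * j' + 1) (by simp)
  · rintro ⟨i', j', hj', rfl⟩
    exact hz i' j' (by simp)
  · rintro ⟨i', j', hj', rfl⟩
    exact hz i' j' (by simp)
  · intro h
    obtain ⟨v, hv⟩ := hne
    obtain ⟨i, j, rfl⟩ := h v hv
    exact hz i j hv

theorem NCB_stepK (hT : GoodT T) : ∃ e : Rz (OC (K0 T)) ≃ₕ Rz (OC (NCB_A0 T)),
    e.toFun = RIncl (OC_mono (NCB_K0_A0 hT)) := by
  classical
  refine NCB_lo (N1_finite.subset fun _ h => h.1.1.1.1.1) (NCB_K0_A0 hT) fun b hb hbK => ?_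
  have hbN : b ∈ N1 T := hb.1.1.1.1.1
  -- `b` contains a `z`-vertex
  have hz : ∃ i j, Vx.z i j ∈ b := by
    by_contra hz
    push Not at hz
    refine hbK ⟨hbN.1, ?_⟩
    obtain ⟨-, ⟨i', j', hj', hs⟩ | ⟨i', j', hj', hs⟩ | ⟨i', j', hj', hs⟩⟩ := hbN
    · left
      intro v hv
      rcases NCB_mem2.1 (hs hv) with h | rfl | rfl
      · exact h
      · exact (hz _ _ hv).elim
      · exact (hz _ _ hv).elim
    · right
      refine ⟨_, occ_col (show 2 * j' + 1 < lenT T i' from hj'), fun v hv => ?_⟩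
      rcases NCB_mem3.1 (hs hv) with rfl | rfl | rfl
      · simp
      · exact (hz _ _ hv).elim
      · exact (hz _ _ hv).elim
    · right
      refine ⟨_, occ_col hj', fun v hv => ?_⟩
      rcases NCB_mem4.1 (hs hv) with rfl | rfl | rfl
      · simp
      · simp
      · exact (hz _ _ hv).elim
  obtain ⟨i, j, hzb⟩ := hz
  have hxb : Vx.x ∉ b := fun h => NCB_xz hb.1 h i j hzb
  have hyb : ∀ v ∈ b, v ∈ allY T ∨ ∃ i j, v = Vx.z i j := by
    intro v hv
    obtain ⟨-, ⟨i', j', hj', hs⟩ | ⟨i', j', hj', hs⟩ | ⟨i', j', hj', hs⟩⟩ := hbN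
    · rcases NCB_mem2.1 (hs hv) with h | rfl | rfl
      · exact Or.inl h
      · exact Or.inr ⟨_, _, rfl⟩
      · exact Or.inr ⟨_, _, rfl⟩
    · rcases NCB_mem3.1 (hs hv) with rfl | rfl | rfl
      · exact (hxb hv).elim
      · exact Or.inr ⟨_, _, rfl⟩
      · exact Or.inr ⟨_, _, rfl⟩
    · rcases NCB_mem4.1 (hs hv) with rfl | rfl | rfl
      · exact (hxb hv).elim
      · exact Or.inl (NCB_col_allY hj')
      · exact Or.inr ⟨_, _, rfl⟩
  have hne : (b.filter fun v => v ∈ allY T).Nonempty := by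
    by_contra h
    rw [Finset.not_nonempty_iff_eq_empty, Finset.filter_eq_empty_iff] at h
    refine hb.2 fun v hv => ?_
    rcases hyb v hv with h' | h'
    · exact (h hv h').elim
    · exact h'
  refine contractible_OC (b.filter fun v => v ∈ allY T)
    ⟨⟨hne, Or.inl fun v hv => (Finset.mem_filter.1 hv).2⟩, Finset.filter_subset _ _⟩ ?_
  rintro q ⟨⟨-, hq⟩, hqb⟩
  right
  intro v hv
  refine Finset.mem_filter.2 ⟨hqb hv, ?_⟩
  rcases hq with hq | ⟨a, ha, hq⟩
  · exact hq hv
  · have := hq hv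
    simp only [Set.mem_insert_iff, Set.mem_singleton_iff] at this
    rcases this with rfl | rfl
    · exact (hxb (hqb hv)).elim
    · exact ⟨a, ha, rfl⟩

/-- the poset version: the inclusion of `K0` in `N1` is a homotopy equivalence -/
theorem K0_N1_poset (hT : GoodT T) :
    ∃ e : Rz (OC (K0 T)) ≃ₕ Rz (OC (N1 T)), e.toFun = RIncl (OC_mono (K0_sub hT)) := by
  have k0 := NCB_K0_A0 hT
  have k1 := k0.trans NCB_s0
  have k2 := k1.trans NCB_s1
  have k3 := k2.trans NCB_s2
  have k4 := k3.trans NCB_s3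
  have h1 := NCB_trans k0 NCB_s0 (NCB_stepK hT) (NCB_step0 hT)
  have h2 := NCB_trans k1 NCB_s1 h1 (NCB_step1 hT)
  have h3 := NCB_trans k2 NCB_s2 h2 (NCB_step2 hT)
  have h4 := NCB_trans k3 NCB_s3 h3 (NCB_step3 hT)
  exact NCB_trans k4 NCB_s4 h4 (NCB_step4 hT)

/-- the inclusion of `K0` in `N1` is a homotopy equivalence -/
theorem K0_N1 (hT : GoodT T) :
    ∃ e : Rz (K0 T) ≃ₕ Rz (N1 T), e.toFun = RIncl (K0_sub hT) := by
  obtain ⟨e, he⟩ := K0_N1_poset hT
  refine ⟨((sd K0_isCx K0_finite).symm.toHomotopyEquiv.trans e).trans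
    (sd N1_isCx N1_finite).toHomotopyEquiv, ?_⟩
  ext1 x
  change sd N1_isCx N1_finite (e.toFun ((sd K0_isCx K0_finite).symm x)) = _
  rw [he, sd_incl K0_isCx K0_finite N1_isCx N1_finite (K0_sub hT), Homeomorph.apply_symm_apply]

end CT
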