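import Mathlib
import Pool.Agent.CT.Defs

/-!
# Combinatorial topology: one-point unions of spheres, basic facts
-/

namespace CT

open scoped unitInterval ContinuousMap

section basic

variable {n : ℕ} (d : Fin n → ℕ) (p : ∀ i, Sph (d i))

/-- the base point -/
def wedgePt : Wedge d p := Quot.mk _ (Sum.inl ())

/-- the inclusion of a sphere -/
def wedgeIn (i : Fin n) : C(Sph (d i), Wedge d p) where
  toFun x := Quot.mk _ (Sum.inr ⟨i, x⟩)
  continuous_toFun := continuous_quot_mk.comp (continuous_inr.comp continuous_sigmaMk)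

theorem wedgeIn_base (i : Fin n) : wedgeIn d p i (p i) = wedgePt d p :=
  Quot.sound (WedgeRel.base i)

/-- the projection of the disjoint union to a sphere -/
noncomputable def WedgeA_pre (j : Fin n) : Unit ⊕ (Σ i, Sph (d i)) → Sph (d j) :=
  Sum.elim (fun _ => p j) (fun q => if h : q.1 = j then h ▸ q.2 else p j)

theorem WedgeA_pre_cont (j : Fin n) : Continuous (WedgeA_pre d p j) := by
  unfold WedgeA_pre
  refine continuous_sum_dom.2 ⟨continuous_const, ?_⟩
  refine continuous_sigma fun i => ?_
  by_cases h : i = j
  · subst h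
    simpa using continuous_id'
  · simpa [h] using continuous_const

/-- the projection of the one-point union to a sphere -/
noncomputable def WedgeA_proj (j : Fin n) : C(Wedge d p, Sph (d j)) where
  toFun := Quot.lift (WedgeA_pre d p j) (by
    rintro _ _ ⟨i⟩
    by_cases h : i = j
    · subst h
      simp [WedgeA_pre]
    · simp [WedgeA_pre, h])
  continuous_toFun := continuous_quot_lift _ (WedgeA_pre_cont d p j)

theorem WedgeA_proj_pt (j : Fin n) : WedgeA_proj d p j (wedgePt d p) = p j := rfl

theorem WedgeA_proj_same (i : Fin n) (x : Sph (d i)) :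
    WedgeA_proj d p i (wedgeIn d p i x) = x := by
  change WedgeA_pre d p i (Sum.inr ⟨i, x⟩) = x
  simp [WedgeA_pre]

theorem WedgeA_proj_ne (i j : Fin n) (h : i ≠ j) (x : Sph (d i)) :
    WedgeA_proj d p j (wedgeIn d p i x) = p j := by
  change WedgeA_pre d p j (Sum.inr ⟨i, x⟩) = p j
  simp [WedgeA_pre, h]

theorem wedgeIn_injective (i : Fin n) : Function.Injective (wedgeIn d p i) := by
  intro x y h
  have := congrArg (WedgeA_proj d p i) h
  rwa [WedgeA_proj_same, WedgeA_proj_same] at this

theorem wedgeIn_eq (i j : Fin n) (hij : i ≠ j) (x : Sph (d i)) (y : Sph (d j))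
    (h : wedgeIn d p i x = wedgeIn d p j y) : x = p i ∧ y = p j := by
  constructor
  · have := congrArg (WedgeA_proj d p i) h
    rwa [WedgeA_proj_same, WedgeA_proj_ne _ _ _ _ hij.symm] at this
  · have := congrArg (WedgeA_proj d p j) h
    rw [WedgeA_proj_same, WedgeA_proj_ne _ _ _ _ hij] at this
    exact this.symm

theorem wedge_cases (z : Wedge d p) : z = wedgePt d p ∨ ∃ i x, z = wedgeIn d p i x := by
  induction z using Quot.ind with
  | mk a =>
    rcases a with ⟨⟩ | ⟨i, x⟩
    · exact Or.inl rfl
    · exact Or.inr ⟨i, x, rfl⟩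

theorem WedgeA_inj : Function.Injective (fun (z : Wedge d p) (j : Fin n) => WedgeA_proj d p j z) := by
  intro z w h
  have h' : ∀ j, WedgeA_proj d p j z = WedgeA_proj d p j w := fun j => congrFun h j
  rcases wedge_cases d p z with rfl | ⟨i, x, rfl⟩
  · rcases wedge_cases d p w with rfl | ⟨i, x, rfl⟩
    · rfl
    · have := h' i
      rw [WedgeA_proj_pt, WedgeA_proj_same] at this
      rw [← this, wedgeIn_base]
  · rcases wedge_cases d p w with rfl | ⟨j, y, rfl⟩
    · have := h' i
      rw [WedgeA_proj_pt, WedgeA_proj_same] at this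
      rw [this, wedgeIn_base]
    · by_cases hij : i = j
      · subst hij
        have := h' i
        rw [WedgeA_proj_same, WedgeA_proj_same] at this
        rw [this]
      · have h1 := h' i
        rw [WedgeA_proj_same, WedgeA_proj_ne _ _ _ _ (Ne.symm hij)] at h1
        have h2 := h' j
        rw [WedgeA_proj_same, WedgeA_proj_ne _ _ _ _ hij] at h2
        rw [h1, ← h2, wedgeIn_base, wedgeIn_base]

theorem wedge_t2 : T2Space (Wedge d p) :=
  T2Space.of_injective_continuous (WedgeA_inj d p)
    (continuous_pi fun j => (WedgeA_proj d p j).continuous)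

theorem wedge_compact : CompactSpace (Wedge d p) := by
  have : CompactSpace (Unit ⊕ (Σ i, Sph (d i))) := inferInstance
  exact inferInstanceAs (CompactSpace (Quot _))

end basic

end CT
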