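import Mathlib
import Pool.Agent.CT.WedgeA
import Pool.Agent.CT.AttBase

/-!
# Combinatorial topology: one-point unions of spheres
-/

namespace CT

open scoped unitInterval ContinuousMap

section WedgeBaux

theorem WedgeB_norm_sq {k : ℕ} (x : Sph k) : ∑ i, (x : EuclideanSpace ℝ (Fin (k + 1))) i ^ 2 = 1 := by
  have h := x.2
  rw [mem_sphere_zero_iff_norm] at h
  rw [← EuclideanSpace.real_norm_sq_eq, h, one_pow]

theorem WedgeB_mem_sph {k : ℕ} (x : EuclideanSpace ℝ (Fin (k + 1))) (h : ∑ i, x i ^ 2 = 1) :
    x ∈ Metric.sphere (0 : EuclideanSpace ℝ (Fin (k + 1))) 1 := by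
  rw [mem_sphere_zero_iff_norm]
  rw [← EuclideanSpace.real_norm_sq_eq] at h
  have h0 := norm_nonneg x
  nlinarith [h0, h, sq_nonneg (‖x‖ - 1)]

/-- the suspension coordinates -/
noncomputable def WedgeB_suspFun (k : ℕ) (q : I × Sph k) : EuclideanSpace ℝ (Fin (k + 1 + 1)) :=
  WithLp.toLp 2 (Fin.cons (Real.cos (Real.pi * (q.1 : ℝ)))
    (fun i => Real.sin (Real.pi * (q.1 : ℝ)) * (q.2 : EuclideanSpace ℝ (Fin (k + 1))) i))

theorem WedgeB_suspFun_zero (k : ℕ) (q : I × Sph k) :
    WedgeB_suspFun k q 0 = Real.cos (Real.pi * (q.1 : ℝ)) := rfl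

theorem WedgeB_suspFun_succ (k : ℕ) (q : I × Sph k) (i : Fin (k + 1)) :
    WedgeB_suspFun k q i.succ =
      Real.sin (Real.pi * (q.1 : ℝ)) * (q.2 : EuclideanSpace ℝ (Fin (k + 1))) i := rfl

theorem WedgeB_susp_mem (k : ℕ) (q : I × Sph k) :
    WedgeB_suspFun k q ∈ Metric.sphere (0 : EuclideanSpace ℝ (Fin (k + 1 + 1))) 1 := by
  apply WedgeB_mem_sph
  rw [Fin.sum_univ_succ, WedgeB_suspFun_zero]
  simp only [WedgeB_suspFun_succ, mul_pow]
  rw [← Finset.mul_sum, WedgeB_norm_sq]
  have := Real.cos_sq_add_sin_sq (Real.pi * (q.1 : ℝ))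
  linarith

theorem WedgeB_susp_cont (k : ℕ) : Continuous (WedgeB_suspFun k) := by
  unfold WedgeB_suspFun
  refine (PiLp.continuous_toLp 2 _).comp ?_
  refine continuous_pi fun i => ?_
  refine Fin.cases ?_ (fun j => ?_) i
  · simp only [Fin.cons_zero]
    fun_prop
  · simp only [Fin.cons_succ]
    refine Continuous.mul (by fun_prop) ?_
    have h1 : Continuous fun q : I × Sph k => (q.2 : EuclideanSpace ℝ (Fin (k + 1))) :=
      continuous_subtype_val.comp continuous_snd
    exact (EuclideanSpace.proj (𝕜 := ℝ) j).continuous.comp h1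

/-- the suspension of the sphere is the next sphere -/
noncomputable def WedgeB_susp (k : ℕ) : C(I × Sph k, Sph (k + 1)) where
  toFun q := ⟨WedgeB_suspFun k q, WedgeB_susp_mem k q⟩
  continuous_toFun := (WedgeB_susp_cont k).subtype_mk _

theorem WedgeB_susp_eq {k : ℕ} {t t' : I} {s s' : Sph k} (h : t = t')
    (h' : t = 0 ∨ t = 1 ∨ s = s') : WedgeB_susp k (t, s) = WedgeB_susp k (t', s') := by
  subst h
  rcases h' with h' | h' | h'
  · subst h'
    apply Subtype.ext
    refine PiLp.ext fun i => ?_
    refine Fin.cases ?_ (fun j => ?_) i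
    · rfl
    · change Real.sin (Real.pi * ((0 : I) : ℝ)) * _ = Real.sin (Real.pi * ((0 : I) : ℝ)) * _
      simp
  · subst h'
    apply Subtype.ext
    refine PiLp.ext fun i => ?_
    refine Fin.cases ?_ (fun j => ?_) i
    · rfl
    · change Real.sin (Real.pi * ((1 : I) : ℝ)) * _ = Real.sin (Real.pi * ((1 : I) : ℝ)) * _
      simp
  · rw [h']

theorem WedgeB_susp_inj {k : ℕ} {t t' : I} {s s' : Sph k}
    (h : WedgeB_susp k (t, s) = WedgeB_susp k (t', s')) :
    t = t' ∧ (t = 0 ∨ t = 1 ∨ s = s') := by
  have h1 : ∀ i, WedgeB_suspFun k (t, s) i = WedgeB_suspFun k (t', s') i := fun i =>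
    congrArg (fun z : Sph (k + 1) => (z : EuclideanSpace ℝ (Fin (k + 1 + 1))) i) h
  have h0 := h1 0
  rw [WedgeB_suspFun_zero, WedgeB_suspFun_zero] at h0
  have hpi := Real.pi_pos
  have ht : t = t' := by
    have := Real.injOn_cos (x₁ := Real.pi * (t : ℝ)) (x₂ := Real.pi * (t' : ℝ))
      ⟨by have := t.2.1; positivity, by have := t.2.2; nlinarith⟩
      ⟨by have := t'.2.1; positivity, by have := t'.2.2; nlinarith⟩ h0
    have := mul_left_cancel₀ hpi.ne' this
    exact Subtype.ext this
  subst ht
  refine ⟨rfl, ?_⟩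
  by_cases ht0 : t = 0
  · exact Or.inl ht0
  by_cases ht1 : t = 1
  · exact Or.inr (Or.inl ht1)
  refine Or.inr (Or.inr ?_)
  have htpos : 0 < (t : ℝ) := lt_of_le_of_ne t.2.1 (fun h => ht0 (Subtype.ext h.symm))
  have htlt : (t : ℝ) < 1 := lt_of_le_of_ne t.2.2 (fun h => ht1 (Subtype.ext h))
  have hs : 0 < Real.sin (Real.pi * (t : ℝ)) :=
    Real.sin_pos_of_pos_of_lt_pi (by positivity) (by nlinarith)
  apply Subtype.ext
  refine PiLp.ext fun i => ?_
  have h2 := h1 i.succ
  rw [WedgeB_suspFun_succ, WedgeB_suspFun_succ] at h2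
  exact mul_left_cancel₀ hs.ne' h2

theorem WedgeB_susp_surj (k : ℕ) : Function.Surjective (WedgeB_susp k) := by
  intro y
  have hy := WedgeB_norm_sq y
  rw [Fin.sum_univ_succ] at hy
  set a : ℝ := (y : EuclideanSpace ℝ (Fin (k + 1 + 1))) 0 with ha
  have hnn : 0 ≤ ∑ i : Fin (k + 1), (y : EuclideanSpace ℝ (Fin (k + 1 + 1))) i.succ ^ 2 :=
    Finset.sum_nonneg fun i _ => sq_nonneg _
  have ha1 : a ≤ 1 := by nlinarith
  have ha2 : -1 ≤ a := by nlinarith
  have hpi := Real.pi_pos
  let t : I := ⟨Real.arccos a / Real.pi, div_nonneg (Real.arccos_nonneg a) hpi.le,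
    (div_le_one hpi).2 (Real.arccos_le_pi a)⟩
  have ht : Real.pi * (t : ℝ) = Real.arccos a := by
    change Real.pi * (Real.arccos a / Real.pi) = _
    field_simp
  have hcos : Real.cos (Real.pi * (t : ℝ)) = a := by
    rw [ht, Real.cos_arccos ha2 ha1]
  have hsin : Real.sin (Real.pi * (t : ℝ)) ^ 2 = 1 - a ^ 2 := by
    have := Real.cos_sq_add_sin_sq (Real.pi * (t : ℝ))
    rw [hcos] at this
    linarith
  by_cases h0 : Real.sin (Real.pi * (t : ℝ)) = 0
  · have hz : ∑ i : Fin (k + 1), (y : EuclideanSpace ℝ (Fin (k + 1 + 1))) i.succ ^ 2 = 0 := by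
      rw [h0] at hsin
      nlinarith
    have hz' := (Finset.sum_eq_zero_iff_of_nonneg (fun i _ => sq_nonneg _)).1 hz
    obtain ⟨s⟩ : Nonempty (Sph k) := (NormedSpace.sphere_nonempty.2 zero_le_one).to_subtype
    refine ⟨(t, s), ?_⟩
    apply Subtype.ext
    refine PiLp.ext fun i => ?_
    refine Fin.cases ?_ (fun j => ?_) i
    · exact hcos
    · change Real.sin (Real.pi * (t : ℝ)) * _ = _
      rw [h0, zero_mul]
      have := hz' j (Finset.mem_univ _)
      exact (pow_eq_zero_iff two_ne_zero).1 this |>.symm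
  · let s : EuclideanSpace ℝ (Fin (k + 1)) := WithLp.toLp 2
      (fun i => (y : EuclideanSpace ℝ (Fin (k + 1 + 1))) i.succ / Real.sin (Real.pi * (t : ℝ)))
    have hs : s ∈ Metric.sphere (0 : EuclideanSpace ℝ (Fin (k + 1))) 1 := by
      apply WedgeB_mem_sph
      change ∑ i : Fin (k + 1), ((y : EuclideanSpace ℝ (Fin (k + 1 + 1))) i.succ /
        Real.sin (Real.pi * (t : ℝ))) ^ 2 = 1
      simp only [div_pow]
      rw [← Finset.sum_div, hsin]
      have h3 : (1 : ℝ) - a ^ 2 ≠ 0 := by
        rw [← hsin]
        exact pow_ne_zero 2 h0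
      rw [div_eq_one_iff_eq h3]
      linarith
    refine ⟨(t, ⟨s, hs⟩), ?_⟩
    apply Subtype.ext
    refine PiLp.ext fun i => ?_
    refine Fin.cases ?_ (fun j => ?_) i
    · exact hcos
    · change Real.sin (Real.pi * (t : ℝ)) * ((y : EuclideanSpace ℝ (Fin (k + 1 + 1))) j.succ /
        Real.sin (Real.pi * (t : ℝ))) = _
      field_simp

/-- change of the dimension along an equality -/
def WedgeB_cast {a b : ℕ} (h : a = b) : Sph a ≃ₜ Sph b := by
  subst h
  exact Homeomorph.refl _

end WedgeBaux

section basic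

variable {n : ℕ} (d : Fin n → ℕ) (p : ∀ i, Sph (d i))

theorem WedgeB_rotate {k : ℕ} (a b : Sph k) : ∃ e : Sph k ≃ₜ Sph k, e a = b := by
  have hn : ‖(a : EuclideanSpace ℝ (Fin (k + 1)))‖ = ‖(b : EuclideanSpace ℝ (Fin (k + 1)))‖ := by
    have h1 := a.2
    have h2 := b.2
    rw [mem_sphere_zero_iff_norm] at h1 h2
    rw [h1, h2]
  let E : EuclideanSpace ℝ (Fin (k + 1)) ≃ₗᵢ[ℝ] EuclideanSpace ℝ (Fin (k + 1)) :=
    Submodule.reflection (Submodule.span ℝ {(a : EuclideanSpace ℝ (Fin (k + 1))) -
      (b : EuclideanSpace ℝ (Fin (k + 1)))})ᗮ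
  have hE : ∀ x : EuclideanSpace ℝ (Fin (k + 1)),
      x ∈ Metric.sphere (0 : EuclideanSpace ℝ (Fin (k + 1))) 1 ↔
        E x ∈ Metric.sphere (0 : EuclideanSpace ℝ (Fin (k + 1))) 1 := by
    intro x
    rw [mem_sphere_zero_iff_norm, mem_sphere_zero_iff_norm, E.norm_map]
  refine ⟨E.toHomeomorph.subtype hE, ?_⟩
  apply Subtype.ext
  exact Submodule.reflection_sub hn

/-- the map of one-point unions induced by base point preserving maps -/
def WedgeB_map (p' : ∀ i, Sph (d i)) (e : ∀ i, C(Sph (d i), Sph (d i)))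
    (he : ∀ i, e i (p i) = p' i) : C(Wedge d p, Wedge d p') where
  toFun := Quot.lift (Sum.elim (fun _ => wedgePt d p') (fun x => wedgeIn d p' x.1 (e x.1 x.2)))
    (by
      rintro _ _ ⟨i⟩
      change wedgeIn d p' i (e i (p i)) = wedgePt d p'
      rw [he, wedgeIn_base])
  continuous_toFun := by
    refine continuous_quot_lift _ ?_
    refine continuous_sum_dom.2 ⟨continuous_const, ?_⟩
    exact continuous_sigma fun i => (wedgeIn d p' i).continuous.comp (e i).continuous

/-- the homotopy type does not depend on the base points (rotate the spheres) -/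
theorem wedge_base_change (p' : ∀ i, Sph (d i)) : Nonempty (Wedge d p ≃ₜ Wedge d p') := by
  choose e he using fun i => WedgeB_rotate (p i) (p' i)
  have he' : ∀ i, (e i).symm (p' i) = p i := fun i => by rw [← he i, Homeomorph.symm_apply_apply]
  refine ⟨{ toFun := WedgeB_map d p p' (fun i => (e i : C(Sph (d i), Sph (d i)))) he
            invFun := WedgeB_map d p' p (fun i => ((e i).symm : C(Sph (d i), Sph (d i)))) he'
            left_inv := ?_
            right_inv := ?_
            continuous_toFun := ContinuousMap.continuous _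
            continuous_invFun := ContinuousMap.continuous _ }⟩
  · intro z
    induction z using Quot.ind with
    | mk a =>
      rcases a with ⟨⟩ | ⟨i, x⟩
      · rfl
      · change wedgeIn d p i ((e i).symm (e i x)) = wedgeIn d p i x
        rw [Homeomorph.symm_apply_apply]
  · intro z
    induction z using Quot.ind with
    | mk a =>
      rcases a with ⟨⟩ | ⟨i, x⟩
      · rfl
      · change wedgeIn d p' i (e i ((e i).symm x)) = wedgeIn d p' i x
        rw [Homeomorph.apply_symm_apply]

/-- maps out of the one-point union -/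
def WedgeB_desc {Y : Type} [TopologicalSpace Y] (y : Y) (g : ∀ i, C(Sph (d i), Y))
    (hg : ∀ i, g i (p i) = y) : C(Wedge d p, Y) where
  toFun := Quot.lift (Sum.elim (fun _ => y) (fun x => g x.1 x.2)) (by
    rintro _ _ ⟨i⟩
    exact hg i)
  continuous_toFun := by
    refine continuous_quot_lift _ ?_
    refine continuous_sum_dom.2 ⟨continuous_const, ?_⟩
    exact continuous_sigma fun i => (g i).continuous

/-- cones over spheres attached by constant maps to the base point -/
theorem wedge_attach {m : ℕ} (k : Fin m → ℕ) :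
    ∃ p' : ∀ i : Fin (n + m), Sph (Fin.append d (fun j => k j + 1) i),
      Nonempty (Att (X := Wedge d p) (fun j : Fin m => Sph (k j))
        (fun _ => ContinuousMap.const _ (wedgePt d p)) ≃ₜ
        Wedge (Fin.append d (fun j => k j + 1)) p') := by
  classical
  set D : Fin (n + m) → ℕ := Fin.append d (fun j => k j + 1) with hD
  have hl : ∀ i : Fin n, d i = D (Fin.castAdd m i) := fun i => by
    rw [hD, Fin.append_left]
  have hr : ∀ j : Fin m, k j + 1 = D (Fin.natAdd n j) := fun j => by
    rw [hD, Fin.append_right]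
  choose s₀ hs₀ using fun j : Fin m =>
    (⟨_, rfl⟩ : ∃ z : Sph (k j), z = Classical.choice
      ((NormedSpace.sphere_nonempty.2 zero_le_one).to_subtype :
        Nonempty (Sph (k j))))
  let cl : ∀ i : Fin n, Sph (d i) ≃ₜ Sph (D (Fin.castAdd m i)) := fun i => WedgeB_cast (hl i)
  let cr : ∀ j : Fin m, Sph (k j + 1) ≃ₜ Sph (D (Fin.natAdd n j)) := fun j => WedgeB_cast (hr j)
  let p' : ∀ i : Fin (n + m), Sph (D i) :=
    Fin.addCases (motive := fun i => Sph (D i)) (fun i => cl i (p i))
      (fun j => cr j (WedgeB_susp (k j) (1, s₀ j)))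
  have hpl : ∀ i, p' (Fin.castAdd m i) = cl i (p i) := fun i => by
    change Fin.addCases (motive := fun i => Sph (D i)) _ _ _ = _
    rw [Fin.addCases_left]
  have hpr : ∀ j, p' (Fin.natAdd n j) = cr j (WedgeB_susp (k j) (1, s₀ j)) := fun j => by
    change Fin.addCases (motive := fun i => Sph (D i)) _ _ _ = _
    rw [Fin.addCases_right]
  have hpr' : ∀ j s, p' (Fin.natAdd n j) = cr j (WedgeB_susp (k j) (1, s)) := fun j s => by
    rw [hpr]
    exact congrArg (cr j) (WedgeB_susp_eq rfl (Or.inr (Or.inl rfl)))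
  refine ⟨p', ?_⟩
  have := wedge_t2 D p'
  have := wedge_compact d p
  have : CompactSpace (Att (X := Wedge d p) (fun j : Fin m => Sph (k j))
        (fun _ => ContinuousMap.const _ (wedgePt d p))) := att_compact _ _
  let B : C(Wedge d p, Wedge D p') := WedgeB_desc d p (wedgePt D p')
    (fun i => (wedgeIn D p' (Fin.castAdd m i)).comp (cl i : C(Sph (d i), Sph (D (Fin.castAdd m i)))))
    (fun i => by
      change wedgeIn D p' (Fin.castAdd m i) (cl i (p i)) = _
      rw [← hpl, wedgeIn_base])
  let G : ∀ j : Fin m, C(I × Sph (k j), Wedge D p') := fun j =>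
    (wedgeIn D p' (Fin.natAdd n j)).comp
      ((cr j : C(Sph (k j + 1), Sph (D (Fin.natAdd n j)))).comp (WedgeB_susp (k j)))
  have hG : ∀ j q, G j q = wedgeIn D p' (Fin.natAdd n j) (cr j (WedgeB_susp (k j) q)) :=
    fun j q => rfl
  let F : C(Att (X := Wedge d p) (fun j : Fin m => Sph (k j))
        (fun _ => ContinuousMap.const _ (wedgePt d p)), Wedge D p') :=
    attDesc B G (fun j s => by
      rw [hG, ← hpr' j s, wedgeIn_base]
      rfl) (fun j s s' => by
      rw [hG, hG, WedgeB_susp_eq (rfl : (0 : I) = 0) (Or.inl rfl)])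
  have hFpt : F (attIn _ _ (wedgePt d p)) = wedgePt D p' := rfl
  have hFin : ∀ i x, F (attIn _ _ (wedgeIn d p i x)) = wedgeIn D p' (Fin.castAdd m i) (cl i x) :=
    fun i x => rfl
  have hFc : ∀ j q, F (attCell _ _ j q) =
      wedgeIn D p' (Fin.natAdd n j) (cr j (WedgeB_susp (k j) q)) := fun j q => rfl
  have hne : ∀ i j, Fin.castAdd m i ≠ Fin.natAdd n j := by
    intro i j h
    have := congrArg Fin.val h
    simp only [Fin.val_castAdd, Fin.val_natAdd] at this
    have := i.2
    omega
  have hnel : ∀ i i', i ≠ i' → Fin.castAdd m i ≠ Fin.castAdd (n := n) m i' := by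
    intro i i' h h'
    exact h (Fin.castAdd_injective n m h')
  have hner : ∀ j j', j ≠ j' → Fin.natAdd n j ≠ Fin.natAdd (m := m) n j' := by
    intro i i' h h'
    exact h (Fin.natAdd_injective m n h')
  -- values equal to the base point
  have hbl : ∀ i x, wedgeIn D p' (Fin.castAdd m i) (cl i x) = wedgePt D p' → x = p i := by
    intro i x h
    rw [← wedgeIn_base D p' (Fin.castAdd m i), hpl] at h
    exact (cl i).injective (wedgeIn_injective D p' _ h)
  have hbr : ∀ j q, wedgeIn D p' (Fin.natAdd n j) (cr j (WedgeB_susp (k j) q)) = wedgePt D p' →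
      q.1 = 1 := by
    intro j q h
    rw [← wedgeIn_base D p' (Fin.natAdd n j), hpr] at h
    have := (cr j).injective (wedgeIn_injective D p' _ h)
    exact (WedgeB_susp_inj (t := q.1) (s := q.2) this).1
  have hcell1 : ∀ (j : Fin m) (q : I × Sph (k j)), q.1 = 1 →
      attCell (X := Wedge d p) (fun j : Fin m => Sph (k j))
        (fun _ => ContinuousMap.const _ (wedgePt d p)) j q = attIn _ _ (wedgePt d p) := by
    rintro j ⟨t, s⟩ h
    simp only at h
    subst h
    exact attCell_one (S := fun j : Fin m => Sph (k j))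
      (f := fun _ => ContinuousMap.const _ (wedgePt d p)) j s
  have hinj : Function.Injective F := by
    intro z w
    refine att_cases (motive := fun z => F z = F w → z = w) z ?_ ?_
    · intro u
      rcases wedge_cases d p u with rfl | ⟨i, x, rfl⟩
      · refine att_cases (motive := fun w => F (attIn _ _ (wedgePt d p)) = F w →
          attIn _ _ (wedgePt d p) = w) w ?_ ?_
        · intro v
          rcases wedge_cases d p v with rfl | ⟨i', x', rfl⟩
          · intro _
            rfl
          · intro h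
            rw [hFpt, hFin] at h
            rw [hbl i' x' h.symm, wedgeIn_base]
        · intro j q h
          rw [hFpt, hFc] at h
          rw [hcell1 j q (hbr j q h.symm)]
      · refine att_cases (motive := fun w => F (attIn _ _ (wedgeIn d p i x)) = F w →
          attIn _ _ (wedgeIn d p i x) = w) w ?_ ?_
        · intro v
          rcases wedge_cases d p v with rfl | ⟨i', x', rfl⟩
          · intro h
            rw [hFpt, hFin] at h
            rw [hbl i x h, wedgeIn_base]
          · intro h
            rw [hFin, hFin] at h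
            by_cases hii : i = i'
            · subst hii
              rw [(cl i).injective (wedgeIn_injective D p' _ h)]
            · have h2 := wedgeIn_eq D p' _ _ (hnel i i' hii) _ _ h
              have h3 : x = p i := (cl i).injective (h2.1.trans (hpl i))
              have h4 : x' = p i' := (cl i').injective (h2.2.trans (hpl i'))
              rw [h3, h4, wedgeIn_base, wedgeIn_base]
        · intro j q h
          rw [hFin, hFc] at h
          have h2 := wedgeIn_eq D p' _ _ (hne i j) _ _ h
          have h3 : x = p i := (cl i).injective (h2.1.trans (hpl i))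
          have h4 : q.1 = 1 := by
            apply hbr j q
            rw [h2.2, wedgeIn_base]
          rw [h3, hcell1 j q h4, wedgeIn_base]
    · intro j q
      refine att_cases (motive := fun w => F (attCell _ _ j q) = F w →
          attCell _ _ j q = w) w ?_ ?_
      · intro v
        rcases wedge_cases d p v with rfl | ⟨i', x', rfl⟩
        · intro h
          rw [hFpt, hFc] at h
          rw [hcell1 j q (hbr j q h)]
        · intro h
          rw [hFin, hFc] at h
          have h2 := wedgeIn_eq D p' _ _ (hne i' j).symm _ _ h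
          have h3 : x' = p i' := (cl i').injective (h2.2.trans (hpl i'))
          have h4 : q.1 = 1 := by
            apply hbr j q
            rw [h2.1, wedgeIn_base]
          rw [h3, hcell1 j q h4, wedgeIn_base]
      · intro j' q' h
        rw [hFc, hFc] at h
        by_cases hjj : j = j'
        · subst hjj
          have h2 := (cr j).injective (wedgeIn_injective D p' _ h)
          obtain ⟨t, s⟩ := q
          obtain ⟨t', s'⟩ := q'
          obtain ⟨h3, h4⟩ := WedgeB_susp_inj h2
          subst h3
          rcases h4 with h4 | h4 | h4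
          · subst h4
            exact attCell_zero (S := fun j : Fin m => Sph (k j))
              (f := fun _ => ContinuousMap.const _ (wedgePt d p)) j s s'
          · subst h4
            rw [hcell1 j (1, s) rfl, hcell1 j (1, s') rfl]
          · rw [h4]
        · have h2 := wedgeIn_eq D p' _ _ (hner j j' hjj) _ _ h
          have h3 : q.1 = 1 := by
            apply hbr j q
            rw [h2.1, wedgeIn_base]
          have h4 : q'.1 = 1 := by
            apply hbr j' q'
            rw [h2.2, wedgeIn_base]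
          rw [hcell1 j q h3, hcell1 j' q' h4]
  have hsurj : Function.Surjective F := by
    intro z
    rcases wedge_cases D p' z with rfl | ⟨i, x, rfl⟩
    · exact ⟨attIn _ _ (wedgePt d p), rfl⟩
    · revert x
      refine Fin.addCases (motive := fun i => ∀ x : Sph (D i), ∃ a, F a = wedgeIn D p' i x)
        (fun i x => ?_) (fun j x => ?_) i
      · refine ⟨attIn _ _ (wedgeIn d p i ((cl i).symm x)), ?_⟩
        rw [hFin, Homeomorph.apply_symm_apply]
      · obtain ⟨q, hq⟩ := WedgeB_susp_surj (k j) ((cr j).symm x)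
        refine ⟨attCell _ _ j q, ?_⟩
        rw [hFc, hq, Homeomorph.apply_symm_apply]
  exact ⟨Continuous.homeoOfEquivCompactToT2 (f := Equiv.ofBijective F ⟨hinj, hsurj⟩)
    F.continuous⟩

end basic

theorem isWedge_of_equiv {X Y : Type} [TopologicalSpace X] [TopologicalSpace Y]
    (e : X ≃ₕ Y) (h : IsWedge X) : IsWedge Y := by
  rcases h with h | ⟨n, d, p, ⟨e'⟩⟩
  · exact Or.inl ⟨fun y => h.false (e.symm y)⟩
  · exact Or.inr ⟨n, d, p, ⟨e.symm.trans e'⟩⟩

theorem isWedge_of_contractible {X : Type} [TopologicalSpace X] [ContractibleSpace X] :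
    IsWedge X := by
  refine Or.inr ⟨0, Fin.elim0, fun i => i.elim0, ?_⟩
  have hsub : ∀ z : Wedge (n := 0) Fin.elim0 (fun i => i.elim0), z = wedgePt _ _ := by
    intro z
    rcases wedge_cases _ _ z with h | ⟨i, _⟩
    · exact h
    · exact i.elim0
  have : Unique (Wedge (n := 0) Fin.elim0 (fun i => i.elim0)) := ⟨⟨wedgePt _ _⟩, hsub⟩
  have : ContractibleSpace (Wedge (n := 0) Fin.elim0 (fun i => i.elim0)) := by
    refine ⟨⟨?_⟩⟩
    exact (Homeomorph.homeomorphOfUnique _ _).toHomotopyEquiv
  obtain ⟨a⟩ := ContractibleSpace.hequiv_unit X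
  obtain ⟨b⟩ := ContractibleSpace.hequiv_unit (Wedge (n := 0) Fin.elim0 (fun i => i.elim0))
  exact ⟨a.trans b.symm⟩

theorem pathConnected_of_equiv {X Y : Type} [TopologicalSpace X] [TopologicalSpace Y]
    (e : X ≃ₕ Y) [PathConnectedSpace X] : PathConnectedSpace Y := by
  have hj : ∀ y : Y, Joined (e.toFun (e.invFun y)) y := by
    intro y
    obtain ⟨H⟩ := e.right_inv
    exact ⟨{ toFun := fun t => H (t, y)
             continuous_toFun := H.continuous.comp (continuous_id.prodMk continuous_const)
             source' := by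
              rw [H.apply_zero]
              rfl
             target' := by
              rw [H.apply_one]
              rfl }⟩
  refine ⟨⟨e.toFun (PathConnectedSpace.nonempty (X := X)).some⟩, fun y y' => ?_⟩
  have h1 : Joined (e.invFun y) (e.invFun y') := PathConnectedSpace.joined _ _
  obtain ⟨γ⟩ := h1
  exact ((hj y).symm.trans ⟨γ.map e.toFun.continuous⟩).trans (hj y')

end CT
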