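import Mathlib
import Pool.Agent.CT.WedgeB

/-!
# Combinatorial topology: attaching cones over spheres along null-homotopic maps
-/

namespace CT

open scoped unitInterval ContinuousMap

/-- constant maps to points in the same path component are homotopic -/
theorem const_homotopic {X Y : Type} [TopologicalSpace X] [TopologicalSpace Y] {x y : Y}
    (h : Joined x y) : (ContinuousMap.const X x).Homotopic (ContinuousMap.const X y) := by
  obtain ⟨γ⟩ := h
  exact ⟨{ toFun := fun p => γ p.1
           continuous_toFun := γ.continuous.comp continuous_fst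
           map_zero_left := fun _ => γ.source
           map_one_left := fun _ => γ.target }⟩

theorem sph_nonempty (d : ℕ) : Nonempty (Sph d) :=
  (NormedSpace.sphere_nonempty.2 zero_le_one).to_subtype

/-- the closure property: attaching finitely many cones over spheres along null-homotopic
maps to a path-connected space of this homotopy type -/
theorem isWedge_att {X : Type} [TopologicalSpace X] [PathConnectedSpace X] (hX : IsWedge X)
    {J : Type} [Finite J] (S : J → Type) [∀ j, TopologicalSpace (S j)] (k : J → ℕ)
    (φ : ∀ j, Nonempty (S j ≃ₕ Sph (k j))) (f : ∀ j, C(S j, X))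
    (h : ∀ j, ∃ x, (f j).Homotopic (ContinuousMap.const _ x)) :
    IsWedge (Att S f) ∧ PathConnectedSpace (Att S f) := by
  classical
  have x₀ : X := (PathConnectedSpace.nonempty (X := X)).some
  rcases hX with hX | ⟨n, d, p, ⟨e⟩⟩
  · exact (hX.false x₀).elim
  have hne : ∀ j, Nonempty (S j) := fun j => by
    obtain ⟨ψ⟩ := φ j
    exact ⟨ψ.symm (Classical.choice (sph_nonempty (k j)))⟩
  refine ⟨?_, att_pathConnected S f⟩
  have : PathConnectedSpace (Wedge d p) := pathConnected_of_equiv e
  obtain ⟨m, ⟨ρ⟩⟩ := Finite.exists_equiv_fin J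
  obtain ⟨E1, -⟩ := att_equiv S S f (fun j => ContinuousMap.const (S j) (wedgePt d p)) e
    (Equiv.refl J) (fun j => Homeomorph.refl (S j)) (by
      intro j
      obtain ⟨x, hx⟩ := h j
      have h1 := (ContinuousMap.Homotopic.refl e.toFun).comp hx
      refine ContinuousMap.Homotopic.trans (g := ContinuousMap.const (S j) (e x)) ?_ ?_
      · exact h1
      · exact const_homotopic (PathConnectedSpace.joined (e x) (wedgePt d p)))
  obtain ⟨E2, -⟩ := att_const_equiv S (fun j => Sph (k j)) (wedgePt d p)
    (fun j => (φ j).some)
  obtain ⟨E3, -⟩ := att_reindex (fun j => Sph (k j))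
    (fun j => ContinuousMap.const (Sph (k j)) (wedgePt d p)) ρ.symm
  obtain ⟨p', ⟨E4⟩⟩ := wedge_attach d p (fun i => k (ρ.symm i))
  exact Or.inr ⟨_, _, p', ⟨(E1.trans E2).trans (E3.symm.trans E4).toHomotopyEquiv⟩⟩

end CT
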