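import Mathlib
import Pool.Agent.CT.NC
import Pool.Agent.CT.Quillen
import Pool.Agent.CT.WedgeC

/-!
# The simplex of all `z`-vertices
-/

namespace CT

open scoped unitInterval ContinuousMap

section sph

theorem NCT_sph_norm (x : EuclideanSpace ℝ (Fin (0 + 1))) : ‖x‖ = |x 0| := by
  rw [EuclideanSpace.norm_eq, Fin.sum_univ_succ, Fin.sum_univ_zero, add_zero, Real.norm_eq_abs,
    sq_abs, Real.sqrt_sq_eq_abs]

theorem NCT_sph_coord (x : Sph 0) : (x : EuclideanSpace ℝ (Fin (0 + 1))) 0 = 1 ∨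
    (x : EuclideanSpace ℝ (Fin (0 + 1))) 0 = -1 := by
  have h : ‖(x : EuclideanSpace ℝ (Fin (0 + 1)))‖ = 1 := mem_sphere_zero_iff_norm.1 x.2
  rw [NCT_sph_norm] at h
  exact (abs_eq zero_le_one).1 h

theorem NCT_sph_ext (x y : Sph 0) (h : (x : EuclideanSpace ℝ (Fin (0 + 1))) 0 =
    (y : EuclideanSpace ℝ (Fin (0 + 1))) 0) : x = y := by
  apply Subtype.ext
  ext i
  obtain rfl : i = 0 := Fin.fin_one_eq_zero i
  exact h

open Classical in
/-- the two points of the sphere of dimension zero -/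
noncomputable def NCT_sph_equiv : Sph 0 ≃ Bool where
  toFun x := decide ((x : EuclideanSpace ℝ (Fin (0 + 1))) 0 = 1)
  invFun b := ⟨EuclideanSpace.single 0 (cond b 1 (-1)), by
    rw [mem_sphere_zero_iff_norm, NCT_sph_norm]
    cases b <;> simp⟩
  left_inv x := by
    apply NCT_sph_ext
    rcases NCT_sph_coord x with h | h
    · simp [h]
    · simp only [h]
      norm_num
  right_inv b := by
    cases b
    · simp
      norm_num
    · simp

instance NCT_sph_finite : Finite (Sph 0) := Finite.of_equiv _ NCT_sph_equiv.symm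

/-- maps of a space of the homotopy type of two points to a path-connected space are
null-homotopic -/
theorem NCT_null {S X : Type} [TopologicalSpace S] [TopologicalSpace X]
    [PathConnectedSpace X] (φ : S ≃ₕ Sph 0) (f : C(S, X)) :
    ∃ x, f.Homotopic (ContinuousMap.const S x) := by
  have x₀ : X := (PathConnectedSpace.nonempty (X := X)).some
  refine ⟨x₀, ?_⟩
  let g : C(Sph 0, X) := f.comp φ.invFun
  have hg : g.Homotopic (ContinuousMap.const _ x₀) := by
    let γ : ∀ y : Sph 0, Path (g y) x₀ := fun y => (PathConnectedSpace.joined (g y) x₀).somePath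
    refine ⟨{ toFun := fun p => γ p.2 p.1
              continuous_toFun := ?_
              map_zero_left := fun y => (γ y).source
              map_one_left := fun y => (γ y).target }⟩
    exact continuous_prod_of_discrete_right.2 fun y => (γ y).continuous
  have h1 : (g.comp φ.toFun).Homotopic f := by
    have := (ContinuousMap.Homotopic.refl f).comp φ.left_inv
    exact this
  have h2 : (g.comp φ.toFun).Homotopic ((ContinuousMap.const _ x₀).comp φ.toFun) :=
    hg.comp (ContinuousMap.Homotopic.refl _)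
  exact h1.symm.trans h2

end sph

section two

variable {P : Type} [PartialOrder P]

theorem NCT_two {a b : P} (hab : ¬ a ≤ b) (hba : ¬ b ≤ a) (x : Rz (OC ({a, b} : Set P))) :
    (x : P → ℝ) = vtx a ∨ (x : P → ℝ) = vtx b := by
  classical
  obtain ⟨x, s, ⟨hne, hs, hc⟩, hx⟩ := x
  have key : ∀ c, s = {c} → x = vtx c := by
    rintro c rfl
    funext u
    by_cases hu : u = c
    · subst hu
      have := hx.2.2
      rw [Finset.sum_singleton] at this
      rw [this]
      simp [vtx]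
    · rw [hx.2.1 u (by simpa using hu)]
      simp [vtx, hu]
  by_cases ha : a ∈ s
  · left
    apply key
    refine Finset.eq_singleton_iff_unique_mem.2 ⟨ha, fun c hcs => ?_⟩
    rcases hs hcs with rfl | rfl
    · rfl
    · exfalso
      rcases hc.total hcs ha with h | h
      · exact hba h
      · exact hab h
  · right
    apply key
    obtain ⟨c, hcs⟩ := hne
    have hcb : ∀ c ∈ s, c = b := by
      intro c hcs
      rcases hs hcs with rfl | rfl
      · exact (ha hcs).elim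
      · rfl
    have := hcb c hcs
    subst this
    exact Finset.eq_singleton_iff_unique_mem.2 ⟨hcs, hcb⟩

theorem NCT_pair {a b : P} (hab : ¬ a ≤ b) (hba : ¬ b ≤ a) :
    Nonempty (Rz (OC ({a, b} : Set P)) ≃ₜ Sph 0) := by
  classical
  have hne : a ≠ b := fun h => hab h.le
  have hva : vtx a ∈ Rz (OC ({a, b} : Set P)) := vtx_mem ⟨by simp, by simp, by simp⟩
  have hvb : vtx b ∈ Rz (OC ({a, b} : Set P)) := vtx_mem ⟨by simp, by simp, by simp⟩
  have haa : vtx a a = 1 := by simp [vtx]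
  have hbb : vtx b a = 0 := by simp [vtx, hne]
  let E : Rz (OC ({a, b} : Set P)) ≃ Bool :=
    { toFun := fun x => decide ((x : P → ℝ) a = 1)
      invFun := fun c => cond c ⟨vtx a, hva⟩ ⟨vtx b, hvb⟩
      left_inv := fun x => by
        apply Subtype.ext
        rcases NCT_two hab hba x with h | h
        · simp only [h, haa]
          simp
        · simp only [h, hbb]
          simp
      right_inv := fun c => by
        cases c
        · simp [hbb]
        · simp [haa] }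
  have : Finite (Rz (OC ({a, b} : Set P))) := Finite.of_equiv _ E.symm
  exact ⟨{ toEquiv := E.trans NCT_sph_equiv.symm
           continuous_toFun := continuous_of_discreteTopology
           continuous_invFun := continuous_of_discreteTopology }⟩

end two

/-- two disjoint cones -/
theorem two_cones {P : Type} [PartialOrder P] {Q : Set P} (hQ : Q.Finite) (a b : P)
    (ha : a ∈ Q) (hb : b ∈ Q) (h : ∀ q ∈ Q, q ≤ a ∨ q ≤ b)
    (hd : ∀ q ∈ Q, ¬ (q ≤ a ∧ q ≤ b)) : Nonempty (Rz (OC Q) ≃ₕ Sph 0) := by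
  have hab : ¬ a ≤ b := fun h' => hd a ha ⟨le_rfl, h'⟩
  have hba : ¬ b ≤ a := fun h' => hd b hb ⟨h', le_rfl⟩
  have hsub : ({a, b} : Set P) ⊆ Q := by
    rintro c (rfl | rfl)
    · exact ha
    · exact hb
  obtain ⟨e, -⟩ := incl_upper hQ hsub (fun q hq => by
    rcases h q hq with h1 | h1
    · refine contractible_OC a ⟨by simp, h1⟩ ?_
      rintro c ⟨rfl | rfl, hc⟩
      · exact Or.inl le_rfl
      · exact (hd q hq ⟨h1, hc⟩).elim
    · refine contractible_OC b ⟨by simp, h1⟩ ?_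
      rintro c ⟨rfl | rfl, hc⟩
      · exact (hd q hq ⟨hc, h1⟩).elim
      · exact Or.inl le_rfl)
  obtain ⟨E⟩ := NCT_pair hab hba
  exact ⟨e.symm.trans E.toHomotopyEquiv⟩

variable {T : List (List ℕ)}

/-- `N1` together with the vertex sets of the cycles, ordered by inclusion -/
def Q1 (T : List (List ℕ)) : Set (Finset Vx) := N1 T ∪ {s | ∃ i, i < T.length ∧ s = top T i}

theorem Q1_finite : (Q1 T).Finite := by
  refine N1_finite.union ?_
  refine ((Set.finite_Iio T.length).image (fun i => top T i)).subset ?_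
  rintro s ⟨i, hi, rfl⟩
  exact ⟨i, hi, rfl⟩

theorem NCT_mem_top {i : ℕ} {v : Vx} : v ∈ top T i ↔ ∃ j, j < lenT T i ∧ v = .z i j := by
  unfold top
  simp only [Finset.mem_image, Finset.mem_range]
  constructor
  · rintro ⟨j, hj, rfl⟩
    exact ⟨j, hj, rfl⟩
  · rintro ⟨j, hj, rfl⟩
    exact ⟨j, hj, rfl⟩

theorem NCT_mem_topU {k : ℕ} {v : Vx} :
    v ∈ topU T k ↔ ∃ i j, i ≤ k ∧ j < lenT T i ∧ v = .z i j := by
  unfold topU
  simp only [Finset.mem_biUnion, Finset.mem_range, NCT_mem_top]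
  constructor
  · rintro ⟨i, hi, j, hj, rfl⟩
    exact ⟨i, j, by omega, hj, rfl⟩
  · rintro ⟨i, j, hi, hj, rfl⟩
    exact ⟨i, by omega, j, hj, rfl⟩

theorem NCT_len (hT : GoodT T) {i : ℕ} (hi : i < T.length) : 0 < lenT T i := by
  unfold lenT
  rw [List.getD_eq_getElem _ _ hi]
  have := hT.four _ (List.getElem_mem hi)
  omega

theorem NCT_lt {i j : ℕ} (h : j < lenT T i) : i < T.length := by
  by_contra hi
  unfold lenT at h
  rw [List.getD_eq_default _ _ (by omega)] at h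
  simp at h

/-- the `z`-vertices of a face of `N1` belong to one word -/
theorem NCT_one {s : Finset Vx} (hs : s ∈ N1 T) {i j i' j' : ℕ} (h : Vx.z i j ∈ s)
    (h' : Vx.z i' j' ∈ s) : i = i' := by
  have key : ∀ {i j i' j' : ℕ}, Vx.z i j ∉ allY T := by
    rintro i j - - ⟨a, -, h⟩
    cases h
  obtain ⟨-, ⟨i1, j1, -, hs⟩ | ⟨i1, j1, -, hs⟩ | ⟨i1, j1, -, hs⟩⟩ := hs
  · have h1 : Vx.z i j ∈ Face2 T i1 j1 := hs h
    have h2 : Vx.z i' j' ∈ Face2 T i1 j1 := hs h'
    simp only [Face2, Set.mem_union, Set.mem_insert_iff, Set.mem_singleton_iff, Vx.z.injEq] at h1 h2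
    rcases h1 with h1 | h1
    · exact (key (i' := 0) (j' := 0) h1).elim
    rcases h2 with h2 | h2
    · exact (key (i' := 0) (j' := 0) h2).elim
    omega
  · have h1 : Vx.z i j ∈ Face3 T i1 j1 := hs h
    have h2 : Vx.z i' j' ∈ Face3 T i1 j1 := hs h'
    simp only [Face3, Set.mem_insert_iff, Set.mem_singleton_iff, Vx.z.injEq, reduceCtorEq,
      false_or] at h1 h2
    omega
  · have h1 : Vx.z i j ∈ Face4 T i1 j1 := hs h
    have h2 : Vx.z i' j' ∈ Face4 T i1 j1 := hs h'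
    simp only [Face4, Set.mem_insert_iff, Set.mem_singleton_iff, Vx.z.injEq, reduceCtorEq,
      false_or] at h1 h2
    omega

/-- the intermediate posets -/
def NCT_U (T : List (List ℕ)) (k : ℕ) : Set (Finset Vx) :=
  Q1 T ∪ {s | ∃ i, 1 ≤ i ∧ i ≤ k ∧ s = topU T i}

theorem NCT_U_finite (k : ℕ) : (NCT_U T k).Finite := by
  refine Q1_finite.union ?_
  refine ((Set.finite_Iic k).image (fun i => topU T i)).subset ?_
  rintro s ⟨i, -, hi, rfl⟩
  exact ⟨i, hi, rfl⟩

theorem NCT_topU_zero : topU T 0 = top T 0 := by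
  ext v
  rw [NCT_mem_topU, NCT_mem_top]
  constructor
  · rintro ⟨i, j, hi, hj, rfl⟩
    obtain rfl : i = 0 := by omega
    exact ⟨j, hj, rfl⟩
  · rintro ⟨j, hj, rfl⟩
    exact ⟨0, j, le_rfl, hj, rfl⟩

theorem NCT_topU_mem {k : ℕ} (hT : GoodT T) : topU T k ∈ NCT_U T k := by
  rcases Nat.eq_zero_or_pos k with rfl | hk
  · left
    right
    exact ⟨0, by have := hT.two; omega, NCT_topU_zero⟩
  · right
    exact ⟨k, hk, le_rfl, rfl⟩

theorem NCT_step (hT : GoodT T) {k : ℕ} (hk : k + 1 < T.length)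
    (h : IsWedge (Rz (OC (NCT_U T k)))) (h' : PathConnectedSpace (Rz (OC (NCT_U T k)))) :
    IsWedge (Rz (OC (NCT_U T (k + 1)))) ∧ PathConnectedSpace (Rz (OC (NCT_U T (k + 1)))) := by
  -- classification of the elements above the new one
  have hl0 : 0 < lenT T 0 := NCT_len hT (by omega)
  have hlk : 0 < lenT T (k + 1) := NCT_len hT hk
  have hz0 : Vx.z 0 0 ∈ topU T (k + 1) := NCT_mem_topU.2 ⟨0, 0, by omega, hl0, rfl⟩
  have hzk : Vx.z (k + 1) 0 ∈ topU T (k + 1) :=
    NCT_mem_topU.2 ⟨k + 1, 0, le_rfl, hlk, rfl⟩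
  have hmax : ∀ q ∈ NCT_U T (k + 1), topU T (k + 1) ≤ q → q = topU T (k + 1) := by
    rintro q ((hq | ⟨i, hi, rfl⟩) | ⟨i, h1, h2, rfl⟩) hle
    · have := NCT_one hq (hle hz0) (hle hzk)
      omega
    · obtain ⟨j, -, hj⟩ := NCT_mem_top.1 (hle hz0)
      obtain ⟨j', -, hj'⟩ := NCT_mem_top.1 (hle hzk)
      have e1 := (Vx.z.inj hj).1
      have e2 := (Vx.z.inj hj').1
      omega
    · obtain ⟨i', j', h3, h4, h5⟩ := NCT_mem_topU.1 (hle hzk)
      have e1 := (Vx.z.inj h5).1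
      have : i = k + 1 := by omega
      rw [this]
  have hnot : topU T (k + 1) ∉ NCT_U T k := by
    rintro ((hq | ⟨i, hi, h1⟩) | ⟨i, h1, h2, h3⟩)
    · have := NCT_one hq hz0 hzk
      omega
    · rw [h1] at hz0 hzk
      obtain ⟨j, -, hj⟩ := NCT_mem_top.1 hz0
      obtain ⟨j', -, hj'⟩ := NCT_mem_top.1 hzk
      have e1 := (Vx.z.inj hj).1
      have e2 := (Vx.z.inj hj').1
      omega
    · rw [h3] at hzk
      obtain ⟨i', j', h4, h5, h6⟩ := NCT_mem_topU.1 hzk
      have e1 := (Vx.z.inj h6).1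
      omega
  have hdiff : NCT_U T (k + 1) \ {topU T (k + 1)} = NCT_U T k := by
    ext q
    constructor
    · rintro ⟨(hq | ⟨i, h1, h2, rfl⟩), hne⟩
      · exact Or.inl hq
      · right
        refine ⟨i, h1, ?_, rfl⟩
        by_contra h3
        have : i = k + 1 := by omega
        exact hne (by rw [this]; rfl)
    · intro hq
      refine ⟨?_, fun h => hnot (h ▸ hq)⟩
      rcases hq with hq | ⟨i, h1, h2, rfl⟩
      · exact Or.inl hq
      · exact Or.inr ⟨i, h1, by omega, rfl⟩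
  have hmemk : topU T k ∈ NCT_U T (k + 1) := by
    have := NCT_topU_mem (k := k) hT
    rw [← hdiff] at this
    exact this.1
  have hlek : topU T k < topU T (k + 1) := by
    refine Finset.ssubset_iff_subset_ne.2 ⟨?_, ?_⟩
    · intro v hv
      obtain ⟨i, j, h1, h2, h3⟩ := NCT_mem_topU.1 hv
      exact NCT_mem_topU.2 ⟨i, j, by omega, h2, h3⟩
    · intro h
      rw [← h] at hzk
      obtain ⟨i', j', h4, h5, h6⟩ := NCT_mem_topU.1 hzk
      have e1 := (Vx.z.inj h6).1
      omega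
  have hRQ : ({topU T (k + 1)} : Set (Finset Vx)) ⊆ NCT_U T (k + 1) := by
    rintro q rfl
    exact Or.inr ⟨k + 1, by omega, le_rfl, rfl⟩
  have hR : ∀ p ∈ ({topU T (k + 1)} : Set (Finset Vx)), ∀ q ∈ NCT_U T (k + 1), p ≤ q →
      q = p := by
    rintro p rfl q hq hle
    exact hmax q hq hle
  have hbelow : Nonempty (Rz (OC (below (NCT_U T (k + 1)) (topU T (k + 1)))) ≃ₕ Sph 0) := by
    have hlt1 : top T (k + 1) < topU T (k + 1) := by
      refine Finset.ssubset_iff_subset_ne.2 ⟨?_, ?_⟩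
      · intro v hv
        obtain ⟨j, h2, h3⟩ := NCT_mem_top.1 hv
        exact NCT_mem_topU.2 ⟨_, j, le_rfl, h2, h3⟩
      · intro h
        rw [← h] at hz0
        obtain ⟨j, -, hj⟩ := NCT_mem_top.1 hz0
        have e1 := (Vx.z.inj hj).1
        omega
    refine two_cones ((NCT_U_finite (k + 1)).subset fun _ h => h.1) (topU T k) (top T (k + 1))
      ⟨hmemk, hlek⟩ ⟨Or.inl (Or.inr ⟨k + 1, hk, rfl⟩), hlt1⟩ ?_ ?_
    · rintro q ⟨hq, hlt⟩
      rcases hq with (hq | ⟨i, hi, rfl⟩) | ⟨i, h1, h2, rfl⟩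
      · -- a face of `N1`
        obtain ⟨v, hv⟩ := hq.1
        obtain ⟨i, j, hi, hj, rfl⟩ := NCT_mem_topU.1 (hlt.le hv)
        by_cases hik : i = k + 1
        · right
          intro w hw
          obtain ⟨i', j', hi', hj', rfl⟩ := NCT_mem_topU.1 (hlt.le hw)
          have := NCT_one hq hw hv
          rw [this, hik]
          rw [this, hik] at hj'
          exact NCT_mem_top.2 ⟨j', hj', rfl⟩
        · left
          intro w hw
          obtain ⟨i', j', hi', hj', rfl⟩ := NCT_mem_topU.1 (hlt.le hw)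
          have := NCT_one hq hw hv
          exact NCT_mem_topU.2 ⟨i', j', by omega, hj', rfl⟩
      · have hli := NCT_len hT hi
        obtain ⟨i', j', h3, h4, h5⟩ := NCT_mem_topU.1 (hlt.le (NCT_mem_top.2 ⟨0, hli, rfl⟩))
        have e1 := (Vx.z.inj h5).1
        by_cases hik : i = k + 1
        · right
          rw [hik]
        · left
          intro w hw
          obtain ⟨j, hj, rfl⟩ := NCT_mem_top.1 hw
          exact NCT_mem_topU.2 ⟨i, j, by omega, hj, rfl⟩
      · left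
        have hik : i ≠ k + 1 := by
          rintro rfl
          exact lt_irrefl _ hlt
        intro w hw
        obtain ⟨i', j', h3, h4, h5⟩ := NCT_mem_topU.1 hw
        exact NCT_mem_topU.2 ⟨i', j', by omega, h4, h5⟩
    · rintro q ⟨hq, hlt⟩ ⟨h1, h2⟩
      have hne : q.Nonempty := by
        rcases hq with (hq | ⟨i, hi, rfl⟩) | ⟨i, h1, h2, rfl⟩
        · exact hq.1
        · exact ⟨_, NCT_mem_top.2 ⟨0, NCT_len hT hi, rfl⟩⟩
        · exact ⟨_, NCT_mem_topU.2 ⟨0, 0, by omega, hl0, rfl⟩⟩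
      obtain ⟨v, hv⟩ := hne
      obtain ⟨i, j, h3, h4, rfl⟩ := NCT_mem_topU.1 (h1 hv)
      obtain ⟨j', h5, h6⟩ := NCT_mem_top.1 (h2 hv)
      have e1 := (Vx.z.inj h6).1
      omega
  obtain ⟨e, -⟩ := poset_attach (NCT_U_finite (k + 1)) hRQ hR (by
    rintro p rfl
    exact ⟨topU T k, hmemk, hlek⟩)
  have hw : IsWedge (Rz (OC (NCT_U T (k + 1) \ {topU T (k + 1)}))) := by
    rw [hdiff]; exact h
  have hp : PathConnectedSpace (Rz (OC (NCT_U T (k + 1) \ {topU T (k + 1)}))) := by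
    rw [hdiff]; exact h'
  have hφ : ∀ p : ({topU T (k + 1)} : Set (Finset Vx)),
      Nonempty (Rz (OC (below (NCT_U T (k + 1)) (p : Finset Vx))) ≃ₕ Sph 0) := by
    rintro ⟨p, rfl⟩
    exact hbelow
  have hatt := isWedge_att hw
    (fun p : ({topU T (k + 1)} : Set (Finset Vx)) =>
      Rz (OC (below (NCT_U T (k + 1)) (p : Finset Vx)))) (fun _ => 0) hφ
    (fun p => RIncl (OC_below_sub hRQ hR p)) (fun p => NCT_null (hφ p).some _)
  obtain ⟨h5, h6⟩ := hatt
  exact ⟨isWedge_of_equiv e.toHomotopyEquiv h5, pathConnected_of_equiv e.toHomotopyEquiv⟩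

theorem NCT_all (hT : GoodT T) (h : IsWedge (Rz (OC (Q1 T))))
    (h' : PathConnectedSpace (Rz (OC (Q1 T)))) (k : ℕ) (hk : k < T.length) :
    IsWedge (Rz (OC (NCT_U T k))) ∧ PathConnectedSpace (Rz (OC (NCT_U T k))) := by
  induction k with
  | zero =>
    have : NCT_U T 0 = Q1 T := by
      ext q
      constructor
      · rintro (hq | ⟨i, h1, h2, -⟩)
        · exact hq
        · omega
      · exact fun hq => Or.inl hq
    rw [this]
    exact ⟨h, h'⟩
  | succ k ih =>
    obtain ⟨h1, h2⟩ := ih (by omega)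
    exact NCT_step hT hk h1 h2

theorem NCT_U_sub (hT : GoodT T) (k : ℕ) : NCT_U T k ⊆ NC T := by
  have hl0 : 0 < lenT T 0 := NCT_len hT (by have := hT.two; omega)
  rintro q ((hq | ⟨i, hi, rfl⟩) | ⟨i, h1, h2, rfl⟩)
  · exact Or.inr hq
  · left
    refine ⟨⟨_, NCT_mem_top.2 ⟨0, NCT_len hT hi, rfl⟩⟩, ?_⟩
    intro v hv
    obtain ⟨j, hj, rfl⟩ := NCT_mem_top.1 hv
    exact ⟨i, j, hj, rfl⟩
  · left
    refine ⟨⟨_, NCT_mem_topU.2 ⟨0, 0, by omega, hl0, rfl⟩⟩, ?_⟩
    intro v hv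
    obtain ⟨i', j, h3, hj, rfl⟩ := NCT_mem_topU.1 hv
    exact ⟨i', j, hj, rfl⟩

theorem NCT_final (hT : GoodT T) :
    Nonempty (Rz (OC (NCT_U T (T.length - 1))) ≃ₕ Rz (OC (NC T))) := by
  classical
  have h2T := hT.two
  suffices key : ∀ b ∈ NC T, ContractibleSpace (Rz (OC (ge1 (NCT_U T (T.length - 1)) b))) by
    obtain ⟨e, -⟩ := incl_upper NC_finite (NCT_U_sub hT (T.length - 1)) key
    exact ⟨e⟩
  intro b hb
  by_cases hbU : b ∈ NCT_U T (T.length - 1)
  · exact contractible_OC b ⟨hbU, le_rfl⟩ (fun c hc => Or.inl hc.2)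
  have hbN : b ∉ N1 T := fun h => hbU (Or.inl (Or.inl h))
  obtain ⟨hne, hz⟩ : b.Nonempty ∧ (b : Set Vx) ⊆ allZ T := by
    rcases hb with hb | hb
    · exact hb
    · exact (hbN hb).elim
  -- a face of `N1` is not above `b`
  have hup : ∀ q ∈ N1 T, ¬ b ≤ q := fun q hq hle => hbN (N1_isCx.down q hq b hle hne)
  by_cases hone : ∃ i, ∀ v ∈ b, ∃ j, v = Vx.z i j
  · obtain ⟨i, hi⟩ := hone
    have hbi : ∀ v ∈ b, ∃ j, j < lenT T i ∧ v = Vx.z i j := by
      intro v hv
      obtain ⟨j, rfl⟩ := hi v hv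
      obtain ⟨i', j', hj', he⟩ := hz hv
      obtain ⟨rfl, rfl⟩ := Vx.z.inj he
      exact ⟨j, hj', rfl⟩
    obtain ⟨v0, hv0⟩ := hne
    obtain ⟨j0, hj0, rfl⟩ := hbi v0 hv0
    refine contractible_OC (top T i) ⟨Or.inl (Or.inr ⟨i, NCT_lt hj0, rfl⟩), ?_⟩ ?_
    · intro v hv
      exact NCT_mem_top.2 (hbi v hv)
    · rintro q ⟨(hq | ⟨i', hi', rfl⟩) | ⟨i', h1, h2, rfl⟩, hle⟩
      · exact (hup q hq hle).elim
      · obtain ⟨j, hj, he⟩ := NCT_mem_top.1 (hle hv0)
        obtain ⟨rfl, -⟩ := Vx.z.inj he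
        exact Or.inl le_rfl
      · obtain ⟨i'', j, h3, hj, he⟩ := NCT_mem_topU.1 (hle hv0)
        obtain ⟨rfl, -⟩ := Vx.z.inj he
        left
        intro v hv
        obtain ⟨j', hj', rfl⟩ := NCT_mem_top.1 hv
        exact NCT_mem_topU.2 ⟨_, j', h3, hj', rfl⟩
  · -- the largest index
    have hK : ∃ K, (∃ j, Vx.z K j ∈ b) ∧ ∀ i j, Vx.z i j ∈ b → i ≤ K := by
      have hfin : {i | ∃ j, Vx.z i j ∈ b}.Finite := by
        refine (Set.finite_Iio T.length).subset ?_
        rintro i ⟨j, hj⟩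
        obtain ⟨i', j', hj', he⟩ := hz hj
        obtain ⟨rfl, rfl⟩ := Vx.z.inj he
        exact NCT_lt hj'
      have hne' : {i | ∃ j, Vx.z i j ∈ b}.Nonempty := by
        obtain ⟨v, hv⟩ := hne
        obtain ⟨i', j', hj', rfl⟩ := hz hv
        exact ⟨i', j', hv⟩
      obtain ⟨K, hK, hmax⟩ := hfin.exists_maximal hne'
      refine ⟨K, hK, fun i j hij => ?_⟩
      by_contra hlt
      exact hlt (hmax ⟨j, hij⟩ (by omega))
    obtain ⟨K, ⟨jK, hjK⟩, hmax⟩ := hK
    have hKlen : jK < lenT T K := by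
      obtain ⟨i', j', hj', he⟩ := hz hjK
      obtain ⟨rfl, rfl⟩ := Vx.z.inj he
      exact hj'
    have hKlt := NCT_lt hKlen
    have hK1 : 1 ≤ K := by
      by_contra hK0
      obtain rfl : K = 0 := by omega
      refine hone ⟨0, fun v hv => ?_⟩
      obtain ⟨i', j', hj', rfl⟩ := hz hv
      have := hmax _ _ hv
      obtain rfl : i' = 0 := by omega
      exact ⟨j', rfl⟩
    refine contractible_OC (topU T K) ⟨Or.inr ⟨K, hK1, by omega, rfl⟩, ?_⟩ ?_
    · intro v hv
      obtain ⟨i', j', hj', rfl⟩ := hz hv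
      exact NCT_mem_topU.2 ⟨i', j', hmax _ _ hv, hj', rfl⟩
    · rintro q ⟨(hq | ⟨i', hi', rfl⟩) | ⟨i', h1, h2, rfl⟩, hle⟩
      · exact (hup q hq hle).elim
      · exfalso
        refine hone ⟨i', fun v hv => ?_⟩
        obtain ⟨j, hj, he⟩ := NCT_mem_top.1 (hle hv)
        exact ⟨j, he⟩
      · obtain ⟨i'', j, h3, hj, he⟩ := NCT_mem_topU.1 (hle hjK)
        obtain ⟨rfl, -⟩ := Vx.z.inj he
        left
        intro v hv
        obtain ⟨i1, j1, h4, h5, rfl⟩ := NCT_mem_topU.1 hv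
        exact NCT_mem_topU.2 ⟨i1, j1, by omega, h5, rfl⟩

theorem nctops (hT : GoodT T) (h : IsWedge (Rz (OC (Q1 T))))
    (h' : PathConnectedSpace (Rz (OC (Q1 T)))) :
    IsWedge (Rz (OC (NC T))) ∧ PathConnectedSpace (Rz (OC (NC T))) := by
  obtain ⟨h1, h2⟩ := NCT_all hT h h' (T.length - 1) (by have := hT.two; omega)
  obtain ⟨e⟩ := NCT_final hT
  exact ⟨isWedge_of_equiv e h1, pathConnected_of_equiv e⟩

end CT
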