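import Mathlib
import Pool.Agent.CT.NC

/-!
# The cycles of the nerve complex are homotopic to the relators
-/

namespace CT

open scoped unitInterval ContinuousMap

variable {n : ℕ} {R : List (List (Fin n × Bool))}

/-! ### classes of edges -/

section NCwordE

variable {V : Type} [DecidableEq V] {F : Set (Finset V)} (hF : IsCx F)

/-- the class of an edge -/
noncomputable def NCwordE (u v : VF F) (h : ({u.1, v.1} : Finset V) ∈ F) :
    Path.Homotopic.Quotient (ptv u) (ptv v) := .mk (edge hF u v h)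

theorem NCwordE_tri (u v w : VF F) (h : ({u.1, v.1, w.1} : Finset V) ∈ F)
    (huv : ({u.1, v.1} : Finset V) ∈ F) (hvw : ({v.1, w.1} : Finset V) ∈ F)
    (huw : ({u.1, w.1} : Finset V) ∈ F) :
    (NCwordE hF u v huv).trans (NCwordE hF v w hvw) = NCwordE hF u w huw :=
  Path.Homotopic.Quotient.eq.2 (edge_tri hF u v w huv hvw huw h)

theorem NCwordE_symm (u v : VF F) (h : ({u.1, v.1} : Finset V) ∈ F)
    (h' : ({v.1, u.1} : Finset V) ∈ F) :
    (NCwordE hF u v h).symm = NCwordE hF v u h' :=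
  Path.Homotopic.Quotient.eq.2 (edge_symm hF u v h h')

/-- two edges out of a vertex, shortened -/
theorem NCword_letter (X A B P Q : VF F) (h1 : ({X.1, A.1, P.1} : Finset V) ∈ F)
    (h2 : ({A.1, P.1, Q.1} : Finset V) ∈ F) (h3 : ({A.1, Q.1, B.1} : Finset V) ∈ F)
    (h4 : ({Q.1, B.1, X.1} : Finset V) ∈ F) (hXP : ({X.1, P.1} : Finset V) ∈ F)
    (hPQ : ({P.1, Q.1} : Finset V) ∈ F) (hQX : ({Q.1, X.1} : Finset V) ∈ F)
    (hXA : ({X.1, A.1} : Finset V) ∈ F) (hAB : ({A.1, B.1} : Finset V) ∈ F)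
    (hBX : ({B.1, X.1} : Finset V) ∈ F) :
    (NCwordE hF X P hXP).trans ((NCwordE hF P Q hPQ).trans (NCwordE hF Q X hQX)) =
      (NCwordE hF X A hXA).trans ((NCwordE hF A B hAB).trans (NCwordE hF B X hBX)) := by
  have hAP : ({A.1, P.1} : Finset V) ∈ F := hF.down _ h1 _ (by
    intro a ha; simp only [Finset.mem_insert, Finset.mem_singleton] at ha ⊢; tauto)
    ⟨A.1, by simp⟩
  have hAQ : ({A.1, Q.1} : Finset V) ∈ F := hF.down _ h2 _ (by
    intro a ha; simp only [Finset.mem_insert, Finset.mem_singleton] at ha ⊢; tauto)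
    ⟨A.1, by simp⟩
  have hQB : ({Q.1, B.1} : Finset V) ∈ F := hF.down _ h4 _ (by
    intro a ha; simp only [Finset.mem_insert, Finset.mem_singleton] at ha ⊢; tauto)
    ⟨Q.1, by simp⟩
  rw [← NCwordE_tri hF X A P h1 hXA hAP hXP, ← NCwordE_tri hF Q B X h4 hQB hBX hQX,
    ← NCwordE_tri hF A Q B h3 hAQ hQB hAB, ← NCwordE_tri hF A P Q h2 hAP hPQ hAQ]
  simp only [Path.Homotopic.Quotient.trans_assoc]

end NCwordE

theorem lenT_pos (hR : GoodR R) (i : Fin R.length) : 0 < lenT (altT R) i := by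
  rw [lenT_altT]
  have := hR.len (R.get i) (List.get_mem _ _)
  omega

section

variable {F : Set (Finset Vx)} (hF : IsCx F) (hN : N1 (altT R) ⊆ F) (hR : GoodR R)
  (i : Fin R.length)

include hN hR in
theorem cyc_sub : Cyc (cyv (altT R) i) ⊆ F :=
  (Cyc_sub_N1 (altT_good hR) i (lenT_pos hR i)).trans hN

/-- the vertices of the `i`-th cycle as vertices of `F` -/
def cycF : ℕ → VF F := fun j =>
  VFi (cyc_sub hN hR i) ⟨cyv (altT R) i j, Cyc_vert _ j⟩

theorem cycF_edge (j : ℕ) :
    ({(cycF hN hR i j).1, (cycF hN hR i (j + 1)).1} : Finset Vx) ∈ F :=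
  cyc_sub hN hR i (Cyc_edge _ j)

theorem cycF_close : cycF hN hR i (lenT (altT R) i) = cycF hN hR i 0 :=
  Subtype.ext (by
    have h := cyv_per (T := altT R) (i : ℕ) 0
    rw [zero_add] at h
    exact h)

/-- the closed edge path of the `i`-th cycle -/
noncomputable def cycLoop : Path (ptv (cycF hN hR i 0)) (ptv (cycF hN hR i 0)) :=
  cwalk hF (cycF hN hR i) (cycF_edge hN hR i) (lenT (altT R) i) (cycF_close hN hR i)

theorem x_cyc_edge : ({(vX ((K0_sub (altT_good hR)).trans hN) (altT_occ_zero hR)).1,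
    (cycF hN hR i 0).1} : Finset Vx) ∈ F := by
  refine hN ⟨⟨_, Finset.mem_insert_self _ _⟩, Or.inr (Or.inr ⟨i, 0, lenT_pos hR i, ?_⟩)⟩
  intro a ha
  simp only [Finset.coe_insert, Finset.coe_singleton, Set.mem_insert_iff,
    Set.mem_singleton_iff] at ha
  rcases ha with rfl | rfl
  · exact Or.inl rfl
  · refine Or.inr (Or.inr ?_)
    show cyv (altT R) i 0 = Vx.z i 0
    unfold cyv
    rw [Nat.zero_mod]

/-! ### the faces used -/

theorem NCword_face4 {T : List (List ℕ)} {i j : ℕ} (hj : j < lenT T i) {s : Finset Vx}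
    (hne : s.Nonempty) (hs : ∀ v ∈ s, v = Vx.x ∨ v = Vx.y (colT T i j) ∨ v = Vx.z i j) :
    s ∈ N1 T :=
  ⟨hne, Or.inr (Or.inr ⟨i, j, hj, fun v hv => hs v hv⟩)⟩

theorem NCword_face3 {T : List (List ℕ)} {i j : ℕ} (hj : 2 * j + 1 < lenT T i) {s : Finset Vx}
    (hne : s.Nonempty) (hs : ∀ v ∈ s, v = Vx.x ∨ v = Vx.z i (2 * j + 1) ∨
      v = Vx.z i ((2 * j + 2) % lenT T i)) : s ∈ N1 T :=
  ⟨hne, Or.inr (Or.inl ⟨i, j, hj, fun v hv => hs v hv⟩)⟩

theorem NCword_face2 {T : List (List ℕ)} {i j : ℕ} (hj : 2 * j + 1 < lenT T i) {s : Finset Vx}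
    (hne : s.Nonempty) (hs : ∀ v ∈ s, v ∈ allY T ∨ v = Vx.z i (2 * j) ∨
      v = Vx.z i (2 * j + 1)) : s ∈ N1 T :=
  ⟨hne, Or.inl ⟨i, j, hj, fun v hv => hs v hv⟩⟩

theorem NCword_getD (i : Fin R.length) : (altT R).getD i [] = altW (R.get i) := by
  unfold altT
  rw [List.getD_eq_getElem?_getD, List.getElem?_map, List.getElem?_eq_getElem i.2]
  rfl

theorem NCword_cyv (i : Fin R.length) {j : ℕ} (hj : j < lenT (altT R) i) :
    (cycF hN hR i j).1 = Vx.z i j := by
  show cyv (altT R) i j = Vx.z i j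
  unfold cyv
  rw [Nat.mod_eq_of_lt hj]

/-- one letter -/
theorem NCword_step (j : ℕ) (hj : j < (R.get i).length)
    (hXP : ({(vX ((K0_sub (altT_good hR)).trans hN) (altT_occ_zero hR)).1,
      (cycF hN hR i (2 * j)).1} : Finset Vx) ∈ F)
    (hQX : ({(cycF hN hR i (2 * j + 1)).1,
      (vX ((K0_sub (altT_good hR)).trans hN) (altT_occ_zero hR)).1} : Finset Vx) ∈ F) :
    (NCwordE hF _ _ hXP).trans ((NCwordE hF (cycF hN hR i (2 * j)) (cycF hN hR i (2 * j + 1))
      (cycF_edge hN hR i (2 * j))).trans (NCwordE hF _ _ hQX)) =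
    .mk (lpath (gl hF ((K0_sub (altT_good hR)).trans hN) hR) ((R.get i).get ⟨j, hj⟩)) := by
  have hlen := lenT_altT i
  have hj0 : 2 * j < lenT (altT R) i := by omega
  have hj1 : 2 * j + 1 < lenT (altT R) i := by omega
  have hP := NCword_cyv hN hR i hj0
  have hQ := NCword_cyv hN hR i hj1
  have hca : colT (altT R) i (2 * j) =
      cond ((R.get i).get ⟨j, hj⟩).2 ((((R.get i).get ⟨j, hj⟩).1 : ℕ) + 1) 0 := by
    unfold colT
    rw [NCword_getD, altW_even _ _ hj]
  have hcb : colT (altT R) i (2 * j + 1) =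
      cond ((R.get i).get ⟨j, hj⟩).2 0 ((((R.get i).get ⟨j, hj⟩).1 : ℕ) + 1) := by
    unfold colT
    rw [NCword_getD, altW_odd _ _ hj]
  set K := (K0_sub (altT_good hR)).trans hN with hK
  -- general form, for the two `y`-vertices `A`, `B`
  have key : ∀ A B : VF F, A.1 = Vx.y (colT (altT R) i (2 * j)) →
      B.1 = Vx.y (colT (altT R) i (2 * j + 1)) →
      ∀ (hXA : ({(vX K (altT_occ_zero hR)).1, A.1} : Finset Vx) ∈ F)
        (hAB : ({A.1, B.1} : Finset Vx) ∈ F)
        (hBX : ({B.1, (vX K (altT_occ_zero hR)).1} : Finset Vx) ∈ F),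
      (NCwordE hF _ _ hXP).trans ((NCwordE hF (cycF hN hR i (2 * j)) (cycF hN hR i (2 * j + 1))
        (cycF_edge hN hR i (2 * j))).trans (NCwordE hF _ _ hQX)) =
      (NCwordE hF _ _ hXA).trans ((NCwordE hF _ _ hAB).trans (NCwordE hF _ _ hBX)) := by
    intro A B hA hB hXA hAB hBX
    have hAY : Vx.y (colT (altT R) i (2 * j)) ∈ allY (altT R) := ⟨_, occ_col hj0, rfl⟩
    have hBY : Vx.y (colT (altT R) i (2 * j + 1)) ∈ allY (altT R) := ⟨_, occ_col hj1, rfl⟩
    have hX : (vX K (altT_occ_zero hR)).1 = Vx.x := rfl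
    apply NCword_letter hF
    · rw [hX, hA, hP]
      refine hN (NCword_face4 hj0 ⟨Vx.x, by simp⟩ ?_)
      intro v hv
      simpa using hv
    · rw [hA, hP, hQ]
      refine hN (NCword_face2 hj1 ⟨Vx.z i (2 * j), by simp⟩ ?_)
      intro v hv
      simp only [Finset.mem_insert, Finset.mem_singleton] at hv
      rcases hv with rfl | rfl | rfl
      · exact Or.inl hAY
      · exact Or.inr (Or.inl rfl)
      · exact Or.inr (Or.inr rfl)
    · rw [hA, hQ, hB]
      refine hN (NCword_face2 hj1 ⟨Vx.z i (2 * j + 1), by simp⟩ ?_)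
      intro v hv
      simp only [Finset.mem_insert, Finset.mem_singleton] at hv
      rcases hv with rfl | rfl | rfl
      · exact Or.inl hAY
      · exact Or.inr (Or.inr rfl)
      · exact Or.inl hBY
    · rw [hQ, hB, hX]
      refine hN (NCword_face4 hj1 ⟨Vx.x, by simp⟩ ?_)
      intro v hv
      simp only [Finset.mem_insert, Finset.mem_singleton] at hv
      tauto
  rcases hlet : (R.get i).get ⟨j, hj⟩ with ⟨k, b⟩
  rw [hlet] at hca hcb
  cases b
  · -- inverse letter
    simp only [cond_false] at hca hcb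
    have h0a := K0_yy (T := altT R) (altT_occ_zero hR) (altT_occ hR k)
    have ha0 := K0_yy (T := altT R) (altT_occ hR k) (altT_occ_zero hR)
    have hx0 := K0_xy (T := altT R) (altT_occ_zero hR)
    have hxa := K0_xy (T := altT R) (altT_occ hR k)
    have h0x := K0_yx (T := altT R) (altT_occ_zero hR)
    have hax := K0_yx (T := altT R) (altT_occ hR k)
    rw [key (vY K (altT_occ_zero hR)) (vY K (altT_occ hR k)) (by rw [hca]; rfl)
      (by rw [hcb]; rfl) (K hx0) (K h0a) (K hax)]
    have e1 : lpath (gl hF K hR) (k, false) = (gl hF K hR k).symm := rfl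
    rw [e1]
    unfold gl bloop
    rw [Path.trans_symm, Path.trans_symm, Path.Homotopic.Quotient.mk_trans,
      Path.Homotopic.Quotient.mk_trans, Path.Homotopic.Quotient.mk_symm,
      Path.Homotopic.Quotient.mk_symm, Path.Homotopic.Quotient.mk_symm]
    rw [show Path.Homotopic.Quotient.mk (edge hF (vX K (altT_occ_zero hR))
      (vY K (altT_occ hR k)) (K hxa)) = NCwordE hF _ _ (K hxa) from rfl,
      show Path.Homotopic.Quotient.mk (edge hF (vY K (altT_occ hR k))
      (vY K (altT_occ_zero hR)) (K ha0)) = NCwordE hF _ _ (K ha0) from rfl,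
      show Path.Homotopic.Quotient.mk (edge hF (vY K (altT_occ_zero hR))
      (vX K (altT_occ_zero hR)) (K h0x)) = NCwordE hF _ _ (K h0x) from rfl,
      NCwordE_symm hF (vX K (altT_occ_zero hR)) (vY K (altT_occ hR k)) (K hxa) (K hax),
      NCwordE_symm hF (vY K (altT_occ hR k)) (vY K (altT_occ_zero hR)) (K ha0) (K h0a),
      NCwordE_symm hF (vY K (altT_occ_zero hR)) (vX K (altT_occ_zero hR)) (K h0x) (K hx0),
      Path.Homotopic.Quotient.trans_assoc]
  · simp only [cond_true] at hca hcb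
    rw [key (vY K (altT_occ hR k)) (vY K (altT_occ_zero hR)) (by rw [hca]; rfl)
      (by rw [hcb]; rfl) (K (K0_xy (altT_occ hR k)))
      (K (K0_yy (altT_occ hR k) (altT_occ_zero hR))) (K (K0_yx (altT_occ_zero hR)))]
    rfl

theorem NCword_xz (j : ℕ) (hj : j < lenT (altT R) i) :
    ({(vX ((K0_sub (altT_good hR)).trans hN) (altT_occ_zero hR)).1,
      (cycF hN hR i j).1} : Finset Vx) ∈ F := by
  rw [NCword_cyv hN hR i hj]
  refine hN (NCword_face4 hj ⟨Vx.z i j, by simp⟩ ?_)
  intro v hv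
  simp only [Finset.mem_insert, Finset.mem_singleton] at hv
  rcases hv with rfl | rfl
  · exact Or.inl rfl
  · exact Or.inr (Or.inr rfl)

theorem NCword_xz' (j : ℕ) :
    ({(vX ((K0_sub (altT_good hR)).trans hN) (altT_occ_zero hR)).1,
      (cycF hN hR i j).1} : Finset Vx) ∈ F := by
  have h : cycF hN hR i j = cycF hN hR i (j % lenT (altT R) i) := by
    apply Subtype.ext
    show cyv (altT R) i j = cyv (altT R) i (j % lenT (altT R) i)
    unfold cyv
    rw [Nat.mod_mod]
  rw [h]
  exact NCword_xz hN hR i _ (Nat.mod_lt _ (lenT_pos hR i))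

/-- the initial pieces of the cycle -/
theorem NCword_walk (j : ℕ) (hj : j ≤ (R.get i).length) :
    (NCwordE hF _ _ (NCword_xz' hN hR i 0)).trans
      (.mk (walk hF (cycF hN hR i) (cycF_edge hN hR i) (2 * j))) =
    (Path.Homotopic.Quotient.mk (wpath (gl hF ((K0_sub (altT_good hR)).trans hN) hR)
      ((R.get i).take j))).trans (NCwordE hF _ _ (NCword_xz' hN hR i (2 * j))) := by
  induction j with
  | zero =>
    rw [List.take_zero]
    have h1 : walk hF (cycF hN hR i) (cycF_edge hN hR i) (2 * 0) =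
      Path.refl (ptv (cycF hN hR i 0)) := rfl
    have h2 : wpath (gl hF ((K0_sub (altT_good hR)).trans hN) hR) [] = Path.refl _ := rfl
    rw [h1, h2, Path.Homotopic.Quotient.mk_refl, Path.Homotopic.Quotient.mk_refl]
    exact (Path.Homotopic.Quotient.trans_refl _).trans
      (Path.Homotopic.Quotient.refl_trans _).symm
  | succ j ih =>
    have hjl : j < (R.get i).length := hj
    have hlen := lenT_altT i
    have hj1 : 2 * j + 1 < lenT (altT R) i := by omega
    have ih' := ih hjl.le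
    have htake : (R.get i).take (j + 1) = (R.get i).take j ++ [(R.get i).get ⟨j, hjl⟩] := by
      rw [List.take_succ_eq_append_getElem hjl]; rfl
    have hw : Path.Homotopic.Quotient.mk (wpath (gl hF ((K0_sub (altT_good hR)).trans hN) hR)
        ((R.get i).take (j + 1))) =
        (Path.Homotopic.Quotient.mk (wpath (gl hF ((K0_sub (altT_good hR)).trans hN) hR)
        ((R.get i).take j))).trans (.mk (lpath (gl hF ((K0_sub (altT_good hR)).trans hN) hR)
          ((R.get i).get ⟨j, hjl⟩))) := by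
      rw [htake, Path.Homotopic.Quotient.eq.2 (wpath_append _ _ _),
        Path.Homotopic.Quotient.mk_trans]
      congr 1
      show Path.Homotopic.Quotient.mk ((lpath _ _).trans (Path.refl _)) = _
      rw [Path.Homotopic.Quotient.mk_trans, Path.Homotopic.Quotient.mk_refl,
        Path.Homotopic.Quotient.trans_refl]
    have hwalk : Path.Homotopic.Quotient.mk
        (walk hF (cycF hN hR i) (cycF_edge hN hR i) (2 * (j + 1))) =
        ((Path.Homotopic.Quotient.mk (walk hF (cycF hN hR i) (cycF_edge hN hR i) (2 * j))).trans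
          (NCwordE hF (cycF hN hR i (2 * j)) (cycF hN hR i (2 * j + 1))
            (cycF_edge hN hR i (2 * j)))).trans
          (NCwordE hF (cycF hN hR i (2 * j + 1)) (cycF hN hR i (2 * j + 1 + 1))
            (cycF_edge hN hR i (2 * j + 1))) := rfl
    have hxq := NCword_xz' hN hR i (2 * j + 1)
    have hqx : ({(cycF hN hR i (2 * j + 1)).1,
        (vX ((K0_sub (altT_good hR)).trans hN) (altT_occ_zero hR)).1} : Finset Vx) ∈ F := by
      rw [Finset.pair_comm]; exact hxq
    have htri : ({(cycF hN hR i (2 * j + 1)).1,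
        (vX ((K0_sub (altT_good hR)).trans hN) (altT_occ_zero hR)).1,
        (cycF hN hR i (2 * j + 1 + 1)).1} : Finset Vx) ∈ F := by
      have h2 : (cycF hN hR i (2 * j + 1 + 1)).1 = Vx.z i ((2 * j + 2) % lenT (altT R) i) := rfl
      rw [h2, NCword_cyv hN hR i hj1]
      refine hN (NCword_face3 hj1 ⟨Vx.z i (2 * j + 1), by simp⟩ ?_)
      intro v hv
      simp only [Finset.mem_insert, Finset.mem_singleton] at hv
      rcases hv with rfl | rfl | rfl
      · exact Or.inr (Or.inl rfl)
      · exact Or.inl rfl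
      · exact Or.inr (Or.inr rfl)
    have hsp : NCwordE hF (cycF hN hR i (2 * j + 1)) (cycF hN hR i (2 * j + 1 + 1))
        (cycF_edge hN hR i (2 * j + 1)) =
        (NCwordE hF _ _ hqx).trans (NCwordE hF _ _ (NCword_xz' hN hR i (2 * j + 1 + 1))) :=
      (NCwordE_tri hF _ _ _ htri _ _ _).symm
    rw [hwalk, hw, ← NCword_step hF hN hR i j hjl (NCword_xz' hN hR i (2 * j)) hqx,
      ← Path.Homotopic.Quotient.trans_assoc, ← Path.Homotopic.Quotient.trans_assoc, ih', hsp]
    simp only [Path.Homotopic.Quotient.trans_assoc]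
    rfl

theorem NCword_cast {Z : Type} [TopologicalSpace Z] {a b c : Z} (p : Path b c) {c' : Z}
    (hc : c' = c) (e : Path.Homotopic.Quotient a b) (W : Path.Homotopic.Quotient a a)
    (g' : Path.Homotopic.Quotient a c')
    (h : e.trans (.mk p) = W.trans (g'.cast rfl hc.symm)) :
    e.trans (.mk (p.cast rfl hc)) = W.trans g' := by
  subst hc
  simpa using h

/-- the `i`-th cycle, conjugated by the edge from `x` to its first vertex, is the `i`-th
relator in the loops of the generators -/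
theorem cyc_word :
    ((edge hF _ _ (x_cyc_edge hN hR i)).trans ((cycLoop hF hN hR i).trans
      (edge hF _ _ (x_cyc_edge hN hR i)).symm)).Homotopic
    (wpath (gl hF ((K0_sub (altT_good hR)).trans hN) hR) (R.get i)) := by
  have hlen := lenT_altT i
  have h1 := NCword_walk hF hN hR i (R.get i).length le_rfl
  rw [List.take_length] at h1
  -- the same with the length of the cycle
  have h2 : ∀ m, m = 2 * (R.get i).length →
      (NCwordE hF _ _ (NCword_xz' hN hR i 0)).trans
      (.mk (walk hF (cycF hN hR i) (cycF_edge hN hR i) m)) =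
      (Path.Homotopic.Quotient.mk (wpath (gl hF ((K0_sub (altT_good hR)).trans hN) hR)
        (R.get i))).trans (NCwordE hF _ _ (NCword_xz' hN hR i m)) := by
    rintro m rfl
    exact h1
  have h3 := h2 _ hlen
  have h4 : ∀ (u w : VF F) (huw : w = u)
      (h : ({(vX ((K0_sub (altT_good hR)).trans hN) (altT_occ_zero hR)).1, u.1} :
        Finset Vx) ∈ F)
      (h' : ({(vX ((K0_sub (altT_good hR)).trans hN) (altT_occ_zero hR)).1, w.1} :
        Finset Vx) ∈ F),
      NCwordE hF _ u h = (NCwordE hF _ w h').cast rfl (by rw [huw]) := by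
    rintro u w rfl h h'
    rfl
  have h5 := NCword_cast (walk hF (cycF hN hR i) (cycF_edge hN hR i) (lenT (altT R) i))
    (c' := ptv (cycF hN hR i 0)) (by rw [cycF_close hN hR i])
    (NCwordE hF _ _ (NCword_xz' hN hR i 0))
    (.mk (wpath (gl hF ((K0_sub (altT_good hR)).trans hN) hR) (R.get i)))
    (NCwordE hF _ _ (NCword_xz' hN hR i 0)) (by
      rw [h3]
      congr 1
      exact h4 _ _ (cycF_close hN hR i).symm _ _)
  apply Path.Homotopic.Quotient.eq.1
  rw [Path.Homotopic.Quotient.mk_trans, Path.Homotopic.Quotient.mk_trans,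
    Path.Homotopic.Quotient.mk_symm, ← Path.Homotopic.Quotient.trans_assoc]
  have h6 : Path.Homotopic.Quotient.mk (edge hF _ _ (x_cyc_edge hN hR i)) =
    NCwordE hF _ _ (NCword_xz' hN hR i 0) := rfl
  have h7 : (NCwordE hF _ _ (NCword_xz' hN hR i 0)).trans (.mk (cycLoop hF hN hR i)) =
    (Path.Homotopic.Quotient.mk (wpath (gl hF ((K0_sub (altT_good hR)).trans hN) hR)
        (R.get i))).trans (NCwordE hF _ _ (NCword_xz' hN hR i 0)) := h5
  rw [h6, h7, Path.Homotopic.Quotient.trans_assoc, Path.Homotopic.Quotient.trans_symm,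
    Path.Homotopic.Quotient.trans_refl]

/-- free homotopy -/
theorem cyc_word_free :
    (toLoop (cycLoop hF hN hR i)).Homotopic
      (toLoop (wpath (gl hF ((K0_sub (altT_good hR)).trans hN) hR) (R.get i))) :=
  ((toLoop_homotopic (cyc_word hF hN hR i)).symm.trans
    (toLoop_conj (cycLoop hF hN hR i) (edge hF _ _ (x_cyc_edge hN hR i)))).symm

end

end CT
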