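import Mathlib
import Pool.Agent.CT.NCtops
import Pool.Agent.CT.NCword
import Pool.Agent.CT.NCbase
import Pool.Agent.CT.AttBase

/-!
# Filling the cycles gives the presentation complex
-/

namespace CT

open scoped unitInterval ContinuousMap

variable {n : ℕ} {R : List (List (Fin n × Bool))}

theorem top_not_mem {T : List (List ℕ)} (hT : GoodT T) (i : ℕ) (hi : i < T.length) :
    top T i ∉ N1 T := by
  intro h
  obtain ⟨j, hj⟩ := NCalt_face h subset_rfl
  have h1 := (Finset.card_le_card hj).trans Finset.card_le_two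
  rw [NCalt_card_top] at h1
  have h2 := NCdef_four hT hi
  omega

theorem top_inj {T : List (List ℕ)} (hT : GoodT T) (i j : ℕ) (hi : i < T.length)
    (hj : j < T.length) (h : top T i ≤ top T j) : i = j := by
  have h2 := NCdef_four hT hi
  have h1 : Vx.z i 0 ∈ top T i := NCalt_mem_top.2 ⟨0, by omega, rfl⟩
  obtain ⟨k, -, hk⟩ := NCalt_mem_top.1 (h h1)
  exact (Vx.z.inj hk).1

theorem NCatt_top_ne {T : List (List ℕ)} (hT : GoodT T) (i : ℕ) (hi : i < T.length) :
    (top T i).Nonempty := by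
  rw [← Finset.card_pos, NCalt_card_top]
  have h2 := NCdef_four hT hi
  omega

theorem top_max {T : List (List ℕ)} (hT : GoodT T) (i : ℕ) (hi : i < T.length)
    (q : Finset Vx) (hq : q ∈ Q1 T) (h : top T i ≤ q) : q = top T i := by
  rcases hq with hq | ⟨k, hk, rfl⟩
  · exact absurd (N1_isCx.down q hq _ h (NCatt_top_ne hT i hi)) (top_not_mem hT i hi)
  · rw [top_inj hT i k hi hk h]

/-- the tops -/
abbrev tops (T : List (List ℕ)) : Set (Finset Vx) := {s | ∃ i, i < T.length ∧ s = top T i}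

theorem Q1_diff {T : List (List ℕ)} (hT : GoodT T) : Q1 T \ tops T = N1 T := by
  ext s
  constructor
  · rintro ⟨h | h, h'⟩
    · exact h
    · exact absurd h h'
  · intro h
    refine ⟨Or.inl h, ?_⟩
    rintro ⟨i, hi, rfl⟩
    exact top_not_mem hT i hi h

theorem below_top {T : List (List ℕ)} (hT : GoodT T) (i : ℕ) (hi : i < T.length) :
    below (Q1 T) (top T i) = Cyc (cyv T i) := by
  have h4 := NCdef_four hT hi
  rw [cyc_eq hT i (by omega)]
  ext s
  constructor
  · rintro ⟨h | ⟨k, hk, rfl⟩, h2⟩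
    · exact ⟨h, h2⟩
    · rw [top_inj hT k i hk hi h2.le] at h2
      exact absurd h2 (lt_irrefl _)
  · rintro ⟨h1, h2⟩
    exact ⟨Or.inl h1, h2⟩

theorem Cyc_finite (v : ℕ → Vx) (k : ℕ) (hk : 0 < k) (hper : ∀ j, v (j + k) = v j) :
    (Cyc v).Finite := by
  have hmod : ∀ j, v j = v (j % k) := by
    intro j
    induction j using Nat.strong_induction_on with
    | _ j ih =>
      by_cases h : j < k
      · rw [Nat.mod_eq_of_lt h]
      · rw [Nat.mod_eq_sub_mod (not_lt.1 h), ← ih (j - k) (by omega), ← hper (j - k),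
          Nat.sub_add_cancel (not_lt.1 h)]
  refine (NCdef_sub_finite (((Finset.range k).image v).finite_toSet)).subset ?_
  rintro s ⟨-, j, hj⟩
  intro x hx
  have h1 := hj hx
  rw [Finset.mem_insert, Finset.mem_singleton] at h1
  rw [Finset.mem_coe, Finset.mem_image]
  rcases h1 with rfl | rfl
  · exact ⟨j % k, Finset.mem_range.2 (Nat.mod_lt _ hk), (hmod j).symm⟩
  · exact ⟨(j + 1) % k, Finset.mem_range.2 (Nat.mod_lt _ hk), (hmod (j + 1)).symm⟩

theorem homotopic_of_eq {X Y : Type} [TopologicalSpace X] [TopologicalSpace Y] {f g : C(X, Y)}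
    (h : f = g) : f.Homotopic g := h ▸ ContinuousMap.Homotopic.refl f

/-- the inclusion of a cycle is homotopic to the relator -/
theorem attach_homotopy (hR : GoodR R) (i : Fin R.length) :
    ∃ ε : Rz (Cyc (cyv (altT R) i)) ≃ₜ S1,
      (RIncl (Cyc_sub_N1 (altT_good hR) i (lenT_pos hR i))).Homotopic
        ((toLoop (wpath (gl N1_isCx (K0_sub (altT_good hR)) hR) (R.get i))).comp
          (ε : C(Rz (Cyc (cyv (altT R) i)), S1))) := by
  have h4 : 4 ≤ lenT (altT R) i := by
    rw [lenT_altT]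
    have := hR.len (R.get i) (List.get_mem _ _)
    omega
  obtain ⟨e, he⟩ := cyc_homeo (cyv (altT R) i) (lenT (altT R) i) (by omega)
    (cyv_per (i : ℕ)) (fun j k hj hk h => cyv_inj (i : ℕ) j k hj hk h)
  refine ⟨e.symm, ?_⟩
  have h1 := cyc_word_free N1_isCx subset_rfl hR i
  have h2 := (ContinuousMap.Homotopic.refl
    (RIncl (Cyc_sub_N1 (altT_good hR) i (lenT_pos hR i)))).comp he
  rw [toLoop_comp, cwalk_incl (Cyc_isCx _) N1_isCx] at h2
  have h3 := h2.trans h1
  have h5 := h3.comp (ContinuousMap.Homotopic.refl (e.symm : C(Rz (Cyc (cyv (altT R) i)), S1)))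
  refine ContinuousMap.Homotopic.trans (homotopic_of_eq ?_) h5
  ext1 x
  simp

/-- filling the cycles of `N1`: the presentation complex over `N1` -/
theorem Q1_PC (hR : GoodR R) : Nonempty (Rz (OC (Q1 (altT R))) ≃ₕ
    PC (gl N1_isCx (K0_sub (altT_good hR)) hR) R) := by
  classical
  have hT := altT_good hR
  have hlen : (altT R).length = R.length := by simp [altT]
  have hmax : ∀ p ∈ tops (altT R), ∀ q ∈ Q1 (altT R), p ≤ q → q = p := by
    rintro _ ⟨i, hi, rfl⟩ q hq h
    exact top_max hT i hi q hq h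
  have hbel : ∀ p ∈ tops (altT R), ∃ i : Fin R.length, p = top (altT R) i ∧
      below (Q1 (altT R)) p = Cyc (cyv (altT R) i) := by
    rintro _ ⟨i, hi, rfl⟩
    exact ⟨⟨i, hlen ▸ hi⟩, rfl, below_top hT i hi⟩
  obtain ⟨e, -, -⟩ := poset_attach (Q := Q1 (altT R)) (R := tops (altT R)) Q1_finite
    (fun _ h => Or.inr h) hmax (by
      intro p hp
      obtain ⟨i, rfl, hi⟩ := hbel p hp
      have h1 : ({cyv (altT R) i 0} : Finset Vx) ∈ below (Q1 (altT R)) (top (altT R) i) := by
        rw [hi]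
        exact Cyc_vert _ _
      exact ⟨_, h1.1, h1.2⟩)
  choose idx hidx1 hidx2 using hbel
  let ρ : tops (altT R) ≃ Fin R.length :=
    { toFun := fun p => idx p.1 p.2
      invFun := fun i => ⟨top (altT R) i, i, by rw [hlen]; exact i.2, rfl⟩
      left_inv := fun p => Subtype.ext (hidx1 p.1 p.2).symm
      right_inv := fun i => by
        have h := hidx1 (top (altT R) i) ⟨i, by rw [hlen]; exact i.2, rfl⟩
        exact (Fin.ext (top_inj hT _ _ (lt_of_lt_of_eq i.2 hlen.symm)
          (lt_of_lt_of_eq (idx _ _).2 hlen.symm) (le_of_eq h))).symm }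
  have hB : IsCx (Q1 (altT R) \ tops (altT R)) := by
    rw [Q1_diff hT]
    exact N1_isCx
  have hBf : (Q1 (altT R) \ tops (altT R)).Finite := Q1_finite.subset Set.sdiff_subset
  have hC : ∀ p : tops (altT R), IsCx (below (Q1 (altT R)) (p : Finset Vx)) := fun p => by
    rw [hidx2 p.1 p.2]
    exact Cyc_isCx _
  have hCf : ∀ p : tops (altT R), (below (Q1 (altT R)) (p : Finset Vx)).Finite := fun p =>
    Q1_finite.subset (fun _ h => h.1)
  let E0 : Rz (Q1 (altT R) \ tops (altT R)) ≃ₜ Rz (N1 (altT R)) :=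
    Homeomorph.setCongr (by rw [Q1_diff hT])
  let ψ0 : ∀ p : tops (altT R), Rz (below (Q1 (altT R)) (p : Finset Vx)) ≃ₜ
      Rz (Cyc (cyv (altT R) (ρ p))) := fun p => Homeomorph.setCongr (by rw [hidx2 p.1 p.2]; rfl)
  choose ε hε using attach_homotopy hR
  obtain ⟨E, -⟩ := att_equiv (X := Rz (OC (Q1 (altT R) \ tops (altT R))))
    (Y := Rz (N1 (altT R)))
    (fun p : tops (altT R) => Rz (OC (below (Q1 (altT R)) (p : Finset Vx)))) (fun _ => S1)
    (fun p => RIncl (OC_below_sub (fun _ h => Or.inr h) hmax p))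
    (fun i : Fin R.length => toLoop (wpath (gl N1_isCx (K0_sub (altT_good hR)) hR) (R.get i)))
    ((sd hB hBf).trans E0).toHomotopyEquiv ρ
    (fun p => ((sd (hC p) (hCf p)).trans (ψ0 p)).trans (ε (ρ p))) (by
      intro p
      have h1 := (hε (ρ p)).comp (ContinuousMap.Homotopic.refl
        (((sd (hC p) (hCf p)).trans (ψ0 p) :
          Rz (OC (below (Q1 (altT R)) (p : Finset Vx))) ≃ₜ _) :
            C(Rz (OC (below (Q1 (altT R)) (p : Finset Vx))), Rz (Cyc (cyv (altT R) (ρ p))))))
      refine ContinuousMap.Homotopic.trans (homotopic_of_eq ?_) h1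
      ext1 y
      apply Subtype.ext
      have h2 := sd_incl (hC p) (hCf p) hB hBf (fun s hs => ⟨hs.1, fun hs' => by
        have h3 := hmax s hs' p.1 (Or.inr p.2) hs.2.le
        exact absurd h3.symm hs.2.ne⟩) y
      have h4 := congrArg Subtype.val h2
      exact h4)
  exact ⟨e.symm.toHomotopyEquiv.trans E⟩

end CT
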