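import Mathlib
import Pool.Agent.CT.NCattach
import Pool.Agent.CT.Slide

/-!
# Killing letters
-/

namespace CT

open scoped unitInterval ContinuousMap

variable {n : ℕ} {R : List (List (Fin n × Bool))}

/-! ### the triangles -/

/-- the triangle of a letter -/
def NCkill_tri (a : ℕ) : Finset Vx := {Vx.x, Vx.y a, Vx.y 0}

theorem NCkill_mem_K4 {T : List (List ℕ)} {L : Set ℕ} {s : Finset Vx} :
    s ∈ K4 T L ↔ s ∈ K0 T ∨ ∃ a ∈ L, s = NCkill_tri a := Iff.rfl

/-- the nonempty subsets of a triangle -/
theorem NCkill_sub {T : List (List ℕ)} (h0 : OccT T 0) {a : ℕ} (ha : OccT T a)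
    {t : Finset Vx} (ht : t.Nonempty) (hts : t ⊆ NCkill_tri a) (hne : t ≠ NCkill_tri a) :
    t ∈ K0 T := by
  refine ⟨ht, ?_⟩
  by_cases hx : Vx.x ∈ t
  · right
    by_cases hy : Vx.y a ∈ t
    · refine ⟨a, ha, ?_⟩
      have h0' : Vx.y 0 ∉ t ∨ a = 0 := by
        by_contra hcon
        push Not at hcon
        apply hne
        apply Finset.Subset.antisymm hts
        intro v hv
        simp only [NCkill_tri, Finset.mem_insert, Finset.mem_singleton] at hv
        rcases hv with rfl | rfl | rfl
        · exact hx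
        · exact hy
        · exact hcon.1
      intro v hv
      have h1 := hts (Finset.mem_coe.1 hv)
      simp only [NCkill_tri, Finset.mem_insert, Finset.mem_singleton] at h1
      rcases h1 with rfl | rfl | rfl
      · simp
      · simp
      · rcases h0' with h | h
        · exact absurd hv h
        · simp [h]
    · refine ⟨0, h0, ?_⟩
      intro v hv
      have h1 := hts (Finset.mem_coe.1 hv)
      simp only [NCkill_tri, Finset.mem_insert, Finset.mem_singleton] at h1
      rcases h1 with rfl | rfl | rfl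
      · simp
      · exact absurd hv hy
      · simp
  · left
    intro v hv
    have h1 := hts (Finset.mem_coe.1 hv)
    simp only [NCkill_tri, Finset.mem_insert, Finset.mem_singleton] at h1
    rcases h1 with rfl | rfl | rfl
    · exact absurd hv hx
    · exact ⟨a, ha, rfl⟩
    · exact ⟨0, h0, rfl⟩

theorem NCkill_tri_not {T : List (List ℕ)} {a : ℕ} (ha : a ≠ 0) : NCkill_tri a ∉ K0 T := by
  rintro ⟨-, h | ⟨b, -, h⟩⟩
  · obtain ⟨c, -, hc⟩ := h (show Vx.x ∈ ((NCkill_tri a : Finset Vx) : Set Vx) by
      simp [NCkill_tri])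
    exact Vx.noConfusion hc
  · have h1 := h (show Vx.y a ∈ ((NCkill_tri a : Finset Vx) : Set Vx) by simp [NCkill_tri])
    have h2 := h (show Vx.y 0 ∈ ((NCkill_tri a : Finset Vx) : Set Vx) by simp [NCkill_tri])
    simp only [Set.mem_insert_iff, Set.mem_singleton_iff, reduceCtorEq, Vx.y.injEq,
      false_or] at h1 h2
    exact ha (h1.trans h2.symm)

theorem NCkill_L_finite {T : List (List ℕ)} {L : Set ℕ} (hL : ∀ a ∈ L, OccT T a) :
    L.Finite := by
  have h : (Vx.y '' L).Finite := (allY_finite (T := T)).subset (by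
    rintro _ ⟨a, ha, rfl⟩
    exact ⟨a, hL a ha, rfl⟩)
  exact Set.Finite.of_finite_image h (fun a _ b _ hab => Vx.y.inj hab)

theorem K4_isCx {T : List (List ℕ)} {L : Set ℕ} (h0 : OccT T 0) (hL : ∀ a ∈ L, OccT T a) :
    IsCx (K4 T L) where
  ne := by
    rintro s (h | ⟨a, -, rfl⟩)
    · exact h.1
    · simp
  down := by
    rintro s (h | ⟨a, ha, rfl⟩) t hts ht
    · exact Or.inl (K0_isCx.down s h t hts ht)
    · by_cases h : t = NCkill_tri a
      · exact Or.inr ⟨a, ha, h⟩
      · exact Or.inl (NCkill_sub h0 (hL a ha) ht hts h)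

theorem K4_finite {T : List (List ℕ)} {L : Set ℕ} (h0 : OccT T 0) (hL : ∀ a ∈ L, OccT T a) :
    (K4 T L).Finite := by
  refine K0_finite.union ?_
  refine ((NCkill_L_finite hL).image NCkill_tri).subset ?_
  rintro _ ⟨a, ha, rfl⟩
  exact ⟨a, ha, rfl⟩

/-- the vertices of a triangle in cyclic order -/
def NCkill_v (a : ℕ) : ℕ → Vx := fun j => if j % 3 = 0 then .x else if j % 3 = 1 then .y a else .y 0

theorem NCkill_cases (j : ℕ) : j % 3 = 0 ∨ j % 3 = 1 ∨ j % 3 = 2 := by omega

theorem NCkill_v_per (a : ℕ) (j : ℕ) : NCkill_v a (j + 3) = NCkill_v a j := by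
  unfold NCkill_v
  rw [Nat.add_mod_right]

theorem NCkill_v_inj {a : ℕ} (ha : a ≠ 0) (i j : ℕ) (hi : i < 3) (hj : j < 3)
    (h : NCkill_v a i = NCkill_v a j) : i = j := by
  interval_cases i <;> interval_cases j <;> simp_all [NCkill_v]

theorem NCkill_edge_sub (a j : ℕ) : ({NCkill_v a j, NCkill_v a (j + 1)} : Finset Vx) ⊆ {Vx.x, Vx.y a} ∨
    ({NCkill_v a j, NCkill_v a (j + 1)} : Finset Vx) ⊆ {Vx.y a, Vx.y 0} ∨
    ({NCkill_v a j, NCkill_v a (j + 1)} : Finset Vx) ⊆ {Vx.x, Vx.y 0} := by
  rcases NCkill_cases j with h | h | h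
  · left
    have h1 : (j + 1) % 3 = 1 := by omega
    simp [NCkill_v, h, h1]
  · right; left
    have h1 : (j + 1) % 3 = 2 := by omega
    simp [NCkill_v, h, h1]
  · right; right
    have h1 : (j + 1) % 3 = 0 := by omega
    simp [NCkill_v, h, h1, Finset.pair_comm]

theorem NCkill_below {T : List (List ℕ)} {L : Set ℕ} (h0 : OccT T 0) (a : ℕ) (ha : OccT T a)
    (ha0 : a ≠ 0) : below (K4 T L) (NCkill_tri a) = Cyc (NCkill_v a) := by
  ext s
  constructor
  · rintro ⟨hs, hlt⟩
    have hne : s.Nonempty := by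
      rcases hs with h | ⟨b, -, rfl⟩
      · exact h.1
      · simp
    obtain ⟨v, hv, hvs⟩ := Finset.exists_of_ssubset hlt
    refine ⟨hne, ?_⟩
    have hsub : ∀ w ∈ s, w ∈ NCkill_tri a ∧ w ≠ v := fun w hw =>
      ⟨hlt.le hw, fun h => hvs (h ▸ hw)⟩
    simp only [NCkill_tri, Finset.mem_insert, Finset.mem_singleton] at hv hsub
    rcases hv with rfl | rfl | rfl
    · refine ⟨1, fun w hw => ?_⟩
      rcases hsub w hw with ⟨h | h | h, h'⟩
      · exact absurd h h'
      · simp [NCkill_v, h]
      · simp [NCkill_v, h]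
    · refine ⟨2, fun w hw => ?_⟩
      rcases hsub w hw with ⟨h | h | h, h'⟩
      · simp [NCkill_v, h]
      · exact absurd h h'
      · simp [NCkill_v, h]
    · refine ⟨0, fun w hw => ?_⟩
      rcases hsub w hw with ⟨h | h | h, h'⟩
      · simp [NCkill_v, h]
      · simp [NCkill_v, h]
      · exact absurd h h'
  · rintro ⟨hne, j, hj⟩
    have hsub : ({NCkill_v a j, NCkill_v a (j + 1)} : Finset Vx) ⊂ NCkill_tri a := by
      rcases NCkill_edge_sub a j with h | h | h
      · refine Finset.ssubset_of_subset_of_ssubset h ?_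
        refine ⟨by simp [NCkill_tri], fun h' => ?_⟩
        have := h' (show Vx.y 0 ∈ NCkill_tri a by simp [NCkill_tri])
        simp at this
        exact ha0 this.symm
      · refine Finset.ssubset_of_subset_of_ssubset h ?_
        refine ⟨by simp [NCkill_tri], fun h' => ?_⟩
        have := h' (show Vx.x ∈ NCkill_tri a by simp [NCkill_tri])
        simp at this
      · refine Finset.ssubset_of_subset_of_ssubset h ?_
        refine ⟨by simp [NCkill_tri], fun h' => ?_⟩
        have := h' (show Vx.y a ∈ NCkill_tri a by simp [NCkill_tri])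
        simp at this
        exact ha0 this
    have hlt := lt_of_le_of_lt hj hsub
    exact ⟨Or.inl (NCkill_sub h0 ha hne hlt.le hlt.ne), hlt⟩

/-- a closed edge path with three edges -/
theorem NCkill_walk {F : Set (Finset Vx)} (hF : IsCx F) (u : ℕ → VF F)
    (h : ∀ j, ({(u j).1, (u (j + 1)).1} : Finset Vx) ∈ F) (hk : u 3 = u 0)
    (h2 : ({(u 2).1, (u 0).1} : Finset Vx) ∈ F) :
    (cwalk hF u h 3 hk).Homotopic ((edge hF (u 0) (u 1) (h 0)).trans
      ((edge hF (u 1) (u 2) (h 1)).trans (edge hF (u 2) (u 0) h2))) := by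
  have key : ∀ (w : VF F) (hw : w = u 0) (h' : ({(u 2).1, w.1} : Finset Vx) ∈ F),
      (((walk hF u h 2).trans (edge hF (u 2) w h')).cast rfl (by rw [hw]) :
        Path (ptv (u 0)) (ptv (u 0))) = (walk hF u h 2).trans (edge hF (u 2) (u 0) h2) := by
    intro w hw h'
    subst hw
    rfl
  have h3 : cwalk hF u h 3 hk = (walk hF u h 2).trans (edge hF (u 2) (u 0) h2) :=
    key (u 3) hk (h 2)
  rw [h3]
  have h4 : (walk hF u h 2).Homotopic ((edge hF (u 0) (u 1) (h 0)).trans
      (edge hF (u 1) (u 2) (h 1))) := by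
    change (((Path.refl _).trans (edge hF (u 0) (u 1) (h 0))).trans
      (edge hF (u 1) (u 2) (h 1))).Homotopic _
    exact Path.Homotopic.hcomp (⟨Path.Homotopy.reflTrans _⟩) (Path.Homotopic.refl _)
  exact (Path.Homotopic.hcomp h4 (Path.Homotopic.refl _)).trans ⟨Path.Homotopy.transAssoc _ _ _⟩

theorem NCkill_cyc_sub {T : List (List ℕ)} (h0 : OccT T 0) (a : ℕ) (ha : OccT T a)
    (ha0 : a ≠ 0) : Cyc (NCkill_v a) ⊆ K0 T := by
  rw [← NCkill_below (L := ∅) h0 a ha ha0]
  rintro s ⟨h | ⟨b, hb, -⟩, -⟩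
  · exact h
  · exact absurd hb (Set.notMem_empty b)

theorem NCkill_bloop {T : List (List ℕ)} (h0 : OccT T 0) (a : ℕ) (ha : OccT T a)
    (ha0 : a ≠ 0) :
    (toLoop (cwalk (K0_isCx (T := T)) (fun j => VFi (NCkill_cyc_sub h0 a ha ha0)
      ⟨NCkill_v a j, Cyc_vert _ j⟩) (fun j => NCkill_cyc_sub h0 a ha ha0 (Cyc_edge _ j)) 3
      (Subtype.ext (NCkill_v_per a 0)))).Homotopic
    (toLoop (bloop (K0_isCx (T := T)) subset_rfl h0 ha)) := by
  have h1 := NCkill_walk (K0_isCx (T := T)) (fun j => VFi (NCkill_cyc_sub h0 a ha ha0)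
      ⟨NCkill_v a j, Cyc_vert _ j⟩) (fun j => NCkill_cyc_sub h0 a ha ha0 (Cyc_edge _ j))
      (Subtype.ext (NCkill_v_per a 0)) (K0_yx h0)
  exact toLoop_homotopic h1

theorem NCkill_attach (hR : GoodR R) (a : Fin n) :
    ∃ ε : Rz (Cyc (NCkill_v ((a : ℕ) + 1))) ≃ₜ S1,
      (RIncl (NCkill_cyc_sub (altT_occ_zero hR) _ (altT_occ hR a)
        (Nat.succ_ne_zero _))).Homotopic
        ((toLoop (wpath (gl K0_isCx subset_rfl hR) [(a, false)])).comp
          (ε : C(Rz (Cyc (NCkill_v ((a : ℕ) + 1))), S1))) := by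
  set h0 := altT_occ_zero hR
  have ha := altT_occ hR a
  have ha0 : (a : ℕ) + 1 ≠ 0 := Nat.succ_ne_zero _
  obtain ⟨e, he⟩ := cyc_homeo (NCkill_v ((a : ℕ) + 1)) 3 le_rfl
    (NCkill_v_per _) (fun j k hj hk h => NCkill_v_inj ha0 j k hj hk h)
  refine ⟨e.symm.trans (Homeomorph.neg S1), ?_⟩
  have h2 := (ContinuousMap.Homotopic.refl
    (RIncl (NCkill_cyc_sub h0 _ ha ha0))).comp he
  rw [toLoop_comp, cwalk_incl (Cyc_isCx _) K0_isCx] at h2
  have h3 := h2.trans (NCkill_bloop h0 _ ha ha0)
  have h4 : (toLoop (bloop (K0_isCx (T := altT R)) subset_rfl h0 ha)).Homotopic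
      ((toLoop (wpath (gl K0_isCx subset_rfl hR) [(a, false)])).comp
        (Homeomorph.neg S1 : C(S1, S1))) := by
    have h5 : (wpath (gl K0_isCx subset_rfl hR) [(a, false)]).Homotopic
        (bloop (K0_isCx (T := altT R)) subset_rfl h0 ha).symm :=
      ⟨Path.Homotopy.transRefl _⟩
    have h6 := toLoop_homotopic h5
    rw [toLoop_symm] at h6
    have h7 := h6.comp (ContinuousMap.Homotopic.refl (Homeomorph.neg S1 : C(S1, S1)))
    refine ContinuousMap.Homotopic.symm (ContinuousMap.Homotopic.trans h7 (homotopic_of_eq ?_))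
    ext1 x
    simp
  have h8 := (h3.trans h4).comp (ContinuousMap.Homotopic.refl
    (e.symm : C(Rz (Cyc (NCkill_v ((a : ℕ) + 1))), S1)))
  refine ContinuousMap.Homotopic.trans (homotopic_of_eq ?_) (h8.trans (homotopic_of_eq ?_))
  · ext1 x
    simp
  · ext1 x
    simp

theorem NCkill_tri_inj {a b : ℕ} (ha : a ≠ 0) (h : NCkill_tri a = NCkill_tri b) : a = b := by
  have h1 : Vx.y a ∈ NCkill_tri b := by
    rw [← h]
    simp [NCkill_tri]
  simp only [NCkill_tri, Finset.mem_insert, Finset.mem_singleton, reduceCtorEq, Vx.y.injEq,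
    false_or] at h1
  rcases h1 with h1 | h1
  · exact h1
  · exact absurd h1 ha

/-- adding triangles to `K0` is the same as attaching discs along the loops of the letters -/
theorem kill_PC (hR : GoodR R) (L : List (Fin n)) (hL : L.Nodup) :
    Nonempty (Rz (OC (K4 (altT R) {a | ∃ b ∈ L, a = (b : ℕ) + 1})) ≃ₕ
      PC (gl K0_isCx subset_rfl hR) (L.map fun a => [(a, false)])) := by
  classical
  have h0 := altT_occ_zero hR
  set L' : Set ℕ := {a | ∃ b ∈ L, a = (b : ℕ) + 1} with hL'
  have hLo : ∀ a ∈ L', OccT (altT R) a := by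
    rintro _ ⟨b, -, rfl⟩
    exact altT_occ hR b
  set tris : Set (Finset Vx) := {s | ∃ a ∈ L', s = NCkill_tri a} with htris
  have hK4 : K4 (altT R) L' = K0 (altT R) ∪ tris := rfl
  have hdiff : K4 (altT R) L' \ tris = K0 (altT R) := by
    ext s
    constructor
    · rintro ⟨h | h, h'⟩
      · exact h
      · exact absurd h h'
    · intro h
      refine ⟨Or.inl h, ?_⟩
      rintro ⟨a, ⟨b, -, rfl⟩, rfl⟩
      exact NCkill_tri_not (Nat.succ_ne_zero _) h
  have hfin : (K4 (altT R) L').Finite := K4_finite h0 hLo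
  have hlen : (L.map fun a => [(a, false)]).length = L.length := by simp
  let b : Fin (L.map fun a => [(a, false)]).length → Fin n := fun i => L.get (i.cast hlen)
  have hbL : ∀ i, b i ∈ L := fun i => List.get_mem _ _
  have hbinj : Function.Injective b := by
    intro i j hij
    have := List.nodup_iff_injective_get.1 hL hij
    exact Fin.ext (congrArg (fun x : Fin L.length => (x : ℕ)) this)
  have hbsurj : ∀ c ∈ L, ∃ i, b i = c := by
    intro c hc
    obtain ⟨i, hi⟩ := List.get_of_mem hc
    exact ⟨i.cast hlen.symm, hi⟩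
  have hget : ∀ i, (L.map fun a => [(a, false)]).get i = [(b i, false)] := by
    intro i
    simp [b]
  have hmax : ∀ p ∈ tris, ∀ q ∈ K4 (altT R) L', p ≤ q → q = p := by
    rintro _ ⟨a, ha, rfl⟩ q hq h
    rcases hq with hq | ⟨c, hc, rfl⟩
    · exfalso
      obtain ⟨b, -, rfl⟩ := ha
      exact NCkill_tri_not (Nat.succ_ne_zero _)
        (K0_isCx.down q hq _ h (by simp [NCkill_tri]))
    · have h1 : Vx.y a ∈ NCkill_tri c := h (by simp [NCkill_tri])
      simp only [NCkill_tri, Finset.mem_insert, Finset.mem_singleton, reduceCtorEq, Vx.y.injEq,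
        false_or] at h1
      rcases h1 with h1 | h1
      · rw [h1]
        rfl
      · obtain ⟨b, -, rfl⟩ := ha
        exact absurd h1 (Nat.succ_ne_zero _)
  have hbel : ∀ p ∈ tris, ∃ i, p = NCkill_tri ((b i : ℕ) + 1) ∧
      below (K4 (altT R) L') p = Cyc (NCkill_v ((b i : ℕ) + 1)) := by
    rintro _ ⟨_, ⟨c, hc, rfl⟩, rfl⟩
    obtain ⟨i, rfl⟩ := hbsurj c hc
    exact ⟨i, rfl, NCkill_below h0 _ (altT_occ hR _) (Nat.succ_ne_zero _)⟩
  obtain ⟨e, -, -⟩ := poset_attach (Q := K4 (altT R) L') (R := tris) hfin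
    (fun _ h => Or.inr h) hmax (by
      intro p hp
      obtain ⟨i, rfl, hi⟩ := hbel p hp
      have h1 : ({NCkill_v ((b i : ℕ) + 1) 0} : Finset Vx) ∈
          below (K4 (altT R) L') (NCkill_tri ((b i : ℕ) + 1)) := by
        rw [hi]
        exact Cyc_vert _ _
      exact ⟨_, h1.1, h1.2⟩)
  choose idx hidx1 hidx2 using hbel
  let ρ : tris ≃ Fin (L.map fun a => [(a, false)]).length :=
    { toFun := fun p => idx p.1 p.2
      invFun := fun i => ⟨NCkill_tri ((b i : ℕ) + 1), _, ⟨b i, hbL i, rfl⟩, rfl⟩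
      left_inv := fun p => Subtype.ext (hidx1 p.1 p.2).symm
      right_inv := fun i => by
        have h := hidx1 (NCkill_tri ((b i : ℕ) + 1)) ⟨_, ⟨b i, hbL i, rfl⟩, rfl⟩
        have h2 := NCkill_tri_inj (Nat.succ_ne_zero _) h
        exact (hbinj (Fin.ext (Nat.succ_injective h2))).symm }
  have hB : IsCx (K4 (altT R) L' \ tris) := by
    rw [hdiff]
    exact K0_isCx
  have hBf : (K4 (altT R) L' \ tris).Finite := hfin.subset Set.sdiff_subset
  have hC : ∀ p : tris, IsCx (below (K4 (altT R) L') (p : Finset Vx)) := fun p => by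
    rw [hidx2 p.1 p.2]
    exact Cyc_isCx _
  have hCf : ∀ p : tris, (below (K4 (altT R) L') (p : Finset Vx)).Finite := fun p =>
    hfin.subset (fun _ h => h.1)
  let E0 : Rz (K4 (altT R) L' \ tris) ≃ₜ Rz (K0 (altT R)) :=
    Homeomorph.setCongr (by rw [hdiff])
  let ψ0 : ∀ p : tris, Rz (below (K4 (altT R) L') (p : Finset Vx)) ≃ₜ
      Rz (Cyc (NCkill_v ((b (ρ p) : ℕ) + 1))) := fun p =>
    Homeomorph.setCongr (by rw [hidx2 p.1 p.2]; rfl)
  choose ε hε using NCkill_attach hR
  obtain ⟨E, -⟩ := att_equiv (X := Rz (OC (K4 (altT R) L' \ tris)))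
    (Y := Rz (K0 (altT R)))
    (fun p : tris => Rz (OC (below (K4 (altT R) L') (p : Finset Vx)))) (fun _ => S1)
    (fun p => RIncl (OC_below_sub (fun _ h => Or.inr h) hmax p))
    (fun i : Fin (L.map fun a => [(a, false)]).length =>
      toLoop (wpath (gl K0_isCx subset_rfl hR) ((L.map fun a => [(a, false)]).get i)))
    ((sd hB hBf).trans E0).toHomotopyEquiv ρ
    (fun p => ((sd (hC p) (hCf p)).trans (ψ0 p)).trans (ε (b (ρ p)))) (by
      intro p
      have h1 := (hε (b (ρ p))).comp (ContinuousMap.Homotopic.refl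
        (((sd (hC p) (hCf p)).trans (ψ0 p) :
          Rz (OC (below (K4 (altT R) L') (p : Finset Vx))) ≃ₜ _) :
            C(Rz (OC (below (K4 (altT R) L') (p : Finset Vx))),
              Rz (Cyc (NCkill_v ((b (ρ p) : ℕ) + 1))))))
      rw [hget]
      refine ContinuousMap.Homotopic.trans (homotopic_of_eq ?_) h1
      ext1 y
      apply Subtype.ext
      have h2 := sd_incl (hC p) (hCf p) hB hBf (fun s hs => ⟨hs.1, fun hs' => by
        have h3 := hmax s hs' p.1 (Or.inr p.2) hs.2.le
        exact absurd h3.symm hs.2.ne⟩) y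
      have h4 := congrArg Subtype.val h2
      exact h4)
  exact ⟨e.symm.toHomotopyEquiv.trans E⟩

/-- the edge from `x` to `y a` -/
def NCkill_e (a : ℕ) : Finset Vx := {Vx.x, Vx.y a}

theorem NCkill_mem_K0 {T : List (List ℕ)} {s : Finset Vx} (hs : s ∈ K0 T) :
    (s : Set Vx) ⊆ allY T ∨ s = {Vx.x} ∨ ∃ a, OccT T a ∧ s = NCkill_e a := by
  rcases hs with ⟨hne, h | ⟨a, ha, h⟩⟩
  · exact Or.inl h
  · have h' : ∀ v ∈ s, v = Vx.x ∨ v = Vx.y a := fun v hv => by simpa using h hv
    by_cases hx : Vx.x ∈ s
    · by_cases hy : Vx.y a ∈ s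
      · right; right
        refine ⟨a, ha, Finset.ext fun v => ⟨fun hv => by simpa [NCkill_e] using h' v hv, ?_⟩⟩
        intro hv
        simp only [NCkill_e, Finset.mem_insert, Finset.mem_singleton] at hv
        rcases hv with rfl | rfl
        · exact hx
        · exact hy
      · right; left
        refine Finset.ext fun v => ⟨fun hv => ?_, fun hv => ?_⟩
        · rcases h' v hv with rfl | rfl
          · simp
          · exact absurd hv hy
        · rw [Finset.mem_singleton] at hv
          exact hv ▸ hx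
    · left
      intro v hv
      rcases h' v hv with rfl | rfl
      · exact absurd hv hx
      · exact ⟨a, ha, rfl⟩

theorem NCkill_e_inj {a b : ℕ} (h : NCkill_e a = NCkill_e b) : a = b := by
  have h1 : Vx.y a ∈ NCkill_e b := by
    rw [← h]
    simp [NCkill_e]
  simpa [NCkill_e] using h1

theorem NCkill_e_y {T : List (List ℕ)} {a : ℕ} (h : ((NCkill_e a : Finset Vx) : Set Vx) ⊆ allY T) :
    False := by
  obtain ⟨c, -, hc⟩ := h (show Vx.x ∈ ((NCkill_e a : Finset Vx) : Set Vx) by simp [NCkill_e])
  exact Vx.noConfusion hc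

theorem NCkill_e_K0 {T : List (List ℕ)} {a : ℕ} (ha : OccT T a) : NCkill_e a ∈ K0 T :=
  K0_xy ha

/-- the result is a wedge of circles -/
theorem K4_wedge {T : List (List ℕ)} (hT : GoodT T) (h0 : OccT T 0) (L : Set ℕ)
    (hL : ∀ a ∈ L, OccT T a ∧ a ≠ 0) :
    IsWedge (Rz (OC (K4 T L))) ∧ PathConnectedSpace (Rz (OC (K4 T L))) := by
  classical
  have hfin : (K4 T L).Finite := K4_finite h0 (fun a ha => (hL a ha).1)
  -- the subposets
  set A1 : Set (Finset Vx) := {s ∈ K4 T L | ∀ a ∈ L, s ≠ NCkill_e a} with hA1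
  set A2 : Set (Finset Vx) := {s ∈ A1 | ∀ a ∈ L, s ≠ NCkill_tri a} with hA2
  set Re : Set (Finset Vx) := {s | ∃ a, OccT T a ∧ a ≠ 0 ∧ a ∉ L ∧ s = NCkill_e a} with hRe
  have hA1f : A1.Finite := hfin.subset fun _ h => h.1
  have hA2f : A2.Finite := hA1f.subset fun _ h => h.1
  have hA2K : ∀ s ∈ A2, s ∈ K0 T := by
    rintro s ⟨⟨h | ⟨a, ha, rfl⟩, -⟩, h'⟩
    · exact h
    · exact absurd rfl (h' a ha)
  have hK0A2 : ∀ s ∈ K0 T, (∀ a ∈ L, s ≠ NCkill_e a) → s ∈ A2 := by
    intro s hs h
    refine ⟨⟨Or.inl hs, h⟩, ?_⟩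
    rintro a ha rfl
    exact NCkill_tri_not (hL a ha).2 hs
  -- first step: remove the edges
  obtain ⟨e1, -⟩ := incl_upper (A := A1) (B := K4 T L) hfin (fun _ h => h.1) (by
    intro b hb
    by_cases hb1 : b ∈ A1
    · exact contractible_OC b ⟨hb1, le_rfl⟩ (fun q hq => Or.inl hq.2)
    · have : ∃ a ∈ L, b = NCkill_e a := by
        by_contra hcon
        push Not at hcon
        exact hb1 ⟨hb, hcon⟩
      obtain ⟨a, ha, rfl⟩ := this
      have hsub : NCkill_e a ≤ NCkill_tri a := by
        intro v hv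
        simp only [NCkill_e, NCkill_tri, Finset.mem_insert, Finset.mem_singleton] at hv ⊢
        tauto
      refine contractible_OC (NCkill_tri a) ⟨⟨Or.inr ⟨a, ha, rfl⟩, ?_⟩, hsub⟩ ?_
      · intro c hc h
        exact NCkill_tri_not (hL a ha).2 (h ▸ NCkill_e_K0 (hL c hc).1)
      · rintro q ⟨⟨hq | ⟨c, hc, rfl⟩, hq'⟩, hle⟩
        · exfalso
          rcases NCkill_mem_K0 hq with h | h | ⟨c, hc, rfl⟩
          · exact NCkill_e_y (T := T) (a := a) ((Finset.coe_subset.2 hle).trans h)
          · have := hle (show Vx.y a ∈ NCkill_e a by simp [NCkill_e])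
            simp [h] at this
          · have := hle (show Vx.y a ∈ NCkill_e a by simp [NCkill_e])
            simp only [NCkill_e, Finset.mem_insert, Finset.mem_singleton, reduceCtorEq,
              Vx.y.injEq, false_or] at this
            exact hq' a ha (by rw [this])
        · left
          have := hle (show Vx.y a ∈ NCkill_e a by simp [NCkill_e])
          simp only [Finset.mem_insert, Finset.mem_singleton, reduceCtorEq, Vx.y.injEq,
            false_or] at this
          rcases this with h | h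
          · rw [h]
            rfl
          · exact absurd h (hL a ha).2)
  -- second step: remove the triangles
  obtain ⟨e2, -⟩ := incl_lower (A := A2) (B := A1) hA1f (fun _ h => h.1) (by
    intro b hb
    by_cases hb2 : b ∈ A2
    · exact contractible_OC b ⟨hb2, le_rfl⟩ (fun q hq => Or.inr hq.2)
    · have : ∃ a ∈ L, b = NCkill_tri a := by
        by_contra hcon
        push Not at hcon
        exact hb2 ⟨hb, hcon⟩
      obtain ⟨a, ha, rfl⟩ := this
      refine contractible_join (hA2f.subset fun _ h => h.1) {Vx.y 0} ⟨?_, ?_⟩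
        (fun p => insert (Vx.y 0) p) ?_ (fun p _ => Finset.subset_insert _ _)
        (fun p _ => Finset.singleton_subset_iff.2 (Finset.mem_insert_self _ _)) ?_
      · refine hK0A2 _ (K0_y h0) ?_
        intro c _ h
        have : Vx.x ∈ ({Vx.y 0} : Finset Vx) := by
          rw [h]
          simp [NCkill_e]
        simp at this
      · intro v hv
        rw [Finset.mem_singleton] at hv
        simp [NCkill_tri, hv]
      · rintro p ⟨hp, hle⟩
        have hp' : p ≠ NCkill_tri a := hp.2 a ha
        have hpe : p ≠ NCkill_e a := hp.1.2 a ha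
        have hpne : p.Nonempty := (hA2K p hp).1
        have hsub : insert (Vx.y 0) p ⊆ NCkill_tri a :=
          Finset.insert_subset (by simp [NCkill_tri]) hle
        have hne : insert (Vx.y 0) p ≠ NCkill_tri a := by
          intro h
          -- then `p` contains `x` and `y a`
          have hx : Vx.x ∈ p := by
            have : Vx.x ∈ insert (Vx.y 0) p := by
              rw [h]
              simp [NCkill_tri]
            simpa using this
          have hy : Vx.y a ∈ p := by
            have : Vx.y a ∈ insert (Vx.y 0) p := by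
              rw [h]
              simp [NCkill_tri]
            simpa [(hL a ha).2] using this
          by_cases h00 : Vx.y 0 ∈ p
          · exact hp' (by rw [← h, Finset.insert_eq_self.2 h00])
          · apply hpe
            refine Finset.ext fun v => ⟨fun hv => ?_, fun hv => ?_⟩
            · have := hle hv
              simp only [NCkill_tri, NCkill_e, Finset.mem_insert, Finset.mem_singleton] at this ⊢
              rcases this with h | h | h
              · exact Or.inl h
              · exact Or.inr h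
              · exact absurd (h ▸ hv) h00
            · simp only [NCkill_e, Finset.mem_insert, Finset.mem_singleton] at hv
              rcases hv with rfl | rfl
              · exact hx
              · exact hy
        refine ⟨hK0A2 _ (NCkill_sub h0 (hL a ha).1 (Finset.insert_nonempty _ _) hsub hne) ?_,
          hsub⟩
        intro c hc h
        have : Vx.y 0 ∈ NCkill_e c := by
          rw [← h]
          exact Finset.mem_insert_self _ _
        simp only [NCkill_e, Finset.mem_insert, Finset.mem_singleton, reduceCtorEq,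
          Vx.y.injEq, false_or] at this
        exact (hL c hc).2 this.symm
      · rintro p - q - hpq hq
        exact Finset.insert_subset (hq (Finset.mem_singleton_self _)) hpq)
  -- third step: the rest
  have hRA : Re ⊆ A2 := by
    rintro _ ⟨a, ha, ha0, haL, rfl⟩
    refine hK0A2 _ (NCkill_e_K0 ha) ?_
    intro c hc h
    exact haL (NCkill_e_inj h ▸ hc)
  have hmax : ∀ p ∈ Re, ∀ q ∈ A2, p ≤ q → q = p := by
    rintro _ ⟨a, ha, ha0, haL, rfl⟩ q hq hle
    rcases NCkill_mem_K0 (hA2K q hq) with h | h | ⟨c, hc, rfl⟩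
    · exact (NCkill_e_y (T := T) (a := a) ((Finset.coe_subset.2 hle).trans h)).elim
    · have := hle (show Vx.y a ∈ NCkill_e a by simp [NCkill_e])
      simp [h] at this
    · have := hle (show Vx.y a ∈ NCkill_e a by simp [NCkill_e])
      simp only [NCkill_e, Finset.mem_insert, Finset.mem_singleton, reduceCtorEq,
        Vx.y.injEq, false_or] at this
      rw [this]
  have hxA : ({Vx.x} : Finset Vx) ∈ A2 := by
    refine hK0A2 _ (K0_x h0) ?_
    intro c _ h
    have : Vx.y c ∈ ({Vx.x} : Finset Vx) := by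
      rw [h]
      simp [NCkill_e]
    simp at this
  have hyA : ∀ a, OccT T a → ({Vx.y a} : Finset Vx) ∈ A2 := by
    intro a ha
    refine hK0A2 _ (K0_y ha) ?_
    intro c _ h
    have : Vx.x ∈ ({Vx.y a} : Finset Vx) := by
      rw [h]
      simp [NCkill_e]
    simp at this
  have hxe : ∀ a, ({Vx.x} : Finset Vx) < NCkill_e a := by
    intro a
    refine lt_of_le_of_ne ?_ ?_
    · intro v hv
      rw [Finset.mem_singleton] at hv
      simp [NCkill_e, hv]
    · intro h
      have : Vx.y a ∈ ({Vx.x} : Finset Vx) := by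
        rw [h]
        simp [NCkill_e]
      simp at this
  have hye : ∀ a, ({Vx.y a} : Finset Vx) < NCkill_e a := by
    intro a
    refine lt_of_le_of_ne ?_ ?_
    · intro v hv
      rw [Finset.mem_singleton] at hv
      simp [NCkill_e, hv]
    · intro h
      have : Vx.x ∈ ({Vx.y a} : Finset Vx) := by
        rw [h]
        simp [NCkill_e]
      simp at this
  obtain ⟨e3, -, -⟩ := poset_attach (Q := A2) (R := Re) hA2f hRA hmax (by
    rintro _ ⟨a, ha, ha0, haL, rfl⟩
    exact ⟨_, hxA, hxe a⟩)
  -- the base is contractible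
  have hbase : ContractibleSpace (Rz (OC (A2 \ Re))) := by
    refine contractible_join (hA2f.subset Set.sdiff_subset) {Vx.y 0} ⟨hyA 0 h0, ?_⟩
      (fun p => insert (Vx.y 0) p) ?_ (fun p _ => Finset.subset_insert _ _)
      (fun p _ => Finset.singleton_subset_iff.2 (Finset.mem_insert_self _ _)) ?_
    · rintro ⟨a, ha, ha0, haL, h⟩
      have : Vx.x ∈ ({Vx.y 0} : Finset Vx) := by
        rw [h]
        simp [NCkill_e]
      simp at this
    · rintro p ⟨hp, hpR⟩
      rcases NCkill_mem_K0 (hA2K p hp) with h | h | ⟨c, hc, rfl⟩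
      · have hsub : ((insert (Vx.y 0) p : Finset Vx) : Set Vx) ⊆ allY T := by
          intro v hv
          rw [Finset.mem_coe, Finset.mem_insert] at hv
          rcases hv with rfl | hv
          · exact ⟨0, h0, rfl⟩
          · exact h hv
        refine ⟨hK0A2 _ ⟨Finset.insert_nonempty _ _, Or.inl hsub⟩ ?_, ?_⟩
        · intro c _ h'
          rw [h'] at hsub
          exact NCkill_e_y hsub
        · rintro ⟨a, -, -, -, h'⟩
          rw [h'] at hsub
          exact NCkill_e_y hsub
      · subst h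
        have : (insert (Vx.y 0) {Vx.x} : Finset Vx) = NCkill_e 0 := Finset.pair_comm _ _
        rw [this]
        refine ⟨hK0A2 _ (NCkill_e_K0 h0) ?_, ?_⟩
        · intro c hc h'
          exact (hL c hc).2 (NCkill_e_inj h').symm
        · rintro ⟨a, -, ha0, -, h'⟩
          exact ha0 (NCkill_e_inj h').symm
      · have hc0 : c = 0 := by
          by_contra hc0
          by_cases hcL : c ∈ L
          · exact hp.1.2 c hcL rfl
          · exact hpR ⟨c, hc, hc0, hcL, rfl⟩
        subst hc0
        have : insert (Vx.y 0) (NCkill_e 0) = NCkill_e 0 :=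
          Finset.insert_eq_self.2 (by simp [NCkill_e])
        rw [this]
        exact ⟨hp, hpR⟩
    · rintro p - q - hpq hq
      exact Finset.insert_subset (hq (Finset.mem_singleton_self _)) hpq
  have hfinR : Finite Re := hA2f.subset hRA
  have hS : ∀ p : Re, Nonempty (Rz (OC (below A2 (p : Finset Vx))) ≃ₕ Sph 0) := by
    rintro ⟨_, a, ha, ha0, haL, rfl⟩
    have hcases : ∀ q ∈ below A2 (NCkill_e a), q = {Vx.x} ∨ q = {Vx.y a} := by
      rintro q ⟨hq, hlt⟩
      have hqne : q.Nonempty := (hA2K q hq).1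
      have h1 : ∀ v ∈ q, v = Vx.x ∨ v = Vx.y a := fun v hv => by
        have := hlt.le hv
        simpa [NCkill_e] using this
      by_cases hx : Vx.x ∈ q
      · by_cases hy : Vx.y a ∈ q
        · exfalso
          apply hlt.ne
          refine le_antisymm hlt.le ?_
          intro v hv
          simp only [NCkill_e, Finset.mem_insert, Finset.mem_singleton] at hv
          rcases hv with rfl | rfl
          · exact hx
          · exact hy
        · left
          refine Finset.ext fun v => ⟨fun hv => ?_, fun hv => ?_⟩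
          · rcases h1 v hv with rfl | rfl
            · simp
            · exact absurd hv hy
          · rw [Finset.mem_singleton] at hv
            exact hv ▸ hx
      · right
        obtain ⟨w, hw⟩ := hqne
        refine Finset.ext fun v => ⟨fun hv => ?_, fun hv => ?_⟩
        · rcases h1 v hv with rfl | rfl
          · exact absurd hv hx
          · simp
        · rw [Finset.mem_singleton] at hv
          rcases h1 w hw with rfl | rfl
          · exact absurd hw hx
          · exact hv ▸ hw
    refine two_cones (hA2f.subset fun _ h => h.1) {Vx.x} {Vx.y a} ⟨hxA, hxe a⟩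
      ⟨hyA a ha, hye a⟩ ?_ ?_
    · intro q hq
      rcases hcases q hq with rfl | rfl
      · exact Or.inl le_rfl
      · exact Or.inr le_rfl
    · rintro q hq ⟨h1, h2⟩
      rcases hcases q hq with rfl | rfl
      · have := h2 (Finset.mem_singleton_self _)
        simp at this
      · have := h1 (Finset.mem_singleton_self _)
        simp at this
  have hw := isWedge_att (X := Rz (OC (A2 \ Re))) isWedge_of_contractible
    (fun p : Re => Rz (OC (below A2 (p : Finset Vx)))) (fun _ => 0) hS
    (fun p => RIncl (OC_below_sub hRA hmax p)) (by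
      intro p
      obtain ⟨x, hx⟩ := (id_nullhomotopic (Rz (OC (A2 \ Re))))
      refine ⟨x, ?_⟩
      have h1 := hx.comp (ContinuousMap.Homotopic.refl (RIncl (OC_below_sub hRA hmax p)))
      exact h1)
  have h3 := hw.1
  have : PathConnectedSpace (Att (X := Rz (OC (A2 \ Re)))
    (fun p : Re => Rz (OC (below A2 (p : Finset Vx)))) (fun p => RIncl (OC_below_sub hRA hmax p))) :=
    hw.2
  let E := (e3.toHomotopyEquiv.trans e2).trans e1
  exact ⟨isWedge_of_equiv E h3, pathConnected_of_equiv E⟩

end CT
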