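import Mathlib
import Pool.Agent.CT.NCkill
import Pool.Agent.CT.Alg
import Pool.Agent.CT.Circ

/-!
# The halting case
-/

namespace CT

open scoped unitInterval ContinuousMap

section nil

variable {X : Type} [TopologicalSpace X] {x₀ : X} {Γ : Type} (ℓ : Γ → Path x₀ x₀)

theorem PC_nil (R : List (List (Γ × Bool))) (k : ℕ)
    (h : IsWedge (PC ℓ R) ∧ PathConnectedSpace (PC ℓ R)) :
    IsWedge (PC ℓ (List.replicate k [] ++ R)) ∧
      PathConnectedSpace (PC ℓ (List.replicate k [] ++ R)) := by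
  induction k with
  | zero => exact h
  | succ k ih =>
    obtain ⟨e, -⟩ := pc_cons ℓ [] (List.replicate k [] ++ R)
    obtain ⟨h1, h2⟩ := ih
    have h3 := isWedge_att h1 (J := Unit) (fun _ => S1) (fun _ => 1)
      (fun _ => ⟨circle_sph.some.toHomotopyEquiv⟩)
      (fun _ => (pcIn ℓ (List.replicate k [] ++ R)).comp (toLoop (wpath ℓ []))) (by
        intro _
        refine ⟨pcIn ℓ (List.replicate k [] ++ R) x₀, homotopic_of_eq ?_⟩
        change (pcIn ℓ (List.replicate k [] ++ R)).comp (toLoop (Path.refl x₀)) = _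
        rw [toLoop_refl]
        rfl)
    obtain ⟨h4, h5⟩ := h3
    exact ⟨isWedge_of_equiv e.symm.toHomotopyEquiv h4,
      pathConnected_of_equiv e.symm.toHomotopyEquiv⟩

/-- renaming of letters -/
def relab {Γ Γ' : Type} (ν : Γ → Γ') (w : List (Γ × Bool)) : List (Γ' × Bool) :=
  w.map (fun p => (ν p.1, p.2))

theorem wpath_relab {Γ' : Type} (ν : Γ' → Γ) (w : List (Γ' × Bool)) :
    wpath ℓ (relab ν w) = wpath (fun z => ℓ (ν z)) w := by
  induction w with
  | nil => rfl
  | cons p w ih =>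
    change (lpath ℓ (ν p.1, p.2)).trans (wpath ℓ (relab ν w)) = _
    rw [ih]
    rfl

theorem PC_relab {Γ' : Type} (ν : Γ' → Γ) (R : List (List (Γ' × Bool))) :
    ∃ E : PC (fun z => ℓ (ν z)) R ≃ₕ PC ℓ (R.map (relab ν)),
      ∀ x, E (pcIn _ _ x) = pcIn _ _ x := by
  have hlen : R.length = (R.map (relab ν)).length := by simp
  obtain ⟨E, hE⟩ := att_equiv (fun _ : Fin R.length => S1)
    (fun _ : Fin (R.map (relab ν)).length => S1)
    (fun i => toLoop (wpath (fun z => ℓ (ν z)) (R.get i)))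
    (fun i => toLoop (wpath ℓ ((R.map (relab ν)).get i)))
    (ContinuousMap.HomotopyEquiv.refl X) (finCongr hlen) (fun _ => Homeomorph.refl S1) (by
      intro j
      refine homotopic_of_eq ?_
      have h1 : (R.map (relab ν)).get (finCongr hlen j) = relab ν (R.get j) := by
        simp
      rw [h1, wpath_relab]
      rfl)
  exact ⟨E, hE⟩

theorem PC_relab' {Γ' : Type} (ν : Γ' → Γ) (R : List (List (Γ' × Bool))) :
    ∃ E : PC ℓ (R.map (relab ν)) ≃ₕ PC (fun z => ℓ (ν z)) R,
      ∀ x, E (pcIn _ _ x) = pcIn _ _ x := by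
  have hlen : R.length = (R.map (relab ν)).length := by simp
  obtain ⟨E, hE⟩ := att_equiv (fun _ : Fin (R.map (relab ν)).length => S1)
    (fun _ : Fin R.length => S1)
    (fun i => toLoop (wpath ℓ ((R.map (relab ν)).get i)))
    (fun i => toLoop (wpath (fun z => ℓ (ν z)) (R.get i)))
    (ContinuousMap.HomotopyEquiv.refl X) (finCongr hlen.symm) (fun _ => Homeomorph.refl S1) (by
      intro j
      refine homotopic_of_eq ?_
      have h1 : (R.map (relab ν)).get j = relab ν (R.get (finCongr hlen.symm j)) := by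
        simp
      rw [h1, wpath_relab]
      rfl)
  exact ⟨E, hE⟩

theorem PCEqv.relab {Γ' : Type} (ν : Γ' → Γ) {R R' : List (List (Γ' × Bool))}
    (h : PCEqv (fun z => ℓ (ν z)) R R') :
    PCEqv ℓ (R.map (CT.relab ν)) (R'.map (CT.relab ν)) := by
  obtain ⟨E1, h1⟩ := PC_relab' ℓ ν R
  obtain ⟨E2, h2⟩ := h
  obtain ⟨E3, h3⟩ := PC_relab ℓ ν R'
  refine ⟨(E1.trans E2).trans E3, fun x => ?_⟩
  change E3 (E2 (E1 _)) = _
  rw [h1, h2, h3]

end nil

variable {n : ℕ} {R : List (List (Fin n × Bool))}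

theorem gl_incl {F G : Set (Finset Vx)} (hF : IsCx F) (hG : IsCx G) (hFG : F ⊆ G)
    (hK : K0 (altT R) ⊆ F) (hR : GoodR R) (a : Fin n) :
    (gl hF hK hR a).map (RIncl hFG).continuous = gl hG (hK.trans hFG) hR a := by
  unfold gl bloop
  rw [Path.map_trans, Path.map_trans, edge_incl hF hG, edge_incl hF hG, edge_incl hF hG]
  rfl

/-- change of the base from `K0` to `N1` -/
theorem PC_K0_N1 (hR : GoodR R) (R' : List (List (Fin n × Bool))) :
    Nonempty (PC (gl K0_isCx subset_rfl hR) R' ≃ₕ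
      PC (gl N1_isCx (K0_sub (altT_good hR)) hR) R') := by
  obtain ⟨e, he⟩ := K0_N1 (altT_good hR)
  obtain ⟨E, -⟩ := att_equiv (fun _ : Fin R'.length => S1) (fun _ : Fin R'.length => S1)
    (fun i => toLoop (wpath (gl K0_isCx subset_rfl hR) (R'.get i)))
    (fun i => toLoop (wpath (gl N1_isCx (K0_sub (altT_good hR)) hR) (R'.get i)))
    e (Equiv.refl _) (fun _ => Homeomorph.refl S1) (by
      intro j
      refine homotopic_of_eq ?_
      rw [he, toLoop_comp, wpath_map]
      have h1 : (fun z => (gl K0_isCx subset_rfl hR z).map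
          (RIncl (K0_sub (altT_good hR))).continuous) =
          gl N1_isCx (K0_sub (altT_good hR)) hR := by
        funext z
        exact gl_incl K0_isCx N1_isCx (K0_sub (altT_good hR)) subset_rfl hR z
      exact congrArg (fun l => toLoop (wpath l (R'.get j))) h1)
  exact ⟨E⟩

/-- the halting case, for a presentation over `Fin n` which can be simplified -/
theorem nc_wedge (hR : GoodR R) (L : List (Fin n)) (hL : L.Nodup) (k : ℕ)
    (h : PCEqv (gl K0_isCx subset_rfl hR) R
      (List.replicate k [] ++ L.map fun a => [(a, false)])) :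
    IsWedge (Rz (NC (altT R))) ∧ PathConnectedSpace (Rz (NC (altT R))) := by
  have hT := altT_good hR
  have h0 := altT_occ_zero hR
  have h1 := K4_wedge hT h0 {a | ∃ b ∈ L, a = (b : ℕ) + 1} (by
    rintro _ ⟨b, -, rfl⟩
    exact ⟨altT_occ hR b, by omega⟩)
  obtain ⟨e1⟩ := kill_PC hR L hL
  obtain ⟨h2, h3⟩ := h1
  have h4 := PC_nil (gl K0_isCx subset_rfl hR) (L.map fun a => [(a, false)]) k
    ⟨isWedge_of_equiv e1 h2, pathConnected_of_equiv e1⟩
  obtain ⟨e2, -⟩ := h
  obtain ⟨e3⟩ := PC_K0_N1 hR R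
  obtain ⟨e4⟩ := Q1_PC hR
  have e5 := e2.symm.trans (e3.trans e4.symm)
  obtain ⟨h5, h6⟩ := h4
  have h7 := nctops hT (isWedge_of_equiv e5 h5) (pathConnected_of_equiv e5)
  obtain ⟨h8, h9⟩ := h7
  exact ⟨isWedge_of_equiv (sd NC_isCx NC_finite).toHomotopyEquiv h8,
    pathConnected_of_equiv (sd NC_isCx NC_finite).toHomotopyEquiv⟩

end CT
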