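import Mathlib
import Pool.Agent.CT.NC
import Pool.Agent.CT.Alg
import Pool.Agent.CT.NChalt
import Pool.Agent.NB.Main

/-!
# The family of complexes
-/

namespace CT

open scoped unitInterval ContinuousMap

/-- numbering of the letters -/
def nu (m : ℕ) : NB.Gen m ⊕ NB.Gen m ≃ Fin ((5 + m) + (5 + m)) :=
  (Equiv.sumCongr finSumFinEquiv finSumFinEquiv).trans finSumFinEquiv

/-- the family of presentations, with numbered letters and padded relators -/
def famF {m : ℕ} (R : List (List (NB.Gen m × Bool))) (w : List (NB.Gen m × Bool)) :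
    List (List (Fin ((5 + m) + (5 + m)) × Bool)) :=
  ((NB.famRels (NB.allGens m) R w).map (pad (Sum.inl NB.gx1))).map (relab (nu m))

variable {m : ℕ} (R : List (List (NB.Gen m × Bool))) (w : List (NB.Gen m × Bool))

theorem Fam_relator (z : NB.Gen m) : relab (nu m) (pad (Sum.inl NB.gx1)
    ([(Sum.inr z, true)] ++ (NB.oldWord w ++ ([(Sum.inr z, false)] ++
      [(Sum.inl z, false)])))) ∈ famF R w := by
  unfold famF NB.famRels
  refine List.mem_map.2 ⟨_, List.mem_map.2 ⟨_, List.mem_append_right _
    (List.mem_map.2 ⟨z, NB.mem_allGens z, rfl⟩), rfl⟩, rfl⟩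

theorem famF_good : GoodR (famF R w) where
  two := by
    unfold famF NB.famRels NB.allGens
    simp only [List.length_map, List.length_append, List.length_finRange]
    omega
  len := by
    intro r hr
    unfold famF at hr
    obtain ⟨r1, hr1, rfl⟩ := List.mem_map.1 hr
    obtain ⟨r2, -, rfl⟩ := List.mem_map.1 hr1
    simp [relab, pad]
  occ := by
    intro a
    obtain ⟨z, rfl⟩ := (nu m).surjective a
    rcases z with z | z
    · refine ⟨_, Fam_relator R w z, false, ?_⟩
      refine List.mem_map.2 ⟨(Sum.inl z, false), ?_, rfl⟩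
      simp [pad]
    · refine ⟨_, Fam_relator R w z, true, ?_⟩
      refine List.mem_map.2 ⟨(Sum.inr z, true), ?_, rfl⟩
      simp [pad]

/-- relabelling does not change the group -/
theorem relab_inj {γ γ' : Type} (ν : γ ≃ γ') (S : List (List (γ × Bool))) :
    ∃ φ : NB.Pr S →* NB.Pr (S.map (relab ν)), Function.Injective φ := by
  have key : ∀ {W : Type} [Group W] (f : γ' → W) (L : List (γ × Bool)),
      FreeGroup.lift f (FreeGroup.mk (relab ν L)) =
        FreeGroup.lift (f ∘ ν) (FreeGroup.mk L) := by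
    intro W _ f L
    have h : FreeGroup.mk (relab ν L) = FreeGroup.map ν (FreeGroup.mk L) := by
      rw [FreeGroup.map.mk]
      rfl
    rw [h]
    have h2 : (FreeGroup.lift f).comp (FreeGroup.map ν) = FreeGroup.lift (f ∘ ν) := by
      ext x
      simp
    exact DFunLike.congr_fun h2 (FreeGroup.mk L)
  have h1 : ∀ r ∈ NB.relSet S, FreeGroup.lift
      ((PresentedGroup.of (rels := NB.relSet (S.map (relab ν)))) ∘ ν) r = 1 := by
    rintro _ ⟨L, hL, rfl⟩
    rw [← key, NB.lift_of_eq_mk]
    exact PresentedGroup.one_of_mem ⟨relab ν L, List.mem_map.2 ⟨L, hL, rfl⟩, rfl⟩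
  have h2 : ∀ r ∈ NB.relSet (S.map (relab ν)), FreeGroup.lift
      ((PresentedGroup.of (rels := NB.relSet S)) ∘ ν.symm) r = 1 := by
    rintro _ ⟨L, hL, rfl⟩
    obtain ⟨L', hL', rfl⟩ := List.mem_map.1 hL
    rw [key]
    have h3 : (PresentedGroup.of (rels := NB.relSet S) ∘ ν.symm) ∘ ν =
        PresentedGroup.of (rels := NB.relSet S) := by
      funext x
      simp
    rw [h3, NB.lift_of_eq_mk]
    exact PresentedGroup.one_of_mem ⟨L', hL', rfl⟩
  refine ⟨PresentedGroup.toGroup h1, ?_⟩
  have h4 : (PresentedGroup.toGroup h2).comp (PresentedGroup.toGroup h1) =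
      MonoidHom.id (NB.Pr S) := by
    refine PresentedGroup.ext fun x => ?_
    change PresentedGroup.toGroup h2 (PresentedGroup.toGroup h1 (PresentedGroup.of x)) =
      PresentedGroup.of x
    rw [PresentedGroup.toGroup.of h1]
    change PresentedGroup.toGroup h2 (PresentedGroup.of (ν x)) = _
    rw [PresentedGroup.toGroup.of h2]
    simp
  intro a b hab
  have h5 := congrArg (PresentedGroup.toGroup h2) hab
  have h6 : ∀ c, PresentedGroup.toGroup h2 (PresentedGroup.toGroup h1 c) = c :=
    fun c => DFunLike.congr_fun h4 c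
  rwa [h6, h6] at h5

/-- the nonhalting case -/
theorem famF_z2 (h : ∃ a b : NB.Pr (NB.famRels (NB.allGens m) R w), a * b = b * a ∧
    ∀ i j : ℤ, a ^ i * b ^ j = 1 → i = 0 ∧ j = 0) :
    ∃ a b : NB.Pr (famF R w), a * b = b * a ∧
      ∀ i j : ℤ, a ^ i * b ^ j = 1 → i = 0 ∧ j = 0 := by
  obtain ⟨a, b, hab, h2⟩ := h
  have h0 : ∃ φ : NB.Pr (NB.famRels (NB.allGens m) R w) →*
      NB.Pr ((NB.famRels (NB.allGens m) R w).map (pad (Sum.inl NB.gx1))),
      Function.Injective φ := by
    unfold NB.Pr
    rw [relSet_pad]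
    exact ⟨MonoidHom.id _, Function.injective_id⟩
  obtain ⟨φ, hφ⟩ := h0
  obtain ⟨φ', hφ'⟩ := relab_inj (nu m)
    ((NB.famRels (NB.allGens m) R w).map (pad (Sum.inl NB.gx1)))
  unfold famF
  refine ⟨φ' (φ a), φ' (φ b), ?_, ?_⟩
  · rw [← map_mul, ← map_mul, hab, map_mul, map_mul]
  · intro i j hij
    refine h2 i j (hφ (hφ' ?_))
    simpa only [map_mul, map_zpow, map_one] using hij

theorem allGens_nodup : (NB.allGens m).Nodup := by
  unfold NB.allGens
  refine List.Nodup.append ((List.nodup_finRange 5).map Sum.inl_injective)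
    ((List.nodup_finRange m).map Sum.inr_injective) ?_
  intro x hx hy
  obtain ⟨a, -, rfl⟩ := List.mem_map.1 hx
  obtain ⟨b, -, hb⟩ := List.mem_map.1 hy
  simp at hb

/-- the halting case -/
theorem famF_halt {X : Type} [TopologicalSpace X] {x₀ : X}
    (ℓ : Fin ((5 + m) + (5 + m)) → Path x₀ x₀)
    (hw : PresentedGroup.mk (NB.relSet R) (FreeGroup.mk w) = 1) :
    PCEqv ℓ (famF R w) (List.replicate R.length [] ++
      ((NB.allGens m).map (fun z => nu m (Sum.inl z))).map fun a => [(a, false)]) := by
  have h1 := famRels_eqv (fun z => ℓ (nu m z)) (NB.allGens m) NB.mem_allGens R w hw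
  have h2 := PCEqv.trans _ (PCEqv.pad (fun z => ℓ (nu m z)) (Sum.inl NB.gx1)
    (NB.famRels (NB.allGens m) R w)) h1
  have h3 := PCEqv.relab ℓ (nu m) h2
  have h4 : (List.replicate R.length [] ++ (NB.allGens m).map
      (fun z => [((Sum.inl z : NB.Gen m ⊕ NB.Gen m), false)])).map (relab (nu m)) =
      List.replicate R.length [] ++
      ((NB.allGens m).map (fun z => nu m (Sum.inl z))).map fun a => [(a, false)] := by
    simp [relab, Function.comp_def]
  rw [h4] at h3
  exact h3

theorem famF_primrec {m : ℕ} (R : List (List (NB.Gen m × Bool)))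
    (w : ℕ → List (NB.Gen m × Bool)) (hw : Primrec w) :
    Primrec (fun n => altT (famF R (w n))) := by
  have h1 : Primrec (fun n => NB.oldWord (w n)) := by
    unfold NB.oldWord
    refine Primrec.list_map hw ?_
    unfold Primrec₂
    exact Primrec.pair (Primrec.sumInl.comp (Primrec.fst.comp Primrec.snd))
      (Primrec.snd.comp Primrec.snd)
  have h2 : Primrec (fun n => NB.famRels (NB.allGens m) R (w n)) := by
    unfold NB.famRels
    refine Primrec.list_append.comp (Primrec.const _) ?_
    refine Primrec.list_map (Primrec.const _) ?_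
    unfold Primrec₂
    have hz : Primrec (fun p : ℕ × NB.Gen m => [((Sum.inr p.2 : NB.Gen m ⊕ NB.Gen m), true)]) :=
      Primrec.list_cons.comp (Primrec.pair (Primrec.sumInr.comp Primrec.snd)
        (Primrec.const true)) (Primrec.const [])
    have hz' : Primrec (fun p : ℕ × NB.Gen m => [((Sum.inr p.2 : NB.Gen m ⊕ NB.Gen m), false)]) :=
      Primrec.list_cons.comp (Primrec.pair (Primrec.sumInr.comp Primrec.snd)
        (Primrec.const false)) (Primrec.const [])
    have hz'' : Primrec (fun p : ℕ × NB.Gen m =>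
        [((Sum.inl p.2 : NB.Gen m ⊕ NB.Gen m), false)]) :=
      Primrec.list_cons.comp (Primrec.pair (Primrec.sumInl.comp Primrec.snd)
        (Primrec.const false)) (Primrec.const [])
    exact Primrec.list_append.comp hz (Primrec.list_append.comp (h1.comp Primrec.fst)
      (Primrec.list_append.comp hz' hz''))
  have h3 : Primrec (fun n => famF R (w n)) := by
    unfold famF
    refine Primrec.list_map (Primrec.list_map h2 ?_) ?_
    · unfold pad Primrec₂
      exact Primrec.list_cons.comp (Primrec.const _)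
        (Primrec.list_cons.comp (Primrec.const _) Primrec.snd)
    · unfold relab Primrec₂
      refine Primrec.list_map Primrec.snd ?_
      unfold Primrec₂
      refine Primrec.pair ?_ (Primrec.snd.comp Primrec.snd)
      exact (Primrec.dom_finite (nu m)).comp (Primrec.fst.comp Primrec.snd)
  unfold altT
  refine Primrec.list_map h3 ?_
  unfold altW Primrec₂
  refine Primrec.list_flatMap Primrec.snd ?_
  unfold Primrec₂
  exact (Primrec.dom_finite (fun p : Fin ((5 + m) + (5 + m)) × Bool =>
    cond p.2 [(p.1 : ℕ) + 1, 0] [0, (p.1 : ℕ) + 1])).comp Primrec.snd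

end CT
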