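import Mathlib
import Pool.Agent.CT.Basic

/-!
# Combinatorial topology: paths are homotopic to edge paths
-/

namespace CT

open scoped unitInterval ContinuousMap

variable {V : Type} [DecidableEq V] {F : Set (Finset V)}

/-! ## A subdivision principle for paths -/

section subdiv

variable {X : Type} [TopologicalSpace X]

/-- an induction principle for homotopy classes of paths with given end, subordinate to an
open cover -/
theorem Walk_subdiv {ι : Type} (U : ι → Set X) (hU : ∀ i, IsOpen (U i))
    (hcov : ∀ x, ∃ i, x ∈ U i) {y : X}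
    (P : ∀ x, Path.Homotopic.Quotient x y → Prop)
    (hrefl : P y (Path.Homotopic.Quotient.refl y))
    (hstep : ∀ (x x' : X) (α : Path x x') (i : ι), (∀ t, α t ∈ U i) →
      ∀ δ : Path.Homotopic.Quotient x' y, P x' δ → P x (Path.Homotopic.Quotient.trans (Path.Homotopic.Quotient.mk α) δ))
    (x : X) (γ : Path x y) : P x (Path.Homotopic.Quotient.mk γ) := by
  obtain ⟨t, ht0, htm, ⟨n, hn⟩, ht⟩ := exists_monotone_Icc_subset_open_cover_unitInterval
    (c := fun i => γ ⁻¹' (U i)) (fun i => (hU i).preimage γ.continuous) (by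
      intro s _
      obtain ⟨i, hi⟩ := hcov (γ s)
      exact Set.mem_iUnion.2 ⟨i, hi⟩)
  -- the final pieces
  have base : ∀ z (hz : z = y), P z ((Path.Homotopic.Quotient.refl z).cast rfl hz.symm) := by
    intro z hz
    subst hz
    rw [Path.Homotopic.Quotient.cast_rfl_rfl]
    exact hrefl
  have base' : ∀ s : I, s = 1 →
      P (γ s) ((Path.Homotopic.Quotient.mk (γ.subpath s 1)).cast rfl γ.target.symm) := by
    intro s hs
    subst hs
    rw [Path.subpath_self]
    exact base _ γ.target
  have main : ∀ k m : ℕ, n ≤ m + k →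
      P (γ (t m)) ((Path.Homotopic.Quotient.mk (γ.subpath (t m) 1)).cast rfl γ.target.symm) := by
    intro k
    induction k with
    | zero =>
      intro m hm
      exact base' _ (hn m (by omega))
    | succ k ih =>
      intro m hm
      have h1 := ih (m + 1) (by omega)
      obtain ⟨i, hi⟩ := ht m
      have h2 : ∀ s, (γ.subpath (t m) (t (m + 1))) s ∈ U i := by
        intro s
        have h3 : (γ.subpath (t m) (t (m + 1))) s ∈ γ '' (Set.Icc (t m) (t (m + 1))) := by
          rw [← Path.range_subpath_of_le γ (t m) (t (m + 1)) (htm (Nat.le_succ m))]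
          exact ⟨s, rfl⟩
        obtain ⟨r, hr, hrs⟩ := h3
        rw [← hrs]
        exact hi hr
      have h4 := hstep _ _ _ i h2 _ h1
      have h5 : (Path.Homotopic.Quotient.mk (γ.subpath (t m) 1)).cast rfl γ.target.symm =
          Path.Homotopic.Quotient.trans (Path.Homotopic.Quotient.mk (γ.subpath (t m) (t (m + 1))))
            ((Path.Homotopic.Quotient.mk (γ.subpath (t (m + 1)) 1)).cast rfl γ.target.symm) := by
        rw [← Path.Homotopic.Quotient.mk_cast, ← Path.Homotopic.Quotient.mk_cast, ← Path.Homotopic.Quotient.mk_trans, Path.Homotopic.Quotient.eq]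
        exact ⟨(((Path.Homotopy.subpathTransSubpath γ (t m) (t (m + 1)) 1).symm).pathCast rfl
          γ.target.symm)⟩
      rw [h5]
      exact h4
  have h0 := main n 0 (by omega)
  rw [ht0] at h0
  have gen : ∀ z (hz : z = x) (δ : Path z y), (∀ s, δ s = γ s) → P z (Path.Homotopic.Quotient.mk δ) →
      P x (Path.Homotopic.Quotient.mk γ) := by
    intro z hz δ hδ hP
    subst hz
    have : δ = γ := by
      ext s
      exact hδ s
    rw [← this]
    exact hP
  refine gen (γ 0) γ.source ((γ.subpath 0 1).cast rfl γ.target.symm) ?_ ?_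
  · intro s
    simp [Path.subpath]
  · rw [Path.Homotopic.Quotient.mk_cast]
    exact h0

/-- two paths in a simply connected subset are homotopic -/
theorem Walk_subset {A : Set X} [SimplyConnectedSpace A] {x y : X} (p q : Path x y)
    (hp : ∀ t, p t ∈ A) (hq : ∀ t, q t ∈ A) : p.Homotopic q := by
  have hx : x ∈ A := by
    have := hp 0
    rwa [p.source] at this
  have hy : y ∈ A := by
    have := hp 1
    rwa [p.target] at this
  let p' : Path (⟨x, hx⟩ : A) ⟨y, hy⟩ :=
    { toFun := fun t => ⟨p t, hp t⟩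
      continuous_toFun := by fun_prop
      source' := Subtype.ext p.source
      target' := Subtype.ext p.target }
  let q' : Path (⟨x, hx⟩ : A) ⟨y, hy⟩ :=
    { toFun := fun t => ⟨q t, hq t⟩
      continuous_toFun := by fun_prop
      source' := Subtype.ext q.source
      target' := Subtype.ext q.target }
  have h := SimplyConnectedSpace.paths_homotopic p' q'
  have h' := h.map ⟨Subtype.val, continuous_subtype_val⟩
  exact h'

end subdiv

/-! ## Stars -/

omit [DecidableEq V] in
theorem Walk_bary (x : Rz F) : ∃ s ∈ F, IsBary s (x : V → ℝ) := x.2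

omit [DecidableEq V] in
theorem Walk_exists_pos (x : Rz F) : ∃ v : V, 0 < (x : V → ℝ) v := by
  obtain ⟨s, hs, h⟩ := x.2
  by_contra hcon
  push Not at hcon
  have h1 : ∑ v ∈ s, (x : V → ℝ) v ≤ 0 := Finset.sum_nonpos fun v _ => hcon v
  rw [h.2.2] at h1
  linarith

omit [DecidableEq V] in
theorem Walk_mem_of_pos {s : Finset V} {x : V → ℝ} (h : IsBary s x) {v : V} (hv : 0 < x v) :
    v ∈ s := by
  by_contra hcon
  rw [h.2.1 v hcon] at hv
  exact lt_irrefl _ hv

omit [DecidableEq V] in
theorem Walk_vertex (hF : IsCx F) (x : Rz F) : ∃ v : VF F, 0 < (x : V → ℝ) v.1 := by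
  obtain ⟨v, hv⟩ := Walk_exists_pos x
  obtain ⟨s, hs, h⟩ := x.2
  have hvs := Walk_mem_of_pos h hv
  exact ⟨⟨v, hF.down s hs {v} (Finset.singleton_subset_iff.2 hvs) (Finset.singleton_nonempty v)⟩,
    hv⟩

omit [DecidableEq V] in
theorem Walk_seg_mem (hF : IsCx F) (x : Rz F) (w : V) (hw : 0 < (x : V → ℝ) w) (t : I) :
    (1 - (t : ℝ)) • (x : V → ℝ) + (t : ℝ) • vtx w ∈ Rz F := by
  obtain ⟨s, hs, h⟩ := x.2
  rw [mem_Rz_iff hF]
  refine ⟨s, hs, ?_⟩
  exact cl_convex s (cl_of_bary h) (vtx_mem_cl (Walk_mem_of_pos h hw)) (by linarith [t.2.2])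
    t.2.1 (by ring)

/-- the straight path from a point to a vertex of its support -/
noncomputable def Walk_seg (hF : IsCx F) (x : Rz F) (w : VF F) (hw : 0 < (x : V → ℝ) w.1) :
    Path x (ptv w) where
  toFun t := ⟨(1 - (t : ℝ)) • (x : V → ℝ) + (t : ℝ) • vtx w.1, Walk_seg_mem hF x w.1 hw t⟩
  continuous_toFun := by fun_prop
  source' := by ext1; simp
  target' := by ext1; simp [ptv]

omit [DecidableEq V] in
/-- straight line homotopies of paths -/
theorem Walk_straight (hF : IsCx F) {x y : Rz F} (p q : Path x y)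
    (h : ∀ t, ∃ s ∈ F, (p t : V → ℝ) ∈ cl s ∧ (q t : V → ℝ) ∈ cl s) : p.Homotopic q := by
  obtain ⟨H, hH⟩ := homotopic_of_common hF p.toContinuousMap q.toContinuousMap h
  refine ⟨⟨H, ?_⟩⟩
  intro t z hz
  have key : p z = q z := by
    rcases hz with hz | hz
    · rw [hz, p.source, q.source]
    · have hz1 : z = 1 := hz
      rw [hz1, p.target, q.target]
  apply Subtype.ext
  have h1 := hH t z
  have h2 : (H (t, z) : V → ℝ) = (p z : V → ℝ) := by
    rw [h1]
    change (1 - (t : ℝ)) • (p z : V → ℝ) + (t : ℝ) • (q z : V → ℝ) = _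
    rw [← key, ← add_smul]
    simp
  exact h2

omit [DecidableEq V] in
/-- the open star of a vertex is simply connected -/
theorem Walk_star (hF : IsCx F) (w : VF F) :
    SimplyConnectedSpace {x : Rz F | 0 < (x : V → ℝ) w.1} := by
  have : ContractibleSpace {x : Rz F | 0 < (x : V → ℝ) w.1} := by
    rw [contractible_iff_id_nullhomotopic]
    have hw1 : 0 < ((ptv w : Rz F) : V → ℝ) w.1 := by
      simp [ptv, vtx]
    refine ⟨⟨ptv w, hw1⟩, ⟨?_⟩⟩
    have hmem : ∀ p : I × {x : Rz F | 0 < (x : V → ℝ) w.1},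
        (⟨(1 - (p.1 : ℝ)) • (p.2.1 : V → ℝ) + (p.1 : ℝ) • vtx w.1,
          Walk_seg_mem hF p.2.1 w.1 p.2.2 p.1⟩ : Rz F) ∈
          {x : Rz F | 0 < (x : V → ℝ) w.1} := by
      intro p
      have h2 : 0 < (p.2.1 : V → ℝ) w.1 := p.2.2
      have h3 : (vtx w.1 : V → ℝ) w.1 = 1 := by simp [vtx]
      change 0 < ((1 - (p.1 : ℝ)) • (p.2.1 : V → ℝ) + (p.1 : ℝ) • vtx w.1) w.1
      simp only [Pi.add_apply, Pi.smul_apply, smul_eq_mul, h3, mul_one]
      rcases eq_or_lt_of_le p.1.2.2 with h4 | h4
      · have h5 : (p.1 : ℝ) = 1 := h4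
        rw [h5]
        norm_num
      · have h5 : 0 < 1 - (p.1 : ℝ) := by linarith
        have h6 := mul_pos h5 h2
        linarith [p.1.2.1]
    refine
      { toFun := fun p => ⟨⟨(1 - (p.1 : ℝ)) • (p.2.1 : V → ℝ) + (p.1 : ℝ) • vtx w.1,
          Walk_seg_mem hF p.2.1 w.1 p.2.2 p.1⟩, hmem p⟩
        continuous_toFun := by
          refine Continuous.subtype_mk (Continuous.subtype_mk ?_ _) _
          fun_prop
        map_zero_left := ?_
        map_one_left := ?_ }
    · intro x
      apply Subtype.ext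
      apply Subtype.ext
      simp
    · intro x
      apply Subtype.ext
      apply Subtype.ext
      simp [ptv]
  infer_instance

omit [DecidableEq V] in
theorem Walk_isOpen_star (w : V) : IsOpen {x : Rz F | 0 < (x : V → ℝ) w} :=
  isOpen_lt continuous_const ((continuous_apply w).comp continuous_subtype_val)

theorem Walk_pair_mem (hF : IsCx F) (x : Rz F) (w w' : VF F) (hw : 0 < (x : V → ℝ) w.1)
    (hw' : 0 < (x : V → ℝ) w'.1) : ({w.1, w'.1} : Finset V) ∈ F := by
  obtain ⟨s, hs, h⟩ := x.2
  refine hF.down s hs _ ?_ ⟨w.1, by simp⟩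
  intro v hv
  rcases Finset.mem_insert.1 hv with h1 | h1
  · rw [h1]; exact Walk_mem_of_pos h hw
  · rw [Finset.mem_singleton.1 h1]; exact Walk_mem_of_pos h hw'

/-- two straight paths from a point to two vertices of its support differ by an edge -/
theorem Walk_seg_seg (hF : IsCx F) (x : Rz F) (w w' : VF F) (hw : 0 < (x : V → ℝ) w.1)
    (hw' : 0 < (x : V → ℝ) w'.1) (h : ({w.1, w'.1} : Finset V) ∈ F) :
    ((Walk_seg hF x w hw).symm.trans (Walk_seg hF x w' hw')).Homotopic (edge hF w w' h) := by
  obtain ⟨s, hs, hb⟩ := x.2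
  have hws := vtx_mem_cl (Walk_mem_of_pos hb hw)
  have hws' := vtx_mem_cl (Walk_mem_of_pos hb hw')
  have hx := cl_of_bary hb
  have seg1 : ∀ t : I, ((Walk_seg hF x w hw t : Rz F) : V → ℝ) ∈ cl s := fun t =>
    cl_convex s hx hws (by linarith [t.2.2]) t.2.1 (by ring)
  have seg2 : ∀ t : I, ((Walk_seg hF x w' hw' t : Rz F) : V → ℝ) ∈ cl s := fun t =>
    cl_convex s hx hws' (by linarith [t.2.2]) t.2.1 (by ring)
  apply Walk_straight hF
  intro t
  refine ⟨s, hs, ?_, ?_⟩
  · rw [Path.trans_apply]
    split_ifs with h1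
    · exact seg1 _
    · exact seg2 _
  · exact cl_convex s hws hws' (by linarith [t.2.2]) t.2.1 (by ring)

omit [DecidableEq V] in
/-- a path inside a star -/
theorem Walk_in_star (hF : IsCx F) {x y : Rz F} (α : Path x y) (w : VF F)
    (h : ∀ t, 0 < (α t : V → ℝ) w.1) (hx : 0 < (x : V → ℝ) w.1) (hy : 0 < (y : V → ℝ) w.1) :
    α.Homotopic ((Walk_seg hF x w hx).trans (Walk_seg hF y w hy).symm) := by
  have := Walk_star hF w
  have seg : ∀ (z : Rz F) (hz : 0 < (z : V → ℝ) w.1) (t : I),
      0 < ((Walk_seg hF z w hz t : Rz F) : V → ℝ) w.1 := by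
    intro z hz t
    change 0 < ((1 - (t : ℝ)) • (z : V → ℝ) + (t : ℝ) • vtx w.1) w.1
    have h3 : (vtx w.1 : V → ℝ) w.1 = 1 := by simp [vtx]
    simp only [Pi.add_apply, Pi.smul_apply, smul_eq_mul, h3, mul_one]
    rcases eq_or_lt_of_le t.2.2 with h4 | h4
    · have h5 : (t : ℝ) = 1 := h4
      rw [h5]
      norm_num
    · have h5 : 0 < 1 - (t : ℝ) := by linarith
      have h6 := mul_pos h5 hz
      linarith [t.2.1]
  refine Walk_subset (A := {x : Rz F | 0 < (x : V → ℝ) w.1}) _ _ h ?_
  intro t
  change 0 < ((((Walk_seg hF x w hx).trans (Walk_seg hF y w hy).symm) t : Rz F) : V → ℝ) w.1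
  rw [Path.trans_apply]
  split_ifs with h1
  · exact seg x hx _
  · exact seg y hy _

/-- simplicial approximation of paths, as an induction principle: a property of homotopy
classes of paths between vertices which holds for constant paths and is preserved when an
edge is added in front holds for all paths -/
theorem path_induction (hF : IsCx F)
    (C : ∀ u v : VF F, Path.Homotopic.Quotient (ptv u) (ptv v) → Prop)
    (h0 : ∀ u, C u u (Path.Homotopic.Quotient.refl _))
    (h1 : ∀ (u v w : VF F) (h : ({u.1, v.1} : Finset V) ∈ F)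
      (γ : Path.Homotopic.Quotient (ptv v) (ptv w)), C v w γ →
        C u w (Path.Homotopic.Quotient.trans (Path.Homotopic.Quotient.mk (edge hF u v h)) γ))
    (u v : VF F) (γ : Path.Homotopic.Quotient (ptv u) (ptv v)) : C u v γ := by
  obtain ⟨γ, rfl⟩ := Path.Homotopic.Quotient.mk_surjective γ
  have hvv : ∀ w : VF F, 0 < ((ptv w : Rz F) : V → ℝ) w.1 := by
    intro w
    simp [ptv, vtx]
  -- constant segments
  have hconst : ∀ (w : VF F) (hw : 0 < ((ptv w : Rz F) : V → ℝ) w.1),
      Walk_seg hF (ptv w) w hw = Path.refl (ptv w) := by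
    intro w hw
    apply Path.ext
    funext t
    apply Subtype.ext
    change (1 - (t : ℝ)) • (vtx w.1 : V → ℝ) + (t : ℝ) • vtx w.1 = vtx w.1
    rw [← add_smul]
    simp
  have key := Walk_subdiv (X := Rz F) (ι := VF F) (fun w => {x : Rz F | 0 < (x : V → ℝ) w.1})
    (fun w => Walk_isOpen_star w.1) (Walk_vertex hF) (y := ptv v)
    (fun x δ => ∀ (w : VF F) (hw : 0 < (x : V → ℝ) w.1), C w v
      (Path.Homotopic.Quotient.trans
        (Path.Homotopic.Quotient.symm (Path.Homotopic.Quotient.mk (Walk_seg hF x w hw))) δ))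
    (by
      intro w hw
      have hwv : w = v := by
        apply Subtype.ext
        by_contra hne
        have : ((ptv v : Rz F) : V → ℝ) w.1 = 0 := by simp [ptv, vtx, hne]
        rw [this] at hw
        exact lt_irrefl _ hw
      subst hwv
      rw [hconst, Path.Homotopic.Quotient.mk_refl, ← Path.Homotopic.Quotient.mk_refl,
        ← Path.Homotopic.Quotient.mk_symm, Path.refl_symm, Path.Homotopic.Quotient.mk_refl,
        Path.Homotopic.Quotient.refl_trans]
      exact h0 w)
    (by
      intro x x' α w' hα δ hδ w hw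
      have hx : 0 < (x : V → ℝ) w'.1 := by
        have := hα 0
        rw [α.source] at this
        exact this
      have hx' : 0 < (x' : V → ℝ) w'.1 := by
        have := hα 1
        rw [α.target] at this
        exact this
      have e1 : Path.Homotopic.Quotient.mk α = Path.Homotopic.Quotient.trans
          (Path.Homotopic.Quotient.mk (Walk_seg hF x w' hx))
          (Path.Homotopic.Quotient.symm (Path.Homotopic.Quotient.mk (Walk_seg hF x' w' hx'))) := by
        rw [← Path.Homotopic.Quotient.mk_symm, ← Path.Homotopic.Quotient.mk_trans,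
          Path.Homotopic.Quotient.eq]
        exact Walk_in_star hF α w' hα hx hx'
      have hpair := Walk_pair_mem hF x w w' hw hx
      have e2 : Path.Homotopic.Quotient.mk (edge hF w w' hpair) = Path.Homotopic.Quotient.trans
          (Path.Homotopic.Quotient.symm (Path.Homotopic.Quotient.mk (Walk_seg hF x w hw)))
          (Path.Homotopic.Quotient.mk (Walk_seg hF x w' hx)) := by
        rw [← Path.Homotopic.Quotient.mk_symm, ← Path.Homotopic.Quotient.mk_trans]
        exact (Path.Homotopic.Quotient.eq.2 (Walk_seg_seg hF x w w' hw hx hpair)).symm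
      have e3 := h1 w w' v hpair _ (hδ w' hx')
      rw [e2] at e3
      rw [e1]
      simp only [Path.Homotopic.Quotient.trans_assoc] at e3 ⊢
      exact e3)
    (ptv u) γ u (hvv u)
  rw [hconst, ← Path.Homotopic.Quotient.mk_symm, Path.refl_symm,
    Path.Homotopic.Quotient.mk_refl, Path.Homotopic.Quotient.refl_trans] at key
  exact key

/-- every point can be joined to a vertex -/
theorem joined_vertex (hF : IsCx F) (x : Rz F) : ∃ v : VF F, Joined x (ptv v) := by
  obtain ⟨v, hv⟩ := Walk_vertex hF x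
  exact ⟨v, ⟨Walk_seg hF x v hv⟩⟩

/-- path connectedness is a question on the edge graph -/
theorem pathConnected_of_edges (hF : IsCx F) (u : VF F)
    (h : ∀ v : VF F, Relation.ReflTransGen
      (fun a b : V => ({a, b} : Finset V) ∈ F) u.1 v.1) : PathConnectedSpace (Rz F) := by
  have key : ∀ b : V, Relation.ReflTransGen (fun a b : V => ({a, b} : Finset V) ∈ F) u.1 b →
      ∀ hb : {b} ∈ F, Joined (ptv u : Rz F) (ptv ⟨b, hb⟩) := by
    intro b hb
    induction hb with
    | refl => intro hb; exact Joined.refl _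
    | @tail b' c' _ hbc ih =>
      intro hc
      have hb : {b'} ∈ F := hF.down _ hbc {b'} (by simp) (Finset.singleton_nonempty b')
      exact (ih hb).trans ⟨edge hF ⟨b', hb⟩ ⟨c', hc⟩ hbc⟩
  have key2 : ∀ x : Rz F, Joined (ptv u : Rz F) x := by
    intro x
    obtain ⟨v, hv⟩ := joined_vertex hF x
    exact (key v.1 (h v) v.2).trans hv.symm
  exact ⟨⟨ptv u⟩, fun x y => (key2 x).symm.trans (key2 y)⟩

end CT
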