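import Mathlib
import Pool.Agent.CT.Basic
import Pool.Agent.CT.Walk

/-!
# Combinatorial topology: holonomy of a cocycle on the edges
-/

namespace CT

open scoped unitInterval ContinuousMap

variable {V : Type} [DecidableEq V] {F : Set (Finset V)} {G : Type} [Group G]

omit [DecidableEq V] in
theorem Hol_mul (c : V → V → G)
    (hc : ∀ s ∈ F, ∀ u ∈ s, ∀ v ∈ s, ∀ w ∈ s, c u v * c v w = c u w) (x : Rz F) (u v w : V)
    (hu : 0 < (x : V → ℝ) u) (hv : 0 < (x : V → ℝ) v) (hw : 0 < (x : V → ℝ) w) :
    c u v * c v w = c u w := by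
  obtain ⟨s, hs, h⟩ := x.2
  exact hc s hs u (Walk_mem_of_pos h hu) v (Walk_mem_of_pos h hv) w (Walk_mem_of_pos h hw)

omit [DecidableEq V] in
theorem Hol_self (c : V → V → G)
    (hc : ∀ s ∈ F, ∀ u ∈ s, ∀ v ∈ s, ∀ w ∈ s, c u v * c v w = c u w) (x : Rz F) (u : V)
    (hu : 0 < (x : V → ℝ) u) : c u u = 1 := by
  have h := Hol_mul c hc x u u u hu hu hu
  exact mul_eq_left.1 h

section core

variable [TopologicalSpace G] [DiscreteTopology G] (c : V → V → G)
  (hc : ∀ s ∈ F, ∀ u ∈ s, ∀ v ∈ s, ∀ w ∈ s, c u v * c v w = c u w)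

/-- the bundle with fibre `G` (discrete) defined by the cocycle -/
noncomputable def HolCore : FiberBundleCore V (Rz F) G where
  baseSet v := {x | 0 < (x : V → ℝ) v}
  isOpen_baseSet v := Walk_isOpen_star v
  indexAt x := (Walk_exists_pos x).choose
  mem_baseSet_at x := (Walk_exists_pos x).choose_spec
  coordChange i j _ g := g * c i j
  coordChange_self i x hx g := by
    rw [Hol_self c hc x i hx, mul_one]
  continuousOn_coordChange i j :=
    ((continuous_of_discreteTopology (f := fun g : G => g * c i j)).comp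
      continuous_snd).continuousOn
  coordChange_comp i j k x hx g := by
    rw [mul_assoc, Hol_mul c hc x i j k hx.1.1 hx.1.2 hx.2]

/-- the vertex whose chart is used at the point -/
noncomputable def HolIdx (x : Rz F) : V := (Walk_exists_pos x).choose

omit [DecidableEq V] in
theorem HolIdx_pos (x : Rz F) : 0 < (x : V → ℝ) (HolIdx x) := (Walk_exists_pos x).choose_spec

omit [DecidableEq V] in
theorem HolIdx_ptv (u : VF F) : HolIdx (ptv u) = u.1 := by
  by_contra hne
  have h := HolIdx_pos (ptv u)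
  have : ((ptv u : Rz F) : V → ℝ) (HolIdx (ptv u)) = 0 := by
    change vtx u.1 (HolIdx (ptv u)) = 0
    simp [vtx, hne]
  rw [this] at h
  exact lt_irrefl _ h

omit [DecidableEq V] in
theorem Hol_cov : IsCoveringMap (HolCore c hc).proj :=
  FiberBundle.isCoveringMap (F := G) (E := (HolCore c hc).Fiber)

/-- a point of the total space over a given point -/
def HolPt (x : Rz F) (g : G) : (HolCore c hc).proj ⁻¹' {x} := ⟨⟨x, g⟩, rfl⟩

/-- the coordinate of a point of the total space -/
def HolSnd (x : Rz F) (e : (HolCore c hc).proj ⁻¹' {x}) : G := e.1.2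

omit [DecidableEq V] in
theorem HolPt_snd (x : Rz F) (e : (HolCore c hc).proj ⁻¹' {x}) :
    HolPt c hc x (HolSnd c hc x e) = e := by
  obtain ⟨⟨y, g⟩, hy⟩ := e
  have hy' : y = x := hy
  subst hy'
  rfl

omit [DecidableEq V] in
theorem HolSnd_pt (x : Rz F) (g : G) : HolSnd c hc x (HolPt c hc x g) = g := rfl

omit [DecidableEq V] in
/-- lifting inside a star -/
theorem Hol_star {x y : Rz F} (α : Path x y) (w : V) (h : ∀ t, 0 < (α t : V → ℝ) w) (g : G) :
    (Hol_cov c hc).monodromy (Path.Homotopic.Quotient.mk α)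
      (HolPt c hc x (g * c w (HolIdx x))) = HolPt c hc y (g * c w (HolIdx y)) := by
  let f : Rz F → (HolCore c hc).TotalSpace := fun z => ⟨z, g * c w (HolIdx z)⟩
  have hcont : Continuous (fun t : I => f (α t)) := by
    have h1 : ContinuousOn ((HolCore c hc).localTriv w).toOpenPartialHomeomorph.symm
        ((HolCore c hc).localTriv w).toOpenPartialHomeomorph.target :=
      ((HolCore c hc).localTriv w).toOpenPartialHomeomorph.continuousOn_symm
    have h2 : Continuous (fun t : I => ((α t : Rz F), g)) := by fun_prop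
    exact h1.comp_continuous h2 (fun t => by
      rw [((HolCore c hc).localTriv w).target_eq]
      exact ⟨h t, trivial⟩)
  have hx : α 0 = (HolCore c hc).proj (f x) := α.source
  have key := ((Hol_cov c hc).eq_liftPath_iff (γ := (α : C(I, Rz F))) (e := f x) hx
    (Γ := fun t => f (α t))).2 ⟨hcont, rfl, by
      change f (α 0) = f x
      rw [α.source]⟩
  apply Subtype.ext
  change (Hol_cov c hc).liftPath α (f x) _ 1 = f y
  have h3 := congrFun key 1
  refine h3.symm.trans ?_
  change f (α 1) = f y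
  rw [α.target]

/-- the transport along a class of paths, as a map of `G` -/
noncomputable def HolMap (u v : VF F) (γ : Path.Homotopic.Quotient (ptv u : Rz F) (ptv v))
    (g : G) : G :=
  HolSnd c hc (ptv v) ((Hol_cov c hc).monodromy γ (HolPt c hc (ptv u) g))

omit [DecidableEq V] in
theorem HolMap_refl (u : VF F) (g : G) :
    HolMap c hc u u (Path.Homotopic.Quotient.refl _) g = g := by
  unfold HolMap
  rw [IsCoveringMap.monodromy_refl]
  rfl

omit [DecidableEq V] in
theorem HolMap_trans (u v w : VF F) (γ : Path.Homotopic.Quotient (ptv u : Rz F) (ptv v))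
    (δ : Path.Homotopic.Quotient (ptv v : Rz F) (ptv w)) (g : G) :
    HolMap c hc u w (γ.trans δ) g = HolMap c hc v w δ (HolMap c hc u v γ g) := by
  unfold HolMap
  rw [IsCoveringMap.monodromy_trans_apply, HolPt_snd]

theorem HolMap_edge (hF : IsCx F) (u v : VF F) (h : ({u.1, v.1} : Finset V) ∈ F) (g : G) :
    HolMap c hc u v (Path.Homotopic.Quotient.mk (edge hF u v h)) g = g * c u.1 v.1 := by
  -- the midpoint
  let m : Rz F := edge hF u v h ⟨1 / 2, by constructor <;> norm_num⟩
  have hm : ∀ z : V, (m : V → ℝ) z = (1 / 2 : ℝ) * vtx u.1 z + (1 / 2 : ℝ) * vtx v.1 z := by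
    intro z
    change ((1 - (1 / 2 : ℝ)) • vtx u.1 + (1 / 2 : ℝ) • vtx v.1) z = _
    simp only [Pi.add_apply, Pi.smul_apply, smul_eq_mul]
    ring
  have hnn : ∀ a z : V, 0 ≤ vtx a z := by
    intro a z
    unfold vtx
    split_ifs <;> norm_num
  have hone : ∀ a : V, vtx a a = 1 := by
    intro a
    simp [vtx]
  have hmu : 0 < (m : V → ℝ) u.1 := by
    rw [hm, hone]
    have := hnn v.1 u.1
    linarith
  have hmv : 0 < (m : V → ℝ) v.1 := by
    rw [hm, hone]
    have := hnn u.1 v.1
    linarith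
  have hpos : ∀ (z : Rz F) (w : VF F) (hz : 0 < (z : V → ℝ) w.1) (t : I),
      0 < ((Walk_seg hF z w hz t : Rz F) : V → ℝ) w.1 := by
    intro z w hz t
    change 0 < ((1 - (t : ℝ)) • (z : V → ℝ) + (t : ℝ) • vtx w.1) w.1
    simp only [Pi.add_apply, Pi.smul_apply, smul_eq_mul, hone, mul_one]
    rcases eq_or_lt_of_le t.2.2 with h4 | h4
    · have h5 : (t : ℝ) = 1 := h4
      rw [h5]
      norm_num
    · have h5 : 0 < 1 - (t : ℝ) := by linarith
      have h6 := mul_pos h5 hz
      linarith [t.2.1]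
  have hedge : Path.Homotopic.Quotient.mk (edge hF u v h) =
      (Path.Homotopic.Quotient.mk (Walk_seg hF m u hmu).symm).trans
        (Path.Homotopic.Quotient.mk (Walk_seg hF m v hmv)) := by
    rw [← Path.Homotopic.Quotient.mk_trans]
    exact (Path.Homotopic.Quotient.eq.2 (Walk_seg_seg hF m u v hmu hmv h)).symm
  have s1 := Hol_star c hc (Walk_seg hF m u hmu).symm u.1 (fun t => hpos m u hmu _) g
  rw [HolIdx_ptv, Hol_self c hc m u.1 hmu, mul_one] at s1
  have s2 := Hol_star c hc (Walk_seg hF m v hmv) v.1 (fun t => hpos m v hmv _) (g * c u.1 v.1)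
  rw [HolIdx_ptv, Hol_self c hc m v.1 hmv, mul_one, mul_assoc,
    Hol_mul c hc m u.1 v.1 (HolIdx m) hmu hmv (HolIdx_pos m)] at s2
  unfold HolMap
  rw [hedge, IsCoveringMap.monodromy_trans_apply, s1, s2]
  rfl

end core

/-- a `G`-valued function on pairs of vertices which is multiplicative on every face
defines holonomies of all paths between vertices -/
theorem holonomy (hF : IsCx F) (c : V → V → G)
    (hc : ∀ s ∈ F, ∀ u ∈ s, ∀ v ∈ s, ∀ w ∈ s, c u v * c v w = c u w) :
    ∃ Φ : ∀ u v : VF F, Path (ptv u) (ptv v) → G,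
      (∀ u v γ γ', γ.Homotopic γ' → Φ u v γ = Φ u v γ') ∧
      (∀ u v w (γ : Path (ptv u) (ptv v)) (δ : Path (ptv v) (ptv w)),
        Φ u w (γ.trans δ) = Φ u v γ * Φ v w δ) ∧
      (∀ u v (h : ({u.1, v.1} : Finset V) ∈ F), Φ u v (edge hF u v h) = c u.1 v.1) := by
  letI : TopologicalSpace G := ⊥
  haveI : DiscreteTopology G := ⟨rfl⟩
  have key : ∀ (u v : VF F) (γ : Path.Homotopic.Quotient (ptv u : Rz F) (ptv v)) (g : G),
      HolMap c hc u v γ g = g * HolMap c hc u v γ 1 := by
    intro u v γ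
    refine path_induction hF (fun u v γ => ∀ g : G, HolMap c hc u v γ g =
      g * HolMap c hc u v γ 1) ?_ ?_ u v γ
    · intro u g
      rw [HolMap_refl, HolMap_refl, mul_one]
    · intro u v w h γ ih g
      rw [HolMap_trans, HolMap_trans, HolMap_edge, HolMap_edge, one_mul, ih, ih (c u.1 v.1),
        mul_assoc]
  refine ⟨fun u v γ => HolMap c hc u v (Path.Homotopic.Quotient.mk γ) 1, ?_, ?_, ?_⟩
  · intro u v γ γ' h
    have : Path.Homotopic.Quotient.mk γ = Path.Homotopic.Quotient.mk γ' :=
      Path.Homotopic.Quotient.eq.2 h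
    simp only [this]
  · intro u v w γ δ
    simp only [Path.Homotopic.Quotient.mk_trans]
    rw [HolMap_trans, key v w]
  · intro u v h
    simp only
    rw [HolMap_edge, one_mul]

end CT
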