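import Mathlib
import Pool.Agent.CT.NCword
import Pool.Agent.CT.Hol

/-!
# The nonhalting case: commuting elements
-/

namespace CT

open scoped unitInterval ContinuousMap

variable {n : ℕ} {R : List (List (Fin n × Bool))}

/-- a walk inside a cone is homotopic to one edge -/
theorem ncp_walk {V : Type} [DecidableEq V] {F : Set (Finset V)} (hF : IsCx F) (v : ℕ → VF F)
    (h : ∀ j, ({(v j).1, (v (j + 1)).1} : Finset V) ∈ F)
    (h2 : ∀ j, ({(v 0).1, (v j).1, (v (j + 1)).1} : Finset V) ∈ F)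
    (h3 : ∀ j, ({(v 0).1, (v j).1} : Finset V) ∈ F) (k : ℕ) :
    (walk hF v h k).Homotopic (edge hF (v 0) (v k) (h3 k)) := by
  induction k with
  | zero => exact (edge_self hF (v 0) (h3 0)).symm
  | succ k ih =>
    exact (Path.Homotopic.hcomp ih (Path.Homotopic.refl _)).trans
      (edge_tri hF (v 0) (v k) (v (k + 1)) (h3 k) (h k) (h3 (k + 1)) (h2 k))

theorem ncp_close {V : Type} [DecidableEq V] {F : Set (Finset V)} (hF : IsCx F) (u b : VF F)
    (γ : Path (ptv u) (ptv b)) (h : ({u.1, b.1} : Finset V) ∈ F) (hb : b = u)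
    (hγ : γ.Homotopic (edge hF u b h)) (hp : ptv u = ptv b) :
    (γ.cast rfl hp).Homotopic (Path.refl _) := by
  subst hb
  exact hγ.trans (edge_self hF b h)

/-- in the full complex the cycles are null-homotopic (all `z`-vertices form a simplex) -/
theorem cyc_null (hR : GoodR R) (i : Fin R.length) :
    (cycLoop NC_isCx N1_sub hR i).Homotopic (Path.refl _) := by
  have hz : ∀ j, (cycF (F := NC (altT R)) N1_sub hR i j).1 ∈ allZ (altT R) := fun j =>
    ⟨i, j % lenT (altT R) i, Nat.mod_lt _ (lenT_pos hR i), rfl⟩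
  have h2 : ∀ j k, ({(cycF (F := NC (altT R)) N1_sub hR i j).1,
      (cycF (F := NC (altT R)) N1_sub hR i k).1} : Finset Vx) ∈ NC (altT R) := by
    intro j k
    refine Or.inl ⟨⟨_, Finset.mem_insert_self _ _⟩, ?_⟩
    intro v hv
    rcases Finset.mem_insert.1 (Finset.mem_coe.1 hv) with rfl | hv
    · exact hz j
    · rw [Finset.mem_singleton.1 hv]
      exact hz k
  have h3 : ∀ j k l, ({(cycF (F := NC (altT R)) N1_sub hR i j).1,
      (cycF (F := NC (altT R)) N1_sub hR i k).1,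
      (cycF (F := NC (altT R)) N1_sub hR i l).1} : Finset Vx) ∈ NC (altT R) := by
    intro j k l
    refine Or.inl ⟨⟨_, Finset.mem_insert_self _ _⟩, ?_⟩
    intro v hv
    rcases Finset.mem_insert.1 (Finset.mem_coe.1 hv) with rfl | hv
    · exact hz j
    · rcases Finset.mem_insert.1 hv with rfl | hv
      · exact hz k
      · rw [Finset.mem_singleton.1 hv]
        exact hz l
  exact ncp_close NC_isCx _ _ _ (h2 0 _) (cycF_close N1_sub hR i)
    (ncp_walk NC_isCx (cycF N1_sub hR i) (cycF_edge N1_sub hR i) (fun j => h3 0 j (j + 1))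
      (fun j => h2 0 j) (lenT (altT R) i)) (by rw [cycF_close N1_sub hR i])

/-- the relators are null-homotopic -/
theorem relator_null (hR : GoodR R) (i : Fin R.length) :
    (wpath (gl NC_isCx ((K0_sub (altT_good hR)).trans N1_sub) hR) (R.get i)).Homotopic
      (Path.refl _) := by
  refine (cyc_word NC_isCx N1_sub hR i).symm.trans ?_
  refine ((Path.Homotopic.refl _).hcomp ((cyc_null hR i).hcomp (Path.Homotopic.refl _))).trans ?_
  refine ((Path.Homotopic.refl _).hcomp (Path.Homotopic.refl_trans _)).trans ?_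
  exact Path.Homotopic.trans_symm _

/-- the element of a letter -/
noncomputable def ncpG (R : List (List (Fin n × Bool))) (a : ℕ) : NB.Pr R :=
  if h : a - 1 < n ∧ 1 ≤ a then PresentedGroup.of ⟨a - 1, h.1⟩ else 1

/-- the product of the first letters of a relator -/
noncomputable def ncpP (R : List (List (Fin n × Bool))) (i j : ℕ) : NB.Pr R :=
  PresentedGroup.mk _ (FreeGroup.mk ((R.getD i []).take j))

/-- the potential on the `z`-vertices -/
noncomputable def ncpZ (R : List (List (Fin n × Bool))) (i m : ℕ) : NB.Pr R :=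
  ncpP R i (m / 2) * ncpG R (colT (altT R) i (2 * (m / 2)))

/-- the cocycle -/
noncomputable def ncpC (R : List (List (Fin n × Bool))) : Vx → Vx → NB.Pr R
  | .x, .x => 1
  | .x, .y a => ncpG R a
  | .x, .z i j => ncpG R (colT (altT R) i j)
  | .y a, .x => (ncpG R a)⁻¹
  | .y _, .y _ => 1
  | .y _, .z _ _ => 1
  | .z i j, .x => (ncpG R (colT (altT R) i j))⁻¹
  | .z _ _, .y _ => 1
  | .z i j, .z i' j' => (ncpZ R i j)⁻¹ * ncpZ R i' j'

theorem ncpG_zero : ncpG R 0 = 1 := by
  unfold ncpG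
  rw [dif_neg]
  omega

theorem ncpG_succ (a : Fin n) : ncpG R ((a : ℕ) + 1) = PresentedGroup.of a := by
  unfold ncpG
  rw [dif_pos ⟨by simp, by omega⟩]
  rfl

theorem ncp_col {i : ℕ} (hi : i < R.length) (j : ℕ) :
    colT (altT R) i j = (altW (R.get ⟨i, hi⟩)).getD j 0 := by
  unfold colT altT
  have h : (R.map altW).getD i [] = altW (R.get ⟨i, hi⟩) := by
    rw [List.getD_eq_getElem _ _ (by simpa using hi)]
    simp
  rw [h]

theorem ncp_lt {i m : ℕ} (h : m < lenT (altT R) i) : ∃ hi : i < R.length,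
    lenT (altT R) i = 2 * (R.get ⟨i, hi⟩).length := by
  by_cases hi : i < R.length
  · exact ⟨hi, lenT_altT ⟨i, hi⟩⟩
  · rw [lenT_altT_ge i (not_lt.1 hi)] at h
    omega

theorem ncpP_succ {i j : ℕ} (h : 2 * j + 1 < lenT (altT R) i) :
    ncpP R i (j + 1) = ncpP R i j * (ncpG R (colT (altT R) i (2 * j)) *
      (ncpG R (colT (altT R) i (2 * j + 1)))⁻¹) := by
  obtain ⟨hi, hlen⟩ := ncp_lt h
  have hj : j < (R.get ⟨i, hi⟩).length := by omega
  have h1 : R.getD i [] = R.get ⟨i, hi⟩ := by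
    rw [List.getD_eq_getElem _ _ hi]
    rfl
  unfold ncpP
  rw [h1, ncp_col hi, ncp_col hi, altW_even _ j hj, altW_odd _ j hj]
  have h2 : (R.get ⟨i, hi⟩).take (j + 1) =
      (R.get ⟨i, hi⟩).take j ++ [(R.get ⟨i, hi⟩).get ⟨j, hj⟩] :=
    (List.take_concat_get' _ _ hj).symm
  rw [h2, ← FreeGroup.mul_mk, map_mul]
  congr 1
  obtain ⟨a, b⟩ := (R.get ⟨i, hi⟩).get ⟨j, hj⟩
  cases b
  · simp only [cond_false]
    rw [ncpG_zero, ncpG_succ, one_mul]
    rw [← inv_inj, inv_inv, ← map_inv, FreeGroup.inv_mk]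
    rfl
  · simp only [cond_true]
    rw [ncpG_zero, ncpG_succ, inv_one, mul_one]
    rfl

theorem ncpP_zero (i : ℕ) : ncpP R i 0 = 1 := by
  unfold ncpP
  rw [List.take_zero]
  exact map_one _

theorem ncpP_len {i : ℕ} (hi : i < R.length) : ncpP R i (R.get ⟨i, hi⟩).length = 1 := by
  have h1 : R.getD i [] = R.get ⟨i, hi⟩ := by
    rw [List.getD_eq_getElem _ _ hi]
    rfl
  unfold ncpP
  rw [h1, List.take_length]
  exact PresentedGroup.one_of_mem (Set.mem_image_of_mem _ (List.get_mem _ _))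

/-- the step of the potential along an edge of the third kind -/
theorem ncpZ_step {i j : ℕ} (h : 2 * j + 1 < lenT (altT R) i) :
    (ncpZ R i (2 * j + 1))⁻¹ * ncpZ R i ((2 * j + 2) % lenT (altT R) i) =
      (ncpG R (colT (altT R) i (2 * j + 1)))⁻¹ *
        ncpG R (colT (altT R) i ((2 * j + 2) % lenT (altT R) i)) := by
  obtain ⟨hi, hlen⟩ := ncp_lt h
  have h1 : (2 * j + 1) / 2 = j := by omega
  have h0 : ncpZ R i (2 * j + 1) = ncpP R i j * ncpG R (colT (altT R) i (2 * j)) := by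
    unfold ncpZ
    rw [h1]
  have h5 := ncpP_succ h
  by_cases h2 : 2 * j + 2 < lenT (altT R) i
  · rw [Nat.mod_eq_of_lt h2, h0]
    have h3 : ncpZ R i (2 * j + 2) =
        ncpP R i (j + 1) * ncpG R (colT (altT R) i (2 * j + 2)) := by
      unfold ncpZ
      have h4 : (2 * j + 2) / 2 = j + 1 := by omega
      rw [h4]
      rfl
    rw [h3, h5]
    group
  · have h3 : 2 * j + 2 = lenT (altT R) i := by omega
    rw [h3, Nat.mod_self, h0]
    have h4 : ncpZ R i 0 = ncpG R (colT (altT R) i 0) := by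
      unfold ncpZ
      rw [Nat.zero_div, ncpP_zero, one_mul]
    have h6 : ncpP R i (j + 1) = 1 := by
      have h7 : j + 1 = (R.get ⟨i, hi⟩).length := by omega
      rw [h7]
      exact ncpP_len hi
    rw [h4]
    rw [h6] at h5
    have h8 : (ncpP R i j * ncpG R (colT (altT R) i (2 * j)))⁻¹ =
        (ncpG R (colT (altT R) i (2 * j + 1)))⁻¹ := by
      rw [inv_eq_iff_mul_eq_one, mul_assoc]
      exact h5.symm
    rw [h8]

/-- a cocycle with a potential on a face is multiplicative there -/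
theorem ncp_pot {G : Type} [Group G] (c : Vx → Vx → G) (S : Set Vx) (π : Vx → G)
    (h : ∀ u ∈ S, ∀ v ∈ S, c u v = (π u)⁻¹ * π v) (u v w : Vx) (hu : u ∈ S) (hv : v ∈ S)
    (hw : w ∈ S) : c u v * c v w = c u w := by
  rw [h u hu v hv, h v hv w hw, h u hu w hw]
  group

/-- the cocycle: flat on the `y`-vertices, `x → y a` carries the letter `a` (with the
letter `0` trivial), and each cycle closes up because of its relator -/
theorem exists_cocycle (hR : GoodR R) : ∃ c : Vx → Vx → NB.Pr R,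
    (∀ s ∈ NC (altT R), ∀ u ∈ s, ∀ v ∈ s, ∀ w ∈ s, c u v * c v w = c u w) ∧
    (∀ a : Fin n, c .x (.y ((a : ℕ) + 1)) = PresentedGroup.of a) ∧
    c .x (.y 0) = 1 ∧ c (.y 0) .x = 1 ∧
    ∀ a b : ℕ, OccT (altT R) a → OccT (altT R) b → c (.y a) (.y b) = 1 := by
  refine ⟨ncpC R, ?_, fun a => ncpG_succ a, ncpG_zero, ?_, fun a b _ _ => rfl⟩
  swap
  · change (ncpG R 0)⁻¹ = 1
    rw [ncpG_zero, inv_one]
  rintro s (⟨-, hs⟩ | ⟨-, hs | hs | hs⟩) u hu v hv w hw
  · -- all vertices are `z`-vertices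
    refine ncp_pot (ncpC R) (allZ (altT R)) (fun p => match p with
      | .z i j => ncpZ R i j
      | _ => 1) ?_ u v w (hs hu) (hs hv) (hs hw)
    rintro _ ⟨i, j, -, rfl⟩ _ ⟨i', j', -, rfl⟩
    rfl
  · obtain ⟨i, j, hij, hs⟩ := hs
    have hZ : ncpZ R i (2 * j) = ncpZ R i (2 * j + 1) := by
      unfold ncpZ
      have h1 : (2 * j) / 2 = j := by omega
      have h2 : (2 * j + 1) / 2 = j := by omega
      rw [h1, h2]
    refine ncp_pot (ncpC R) (Face2 (altT R) i j) (fun _ => 1) ?_ u v w (hs hu) (hs hv) (hs hw)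
    intro u hu v hv
    rw [inv_one, mul_one]
    rcases hu with ⟨a, -, rfl⟩ | hu | hu
    · rcases hv with ⟨b, -, rfl⟩ | hv | hv
      · rfl
      · rw [hv]; rfl
      · rw [Set.mem_singleton_iff.1 hv]; rfl
    · rw [hu]
      rcases hv with ⟨b, -, rfl⟩ | hv | hv
      · rfl
      · rw [hv]; exact inv_mul_cancel _
      · rw [Set.mem_singleton_iff.1 hv]
        change (ncpZ R i (2 * j))⁻¹ * ncpZ R i (2 * j + 1) = 1
        rw [hZ, inv_mul_cancel]
    · rw [Set.mem_singleton_iff.1 hu]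
      rcases hv with ⟨b, -, rfl⟩ | hv | hv
      · rfl
      · rw [hv]
        change (ncpZ R i (2 * j + 1))⁻¹ * ncpZ R i (2 * j) = 1
        rw [hZ, inv_mul_cancel]
      · rw [Set.mem_singleton_iff.1 hv]; exact inv_mul_cancel _
  · obtain ⟨i, j, hij, hs⟩ := hs
    have hst := ncpZ_step hij
    refine ncp_pot (ncpC R) (Face3 (altT R) i j) (fun p => match p with
      | .z i j => ncpG R (colT (altT R) i j)
      | _ => 1) ?_ u v w (hs hu) (hs hv) (hs hw)
    intro u hu v hv
    rcases hu with hu | hu | hu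
    · rw [hu]
      rcases hv with hv | hv | hv
      · rw [hv]; simp [ncpC]
      · rw [hv]; simp [ncpC]
      · rw [Set.mem_singleton_iff.1 hv]; simp [ncpC]
    · rw [hu]
      rcases hv with hv | hv | hv
      · rw [hv]; simp [ncpC]
      · rw [hv]; simp [ncpC]
      · rw [Set.mem_singleton_iff.1 hv]
        exact hst
    · rw [Set.mem_singleton_iff.1 hu]
      rcases hv with hv | hv | hv
      · rw [hv]; simp [ncpC]
      · rw [hv]
        have h1 := congrArg (fun g => g⁻¹) hst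
        simp only [mul_inv_rev, inv_inv] at h1
        exact h1
      · rw [Set.mem_singleton_iff.1 hv]; simp [ncpC]
  · obtain ⟨i, j, hij, hs⟩ := hs
    refine ncp_pot (ncpC R) (Face4 (altT R) i j) (fun p => match p with
      | .x => 1
      | _ => ncpG R (colT (altT R) i j)) ?_ u v w (hs hu) (hs hv) (hs hw)
    intro u hu v hv
    rcases hu with hu | hu | hu
    · rw [hu]
      rcases hv with hv | hv | hv
      · rw [hv]; simp [ncpC]
      · rw [hv]; simp [ncpC]
      · rw [Set.mem_singleton_iff.1 hv]; simp [ncpC]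
    · rw [hu]
      rcases hv with hv | hv | hv
      · rw [hv]; simp [ncpC]
      · rw [hv]; simp [ncpC]
      · rw [Set.mem_singleton_iff.1 hv]; simp [ncpC]
    · rw [Set.mem_singleton_iff.1 hu]
      rcases hv with hv | hv | hv
      · rw [hv]; simp [ncpC]
      · rw [hv]; simp [ncpC]
      · rw [Set.mem_singleton_iff.1 hv]; simp [ncpC]

/-- the holonomy of a word -/
theorem hol_word {X : Type} [TopologicalSpace X] {x₀ : X} {Γ G : Type} [Group G]
    (ℓ : Γ → Path x₀ x₀) (Φ : Path x₀ x₀ → G)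
    (h1 : ∀ γ γ', γ.Homotopic γ' → Φ γ = Φ γ') (h2 : ∀ γ δ, Φ (γ.trans δ) = Φ γ * Φ δ)
    (w : List (Γ × Bool)) :
    Φ (wpath ℓ w) = FreeGroup.lift (fun z => Φ (ℓ z)) (FreeGroup.mk w) := by
  have h3 : Φ (Path.refl x₀) = 1 := by
    have h := h2 (Path.refl x₀) (Path.refl x₀)
    rw [h1 _ _ (Path.Homotopic.refl_trans _)] at h
    simpa using h
  have h4 : ∀ γ : Path x₀ x₀, Φ γ.symm = (Φ γ)⁻¹ := by
    intro γ
    have h := h2 γ γ.symm
    rw [h1 _ _ (Path.Homotopic.trans_symm γ), h3] at h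
    exact (inv_eq_of_mul_eq_one_right h.symm).symm
  induction w with
  | nil => exact h3.trans (by simp)
  | cons p w ih =>
    have h5 : FreeGroup.mk (p :: w) = FreeGroup.mk [p] * FreeGroup.mk w := by
      rw [FreeGroup.mul_mk]
      rfl
    rw [h5, map_mul, ← ih]
    change Φ ((lpath ℓ p).trans (wpath ℓ w)) = _
    rw [h2]
    congr 1
    obtain ⟨z, b⟩ := p
    cases b
    · simp [lpath, h4]
    · simp [lpath]

/-- **The nonhalting case.** -/
theorem nc_z2 (hR : GoodR R) (a b : NB.Pr R) (hab : a * b = b * a)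
    (hind : ∀ i j : ℤ, a ^ i * b ^ j = 1 → i = 0 ∧ j = 0) :
    HasZ2 (Rz (NC (altT R))) := by
  classical
  obtain ⟨c, hc, hc1, hc2, hc3, hc4⟩ := exists_cocycle hR
  obtain ⟨Φ, hΦ1, hΦ2, hΦ3⟩ := holonomy NC_isCx c hc
  have hK := (K0_sub (altT_good hR)).trans N1_sub
  let x0 := vX hK (altT_occ_zero hR)
  let ℓ := gl NC_isCx hK hR
  have hℓ : ∀ z, Φ x0 x0 (ℓ z) = PresentedGroup.of z := by
    intro z
    change Φ x0 x0 ((edge _ _ _ _).trans ((edge _ _ _ _).trans (edge _ _ _ _))) = _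
    rw [hΦ2, hΦ2, hΦ3, hΦ3, hΦ3]
    change c .x (.y ((z : ℕ) + 1)) * (c (.y ((z : ℕ) + 1)) (.y 0) * c (.y 0) .x) = _
    rw [hc1, hc4 _ _ (altT_occ hR z) (altT_occ_zero hR), hc3, mul_one, mul_one]
  have hw : ∀ w : List (Fin n × Bool), Φ x0 x0 (wpath ℓ w) =
      PresentedGroup.mk (NB.relSet R) (FreeGroup.mk w) := by
    intro w
    rw [hol_word ℓ (Φ x0 x0) (hΦ1 x0 x0) (hΦ2 x0 x0 x0) w]
    have h1 : (fun z => Φ x0 x0 (ℓ z)) = PresentedGroup.of (rels := NB.relSet R) :=
      funext hℓ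
    rw [h1, NB.lift_of_eq_mk]
  have hnull : ∀ r ∈ R, (wpath ℓ r).Homotopic (Path.refl _) := by
    intro r hr
    obtain ⟨i, rfl⟩ := List.get_of_mem hr
    exact relator_null hR i
  obtain ⟨u, rfl⟩ := PresentedGroup.mk_surjective _ a
  obtain ⟨v, rfl⟩ := PresentedGroup.mk_surjective _ b
  obtain ⟨u, rfl⟩ := Quot.exists_rep u
  obtain ⟨v, rfl⟩ := Quot.exists_rep v
  change PresentedGroup.mk _ (FreeGroup.mk u) * PresentedGroup.mk _ (FreeGroup.mk v) =
    PresentedGroup.mk _ (FreeGroup.mk v) * PresentedGroup.mk _ (FreeGroup.mk u) at hab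
  change ∀ i j : ℤ, (PresentedGroup.mk _ (FreeGroup.mk u)) ^ i *
    (PresentedGroup.mk _ (FreeGroup.mk v)) ^ j = 1 → i = 0 ∧ j = 0 at hind
  -- the homomorphism to the group
  let Θ : FundamentalGroup (Rz (NC (altT R))) (ptv x0) →* NB.Pr R :=
    { toFun := fun p => (Quotient.lift (fun γ => Φ x0 x0 γ) (hΦ1 x0 x0) p)⁻¹
      map_one' := by
        have h := hw []
        change (Φ x0 x0 (Path.refl _))⁻¹ = 1
        change Φ x0 x0 (Path.refl _) = _ at h
        rw [h, inv_eq_one]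
        exact map_one _
      map_mul' := by
        intro p q
        induction p using Quotient.ind with
        | _ p =>
        induction q using Quotient.ind with
        | _ q =>
        change (Φ x0 x0 (q.trans p))⁻¹ = (Φ x0 x0 p)⁻¹ * (Φ x0 x0 q)⁻¹
        rw [hΦ2, mul_inv_rev] }
  refine ⟨ptv x0, Path.Homotopic.Quotient.mk (wpath ℓ u), Path.Homotopic.Quotient.mk (wpath ℓ v),
    ?_, ?_⟩
  · have h1 : (wpath ℓ (v ++ u)).Homotopic (wpath ℓ (u ++ v)) := by
      refine wpath_group ℓ R hnull _ _ ?_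
      rw [← FreeGroup.mul_mk, ← FreeGroup.mul_mk, map_mul, map_mul, hab]
    have h2 := ((wpath_append ℓ v u).symm.trans h1).trans (wpath_append ℓ u v)
    exact Quotient.sound h2
  · intro i j h
    have h1 := congrArg Θ h
    rw [map_mul, map_zpow, map_zpow, map_one] at h1
    have hu : Θ (Path.Homotopic.Quotient.mk (wpath ℓ u)) =
        (PresentedGroup.mk (NB.relSet R) (FreeGroup.mk u))⁻¹ := congrArg (·⁻¹) (hw u)
    have hv : Θ (Path.Homotopic.Quotient.mk (wpath ℓ v)) =
        (PresentedGroup.mk (NB.relSet R) (FreeGroup.mk v))⁻¹ := congrArg (·⁻¹) (hw v)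
    rw [hu, hv, inv_zpow', inv_zpow'] at h1
    obtain ⟨h2, h3⟩ := hind _ _ h1
    exact ⟨neg_eq_zero.1 h2, neg_eq_zero.1 h3⟩

end CT
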