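import Mathlib
import Pool.Agent.CT.NC
import Pool.Agent.CT.Domin

/-!
# The nerve complex with two additional dominated vertices
-/

namespace CT

open scoped unitInterval ContinuousMap

/-- the vertices, with the two additional ones `ys`, `zs` -/
inductive Vs : Type
  | x | y (a : ℕ) | z (i j : ℕ) | ys | zs
  deriving DecidableEq

variable (T : List (List ℕ))

/-- the facets -/
def sF1 : Set Vs := {v | (∃ i j, j < lenT T i ∧ v = .z i j) ∨ v = .zs}
/-- the facets of the second kind -/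
def sF2 (i j : ℕ) : Set Vs :=
  {v | (∃ a, OccT T a ∧ v = .y a) ∨ v = .ys ∨ v = .z i (2 * j) ∨ v = .z i (2 * j + 1)}
/-- the facets of the third kind -/
def sF3 (i j : ℕ) : Set Vs := {.x, .z i (2 * j + 1), .z i ((2 * j + 2) % lenT T i)}
/-- the facets of the fourth kind -/
def sF4 (i j : ℕ) : Set Vs := {.x, .y (colT T i j), .z i j}

/-- the complex generated by these facets -/
def NCs : Set (Finset Vs) := {s | s.Nonempty ∧
  ((s : Set Vs) ⊆ sF1 T ∨
   (∃ i j, 2 * j + 1 < lenT T i ∧ (s : Set Vs) ⊆ sF2 T i j) ∨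
   (∃ i j, 2 * j + 1 < lenT T i ∧ (s : Set Vs) ⊆ sF3 T i j) ∨
   ∃ i j, j < lenT T i ∧ (s : Set Vs) ⊆ sF4 T i j)}

variable {T}

theorem NCs_isCx : IsCx (NCs T) where
  ne := fun s hs => hs.1
  down := by
    rintro s ⟨-, h⟩ t hts ht
    have hc : (t : Set Vs) ⊆ s := Finset.coe_subset.2 hts
    refine ⟨ht, ?_⟩
    rcases h with h | ⟨i, j, hij, h⟩ | ⟨i, j, hij, h⟩ | ⟨i, j, hij, h⟩
    · exact Or.inl (hc.trans h)
    · exact Or.inr (Or.inl ⟨i, j, hij, hc.trans h⟩)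
    · exact Or.inr (Or.inr (Or.inl ⟨i, j, hij, hc.trans h⟩))
    · exact Or.inr (Or.inr (Or.inr ⟨i, j, hij, hc.trans h⟩))

/-- the embedding of the old vertices -/
def vsE : Vx ↪ Vs where
  toFun
    | .x => .x
    | .y a => .y a
    | .z i j => .z i j
  inj' := by
    rintro (_ | _ | _) (_ | _ | _) h <;> simp_all

@[simp] theorem vsE_x : vsE .x = .x := rfl
@[simp] theorem vsE_y (a : ℕ) : vsE (.y a) = .y a := rfl
@[simp] theorem vsE_z (i j : ℕ) : vsE (.z i j) = .z i j := rfl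

theorem lenT_lt {i j : ℕ} (h : j < lenT T i) : i < T.length := by
  by_contra hi
  unfold lenT at h
  rw [List.getD_eq_default _ _ (not_lt.1 hi)] at h
  simp at h

theorem NCs_finite : (NCs T).Finite := by
  classical
  set Y : Finset Vs := (T.flatten.toFinset).image Vs.y with hY
  set Z : Finset Vs := (Finset.range T.length).biUnion
    (fun i => (Finset.range (lenT T i)).image (Vs.z i)) with hZ
  have hYm : ∀ a, OccT T a → Vs.y a ∈ Y := by
    rintro a ⟨l, hl, ha⟩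
    refine Finset.mem_image.2 ⟨a, ?_, rfl⟩
    rw [List.mem_toFinset]
    exact List.mem_flatten.2 ⟨l, hl, ha⟩
  have hZm : ∀ i j, j < lenT T i → Vs.z i j ∈ Z := by
    intro i j h
    exact Finset.mem_biUnion.2 ⟨i, Finset.mem_range.2 (lenT_lt h),
      Finset.mem_image.2 ⟨j, Finset.mem_range.2 h, rfl⟩⟩
  set A : Finset Vs := insert Vs.x (insert Vs.ys (insert Vs.zs (Y ∪ Z))) with hA
  refine (Finset.finite_toSet A.powerset).subset ?_
  rintro s ⟨-, h⟩
  rw [Finset.mem_coe, Finset.mem_powerset]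
  intro v hv
  have hv' : v ∈ (s : Set Vs) := hv
  simp only [hA, Finset.mem_insert, Finset.mem_union]
  rcases h with h | ⟨i, j, hij, h⟩ | ⟨i, j, hij, h⟩ | ⟨i, j, hij, h⟩
  · rcases h hv' with ⟨i, j, hij, rfl⟩ | rfl
    · exact Or.inr (Or.inr (Or.inr (Or.inr (hZm i j hij))))
    · simp
  · rcases h hv' with ⟨a, ha, rfl⟩ | rfl | rfl | rfl
    · exact Or.inr (Or.inr (Or.inr (Or.inl (hYm a ha))))
    · simp
    · exact Or.inr (Or.inr (Or.inr (Or.inr (hZm i _ (by omega)))))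
    · exact Or.inr (Or.inr (Or.inr (Or.inr (hZm i _ hij))))
  · rcases h hv' with rfl | rfl | h1
    · simp
    · exact Or.inr (Or.inr (Or.inr (Or.inr (hZm i _ hij))))
    · rw [Set.mem_singleton_iff] at h1
      rw [h1]
      exact Or.inr (Or.inr (Or.inr (Or.inr (hZm i _ (Nat.mod_lt _ (by omega))))))
  · rcases h hv' with rfl | rfl | h1
    · simp
    · refine Or.inr (Or.inr (Or.inr (Or.inl (hYm _ (occ_col hij)))))
    · rw [Set.mem_singleton_iff] at h1
      rw [h1]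
      exact Or.inr (Or.inr (Or.inr (Or.inr (hZm i _ hij))))

theorem vsE_F1 (v : Vx) : vsE v ∈ sF1 T ↔ v ∈ allZ T := by
  cases v <;> simp [sF1, allZ]

theorem vsE_F2 (i j : ℕ) (v : Vx) : vsE v ∈ sF2 T i j ↔ v ∈ Face2 T i j := by
  cases v <;> simp [sF2, Face2, allY]

theorem vsE_F3 (i j : ℕ) (v : Vx) : vsE v ∈ sF3 T i j ↔ v ∈ Face3 T i j := by
  cases v <;> simp [sF3, Face3]

theorem vsE_F4 (i j : ℕ) (v : Vx) : vsE v ∈ sF4 T i j ↔ v ∈ Face4 T i j := by
  cases v <;> simp [sF4, Face4]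

theorem map_sub {A : Set Vs} {B : Set Vx} (h : ∀ v, vsE v ∈ A ↔ v ∈ B) (t : Finset Vx) :
    ((t.map vsE : Finset Vs) : Set Vs) ⊆ A ↔ (t : Set Vx) ⊆ B := by
  rw [Finset.coe_map, Set.image_subset_iff]
  constructor
  · intro h1 v hv
    exact (h v).1 (h1 hv)
  · intro h1 v hv
    exact (h v).2 (h1 hv)

theorem map_mem_NCs (t : Finset Vx) : t.map vsE ∈ NCs T ↔ t ∈ NC T := by
  constructor
  · rintro ⟨hne, h⟩
    have hne' : t.Nonempty := Finset.map_nonempty.1 hne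
    rcases h with h | ⟨i, j, hij, h⟩ | ⟨i, j, hij, h⟩ | ⟨i, j, hij, h⟩
    · exact Or.inl ⟨hne', (map_sub vsE_F1 t).1 h⟩
    · exact Or.inr ⟨hne', Or.inl ⟨i, j, hij, (map_sub (vsE_F2 i j) t).1 h⟩⟩
    · exact Or.inr ⟨hne', Or.inr (Or.inl ⟨i, j, hij, (map_sub (vsE_F3 i j) t).1 h⟩)⟩
    · exact Or.inr ⟨hne', Or.inr (Or.inr ⟨i, j, hij, (map_sub (vsE_F4 i j) t).1 h⟩)⟩
  · rintro (⟨hne, h⟩ | ⟨hne, h⟩)
    · exact ⟨Finset.map_nonempty.2 hne, Or.inl ((map_sub vsE_F1 t).2 h)⟩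
    · refine ⟨Finset.map_nonempty.2 hne, ?_⟩
      rcases h with ⟨i, j, hij, h⟩ | ⟨i, j, hij, h⟩ | ⟨i, j, hij, h⟩
      · exact Or.inr (Or.inl ⟨i, j, hij, (map_sub (vsE_F2 i j) t).2 h⟩)
      · exact Or.inr (Or.inr (Or.inl ⟨i, j, hij, (map_sub (vsE_F3 i j) t).2 h⟩))
      · exact Or.inr (Or.inr (Or.inr ⟨i, j, hij, (map_sub (vsE_F4 i j) t).2 h⟩))

theorem NCs_sep : {s ∈ {s ∈ NCs T | Vs.ys ∉ s} | Vs.zs ∉ s} =
    (fun s => s.map vsE) '' (NC T) := by
  ext s
  constructor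
  · rintro ⟨⟨h, h1⟩, h2⟩
    have h3 : (s.preimage vsE vsE.injective.injOn).map vsE = s := by
      ext v
      simp only [Finset.mem_map, Finset.mem_preimage]
      constructor
      · rintro ⟨u, hu, rfl⟩
        exact hu
      · intro hv
        cases v with
        | x => exact ⟨.x, hv, rfl⟩
        | y a => exact ⟨.y a, hv, rfl⟩
        | z i j => exact ⟨.z i j, hv, rfl⟩
        | ys => exact absurd hv h1
        | zs => exact absurd hv h2
    refine ⟨_, ?_, h3⟩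
    rw [← map_mem_NCs, h3]
    exact h
  · rintro ⟨t, ht, rfl⟩
    refine ⟨⟨(map_mem_NCs t).2 ht, ?_⟩, ?_⟩
    · intro h
      obtain ⟨u, -, hu⟩ := Finset.mem_map.1 h
      cases u <;> simp at hu
    · intro h
      obtain ⟨u, -, hu⟩ := Finset.mem_map.1 h
      cases u <;> simp at hu

/-- the two additional vertices can be deleted -/
theorem NCs_equiv (hT : GoodT T) : Nonempty (Rz (NCs T) ≃ₕ Rz (NC T)) := by
  have h00 : 0 < T.length := by have := hT.two; omega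
  have hl0 : 4 ≤ lenT T 0 := by
    unfold lenT
    rw [List.getD_eq_getElem _ _ h00]
    exact hT.four _ (List.getElem_mem _)
  obtain ⟨e1⟩ := del_dominated (F := NCs T) NCs_isCx NCs_finite .ys (.y (colT T 0 0)) (by simp) (by
    rintro s ⟨hs, h⟩ hys
    have hys' : Vs.ys ∈ (s : Set Vs) := hys
    refine ⟨Finset.insert_nonempty _ _, ?_⟩
    rw [Finset.coe_insert]
    rcases h with h | ⟨i, j, hij, h⟩ | ⟨i, j, hij, h⟩ | ⟨i, j, hij, h⟩
    · rcases h hys' with ⟨i, j, -, h1⟩ | h1 <;> simp at h1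
    · refine Or.inr (Or.inl ⟨i, j, hij, Set.insert_subset ?_ h⟩)
      exact Or.inl ⟨_, occ_col (by omega), rfl⟩
    · rcases h hys' with h1 | h1 | h1 <;> simp at h1
    · rcases h hys' with h1 | h1 | h1 <;> simp at h1)
  obtain ⟨e2⟩ := del_dominated (F := {s ∈ NCs T | Vs.ys ∉ s}) (sep_isCx NCs_isCx _)
    (NCs_finite.subset (Set.sep_subset _ _)) .zs (.z 0 0) (by simp) (by
    rintro s ⟨⟨hs, h⟩, hys⟩ hzs
    have hzs' : Vs.zs ∈ (s : Set Vs) := hzs
    refine ⟨⟨Finset.insert_nonempty _ _, ?_⟩, ?_⟩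
    · rw [Finset.coe_insert]
      rcases h with h | ⟨i, j, hij, h⟩ | ⟨i, j, hij, h⟩ | ⟨i, j, hij, h⟩
      · refine Or.inl (Set.insert_subset (Or.inl ⟨0, 0, by omega, rfl⟩) h)
      · rcases h hzs' with ⟨a, -, h1⟩ | h1 | h1 | h1 <;> simp at h1
      · rcases h hzs' with h1 | h1 | h1 <;> simp at h1
      · rcases h hzs' with h1 | h1 | h1 <;> simp at h1
    · intro h1
      rcases Finset.mem_insert.1 h1 with h1 | h1
      · simp at h1
      · exact hys h1)
  have e3 : Rz {s ∈ {s ∈ NCs T | Vs.ys ∉ s} | Vs.zs ∉ s} ≃ₜ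
      Rz ((fun s => s.map vsE) '' (NC T)) := Homeomorph.setCongr (by rw [NCs_sep])
  obtain ⟨e4⟩ := homeo_of_embedding vsE (NC T)
  exact ⟨e1.symm.trans (e2.symm.trans (e3.trans e4.symm).toHomotopyEquiv)⟩

end CT
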