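import Mathlib
import Pool.Agent.CT.Quillen

/-!
# Combinatorial topology: the nerve of a family of simplices
-/

namespace CT

open scoped unitInterval ContinuousMap

variable {ι V : Type} (D : ι → Finset V)

/-- the complex generated by the sets `D s` -/
def faces : Set (Finset V) := {P | P.Nonempty ∧ ∃ s, P ⊆ D s}

/-- the nerve of the family -/
def nerve : Set (Finset ι) := {S | S.Nonempty ∧ ∃ p, ∀ s ∈ S, p ∈ D s}

theorem faces_isCx : IsCx (faces D) where
  ne := fun _ h => h.1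
  down := fun _ h _ hts ht => ⟨ht, h.2.imp fun _ hs => hts.trans hs⟩

theorem nerve_isCx : IsCx (nerve D) where
  ne := fun _ h => h.1
  down := fun _ h _ hts ht => ⟨ht, h.2.imp fun _ hp s hs => hp s (hts hs)⟩

variable {D}

theorem faces_finite (hfin : {s | (D s).Nonempty}.Finite) : (faces D).Finite := by
  refine (hfin.biUnion fun s _ => ((D s).powerset).finite_toSet).subset ?_
  rintro P ⟨hP, s, hs⟩
  simp only [Set.mem_iUnion]
  exact ⟨s, hP.mono hs, Finset.mem_coe.2 (Finset.mem_powerset.2 hs)⟩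

theorem nerve_finite (hfin : {s | (D s).Nonempty}.Finite) : (nerve D).Finite := by
  refine (hfin.toFinset.powerset.finite_toSet).subset fun S hS => ?_
  rw [Finset.mem_coe, Finset.mem_powerset]
  intro s hs
  obtain ⟨-, p, hp⟩ := hS
  exact hfin.mem_toFinset.2 ⟨p, hp s hs⟩

/-- **the nerve lemma** for families of simplices -/
theorem nerve_equiv (hfin : {s | (D s).Nonempty}.Finite) :
    Nonempty (Rz (OC (faces D)) ≃ₕ Rz (OC (nerve D))) := by
  classical
  let φ : Finset V → Finset ι := fun P => hfin.toFinset.filter fun s => P ⊆ D s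
  have hmem : ∀ P : Finset V, P.Nonempty → ∀ s, s ∈ φ P ↔ P ⊆ D s := by
    intro P hP s
    rw [Finset.mem_filter, hfin.mem_toFinset]
    exact ⟨fun h => h.2, fun h => ⟨hP.mono h, h⟩⟩
  refine quillen_anti (faces_finite hfin) (nerve_finite hfin) φ ?_ ?_ ?_
  · rintro P ⟨hP, s, hs⟩
    obtain ⟨p, hp⟩ := hP
    exact ⟨⟨s, (hmem P ⟨p, hp⟩ s).2 hs⟩, p, fun s' hs' => (hmem P ⟨p, hp⟩ s').1 hs' hp⟩
  · rintro P hP P' hP' hle s hs
    exact (hmem P hP.1 s).2 (Finset.Subset.trans hle ((hmem P' hP'.1 s).1 hs))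
  · rintro S ⟨⟨s₀, hs₀⟩, p, hp⟩
    have hT : ∀ P : Finset V, P.Nonempty → (S ≤ φ P ↔ ∀ s ∈ S, P ⊆ D s) := fun P hP =>
      ⟨fun h s hs => (hmem P hP s).1 (h hs), fun h s hs => (hmem P hP s).2 (h s hs)⟩
    let T : Finset V := (D s₀).filter fun q => ∀ s ∈ S, q ∈ D s
    have hTn : T.Nonempty := ⟨p, Finset.mem_filter.2 ⟨hp s₀ hs₀, hp⟩⟩
    refine contractible_OC T ⟨⟨hTn, s₀, Finset.filter_subset _ _⟩, ?_⟩ ?_
    · exact (hT T hTn).2 fun s hs q hq => (Finset.mem_filter.1 hq).2 s hs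
    · rintro P ⟨⟨hP, -⟩, hSP⟩
      right
      intro q hq
      have h := (hT P hP).1 hSP
      exact Finset.mem_filter.2 ⟨h s₀ hs₀ hq, fun s hs => h s hs hq⟩

end CT
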