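import Mathlib
import Pool.Agent.CT.Subd

/-!
# Combinatorial topology: the boundary of a simplex is a sphere
-/

namespace CT

open scoped unitInterval ContinuousMap

variable {V : Type}

/-- the points of the boundary of a simplex -/
theorem sphere_mem {s : Finset V} {x : V → ℝ} :
    x ∈ Rz {t : Finset V | t.Nonempty ∧ t ⊂ s} ↔
      (∀ v, 0 ≤ x v) ∧ (∀ v, v ∉ s → x v = 0) ∧ ∑ v ∈ s, x v = 1 ∧ ∃ v ∈ s, x v = 0 := by
  classical
  constructor
  · rintro ⟨t, ⟨_, hts⟩, hx⟩
    refine ⟨fun v => ?_, fun v hv => hx.2.1 v fun h => hv (hts.1 h), ?_, ?_⟩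
    · by_cases hv : v ∈ t
      · exact (hx.1 v hv).le
      · exact (hx.2.1 v hv).ge
    · rw [← hx.2.2]
      exact (Finset.sum_subset hts.1 fun v _ hv => hx.2.1 v hv).symm
    · obtain ⟨v, hv, hvt⟩ := Finset.exists_of_ssubset hts
      exact ⟨v, hv, hx.2.1 v hvt⟩
  · rintro ⟨h0, h1, h2, v, hv, hxv⟩
    refine ⟨s.filter (fun u => x u ≠ 0), ⟨?_, ?_⟩, ?_, ?_, ?_⟩
    · by_contra hne
      rw [Finset.not_nonempty_iff_eq_empty, Finset.filter_eq_empty_iff] at hne
      have : ∑ v ∈ s, x v = 0 := Finset.sum_eq_zero fun u hu => by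
        have := hne hu
        rwa [not_not] at this
      rw [this] at h2
      exact zero_ne_one h2
    · refine (Finset.ssubset_iff_of_subset (Finset.filter_subset _ _)).2 ⟨v, hv, ?_⟩
      simp [hxv]
    · intro u hu
      exact lt_of_le_of_ne (h0 u) (Finset.mem_filter.1 hu).2.symm
    · intro u hu
      by_cases hus : u ∈ s
      · by_contra hne
        exact hu (Finset.mem_filter.2 ⟨hus, hne⟩)
      · exact h1 u hus
    · rw [Finset.sum_filter_ne_zero]
      exact h2

/-- the boundary of a simplex with `d + 2` vertices is homeomorphic to the unit sphere of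
dimension `d` -/
theorem boundary_sphere (s : Finset V) (d : ℕ) (hs : s.card = d + 2) :
    Nonempty (Rz {t : Finset V | t.Nonempty ∧ t ⊂ s} ≃ₜ Sph d) := by
  classical
  obtain ⟨e⟩ : Nonempty (Fin (d + 2) ≃ s) := ⟨(Finset.equivFinOfCardEq hs).symm⟩
  have hsurj : ∀ v ∈ s, ∃ i, (e i : V) = v := fun v hv => ⟨e.symm ⟨v, hv⟩, by simp⟩
  have hsum : ∀ x : V → ℝ, ∑ v ∈ s, x v = ∑ i, x (e i) := by
    intro x
    rw [← Finset.sum_coe_sort s x]
    exact (Equiv.sum_comp e (fun v : s => x v)).symm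
  let K := Rz {t : Finset V | t.Nonempty ∧ t ⊂ s}
  let φ : (V → ℝ) → EuclideanSpace ℝ (Fin (d + 1)) := fun x =>
    WithLp.toLp 2 (fun i : Fin (d + 1) => x (e i.castSucc) - x (e (Fin.last _)))
  have hφ : ∀ x (i : Fin (d + 1)), φ x i = x (e i.castSucc) - x (e (Fin.last _)) :=
    fun x i => rfl
  have hφc : Continuous φ := by
    refine (PiLp.continuous_toLp 2 _).comp ?_
    fun_prop
  have hne : ∀ x ∈ K, φ x ≠ 0 := by
    intro x hx h0
    obtain ⟨h1, h2, h3, v, hv, hxv⟩ := sphere_mem.1 hx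
    have hall : ∀ i, x (e i) = x (e (Fin.last _)) := by
      intro i
      refine Fin.lastCases rfl (fun j => ?_) i
      have := hφ x j
      rw [h0] at this
      simp only [PiLp.zero_apply] at this
      linarith
    obtain ⟨i, hi⟩ := hsurj v hv
    have hz : x (e (Fin.last _)) = 0 := by rw [← hall i, hi, hxv]
    rw [hsum] at h3
    rw [Finset.sum_eq_zero (fun i _ => by rw [hall i, hz])] at h3
    exact zero_ne_one h3
  have hnorm : ∀ x ∈ K, ‖(‖φ x‖)⁻¹ • φ x‖ = 1 := by
    intro x hx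
    rw [norm_smul, norm_inv, norm_norm, inv_mul_cancel₀ (norm_ne_zero_iff.2 (hne x hx))]
  let F : K → Sph d := fun x => ⟨(‖φ x‖)⁻¹ • φ x, by
    rw [mem_sphere_zero_iff_norm]; exact hnorm x x.2⟩
  have hFc : Continuous F := by
    refine Continuous.subtype_mk ?_ _
    have h1 : Continuous fun x : K => φ x := hφc.comp continuous_subtype_val
    exact (h1.norm.inv₀ fun x => norm_ne_zero_iff.2 (hne x x.2)).smul h1
  have hinj : Function.Injective F := by
    rintro ⟨x, hx⟩ ⟨x', hx'⟩ hF
    have hF' : (‖φ x‖)⁻¹ • φ x = (‖φ x'‖)⁻¹ • φ x' := congrArg Subtype.val hF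
    have hp : 0 < ‖φ x‖ := norm_pos_iff.2 (hne x hx)
    have hp' : 0 < ‖φ x'‖ := norm_pos_iff.2 (hne x' hx')
    obtain ⟨c, hc, hcφ⟩ : ∃ c : ℝ, 0 < c ∧ φ x = c • φ x' := by
      refine ⟨‖φ x‖ * (‖φ x'‖)⁻¹, by positivity, ?_⟩
      rw [mul_smul, ← hF', smul_smul, mul_inv_cancel₀ hp.ne', one_smul]
    obtain ⟨h1, h2, h3, v, hv, hxv⟩ := sphere_mem.1 hx
    obtain ⟨h1', h2', h3', v', hv', hxv'⟩ := sphere_mem.1 hx'
    have hall : ∀ i, x (e i) - x (e (Fin.last _)) = c * (x' (e i) - x' (e (Fin.last _))) := by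
      intro i
      refine Fin.lastCases (by simp) (fun j => ?_) i
      rw [← hφ, ← hφ, hcφ]
      rfl
    obtain ⟨i, hi⟩ := hsurj v hv
    obtain ⟨i', hi'⟩ := hsurj v' hv'
    have ha := hall i
    have hb := hall i'
    rw [hi, hxv] at ha
    rw [hi', hxv'] at hb
    have hlast : x (e (Fin.last _)) = c * x' (e (Fin.last _)) := by
      apply le_antisymm
      · nlinarith [mul_nonneg hc.le (h1' v)]
      · nlinarith [h1 v']
    have hall' : ∀ i, x (e i) = c * x' (e i) := by
      intro i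
      have := hall i
      rw [hlast] at this
      linarith
    have hc1 : c = 1 := by
      rw [hsum] at h3 h3'
      rw [Finset.sum_congr rfl (fun i _ => hall' i), ← Finset.mul_sum, h3', mul_one] at h3
      exact h3
    apply Subtype.ext
    funext u
    by_cases hu : u ∈ s
    · obtain ⟨j, rfl⟩ := hsurj u hu
      have := hall' j
      rwa [hc1, one_mul] at this
    · show x u = x' u
      rw [h2 u hu, h2' u hu]
  have hFsurj : Function.Surjective F := by
    rintro ⟨w, hw⟩
    rw [mem_sphere_zero_iff_norm] at hw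
    let z : Fin (d + 2) → ℝ := Fin.lastCases 0 (fun j => w j)
    have hzl : z (Fin.last _) = 0 := Fin.lastCases_last
    have hzc : ∀ j : Fin (d + 1), z j.castSucc = w j := fun j => Fin.lastCases_castSucc _
    obtain ⟨m, -, hm⟩ := Finset.exists_min_image (Finset.univ : Finset (Fin (d + 2))) z
      Finset.univ_nonempty
    have hm' : ∀ i, z m ≤ z i := fun i => hm i (Finset.mem_univ i)
    let y : Fin (d + 2) → ℝ := fun i => z i - z m
    have hy0 : ∀ i, 0 ≤ y i := fun i => sub_nonneg.2 (hm' i)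
    have hym : y m = 0 := sub_self _
    have hS : 0 < ∑ i, y i := by
      refine lt_of_le_of_ne (Finset.sum_nonneg fun i _ => hy0 i) ?_
      intro h0
      have hall : ∀ i, y i = 0 := by
        intro i
        exact (Finset.sum_eq_zero_iff_of_nonneg fun i _ => hy0 i).1 h0.symm i (Finset.mem_univ i)
      have hw0 : w = 0 := by
        ext j
        have h1 := hall j.castSucc
        have h2 := hall (Fin.last _)
        simp only [y, hzc, hzl] at h1 h2
        show w j = 0
        linarith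
      rw [hw0, norm_zero] at hw
      exact zero_ne_one hw
    set S := ∑ i, y i with hSdef
    let x : V → ℝ := fun v => if hv : v ∈ s then y (e.symm ⟨v, hv⟩) / S else 0
    have hxe : ∀ i, x (e i) = y i / S := by
      intro i
      simp only [x]
      rw [dif_pos (e i).2]
      simp
    have hxK : x ∈ K := by
      refine sphere_mem.2 ⟨fun v => ?_, fun v hv => dif_neg hv, ?_, ?_⟩
      · by_cases hv : v ∈ s
        · simp only [x, dif_pos hv]
          exact div_nonneg (hy0 _) hS.le
        · simp only [x, dif_neg hv]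
          exact le_rfl
      · rw [hsum, Finset.sum_congr rfl fun i _ => hxe i, ← Finset.sum_div]
        exact div_self hS.ne'
      · exact ⟨e m, (e m).2, by rw [hxe, hym, zero_div]⟩
    refine ⟨⟨x, hxK⟩, ?_⟩
    have hφx : φ x = S⁻¹ • w := by
      ext j
      rw [hφ, hxe, hxe]
      show y j.castSucc / S - y (Fin.last _) / S = S⁻¹ * w j
      simp only [y, hzc, hzl]
      field_simp
      ring
    apply Subtype.ext
    show (‖φ x‖)⁻¹ • φ x = w
    rw [hφx, norm_smul, hw, mul_one, norm_inv, Real.norm_of_nonneg hS.le, inv_inv, smul_smul,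
      mul_inv_cancel₀ hS.ne', one_smul]
  have hcx : IsCx {t : Finset V | t.Nonempty ∧ t ⊂ s} :=
    ⟨fun _ h => h.1, fun _ h _ hts ht => ⟨ht, lt_of_le_of_lt hts h.2⟩⟩
  have hfin : {t : Finset V | t.Nonempty ∧ t ⊂ s}.Finite :=
    (Finset.finite_toSet s.powerset).subset (by
      intro t ht
      exact Finset.mem_coe.2 (Finset.mem_powerset.2 ht.2.1))
  have : CompactSpace K := isCompact_iff_compactSpace.1 (isCompact_Rz hcx hfin)
  exact ⟨Continuous.homeoOfEquivCompactToT2 (f := Equiv.ofBijective F ⟨hinj, hFsurj⟩) hFc⟩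

/-- the poset version -/
theorem boundary_sphere' (s : Finset V) (d : ℕ) (hs : s.card = d + 2) :
    Nonempty (Rz (OC {t : Finset V | t.Nonempty ∧ t ⊂ s}) ≃ₜ Sph d) := by
  obtain ⟨e⟩ := boundary_sphere s d hs
  exact ⟨(sd (F := {t : Finset V | t.Nonempty ∧ t ⊂ s})
    ⟨fun _ h => h.1, fun _ h _ hts ht => ⟨ht, lt_of_le_of_lt hts h.2⟩⟩
    ((Finset.finite_toSet s.powerset).subset (by
      intro t ht
      exact Finset.mem_coe.2 (Finset.mem_powerset.2 ht.2.1)))).trans e⟩

end CT
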