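import Mathlib
import Pool.Agent.CT.Nerve
import Pool.Agent.CT.AttBase
import Pool.Agent.CT.Sphere

/-!
# Combinatorial topology: the skeleton of a complex generated by simplices of equal size
-/

namespace CT

open scoped unitInterval ContinuousMap

variable {ι V : Type} (D : ι → Finset V)

/-- the faces with fewer than `r` vertices -/
def skel (r : ℕ) : Set (Finset V) := {P | P.Nonempty ∧ P.card < r ∧ ∃ s, P ⊆ D s}

variable {D}

/-- If all simplices have `r` vertices and each one has a free face with `r - 1` vertices,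
the poset of faces with fewer than `r` vertices is, up to homotopy, the full complex with
cones attached along null-homotopic spheres of dimension `r - 3`. -/
theorem skeleton_free [DecidableEq V] (hfin : {s | (D s).Nonempty}.Finite) (r : ℕ)
    (hr : 3 ≤ r) (hcard : ∀ s, (D s).Nonempty → (D s).card = r)
    (hfree : ∀ s, (D s).Nonempty → ∃ u ∈ D s, ∀ t, (D s).erase u ⊆ D t → t = s) :
    ∃ (J : Type) (_ : Finite J) (S : J → Type) (_ : ∀ j, TopologicalSpace (S j))
      (f : ∀ j, C(S j, Rz (OC (faces D)))),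
      (∀ j, Nonempty (S j ≃ₜ Sph (r - 3))) ∧
      (∀ j, ∃ x, (f j).Homotopic (ContinuousMap.const _ x)) ∧
      Nonempty (Rz (OC (skel D r)) ≃ₕ Att S f) := by
  have hFfin : (faces D).Finite := faces_finite hfin
  rcases isEmpty_or_nonempty V with hV | hV
  · -- no vertices at all
    have h1 : IsEmpty (Rz (OC (faces D))) := by
      refine ⟨fun x => ?_⟩
      obtain ⟨x, c, hc, hx⟩ := x
      obtain ⟨P, hP⟩ := hc.1
      obtain ⟨v, hv⟩ := (hc.2.1 hP).1
      exact hV.elim v
    have h2 : IsEmpty (Rz (OC (skel D r))) := by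
      refine ⟨fun x => ?_⟩
      obtain ⟨x, c, hc, hx⟩ := x
      obtain ⟨P, hP⟩ := hc.1
      obtain ⟨v, hv⟩ := (hc.2.1 hP).1
      exact hV.elim v
    have h3 : IsEmpty (Att (X := Rz (OC (faces D))) (J := Empty) (fun _ => Unit)
        (fun j => j.elim)) :=
      ⟨fun z => att_cases (motive := fun _ => False) z (fun x => h1.elim x) (fun j _ => j.elim)⟩
    exact ⟨Empty, inferInstance, fun _ => Unit, fun _ => inferInstance, fun j => j.elim,
      fun j => j.elim, fun j => j.elim, ⟨Homeomorph.empty.toHomotopyEquiv⟩⟩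
  -- the removed vertices
  choose! u hu hEfree using hfree
  let E : ι → Finset V := fun s => (D s).erase (u s)
  have hEcard : ∀ s, (D s).Nonempty → (E s).card = r - 1 := by
    intro s hs
    rw [Finset.card_erase_of_mem (hu s hs), hcard s hs]
  have huE : ∀ s, u s ∉ E s := fun s h => (Finset.mem_erase.1 h).1 rfl
  have hEne : ∀ s, (D s).Nonempty → (E s).Nonempty := fun s hs =>
    Finset.card_pos.1 (by rw [hEcard s hs]; omega)
  have hED : ∀ s, E s ⊆ D s := fun s => Finset.erase_subset _ _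
  have hEsub : ∀ s, (D s).Nonempty → ∀ t, E s ⊆ D t → t = s := fun s hs t h =>
    hEfree s hs t h
  have hDsub : ∀ s, (D s).Nonempty → ∀ t, D s ⊆ D t → t = s := fun s hs t h =>
    hEfree s hs t ((hED s).trans h)
  -- a face which contains `E s` is `E s` or `D s`
  have hsand : ∀ s, (D s).Nonempty → ∀ P, E s ⊆ P → P ⊆ D s → P = E s ∨ P = D s := by
    intro s hs P h1 h2
    by_cases h : u s ∈ P
    · right
      refine Finset.Subset.antisymm h2 ?_
      intro a ha
      by_cases hau : a = u s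
      · rw [hau]; exact h
      · exact h1 (Finset.mem_erase.2 ⟨hau, ha⟩)
    · left
      refine Finset.Subset.antisymm ?_ h1
      intro a ha
      refine Finset.mem_erase.2 ⟨?_, h2 ha⟩
      rintro rfl
      exact h ha
  let R1 : Set (Finset V) := {P | ∃ s, (D s).Nonempty ∧ P = E s}
  let R2 : Set (Finset V) := {P | ∃ s, (D s).Nonempty ∧ P = D s}
  have hR1f : R1 ⊆ faces D := by
    rintro P ⟨s, hs, rfl⟩
    exact ⟨hEne s hs, s, hED s⟩
  have hR2f : R2 ⊆ faces D := by
    rintro P ⟨s, hs, rfl⟩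
    exact ⟨hs, s, subset_rfl⟩
  have hcardR1 : ∀ P ∈ R1, P.card = r - 1 := by
    rintro P ⟨s, hs, rfl⟩
    exact hEcard s hs
  have hcardR2 : ∀ P ∈ R2, P.card = r := by
    rintro P ⟨s, hs, rfl⟩
    exact hcard s hs
  let B1 : Set (Finset V) := faces D \ R1
  let Q : Set (Finset V) := skel D r
  let A : Set (Finset V) := Q \ R1
  have hQf : Q ⊆ faces D := fun P h => ⟨h.1, h.2.2⟩
  have hQfin : Q.Finite := hFfin.subset hQf
  -- `A` consists of the faces which are not in `R1` or `R2`
  have hA : ∀ P, P ∈ A ↔ P ∈ faces D ∧ P ∉ R1 ∧ P ∉ R2 := by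
    intro P
    constructor
    · rintro ⟨h1, h2⟩
      refine ⟨hQf h1, h2, fun h3 => ?_⟩
      have := hcardR2 P h3
      have := h1.2.1
      omega
    · rintro ⟨⟨h1, s, hs⟩, h2, h3⟩
      refine ⟨⟨h1, ?_, s, hs⟩, h2⟩
      have hDs : (D s).Nonempty := h1.mono hs
      have h4 : P.card ≤ (D s).card := Finset.card_le_card hs
      rw [hcard s hDs] at h4
      rcases lt_or_eq_of_le h4 with h5 | h5
      · exact h5
      · exfalso
        apply h3
        refine ⟨s, hDs, Finset.eq_of_subset_of_card_le hs ?_⟩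
        rw [hcard s hDs, h5]
  have hAB1 : A ⊆ B1 := fun P h => ⟨((hA P).1 h).1, ((hA P).1 h).2.1⟩
  have hB1F : B1 ⊆ faces D := fun P h => h.1
  -- first step: the faces `E s` can be removed
  obtain ⟨e1, he1⟩ := incl_upper (A := B1) (B := faces D) hFfin hB1F (by
    intro b hb
    by_cases hb1 : b ∈ R1
    · obtain ⟨s, hs, rfl⟩ := hb1
      have hDB : D s ∈ ge1 B1 (E s) := by
        refine ⟨⟨hR2f ⟨s, hs, rfl⟩, fun h => ?_⟩, hED s⟩
        have := hcardR1 _ h
        rw [hcard s hs] at this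
        omega
      refine contractible_OC (D s) hDB ?_
      rintro P ⟨⟨⟨hP1, t, hPt⟩, hP2⟩, hP3⟩
      have hts : t = s := hEsub s hs t (hP3.trans hPt)
      subst hts
      rcases hsand t hs P hP3 hPt with h | h
      · exact absurd ⟨t, hs, h⟩ hP2
      · exact Or.inl h.ge
    · exact contractible_OC b ⟨⟨hb, hb1⟩, le_rfl⟩ (fun q hq => Or.inl hq.2))
  -- second step: the simplices `D s` can be removed
  obtain ⟨e2, he2⟩ := incl_lower (A := A) (B := B1) (hFfin.subset hB1F) hAB1 (by
    intro b hb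
    by_cases hb1 : b ∈ R2
    · obtain ⟨s, hs, rfl⟩ := hb1
      have hu1 : ({u s} : Finset V) ∈ le1 A (D s) := by
        have h1 : ({u s} : Finset V) ⊆ D s := Finset.singleton_subset_iff.2 (hu s hs)
        refine ⟨(hA _).2 ⟨⟨Finset.singleton_nonempty _, s, h1⟩, ?_, ?_⟩, h1⟩
        · rintro ⟨t, ht, h2⟩
          have h3 : E t ⊆ D s := h2 ▸ h1
          have h4 := hEsub t ht s h3
          subst h4
          exact huE s (h2 ▸ Finset.mem_singleton_self _)
        · intro h2
          have := hcardR2 _ h2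
          rw [Finset.card_singleton] at this
          omega
      refine contractible_join (A := le1 A (D s)) ((hFfin.subset (hAB1.trans hB1F)).subset
        (fun P h => h.1)) {u s} hu1 (fun P => P ∪ {u s}) ?_ ?_ ?_ ?_
      · rintro P ⟨hP1, hP2⟩
        obtain ⟨hP3, hP4, hP5⟩ := (hA P).1 hP1
        have hP6 : P ∪ {u s} ⊆ D s := Finset.union_subset hP2
          (Finset.singleton_subset_iff.2 (hu s hs))
        refine ⟨(hA _).2 ⟨⟨⟨u s, by simp⟩, s, hP6⟩, ?_, ?_⟩, hP6⟩
        · rintro ⟨t, ht, h2⟩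
          have h3 : E t ⊆ D s := h2 ▸ hP6
          have h4 := hEsub t ht s h3
          subst h4
          exact huE s (h2 ▸ (by simp))
        · rintro ⟨t, ht, h2⟩
          have h3 : D t ⊆ D s := h2 ▸ hP6
          have h4 := hDsub t ht s h3
          subst h4
          have h5 : E s ⊆ P := by
            intro a ha
            have h6 := Finset.mem_erase.1 ha
            have h7 : a ∈ P ∪ {u s} := by
              rw [h2]
              exact h6.2
            rcases Finset.mem_union.1 h7 with h8 | h8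
            · exact h8
            · exact absurd (Finset.mem_singleton.1 h8) h6.1
          rcases hsand s hs P h5 hP2 with h | h
          · exact hP4 ⟨s, hs, h⟩
          · exact hP5 ⟨s, hs, h⟩
      · intro P _
        exact Finset.subset_union_left
      · intro P _
        exact Finset.subset_union_right
      · intro P _ q _ hPq hq
        exact Finset.union_subset hPq hq
    · exact contractible_OC b ⟨(hA b).2 ⟨hb.1, hb.2, hb1⟩, le_rfl⟩ (fun q hq => Or.inr hq.2))
  -- third step: the faces `E s` are attached to `A`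
  have hR1Q : R1 ⊆ Q := by
    rintro P ⟨s, hs, rfl⟩
    exact ⟨hEne s hs, by rw [hEcard s hs]; omega, s, hED s⟩
  have hmax : ∀ p ∈ R1, ∀ q ∈ Q, p ≤ q → q = p := by
    rintro p ⟨s, hs, rfl⟩ q ⟨hq1, hq2, t, hq3⟩ hpq
    have hts : t = s := hEsub s hs t (hpq.trans hq3)
    subst hts
    rcases hsand t hs q hpq hq3 with h | h
    · exact h
    · rw [h, hcard t hs] at hq2
      exact absurd hq2 (lt_irrefl _)
  have hbel : ∀ p ∈ R1, below Q p = {t : Finset V | t.Nonempty ∧ t ⊂ p} := by
    rintro p ⟨s, hs, rfl⟩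
    ext t
    constructor
    · rintro ⟨h1, h2⟩
      exact ⟨h1.1, h2⟩
    · rintro ⟨h1, h2⟩
      refine ⟨⟨h1, ?_, s, h2.subset.trans (hED s)⟩, h2⟩
      have h3 := Finset.card_lt_card h2
      rw [hEcard s hs] at h3
      omega
  have hne : ∀ p ∈ R1, ∃ q ∈ Q, q < p := by
    intro p hp
    obtain ⟨s, hs, rfl⟩ := hp
    obtain ⟨v, hv⟩ := hEne s hs
    have h1 : ({v} : Finset V) ⊂ E s := by
      refine Finset.ssubset_iff_subset_ne.2 ⟨Finset.singleton_subset_iff.2 hv, ?_⟩
      intro h
      have h2 := hEcard s hs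
      rw [← h, Finset.card_singleton] at h2
      omega
    have h2 : ({v} : Finset V) ∈ below Q (E s) := by
      rw [hbel _ ⟨s, hs, rfl⟩]
      exact ⟨Finset.singleton_nonempty _, h1⟩
    exact ⟨{v}, h2.1, h2.2⟩
  obtain ⟨e3, -, -⟩ := poset_attach hQfin hR1Q hmax hne
  let e4 : Rz (OC (Q \ R1)) ≃ₕ Rz (OC (faces D)) := e2.trans e1
  have he4 : e4.toFun = RIncl (OC_mono (hAB1.trans hB1F)) := by
    change e1.toFun.comp e2.toFun = _
    rw [he1, he2]
    rfl
  obtain ⟨e5, -⟩ := att_base (X := Rz (OC (Q \ R1))) (J := R1)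
    (fun p => Rz (OC (below Q (p : Finset V)))) (fun p => RIncl (OC_below_sub hR1Q hmax p)) e4
  refine ⟨R1, (hFfin.subset hR1f).to_subtype, fun p => Rz (OC (below Q (p : Finset V))),
    fun p => inferInstance, fun p => e4.toFun.comp (RIncl (OC_below_sub hR1Q hmax p)), ?_, ?_,
    ⟨e3.symm.toHomotopyEquiv.trans e5⟩⟩
  · rintro ⟨p, hp⟩
    have h1 : p.card = (r - 3) + 2 := by
      rw [hcardR1 p hp]
      omega
    have h2 := boundary_sphere' p (r - 3) h1
    rw [← hbel p hp] at h2
    exact h2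
  · rintro ⟨p, hp⟩
    have hsub1 : OC (below Q p) ⊆ OC (le1 (faces D) p) :=
      OC_mono (fun q hq => ⟨hQf hq.1, hq.2.le⟩)
    have hsub2 : OC (le1 (faces D) p) ⊆ OC (faces D) := OC_mono (fun q hq => hq.1)
    have : ContractibleSpace (Rz (OC (le1 (faces D) p))) :=
      contractible_OC p ⟨hR1f hp, le_rfl⟩ (fun q hq => Or.inr hq.2)
    obtain ⟨y, hy⟩ := id_nullhomotopic (Rz (OC (le1 (faces D) p)))
    refine ⟨RIncl hsub2 y, ?_⟩
    have h1 : e4.toFun.comp (RIncl (OC_below_sub hR1Q hmax ⟨p, hp⟩)) =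
        ((RIncl hsub2).comp (ContinuousMap.id _)).comp (RIncl hsub1) := by
      rw [he4]
      rfl
    have h2 : ContinuousMap.const _ (RIncl hsub2 y) =
        ((RIncl hsub2).comp (ContinuousMap.const _ y)).comp (RIncl hsub1) := rfl
    change ContinuousMap.Homotopic (e4.toFun.comp (RIncl (OC_below_sub hR1Q hmax ⟨p, hp⟩)))
      (ContinuousMap.const (Rz (OC (below Q p))) (RIncl hsub2 y))
    rw [h1, h2]
    exact ((ContinuousMap.Homotopic.refl (RIncl hsub2)).comp hy).comp
      (ContinuousMap.Homotopic.refl (RIncl hsub1))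

/-- If all simplices have `r` vertices and each one has a private vertex, the poset of
faces with fewer than `r` vertices is, up to homotopy, the full complex with cones attached
along null-homotopic spheres of dimension `r - 3`. -/
theorem skeleton (hfin : {s | (D s).Nonempty}.Finite) (r : ℕ) (hr : 3 ≤ r)
    (hcard : ∀ s, (D s).Nonempty → (D s).card = r)
    (hpriv : ∀ s, (D s).Nonempty → ∃ v ∈ D s, ∀ t, v ∈ D t → t = s) :
    ∃ (J : Type) (_ : Finite J) (S : J → Type) (_ : ∀ j, TopologicalSpace (S j))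
      (f : ∀ j, C(S j, Rz (OC (faces D)))),
      (∀ j, Nonempty (S j ≃ₜ Sph (r - 3))) ∧
      (∀ j, ∃ x, (f j).Homotopic (ContinuousMap.const _ x)) ∧
      Nonempty (Rz (OC (skel D r)) ≃ₕ Att S f) := by
  classical
  refine skeleton_free hfin r hr hcard fun s hs => ?_
  obtain ⟨w, hw, hwp⟩ := hpriv s hs
  have h1 : 1 < (D s).card := by rw [hcard s hs]; omega
  obtain ⟨u, hu, huw⟩ : ∃ u ∈ D s, u ≠ w := by
    obtain ⟨a, ha, b, hb, hab⟩ := Finset.one_lt_card.1 h1
    by_cases h : a = w
    · exact ⟨b, hb, fun h2 => hab (h.trans h2.symm)⟩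
    · exact ⟨a, ha, h⟩
  exact ⟨u, hu, fun t ht => hwp t (ht (Finset.mem_erase.2 ⟨huw.symm, hw⟩))⟩

end CT
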