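import Mathlib

/-!
# Combinatorial topology: commuting elements of free groups
-/

namespace CT

theorem Free_of_commute {ι : Type} (x y : ι)
    (h : FreeGroup.of x * FreeGroup.of y = FreeGroup.of y * FreeGroup.of x) : x = y := by
  classical
  by_contra hxy
  have h1 : FreeGroup.mk [(x, true), (y, true)] = FreeGroup.mk [(y, true), (x, true)] := by
    have e1 : FreeGroup.of x * FreeGroup.of y = FreeGroup.mk [(x, true), (y, true)] := by
      simp only [FreeGroup.of, FreeGroup.mul_mk, List.singleton_append]
    have e2 : FreeGroup.of y * FreeGroup.of x = FreeGroup.mk [(y, true), (x, true)] := by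
      simp only [FreeGroup.of, FreeGroup.mul_mk, List.singleton_append]
    rw [← e1, ← e2, h]
  have h2 := congrArg FreeGroup.toWord h1
  simp only [FreeGroup.toWord_mk] at h2
  have h3 : FreeGroup.reduce [(x, true), (y, true)] = [(x, true), (y, true)] := by
    simp [FreeGroup.reduce.cons]
  have h4 : FreeGroup.reduce [(y, true), (x, true)] = [(y, true), (x, true)] := by
    simp [FreeGroup.reduce.cons]
  rw [h3, h4] at h2
  simp only [List.cons.injEq, Prod.mk.injEq, and_true] at h2
  exact hxy h2.1

theorem Free_pow {ι : Type} (x : ι) (hx : ∀ y, y = x) (g : FreeGroup ι) :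
    ∃ k : ℤ, g = FreeGroup.of x ^ k := by
  induction g using FreeGroup.induction_on with
  | C1 => exact ⟨0, by simp⟩
  | of y => exact ⟨1, by rw [hx y]; simp⟩
  | inv_of y _ => exact ⟨-1, by rw [hx y]; simp⟩
  | mul a b ha hb =>
    obtain ⟨k, rfl⟩ := ha
    obtain ⟨l, rfl⟩ := hb
    exact ⟨k + l, by rw [zpow_add]⟩

/-- commuting elements of a free group are dependent -/
theorem free_commute {α : Type} (a b : FreeGroup α) (h : a * b = b * a) :
    ∃ i j : ℤ, (i ≠ 0 ∨ j ≠ 0) ∧ a ^ i * b ^ j = 1 := by
  classical
  set H : Subgroup (FreeGroup α) := Subgroup.closure {a, b} with hH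
  have hcomm : ∀ u ∈ H, ∀ v ∈ H, u * v = v * u := by
    have h0 : ∀ x ∈ ({a, b} : Set (FreeGroup α)), ∀ y ∈ ({a, b} : Set (FreeGroup α)),
        x * y = y * x := by
      rintro x (rfl | rfl) y (rfl | rfl)
      · rfl
      · exact h
      · exact h.symm
      · rfl
    have h1 : ∀ u ∈ H, ∀ y ∈ ({a, b} : Set (FreeGroup α)), Commute u y := by
      intro u hu y hy
      induction hu using Subgroup.closure_induction with
      | mem x hx => exact h0 x hx y hy
      | one => exact Commute.one_left y
      | mul x z _ _ hx hz => exact hx.mul_left hz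
      | inv x _ hx => exact hx.inv_left
    intro u hu v hv
    have h2 : Commute u v := by
      induction hv using Subgroup.closure_induction with
      | mem x hx => exact h1 u hu x hx
      | one => exact Commute.one_right u
      | mul x z _ _ hx hz => exact hx.mul_right hz
      | inv x _ hx => exact hx.inv_right
    exact h2
  have ha : a ∈ H := Subgroup.subset_closure (by simp)
  have hb : b ∈ H := Subgroup.subset_closure (by simp)
  let e := IsFreeGroup.toFreeGroup H
  have hsub : ∀ x y : IsFreeGroup.Generators H, x = y := by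
    intro x y
    refine Free_of_commute x y ?_
    apply e.symm.injective
    rw [map_mul, map_mul]
    exact Subtype.ext (hcomm _ (e.symm (FreeGroup.of x)).2 _ (e.symm (FreeGroup.of y)).2)
  by_cases hne : Nonempty (IsFreeGroup.Generators H)
  · obtain ⟨x⟩ := hne
    obtain ⟨k, hk⟩ := Free_pow x (fun y => hsub y x) (e ⟨a, ha⟩)
    obtain ⟨l, hl⟩ := Free_pow x (fun y => hsub y x) (e ⟨b, hb⟩)
    have h5 : ∀ i j : ℤ, k * i + l * j = 0 → a ^ i * b ^ j = 1 := by
      intro i j hij
      have h6 : (⟨a, ha⟩ : H) ^ i * (⟨b, hb⟩ : H) ^ j = 1 := by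
        apply e.injective
        rw [map_mul, map_zpow, map_zpow, hk, hl, ← zpow_mul, ← zpow_mul, ← zpow_add, hij,
          zpow_zero, map_one]
      exact congrArg Subtype.val h6
    by_cases hkl : k = 0 ∧ l = 0
    · exact ⟨1, 0, Or.inl one_ne_zero, h5 1 0 (by rw [hkl.1, hkl.2]; simp)⟩
    · refine ⟨l, -k, ?_, h5 l (-k) (by ring)⟩
      by_contra h7
      push Not at h7
      exact hkl ⟨by simpa using h7.2, h7.1⟩
  · have h8 : IsEmpty (IsFreeGroup.Generators H) := not_nonempty_iff.1 hne
    refine ⟨1, 0, Or.inl one_ne_zero, ?_⟩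
    have h9 : (⟨a, ha⟩ : H) = 1 := by
      apply e.injective
      exact Subsingleton.elim _ _
    have h10 : a = 1 := congrArg Subtype.val h9
    rw [h10]
    simp

end CT
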