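import Mathlib
import Pool.Agent.CT.WedgeB
import Pool.Agent.CT.Sphere

/-!
# Combinatorial topology: a simplicial model of the one-point union of spheres
-/

namespace CT

open scoped unitInterval ContinuousMap

variable {n : ℕ} (d : Fin n → ℕ)

/-- the vertices of the model: a base vertex and `d i + 1` further vertices of the
boundary of a simplex of dimension `d i + 1` -/
abbrev WV : Type := Option (Σ i : Fin n, Fin (d i + 1))

/-- the vertices of the `i`-th simplex -/
def wsimp (i : Fin n) : Finset (WV d) :=
  insert none (Finset.univ.image fun j : Fin (d i + 1) => some ⟨i, j⟩)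

/-- the model: boundaries of simplices glued at the base vertex -/
def WM : Set (Finset (WV d)) := {s | s = {none} ∨ s.Nonempty ∧ ∃ i, s ⊂ wsimp d i}

theorem WM_isCx : IsCx (WM d) where
  ne := by
    rintro s (rfl | h)
    · exact Finset.singleton_nonempty _
    · exact h.1
  down := by
    rintro s (rfl | h) t hts ht
    · exact Or.inl (Finset.Nonempty.subset_singleton_iff ht |>.1 hts)
    · obtain ⟨_, i, hi⟩ := h
      exact Or.inr ⟨ht, i, lt_of_le_of_lt hts hi⟩

theorem WM_base : ({none} : Finset (WV d)) ∈ WM d := Or.inl rfl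

theorem WedgeModel_card (i : Fin n) : (wsimp d i).card = d i + 2 := by
  classical
  unfold wsimp
  rw [Finset.card_insert_of_notMem, Finset.card_image_of_injective, Finset.card_univ,
    Fintype.card_fin]
  · intro j j' h
    simpa using h
  · simp

theorem WedgeModel_mem (i : Fin n) (v : WV d) :
    v ∈ wsimp d i ↔ v = none ∨ ∃ j, v = some ⟨i, j⟩ := by
  classical
  unfold wsimp
  simp [eq_comm]

theorem WedgeModel_inter {i j : Fin n} (hij : i ≠ j) {v : WV d} (h : v ∈ wsimp d i)
    (h' : v ∈ wsimp d j) : v = none := by
  rw [WedgeModel_mem] at h h'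
  rcases h with h | ⟨a, h⟩
  · exact h
  · rcases h' with h' | ⟨b, h'⟩
    · exact h'
    · exfalso
      rw [h] at h'
      have := Option.some.inj h'
      exact hij (congrArg Sigma.fst this)

theorem WedgeModel_base_ssub (i : Fin n) : ({none} : Finset (WV d)) ⊂ wsimp d i := by
  classical
  rw [Finset.ssubset_iff_subset_ne]
  constructor
  · intro v hv
    rw [Finset.mem_singleton] at hv
    rw [WedgeModel_mem]
    exact Or.inl hv
  · intro h
    have := WedgeModel_card d i
    rw [← h, Finset.card_singleton] at this
    omega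

theorem wedge_model (p : ∀ i, Sph (d i)) : Nonempty (Wedge d p ≃ₜ Rz (WM d)) := by
  classical
  choose b _ using fun i : Fin n => (boundary_sphere (wsimp d i) (d i) (WedgeModel_card d i)).elim
    (fun e => (⟨e, trivial⟩ : ∃ _ : Rz {t : Finset (WV d) | t.Nonempty ∧ t ⊂ wsimp d i} ≃ₜ Sph (d i),
      True))
  have hbase : ∀ i : Fin n, vtx (none : WV d) ∈
      Rz {t : Finset (WV d) | t.Nonempty ∧ t ⊂ wsimp d i} := fun i =>
    vtx_mem (F := {t : Finset (WV d) | t.Nonempty ∧ t ⊂ wsimp d i})
      ⟨Finset.singleton_nonempty _, WedgeModel_base_ssub d i⟩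
  let q : ∀ i, Sph (d i) := fun i => b i ⟨vtx none, hbase i⟩
  have hq : ∀ i, (b i).symm (q i) = ⟨vtx none, hbase i⟩ := fun i => by
    change (b i).symm (b i _) = _
    rw [Homeomorph.symm_apply_apply]
  obtain ⟨E⟩ := wedge_base_change d p q
  have hsub : ∀ i : Fin n, {t : Finset (WV d) | t.Nonempty ∧ t ⊂ wsimp d i} ⊆ WM d :=
    fun i t ht => Or.inr ⟨ht.1, i, ht.2⟩
  let F : C(Wedge d q, Rz (WM d)) := WedgeB_desc d q (⟨vtx none, vtx_mem (WM_base d)⟩)
    (fun i => (RIncl (hsub i)).comp ((b i).symm : C(Sph (d i), _))) (by
      intro i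
      change RIncl (hsub i) ((b i).symm (q i)) = _
      rw [hq]
      rfl)
  have hFpt : (F (wedgePt d q) : WV d → ℝ) = vtx none := rfl
  have hFin : ∀ i x, (F (wedgeIn d q i x) : WV d → ℝ) = ((b i).symm x : WV d → ℝ) :=
    fun i x => rfl
  have hb0 : ∀ i x, ((b i).symm x : WV d → ℝ) = vtx none → x = q i := by
    intro i x h
    have h1 : (b i).symm x = (b i).symm (q i) := by
      rw [hq]
      exact Subtype.ext h
    exact (b i).symm.injective h1
  have hinj : Function.Injective F := by
    intro z w h
    have h' : (F z : WV d → ℝ) = F w := congrArg _ h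
    rcases wedge_cases d q z with rfl | ⟨i, x, rfl⟩
    · rcases wedge_cases d q w with rfl | ⟨j, y, rfl⟩
      · rfl
      · rw [hFpt, hFin] at h'
        rw [hb0 j y h'.symm, wedgeIn_base]
    · rcases wedge_cases d q w with rfl | ⟨j, y, rfl⟩
      · rw [hFpt, hFin] at h'
        rw [hb0 i x h', wedgeIn_base]
      · rw [hFin, hFin] at h'
        by_cases hij : i = j
        · subst hij
          rw [(b i).symm.injective (Subtype.ext h')]
        · obtain ⟨s, hs, hsx⟩ := ((b i).symm x).2
          obtain ⟨t, ht, hty⟩ := ((b j).symm y).2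
          rw [← h'] at hty
          have hst := bary_unique hsx hty
          subst hst
          have hsn : s = {none} := by
            refine (Finset.Nonempty.subset_singleton_iff hs.1).1 ?_
            intro v hv
            rw [Finset.mem_singleton]
            exact WedgeModel_inter d hij (hs.2.1 hv) (ht.2.1 hv)
          have hx : ((b i).symm x : WV d → ℝ) = vtx none := by
            subst hsn
            funext v
            obtain ⟨_, h2, h3⟩ := hsx
            rw [Finset.sum_singleton] at h3
            unfold vtx
            split_ifs with hv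
            · rw [hv, h3]
            · exact h2 v (by rwa [Finset.mem_singleton])
          have hy : ((b j).symm y : WV d → ℝ) = vtx none := by
            rw [← h', hx]
          rw [hb0 i x hx, hb0 j y hy, wedgeIn_base, wedgeIn_base]
  have hsurj : Function.Surjective F := by
    rintro ⟨x, s, hs, hx⟩
    rcases hs with rfl | ⟨hne, i, hi⟩
    · refine ⟨wedgePt d q, ?_⟩
      apply Subtype.ext
      rw [hFpt]
      funext v
      obtain ⟨_, h2, h3⟩ := hx
      rw [Finset.sum_singleton] at h3
      unfold vtx
      split_ifs with hv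
      · rw [hv]
        exact h3.symm
      · exact (h2 v (by rwa [Finset.mem_singleton])).symm
    · refine ⟨wedgeIn d q i (b i ⟨x, s, ⟨hne, hi⟩, hx⟩), ?_⟩
      apply Subtype.ext
      rw [hFin, Homeomorph.symm_apply_apply]
  have := wedge_compact d q
  exact ⟨E.trans (Continuous.homeoOfEquivCompactToT2
    (f := Equiv.ofBijective F ⟨hinj, hsurj⟩) F.continuous)⟩

end CT
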