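import Mathlib
import Pool.Agent.CT.Defs

/-!
# Combinatorial topology: commuting elements of fundamental groups, transfer
-/

namespace CT

open scoped unitInterval ContinuousMap

variable {X Y : Type} [TopologicalSpace X] [TopologicalSpace Y]

theorem Z2_of_inj {x : X} {y : Y} (φ : FundamentalGroup X x →* FundamentalGroup Y y)
    (hφ : ∀ a, φ a = 1 → a = 1) (h : HasZ2At X x) : HasZ2At Y y := by
  obtain ⟨a, b, hab, hind⟩ := h
  refine ⟨φ a, φ b, ?_, ?_⟩
  · rw [← map_mul, hab, map_mul]
  · intro i j hij
    refine hind i j (hφ _ ?_)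
    rw [map_mul, map_zpow, map_zpow, hij]

theorem hasZ2At_of_joined {x y : X} (γ : Path x y) (h : HasZ2At X x) : HasZ2At X y :=
  Z2_of_inj (FundamentalGroup.fundamentalGroupMulEquivOfPath γ).toMonoidHom
    (fun a ha => (FundamentalGroup.fundamentalGroupMulEquivOfPath γ).injective
      (by rw [map_one]; exact ha)) h

open CategoryTheory in
theorem Z2_map_inj (i : C(X, Y)) (r : C(Y, X))
    (h : (r.comp i).Homotopic (ContinuousMap.id X)) (x : X) (a : FundamentalGroup X x)
    (ha : FundamentalGroup.map i x a = 1) : a = 1 := by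
  obtain ⟨H⟩ := h
  have hnat := (FundamentalGroupoidFunctor.homotopicMapsNatIso H).naturality
    (X := FundamentalGroupoid.mk x) (Y := FundamentalGroupoid.mk x) a
  have h1 : (FundamentalGroupoid.map (r.comp i)).map a = 𝟙 _ := by
    rw [FundamentalGroupoid.map_comp]
    change (FundamentalGroupoid.map r).map ((FundamentalGroupoid.map i).map a) = 𝟙 _
    have h2 : (FundamentalGroupoid.map i).map a = 𝟙 _ := ha
    rw [h2]
    exact CategoryTheory.Functor.map_id _ _
  rw [h1, Category.id_comp] at hnat
  have h3 : (FundamentalGroupoid.map (ContinuousMap.id X)).map a = 𝟙 _ := by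
    have h4 := hnat.symm
    rw [← cancel_epi ((FundamentalGroupoidFunctor.homotopicMapsNatIso H).app
      (FundamentalGroupoid.mk x)), h4, Category.comp_id]
  rw [FundamentalGroupoid.map_id] at h3
  exact h3

/-- if the identity of `X` factors up to homotopy through `Y`, independent commuting
elements of `X` give independent commuting elements of `Y` -/
theorem hasZ2_of_retract (i : C(X, Y)) (r : C(Y, X))
    (h : (r.comp i).Homotopic (ContinuousMap.id X)) (hX : HasZ2 X) : HasZ2 Y := by
  obtain ⟨x, hx⟩ := hX
  exact ⟨i x, Z2_of_inj (FundamentalGroup.map i x) (Z2_map_inj i r h x) hx⟩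

theorem hasZ2_of_equiv (e : X ≃ₕ Y) (hX : HasZ2 X) : HasZ2 Y :=
  hasZ2_of_retract e.toFun e.invFun e.left_inv hX

end CT
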