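import Mathlib
import Pool.Agent.CT.WedgeModel
import Pool.Agent.CT.Walk
import Pool.Agent.CT.Hol
import Pool.Agent.CT.Free
import Pool.Agent.CT.Z2

/-!
# Combinatorial topology: commuting elements in fundamental groups of wedges of spheres
-/

namespace CT

open scoped unitInterval ContinuousMap

variable {n : ℕ} (d : Fin n → ℕ)

/-! ### Faces of the model -/

theorem WPI_none_mem (i : Fin n) : (none : WV d) ∈ wsimp d i := Finset.mem_insert_self _ _

theorem WPI_some_mem (i : Fin n) (x : Σ i : Fin n, Fin (d i + 1)) :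
    (some x : WV d) ∈ wsimp d i ↔ x.1 = i := by
  constructor
  · intro h
    rcases Finset.mem_insert.1 h with h | h
    · exact absurd h (by simp)
    · obtain ⟨j, -, hj⟩ := Finset.mem_image.1 h
      have := Option.some.inj hj
      rw [← this]
  · rintro rfl
    refine Finset.mem_insert_of_mem (Finset.mem_image.2 ⟨x.2, Finset.mem_univ _, rfl⟩)

theorem WPI_card (i : Fin n) : (wsimp d i).card = d i + 2 := by
  unfold wsimp
  rw [Finset.card_insert_of_notMem, Finset.card_image_of_injective, Finset.card_univ,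
    Fintype.card_fin]
  · intro a b h
    have h2 := Option.some.inj h
    exact eq_of_heq (Sigma.mk.inj h2).2
  · intro h
    obtain ⟨j, -, hj⟩ := Finset.mem_image.1 h
    exact absurd hj (by simp)

theorem WPI_face_of_card (i : Fin n) (s : Finset (WV d)) (hs : s.Nonempty) (h : s ⊆ wsimp d i)
    (hc : s.card < d i + 2) : s ∈ WM d := by
  refine Or.inr ⟨hs, i, Finset.ssubset_iff_subset_ne.2 ⟨h, ?_⟩⟩
  rintro rfl
  rw [WPI_card] at hc
  exact lt_irrefl _ hc

theorem WPI_face (s : Finset (WV d)) (hs : s ∈ WM d) (x : Σ i : Fin n, Fin (d i + 1))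
    (hx : some x ∈ s) : s ⊆ wsimp d x.1 ∧ s.card < d x.1 + 2 := by
  rcases hs with rfl | ⟨-, i, hi⟩
  · exact absurd (Finset.mem_singleton.1 hx) (by simp)
  · have h1 := (WPI_some_mem d i x).1 (hi.1 hx)
    subst h1
    refine ⟨hi.1, ?_⟩
    rw [← WPI_card]
    exact Finset.card_lt_card hi

/-! ### The cocycle -/

open Classical in
/-- the cocycle: a generator of the free group for each circle -/
noncomputable def WPI_c (u v : WV d) : FreeGroup (Fin n) :=
  match u, v with
  | some x, some y =>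
    if x.1 = y.1 ∧ d x.1 = 1 then
      FreeGroup.of x.1 ^ (((y.2 : ℕ) : ℤ) - ((x.2 : ℕ) : ℤ)) else 1
  | none, some _ => 1
  | some _, none => 1
  | none, none => 1

theorem WPI_c_some (x y : Σ i : Fin n, Fin (d i + 1)) (h : x.1 = y.1) (h1 : d x.1 = 1) :
    WPI_c d (some x) (some y) = FreeGroup.of x.1 ^ (((y.2 : ℕ) : ℤ) - ((x.2 : ℕ) : ℤ)) :=
  if_pos ⟨h, h1⟩

theorem WPI_c_some' (x y : Σ i : Fin n, Fin (d i + 1)) (h1 : d x.1 ≠ 1) :
    WPI_c d (some x) (some y) = 1 :=
  if_neg fun h => h1 h.2

theorem WPI_c_none (u : WV d) : WPI_c d none u = 1 := by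
  cases u <;> rfl

theorem WPI_c_none' (u : WV d) : WPI_c d u none = 1 := by
  cases u <;> rfl

theorem WPI_c_self (u : WV d) : WPI_c d u u = 1 := by
  rcases u with _ | x
  · rfl
  · by_cases h : d x.1 = 1
    · rw [WPI_c_some d x x rfl h, sub_self, zpow_zero]
    · exact WPI_c_some' d x x h

theorem WPI_c_inv (u v : WV d) : WPI_c d u v * WPI_c d v u = 1 := by
  rcases u with _ | x
  · rw [WPI_c_none, WPI_c_none', one_mul]
  · rcases v with _ | y
    · rw [WPI_c_none, WPI_c_none', one_mul]
    · by_cases h : x.1 = y.1 ∧ d x.1 = 1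
      · obtain ⟨h, h1⟩ := h
        have h2 : d y.1 = 1 := h ▸ h1
        have h3 : FreeGroup.of y.1 = FreeGroup.of x.1 := by rw [h]
        rw [WPI_c_some d x y h h1, WPI_c_some d y x h.symm h2, h3, ← zpow_add]
        simp
      · have h1 : WPI_c d (some x) (some y) = 1 := if_neg h
        have h2 : WPI_c d (some y) (some x) = 1 :=
          if_neg fun h' : y.1 = x.1 ∧ d y.1 = 1 => h ⟨h'.1.symm, h'.1 ▸ h'.2⟩
        rw [h1, h2, one_mul]

theorem WPI_hc (s : Finset (WV d)) (hs : s ∈ WM d) (u : WV d) (hu : u ∈ s) (v : WV d)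
    (hv : v ∈ s) (w : WV d) (hw : w ∈ s) : WPI_c d u v * WPI_c d v w = WPI_c d u w := by
  by_cases huv : u = v
  · rw [huv, WPI_c_self, one_mul]
  by_cases hvw : v = w
  · rw [hvw, WPI_c_self, mul_one]
  by_cases huw : u = w
  · rw [huw, WPI_c_self, WPI_c_inv]
  have hcard : 3 ≤ s.card := by
    have h1 : ({u, v, w} : Finset (WV d)).card = 3 := Finset.card_eq_three.2
      ⟨u, v, w, huv, huw, hvw, rfl⟩
    rw [← h1]
    refine Finset.card_le_card ?_
    intro x hx
    simp only [Finset.mem_insert, Finset.mem_singleton] at hx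
    rcases hx with rfl | rfl | rfl <;> assumption
  have key : ∀ a ∈ s, ∀ b ∈ s, WPI_c d a b = 1 := by
    intro a ha b hb
    rcases a with _ | x
    · exact WPI_c_none d b
    · rcases b with _ | y
      · exact WPI_c_none' d _
      · have h1 := (WPI_face d s hs x ha).2
        exact WPI_c_some' d x y (by omega)
  rw [key u hu v hv, key v hv w hw, key u hu w hw, one_mul]

/-! ### Paths -/

section paths

variable {X : Type} [TopologicalSpace X]

theorem WPI_symm_trans {x y z : X} (a : Path.Homotopic.Quotient x y)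
    (b : Path.Homotopic.Quotient y z) : (a.trans b).symm = b.symm.trans a.symm := by
  induction a using Path.Homotopic.Quotient.ind with | mk a =>
  induction b using Path.Homotopic.Quotient.ind with | mk b =>
  rw [← Path.Homotopic.Quotient.mk_trans, ← Path.Homotopic.Quotient.mk_symm,
    ← Path.Homotopic.Quotient.mk_symm, ← Path.Homotopic.Quotient.mk_symm,
    ← Path.Homotopic.Quotient.mk_trans, Path.trans_symm]

end paths

/-- the class of an edge -/
noncomputable def WPI_E (u v : VF (WM d)) (h : ({u.1, v.1} : Finset (WV d)) ∈ WM d) :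
    Path.Homotopic.Quotient (ptv u) (ptv v) :=
  Path.Homotopic.Quotient.mk (edge (WM_isCx d) u v h)

/-- the base vertex -/
def WPI_b : VF (WM d) := ⟨none, WM_base d⟩

theorem WPI_E_self (u : VF (WM d)) (h : ({u.1, u.1} : Finset (WV d)) ∈ WM d) :
    WPI_E d u u h = Path.Homotopic.Quotient.refl _ :=
  Path.Homotopic.Quotient.eq.2 (edge_self (WM_isCx d) u h)

theorem WPI_E_symm (u v : VF (WM d)) (h : ({u.1, v.1} : Finset (WV d)) ∈ WM d)
    (h' : ({v.1, u.1} : Finset (WV d)) ∈ WM d) :
    (WPI_E d u v h).symm = WPI_E d v u h' := by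
  unfold WPI_E
  rw [← Path.Homotopic.Quotient.mk_symm]
  exact Path.Homotopic.Quotient.eq.2 (edge_symm (WM_isCx d) u v h h')

theorem WPI_E_back (u v : VF (WM d)) (h : ({u.1, v.1} : Finset (WV d)) ∈ WM d)
    (h' : ({v.1, u.1} : Finset (WV d)) ∈ WM d) :
    (WPI_E d u v h).trans (WPI_E d v u h') = Path.Homotopic.Quotient.refl _ := by
  rw [← WPI_E_symm d u v h h', Path.Homotopic.Quotient.trans_symm]

theorem WPI_E_tri (u v w : VF (WM d)) (huv : ({u.1, v.1} : Finset (WV d)) ∈ WM d)
    (hvw : ({v.1, w.1} : Finset (WV d)) ∈ WM d) (huw : ({u.1, w.1} : Finset (WV d)) ∈ WM d)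
    (h : ({u.1, v.1, w.1} : Finset (WV d)) ∈ WM d) :
    (WPI_E d u v huv).trans (WPI_E d v w hvw) = WPI_E d u w huw := by
  unfold WPI_E
  rw [← Path.Homotopic.Quotient.mk_trans]
  exact Path.Homotopic.Quotient.eq.2 (edge_tri (WM_isCx d) u v w huv hvw huw h)

/-- vertices of a sphere of positive dimension -/
theorem WPI_pair (i : Fin n) (hi : 1 ≤ d i) (u v : WV d) (hu : u ∈ wsimp d i)
    (hv : v ∈ wsimp d i) : ({u, v} : Finset (WV d)) ∈ WM d := by
  refine WPI_face_of_card d i _ ⟨u, Finset.mem_insert_self _ _⟩ ?_ ?_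
  · intro x hx
    simp only [Finset.mem_insert, Finset.mem_singleton] at hx
    rcases hx with rfl | rfl <;> assumption
  · exact lt_of_le_of_lt Finset.card_le_two (by omega)

theorem WPI_vert (i : Fin n) (u : WV d) (hu : u ∈ wsimp d i) :
    ({u} : Finset (WV d)) ∈ WM d := by
  refine WPI_face_of_card d i _ ⟨u, Finset.mem_singleton_self _⟩ ?_ ?_
  · intro x hx
    rwa [Finset.mem_singleton.1 hx]
  · rw [Finset.card_singleton]
    omega

/-- the `j`-th vertex of the `i`-th sphere -/
def WPI_v (x : Σ i : Fin n, Fin (d i + 1)) : VF (WM d) :=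
  ⟨some x, WPI_vert d x.1 _ ((WPI_some_mem d x.1 x).2 rfl)⟩

/-- the generators -/
noncomputable def WPI_gen (i : Fin n) : Path.Homotopic.Quotient (ptv (WPI_b d)) (ptv (WPI_b d)) :=
  if h : d i = 1 then
    (WPI_E d (WPI_b d) (WPI_v d ⟨i, ⟨0, by omega⟩⟩)
      (WPI_pair d i h.ge _ _ (WPI_none_mem d i) ((WPI_some_mem d i _).2 rfl))).trans
      ((WPI_E d (WPI_v d ⟨i, ⟨0, by omega⟩⟩) (WPI_v d ⟨i, ⟨1, by omega⟩⟩)
        (WPI_pair d i h.ge _ _ ((WPI_some_mem d i _).2 rfl) ((WPI_some_mem d i _).2 rfl))).trans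
        (WPI_E d (WPI_v d ⟨i, ⟨1, by omega⟩⟩) (WPI_b d)
          (WPI_pair d i h.ge _ _ ((WPI_some_mem d i _).2 rfl) (WPI_none_mem d i))))
  else Path.Homotopic.Quotient.refl _

/-- the loops at the base vertex, with the opposite multiplication -/
abbrev WPI_G : Type := (FundamentalGroup (Rz (WM d)) (ptv (WPI_b d)))ᵐᵒᵖ

/-- the generators in the group -/
noncomputable def WPI_g (i : Fin n) : WPI_G d := MulOpposite.op (WPI_gen d i)

/-- the homomorphism from the free group -/
noncomputable def WPI_W (g : FreeGroup (Fin n)) :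
    Path.Homotopic.Quotient (ptv (WPI_b d)) (ptv (WPI_b d)) :=
  (FreeGroup.lift (WPI_g d) g).unop

theorem WPI_W_mul (g h : FreeGroup (Fin n)) :
    WPI_W d (g * h) = (WPI_W d g).trans (WPI_W d h) := by
  unfold WPI_W
  rw [map_mul, MulOpposite.unop_mul]
  rfl

theorem WPI_W_one : WPI_W d 1 = Path.Homotopic.Quotient.refl _ := by
  unfold WPI_W
  rw [map_one, MulOpposite.unop_one]
  rfl

theorem WPI_W_inv (g : FreeGroup (Fin n)) : WPI_W d g⁻¹ = (WPI_W d g).symm := by
  unfold WPI_W
  rw [map_inv, MulOpposite.unop_inv]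
  rfl

theorem WPI_W_of (i : Fin n) : WPI_W d (FreeGroup.of i) = WPI_gen d i := by
  unfold WPI_W
  rw [FreeGroup.lift_apply_of]
  rfl

/-- neighbours of vertices joined to the base are joined to the base -/
theorem WPI_next (u v : VF (WM d)) (h : ({u.1, v.1} : Finset (WV d)) ∈ WM d)
    (hu : ({u.1, none} : Finset (WV d)) ∈ WM d) : ({v.1, none} : Finset (WV d)) ∈ WM d := by
  obtain ⟨v, hv⟩ := v
  obtain ⟨u, hu'⟩ := u
  rcases v with _ | y
  · show ({none, none} : Finset (WV d)) ∈ WM d
    rw [Finset.pair_eq_singleton]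
    exact WM_base d
  rcases u with _ | x
  · have h : ({none, some y} : Finset (WV d)) ∈ WM d := h
    show ({some y, none} : Finset (WV d)) ∈ WM d
    rwa [Finset.pair_comm]
  · have h : ({some x, some y} : Finset (WV d)) ∈ WM d := h
    have hu : ({some x, none} : Finset (WV d)) ∈ WM d := hu
    have h1 := (WPI_face d _ hu x (Finset.mem_insert_self _ _)).2
    rw [Finset.card_pair (by simp)] at h1
    have h2 := (WPI_face d _ h x (Finset.mem_insert_self _ _)).1
      (Finset.mem_insert_of_mem (Finset.mem_singleton_self _))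
    exact WPI_pair d x.1 (by omega) _ _ h2 (WPI_none_mem d _)

theorem WPI_step (u v : VF (WM d)) (h : ({u.1, v.1} : Finset (WV d)) ∈ WM d)
    (hu : ({u.1, (WPI_b d).1} : Finset (WV d)) ∈ WM d)
    (hv : ({v.1, (WPI_b d).1} : Finset (WV d)) ∈ WM d) :
    (WPI_E d u v h).trans (WPI_E d v (WPI_b d) hv) =
      (WPI_E d u (WPI_b d) hu).trans (WPI_W d (WPI_c d u.1 v.1)) := by
  have key : ({u.1, v.1, (WPI_b d).1} : Finset (WV d)) ∈ WM d → WPI_c d u.1 v.1 = 1 →
      (WPI_E d u v h).trans (WPI_E d v (WPI_b d) hv) =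
      (WPI_E d u (WPI_b d) hu).trans (WPI_W d (WPI_c d u.1 v.1)) := by
    intro h1 h2
    rw [h2, WPI_W_one, Path.Homotopic.Quotient.trans_refl]
    exact WPI_E_tri d u v (WPI_b d) h hv hu h1
  have hbu : ({(WPI_b d).1, u.1} : Finset (WV d)) ∈ WM d := by
    rw [Finset.pair_comm]
    exact hu
  have hbv : ({(WPI_b d).1, v.1} : Finset (WV d)) ∈ WM d := by
    rw [Finset.pair_comm]
    exact hv
  have hvu : ({v.1, u.1} : Finset (WV d)) ∈ WM d := by
    rw [Finset.pair_comm]
    exact h
  -- the two directions on a circle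
  have key1 : WPI_W d (WPI_c d u.1 v.1) = (WPI_E d (WPI_b d) u hbu).trans
      ((WPI_E d u v h).trans (WPI_E d v (WPI_b d) hv)) →
      (WPI_E d u v h).trans (WPI_E d v (WPI_b d) hv) =
      (WPI_E d u (WPI_b d) hu).trans (WPI_W d (WPI_c d u.1 v.1)) := by
    intro h1
    rw [h1, ← Path.Homotopic.Quotient.trans_assoc (WPI_E d u (WPI_b d) hu),
      WPI_E_back, Path.Homotopic.Quotient.refl_trans]
  have key2 : WPI_W d (WPI_c d u.1 v.1) = ((WPI_E d (WPI_b d) v hbv).trans
      ((WPI_E d v u hvu).trans (WPI_E d u (WPI_b d) hu))).symm →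
      (WPI_E d u v h).trans (WPI_E d v (WPI_b d) hv) =
      (WPI_E d u (WPI_b d) hu).trans (WPI_W d (WPI_c d u.1 v.1)) := by
    intro h1
    apply key1
    rw [h1, WPI_symm_trans, WPI_symm_trans, WPI_E_symm d u (WPI_b d) hu hbu,
      WPI_E_symm d v u hvu h, WPI_E_symm d (WPI_b d) v hbv hv,
      Path.Homotopic.Quotient.trans_assoc]
  obtain ⟨v, hv'⟩ := v
  obtain ⟨u, hu'⟩ := u
  rcases v with _ | y
  · refine key ?_ (WPI_c_none' d _)
    show ({u, none, none} : Finset (WV d)) ∈ WM d
    rw [Finset.pair_eq_singleton]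
    exact hu
  rcases u with _ | x
  · refine key ?_ (WPI_c_none d _)
    show ({none, some y, none} : Finset (WV d)) ∈ WM d
    have h1 : ({none, some y, none} : Finset (WV d)) = {none, some y} := by
      ext z
      simp only [Finset.mem_insert, Finset.mem_singleton]
      tauto
    rw [h1]
    exact h
  have hxy : y.1 = x.1 := by
    have h2 := (WPI_face d _ h x (Finset.mem_insert_self _ _)).1
      (Finset.mem_insert_of_mem (Finset.mem_singleton_self _))
    exact (WPI_some_mem d x.1 y).1 h2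
  by_cases hne : x = y
  · subst hne
    refine key ?_ (WPI_c_self d _)
    show ({some x, some x, none} : Finset (WV d)) ∈ WM d
    rw [Finset.insert_eq_of_mem (Finset.mem_insert_self _ _)]
    exact hu
  by_cases hd : d x.1 = 1
  · -- the circle
    clear key
    obtain ⟨i, a, ha⟩ := x
    obtain ⟨i', b, hb⟩ := y
    have hxy : i' = i := hxy
    subst hxy
    have hd : d i' = 1 := hd
    have hgen : WPI_W d (FreeGroup.of i') = _ := (WPI_W_of d i').trans (dif_pos hd)
    have hc := WPI_c_some d ⟨i', ⟨a, ha⟩⟩ ⟨i', ⟨b, hb⟩⟩ rfl hd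
    have hab : a ≠ b := fun h => hne (by subst h; rfl)
    have ha' : a = 0 ∨ a = 1 := by omega
    have hb' : b = 0 ∨ b = 1 := by omega
    rcases ha' with rfl | rfl
    · rcases hb' with rfl | rfl
      · exact absurd rfl hab
      · apply key1
        have h3 : WPI_c d (some ⟨i', ⟨0, ha⟩⟩) (some ⟨i', ⟨1, hb⟩⟩) = FreeGroup.of i' := by
          rw [hc]
          simp
        exact (congrArg (WPI_W d) h3).trans hgen
    · rcases hb' with rfl | rfl
      · apply key2
        have h3 : WPI_c d (some ⟨i', ⟨1, ha⟩⟩) (some ⟨i', ⟨0, hb⟩⟩) = (FreeGroup.of i')⁻¹ := by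
          rw [hc]
          simp
        have h4 := (congrArg (WPI_W d) h3).trans (WPI_W_inv d _)
        rw [hgen] at h4
        exact h4
      · exact absurd rfl hab
  · refine key ?_ (WPI_c_some' d x y hd)
    have h1 : 1 ≤ d x.1 := by
      have h1 := (WPI_face d _ hu x (Finset.mem_insert_self _ _)).2
      have h2 : ({some x, none} : Finset (WV d)).card = 2 := Finset.card_pair (by simp)
      have h3 : ({some x, none} : Finset (WV d)).card < d x.1 + 2 := h1
      omega
    refine WPI_face_of_card d x.1 _ ⟨_, Finset.mem_insert_self _ _⟩ ?_ ?_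
    · intro z hz
      have hz : z ∈ ({some x, some y, none} : Finset (WV d)) := hz
      simp only [Finset.mem_insert, Finset.mem_singleton] at hz
      rcases hz with rfl | rfl | rfl
      · exact (WPI_some_mem d _ _).2 rfl
      · exact (WPI_some_mem d _ _).2 hxy
      · exact WPI_none_mem d _
    · exact lt_of_le_of_lt Finset.card_le_three (by omega)

/-- the fundamental group of the model embeds in a free group (holonomy in the free group
on the circles is injective by simplicial approximation) -/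
theorem WM_free : ∃ Φ : FundamentalGroup (Rz (WM d)) (ptv ⟨none, WM_base d⟩) →*
    FreeGroup (Fin n), Function.Injective Φ := by
  obtain ⟨Φ, h1, h2, h3⟩ := holonomy (WM_isCx d) (WPI_c d) (WPI_hc d)
  let Ψ : ∀ u v : VF (WM d), Path.Homotopic.Quotient (ptv u) (ptv v) → FreeGroup (Fin n) :=
    fun u v => Quotient.lift (Φ u v) (h1 u v)
  have hmk : ∀ u v γ, Ψ u v (Path.Homotopic.Quotient.mk γ) = Φ u v γ := fun _ _ _ => rfl
  have htr : ∀ u v w (γ : Path.Homotopic.Quotient (ptv u) (ptv v))
      (δ : Path.Homotopic.Quotient (ptv v) (ptv w)), Ψ u w (γ.trans δ) = Ψ u v γ * Ψ v w δ := by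
    intro u v w γ δ
    induction γ using Path.Homotopic.Quotient.ind with | mk γ =>
    induction δ using Path.Homotopic.Quotient.ind with | mk δ =>
    rw [← Path.Homotopic.Quotient.mk_trans]
    exact h2 u v w γ δ
  have hE : ∀ u v h, Ψ u v (WPI_E d u v h) = WPI_c d u.1 v.1 := fun u v h => h3 u v h
  have hone : ∀ u, Ψ u u (Path.Homotopic.Quotient.refl _) = 1 := by
    intro u
    have h4 := htr u u u (Path.Homotopic.Quotient.refl _) (Path.Homotopic.Quotient.refl _)
    rw [Path.Homotopic.Quotient.refl_trans] at h4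
    exact (mul_eq_left.1 h4.symm)
  have key : ∀ (u v : VF (WM d)) (γ : Path.Homotopic.Quotient (ptv u) (ptv v))
      (hu : ({u.1, (WPI_b d).1} : Finset (WV d)) ∈ WM d)
      (hv : ({v.1, (WPI_b d).1} : Finset (WV d)) ∈ WM d),
      γ.trans (WPI_E d v (WPI_b d) hv) =
        (WPI_E d u (WPI_b d) hu).trans (WPI_W d (Ψ u v γ)) := by
    refine path_induction (WM_isCx d) (C := fun u v γ => ∀
      (hu : ({u.1, (WPI_b d).1} : Finset (WV d)) ∈ WM d)
      (hv : ({v.1, (WPI_b d).1} : Finset (WV d)) ∈ WM d),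
      γ.trans (WPI_E d v (WPI_b d) hv) =
        (WPI_E d u (WPI_b d) hu).trans (WPI_W d (Ψ u v γ))) ?_ ?_
    · intro u hu hv
      rw [hone, WPI_W_one, Path.Homotopic.Quotient.refl_trans,
        Path.Homotopic.Quotient.trans_refl]
    · intro u v w h γ ih hu hw
      have hv := WPI_next d u v h hu
      have h4 : Ψ u w ((WPI_E d u v h).trans γ) = WPI_c d u.1 v.1 * Ψ v w γ := by
        rw [htr, hE]
      have h5 : ((WPI_E d u v h).trans γ).trans (WPI_E d w (WPI_b d) hw) =
          (WPI_E d u (WPI_b d) hu).trans (WPI_W d (Ψ u w ((WPI_E d u v h).trans γ))) := by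
        rw [h4, WPI_W_mul, Path.Homotopic.Quotient.trans_assoc, ih hv hw,
          ← Path.Homotopic.Quotient.trans_assoc, WPI_step d u v h hu hv,
          Path.Homotopic.Quotient.trans_assoc]
      exact h5
  have hbb : ({(WPI_b d).1, (WPI_b d).1} : Finset (WV d)) ∈ WM d := by
    rw [Finset.pair_eq_singleton]
    exact WM_base d
  have key2 : ∀ γ : Path.Homotopic.Quotient (ptv (WPI_b d)) (ptv (WPI_b d)),
      γ = WPI_W d (Ψ _ _ γ) := by
    intro γ
    have h4 := key _ _ γ hbb hbb
    rwa [WPI_E_self, Path.Homotopic.Quotient.trans_refl,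
      Path.Homotopic.Quotient.refl_trans] at h4
  refine ⟨{ toFun := fun γ => (Ψ (WPI_b d) (WPI_b d) γ)⁻¹, map_one' := ?_, map_mul' := ?_ }, ?_⟩
  · rw [inv_eq_one]
    exact hone (WPI_b d)
  · intro a b
    rw [← mul_inv_rev]
    exact congrArg _ (htr _ _ _ b a)
  · intro a b hab
    have h4 : Ψ (WPI_b d) (WPI_b d) a = Ψ (WPI_b d) (WPI_b d) b := inv_injective hab
    exact (key2 a).trans ((congrArg (WPI_W d) h4).trans (key2 b).symm)

/-- the isolated vertices -/
theorem WPI_iso (x : Σ i : Fin n, Fin (d i + 1)) (hx : d x.1 = 0) (y : Rz (WM d)) :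
    y.1 (some x) = 0 ∨ y.1 = vtx (some x) := by
  obtain ⟨y, s, hs, h1, h2, h3⟩ := y
  by_cases hxs : some x ∈ s
  · right
    have h4 := WPI_face d s hs x hxs
    have h5 : s = {some x} := by
      rw [hx] at h4
      have h6 := Finset.card_pos.2 ⟨_, hxs⟩
      have h7 : s.card = 1 := by omega
      obtain ⟨z, rfl⟩ := Finset.card_eq_one.1 h7
      rw [Finset.mem_singleton.1 hxs]
    subst h5
    rw [Finset.sum_singleton] at h3
    funext v
    show y v = vtx (some x) v
    unfold vtx
    split_ifs with h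
    · rw [h]
      exact h3
    · exact h2 v (by rwa [Finset.mem_singleton])
  · left
    exact h2 _ hxs

/-- every point which cannot be joined to the base vertex is isolated -/
theorem WM_isolated (x : Rz (WM d)) (h : ¬ Joined x (ptv ⟨none, WM_base d⟩)) :
    ∀ γ : Path x x, γ = Path.refl x := by
  obtain ⟨v, hv⟩ := joined_vertex (WM_isCx d) x
  obtain ⟨v, hv'⟩ := v
  rcases v with _ | z
  · exact absurd hv h
  have hz : d z.1 = 0 := by
    by_contra hz
    apply h
    refine hv.trans ⟨edge (WM_isCx d) ⟨some z, hv'⟩ ⟨none, WM_base d⟩ ?_⟩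
    exact WPI_pair d z.1 (Nat.one_le_iff_ne_zero.2 hz) _ _ ((WPI_some_mem d _ _).2 rfl)
      (WPI_none_mem d _)
  -- paths through an isolated vertex are constant
  have key : ∀ (a b : Rz (WM d)) (γ : Path a b), b.1 = vtx (some z) →
      ∀ t, (γ t).1 = vtx (some z) := by
    intro a b γ hb
    have hset : IsClopen {t : I | (γ t).1 (some z) = 1} := by
      have hc : Continuous fun t : I => (γ t).1 (some z) :=
        (continuous_apply _).comp (continuous_subtype_val.comp γ.continuous)
      constructor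
      · exact isClosed_eq hc continuous_const
      · have h1 : {t : I | (γ t).1 (some z) = 1} = {t : I | 0 < (γ t).1 (some z)} := by
          ext t
          show (γ t).1 (some z) = 1 ↔ 0 < (γ t).1 (some z)
          constructor
          · intro h
            rw [h]
            exact one_pos
          · intro h
            rcases WPI_iso d z hz (γ t) with h1 | h1
            · exact absurd h1 h.ne'
            · rw [h1]
              exact if_pos rfl
        rw [h1]
        exact isOpen_lt continuous_const hc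
    have h1 : {t : I | (γ t).1 (some z) = 1} = Set.univ := by
      refine hset.eq_univ ⟨1, ?_⟩
      show (γ 1).1 (some z) = 1
      rw [γ.target, hb]
      exact if_pos rfl
    intro t
    have h2 : t ∈ {t : I | (γ t).1 (some z) = 1} := h1 ▸ Set.mem_univ t
    have h2 : (γ t).1 (some z) = 1 := h2
    rcases WPI_iso d z hz (γ t) with h3 | h3
    · rw [h3] at h2
      exact absurd h2 zero_ne_one
    · exact h3
  obtain ⟨δ⟩ := hv
  have hx : x.1 = vtx (some z) := by
    have h1 := key _ _ δ rfl 0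
    rwa [δ.source] at h1
  intro γ
  exact Path.ext (funext fun t => Subtype.ext ((key _ _ γ hx t).trans hx.symm))

theorem WM_not_z2 : ¬ HasZ2 (Rz (WM d)) := by
  rintro ⟨x, hx⟩
  by_cases h : Joined x (ptv ⟨none, WM_base d⟩)
  · obtain ⟨γ⟩ := h
    obtain ⟨a, b, hab, h2⟩ := hasZ2At_of_joined γ hx
    obtain ⟨Φ, hΦ⟩ := WM_free d
    obtain ⟨i, j, hij, h3⟩ := free_commute (Φ a) (Φ b) (by rw [← map_mul, hab, map_mul])
    rw [← map_zpow, ← map_zpow, ← map_mul, map_eq_one_iff Φ hΦ] at h3
    obtain ⟨hi, hj⟩ := h2 i j h3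
    rcases hij with h | h
    · exact h hi
    · exact h hj
  · obtain ⟨a, b, hab, h2⟩ := hx
    have ha : a = 1 := by
      induction a using Quotient.ind with
      | _ γ =>
        rw [WM_isolated d x h γ]
        rfl
    have h3 := h2 1 0 (by rw [ha]; simp)
    exact one_ne_zero h3.1

/-- a space with two independent commuting elements in a fundamental group does not have the
homotopy type of a wedge of spheres -/
theorem not_isWedge {X : Type} [TopologicalSpace X] (h : HasZ2 X) : ¬ IsWedge X := by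
  rintro (hX | ⟨n, d, p, ⟨e⟩⟩)
  · obtain ⟨x, -⟩ := h
    exact hX.false x
  · obtain ⟨e'⟩ := wedge_model d p
    exact WM_not_z2 d (hasZ2_of_equiv (e.trans e'.toHomotopyEquiv) h)

end CT
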