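import Mathlib
import Pool.Agent.CT.Fam
import Pool.Agent.CT.NCpi
import Pool.Agent.CT.WedgePi
import Pool.Agent.CT.Skel
import Pool.Agent.CT.NCstar

/-!
# The undecidability theorems for nerve complexes
-/

namespace CT

open scoped unitInterval ContinuousMap

/-- A primitive recursive sequence of nerve complexes: if the `n`-th program halts, the
complex is a wedge of spheres, otherwise one of its fundamental groups contains two
commuting independent elements. -/
theorem nerve_family : ∃ T : ℕ → List (List ℕ), Primrec T ∧ (∀ n, GoodT (T n)) ∧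
    (∃ N, ∀ n a, OccT (T n) a ↔ a ≤ N) ∧
    (∀ n, (NB.hf n).Dom → IsWedge (Rz (NC (T n))) ∧ PathConnectedSpace (Rz (NC (T n)))) ∧
    (∀ n, ¬ (NB.hf n).Dom → HasZ2 (Rz (NC (T n)))) := by
  obtain ⟨m, R, w, hw, h1, -, h3⟩ := NB.family
  refine ⟨fun n => altT (famF R (w n)), famF_primrec R w hw,
    fun n => altT_good (famF_good R (w n)),
    ⟨(5 + m) + (5 + m), fun n a => altT_occ_iff (famF_good R (w n)) a⟩, ?_, ?_⟩
  · intro n hn
    refine nc_wedge (famF_good R (w n)) ((NB.allGens m).map (fun z => nu m (Sum.inl z))) ?_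
      R.length (famF_halt R (w n) _ (h1 n hn))
    exact allGens_nodup.map ((nu m).injective.comp Sum.inl_injective)
  · intro n hn
    obtain ⟨h4, h5⟩ := h3 n hn
    obtain ⟨a, b, hab, h6⟩ := famF_z2 R (w n) ⟨_, _, h4.eq, h5⟩
    exact nc_z2 (famF_good R (w n)) a b hab h6

/-- The same for the complexes with two additional dominated vertices. -/
theorem star_family_strong : ∃ T : ℕ → List (List ℕ), Primrec T ∧ (∀ n, GoodT (T n)) ∧
    (∃ N, ∀ n a, OccT (T n) a ↔ a ≤ N) ∧
    (∀ n, (NB.hf n).Dom → IsWedge (Rz (NCs (T n))) ∧ PathConnectedSpace (Rz (NCs (T n)))) ∧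
    (∀ n, ¬ (NB.hf n).Dom → HasZ2 (Rz (NCs (T n)))) := by
  obtain ⟨T, h1, h2, h3, h4, h5⟩ := nerve_family
  refine ⟨T, h1, h2, h3, fun n h => ?_, fun n h => ?_⟩
  · obtain ⟨e⟩ := NCs_equiv (h2 n)
    obtain ⟨h6, h7⟩ := h4 n h
    exact ⟨isWedge_of_equiv e.symm h6, pathConnected_of_equiv e.symm⟩
  · obtain ⟨e⟩ := NCs_equiv (h2 n)
    exact hasZ2_of_equiv e.symm (h5 n h)

/-- The same for the complexes with two additional dominated vertices: the complex is a
wedge of spheres if and only if the `n`-th program halts. -/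
theorem star_family : ∃ T : ℕ → List (List ℕ), Primrec T ∧ (∀ n, GoodT (T n)) ∧
    (∃ N, ∀ n a, OccT (T n) a ↔ a ≤ N) ∧
    ∀ n, IsWedge (Rz (NCs (T n))) ↔ (NB.hf n).Dom := by
  obtain ⟨T, h1, h2, h3, h4, h5⟩ := nerve_family
  refine ⟨T, h1, h2, h3, fun n => ?_⟩
  obtain ⟨e⟩ := NCs_equiv (h2 n)
  constructor
  · intro h
    by_contra hn
    exact not_isWedge (hasZ2_of_equiv e.symm (h5 n hn)) h
  · intro h
    exact isWedge_of_equiv e.symm (h4 n h).1

variable {ι V : Type} {D : ι → Finset V}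

/-- **Skeleta of complexes generated by simplices.**  Let a finite family of simplices with
`r ≥ 3` vertices, each one with a facet which lies in no other simplex, have the nerve `N`.  If `N` is a path
connected wedge of spheres then the poset of faces with fewer than `r` vertices is a wedge
of spheres; if `N` has two commuting independent elements in a fundamental group, it is
not. -/
theorem skel_wedge [DecidableEq V] (hfin : {s | (D s).Nonempty}.Finite) (r : ℕ) (hr : 3 ≤ r)
    (hcard : ∀ s, (D s).Nonempty → (D s).card = r)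
    (hfree : ∀ s, (D s).Nonempty → ∃ u ∈ D s, ∀ t, (D s).erase u ⊆ D t → t = s)
    {N : Set (Finset ι)} (hN : nerve D = N) (h1 : IsWedge (Rz N))
    (h2 : PathConnectedSpace (Rz N)) : IsWedge (Rz (OC (skel D r))) := by
  obtain ⟨e1⟩ := nerve_equiv hfin
  have e2 := (sd (nerve_isCx D) (nerve_finite hfin)).toHomotopyEquiv
  obtain ⟨J, hJ, S, hS, f, hf1, hf2, ⟨e3⟩⟩ := skeleton_free hfin r hr hcard hfree
  subst hN
  have e4 := e1.trans e2
  have h3 := isWedge_of_equiv e4.symm h1
  have h4 := pathConnected_of_equiv e4.symm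
  have h5 := (isWedge_att h3 S (fun _ => r - 3)
    (fun j => ⟨(hf1 j).some.toHomotopyEquiv⟩) f hf2).1
  exact isWedge_of_equiv e3.symm h5

theorem skel_not_wedge [DecidableEq V] (hfin : {s | (D s).Nonempty}.Finite) (r : ℕ) (hr : 3 ≤ r)
    (hcard : ∀ s, (D s).Nonempty → (D s).card = r)
    (hfree : ∀ s, (D s).Nonempty → ∃ u ∈ D s, ∀ t, (D s).erase u ⊆ D t → t = s)
    {N : Set (Finset ι)} (hN : nerve D = N) (h1 : HasZ2 (Rz N)) :
    ¬ IsWedge (Rz (OC (skel D r))) := by
  obtain ⟨e1⟩ := nerve_equiv hfin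
  have e2 := (sd (nerve_isCx D) (nerve_finite hfin)).toHomotopyEquiv
  obtain ⟨J, hJ, S, hS, f, hf1, hf2, ⟨e3⟩⟩ := skeleton_free hfin r hr hcard hfree
  subst hN
  have e4 := e1.trans e2
  have h3 := hasZ2_of_equiv e4.symm h1
  obtain ⟨ρ, hρ⟩ := att_retract S f hf2
  have h4 : HasZ2 (Att S f) := hasZ2_of_retract (attIn S f) ρ
    (homotopic_of_eq (ContinuousMap.ext hρ)) h3
  exact not_isWedge (hasZ2_of_equiv e3.symm h4)

end CT
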