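import Mathlib
import Pool.Agent.CT.Quillen
import Pool.Agent.CT.Subd

/-!
# Combinatorial topology: the nerve lemma for covers by subcomplexes
-/

namespace CT

open scoped unitInterval ContinuousMap

open Classical in
/-- **the nerve lemma** for a cover of a finite complex by subcomplexes all of whose
nonempty intersections are contractible -/
theorem nerve_cover {ι V : Type} {F : Set (Finset V)} (hF : IsCx F) (hfin : F.Finite)
    (K : ι → Set (Finset V)) (hK : ∀ s, IsCx (K s)) (hKF : ∀ s, K s ⊆ F)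
    (hcov : ∀ c ∈ F, ∃ s, c ∈ K s) (hι : {s | (K s).Nonempty}.Finite)
    (hc : ∀ S : Finset ι, S.Nonempty → (∃ c, ∀ s ∈ S, c ∈ K s) →
      ContractibleSpace (Rz {c | ∀ s ∈ S, c ∈ K s})) :
    Nonempty (Rz F ≃ₕ Rz (OC {S : Finset ι | S.Nonempty ∧ ∃ c, ∀ s ∈ S, c ∈ K s})) := by
  have hφmem : ∀ (c : Finset V) (s : ι),
      s ∈ hι.toFinset.filter (fun s => c ∈ K s) ↔ c ∈ K s := by
    intro c s
    simp only [Finset.mem_filter, Set.Finite.mem_toFinset, Set.mem_setOf_eq]
    exact ⟨fun h => h.2, fun h => ⟨⟨c, h⟩, h⟩⟩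
  have hB : {S : Finset ι | S.Nonempty ∧ ∃ c, ∀ s ∈ S, c ∈ K s}.Finite := by
    refine (Finset.finite_toSet hι.toFinset.powerset).subset ?_
    rintro S ⟨-, c, hcS⟩
    simp only [Finset.coe_powerset, Set.mem_preimage, Set.mem_powerset_iff, Finset.coe_subset]
    intro s hs
    simp only [Set.Finite.mem_toFinset, Set.mem_setOf_eq]
    exact ⟨c, hcS s hs⟩
  obtain ⟨e⟩ := quillen_anti (A := F)
    (B := {S : Finset ι | S.Nonempty ∧ ∃ c, ∀ s ∈ S, c ∈ K s}) hfin hB
    (fun c => hι.toFinset.filter (fun s => c ∈ K s))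
    (by
      intro c hcF
      obtain ⟨s, hs⟩ := hcov c hcF
      exact ⟨⟨s, (hφmem c s).2 hs⟩, c, fun t ht => (hφmem c t).1 ht⟩)
    (by
      intro p hp q hq hpq s hs
      exact (hφmem p s).2 ((hK s).down q ((hφmem q s).1 hs) p hpq (hF.ne p hp)))
    (by
      rintro S ⟨hSne, c₀, hc₀⟩
      have hset : {p ∈ F | S ≤ hι.toFinset.filter (fun s => p ∈ K s)} =
          {c | ∀ s ∈ S, c ∈ K s} := by
        ext c
        constructor
        · rintro ⟨-, h⟩ s hs
          exact (hφmem c s).1 (h hs)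
        · intro h
          refine ⟨?_, fun s hs => (hφmem c s).2 (h s hs)⟩
          obtain ⟨s, hs⟩ := hSne
          exact hKF s (h s hs)
      rw [hset]
      have hcx : IsCx {c | ∀ s ∈ S, c ∈ K s} := by
        refine ⟨?_, ?_⟩
        · intro c hc'
          obtain ⟨s, hs⟩ := hSne
          exact (hK s).ne c (hc' s hs)
        · intro c hc' t htc ht s hs
          exact (hK s).down c (hc' s hs) t htc ht
      have hf : {c | ∀ s ∈ S, c ∈ K s}.Finite := by
        refine hfin.subset ?_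
        intro c hc'
        obtain ⟨s, hs⟩ := hSne
        exact hKF s (hc' s hs)
      haveI := hc S hSne ⟨c₀, hc₀⟩
      exact (sd hcx hf).contractibleSpace)
  exact ⟨((sd hF hfin).symm.toHomotopyEquiv).trans e⟩

end CT
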